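import Pool.Agent.PD.Perm

/-! Module MATH: minima of strips and completeness of the moves of the algorithm. -/

namespace Pool.Agent.PD

open PData

section math
variable {p : PData} {X Y a b h w m q : ℕ}

theorem exists_isMinX (p : PData) (a Y₁ Y₂ : ℕ) : ∃ m, p.IsMinX a Y₁ Y₂ m := by
  classical
  by_cases hex : ∃ x, a < x ∧ x ≤ p.n ∧ Y₁ < p.y x ∧ p.y x ≤ Y₂
  · refine ⟨Nat.find hex, fun x h1 h2 h3 h4 => Nat.find_min' hex ⟨h1, h2, h3, h4⟩, Or.inr ?_⟩
    exact Nat.find_spec hex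
  · exact ⟨p.n + 1, fun x h1 h2 h3 h4 => absurd ⟨x, h1, h2, h3, h4⟩ hex, Or.inl rfl⟩

/-- minima of vertical strips are minima of horizontal strips of the exchanged permutation -/
theorem isMinY_iff_swap {b X₁ X₂ m : ℕ} : p.IsMinY b X₁ X₂ m ↔ p.swap.IsMinX b X₁ X₂ m := by
  constructor
  · rintro ⟨h1, h2⟩
    refine ⟨fun v hb hn hX1 hX2 => ?_, h2⟩
    simp only [swap_n, swap_y] at hn hX1 hX2
    have hv : p.y (p.xx v) = v := p.y_xx v (by omega) hn
    have := h1 (p.xx v) hX1 hX2 (by rw [hv]; exact hb)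
    rwa [hv] at this
  · rintro ⟨h1, h2⟩
    refine ⟨fun x hX1 hX2 hb => ?_, h2⟩
    have hx : 1 ≤ x ∧ x ≤ p.n := p.pos_of_y_pos (by omega)
    have hxx : p.xx (p.y x) = x := p.xx_y x hx.1 hx.2
    exact h1 (p.y x) hb (p.y_le x) (by rw [swap_y, hxx]; exact hX1)
      (by rw [swap_y, hxx]; exact hX2)

theorem exists_isMinY (p : PData) (b X₁ X₂ : ℕ) : ∃ m, p.IsMinY b X₁ X₂ m := by
  obtain ⟨m, hm⟩ := exists_isMinX p.swap b X₁ X₂
  exact ⟨m, isMinY_iff_swap.2 hm⟩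

theorem isMinX_unique {a Y₁ Y₂ m m' : ℕ} (h : p.IsMinX a Y₁ Y₂ m) (h' : p.IsMinX a Y₁ Y₂ m') :
    m = m' := by
  have key : ∀ {k l : ℕ}, p.IsMinX a Y₁ Y₂ k → p.IsMinX a Y₁ Y₂ l → k ≤ l := by
    intro k l hk hl
    rcases hl.2 with hl2 | ⟨h1, h2, h3, h4⟩
    · rcases hk.2 with hk2 | ⟨_, h2, _, _⟩ <;> omega
    · exact hk.1 l h1 h2 h3 h4
  exact le_antisymm (key h h') (key h' h)

theorem isMinY_unique {b X₁ X₂ m m' : ℕ} (h : p.IsMinY b X₁ X₂ m) (h' : p.IsMinY b X₁ X₂ m') :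
    m = m' :=
  isMinX_unique (isMinY_iff_swap.1 h) (isMinY_iff_swap.1 h')

theorem isMinX_join {a Y₁ Y₂ Y₃ m m' : ℕ} (h : p.IsMinX a Y₁ Y₂ m) (h' : p.IsMinX a Y₂ Y₃ m')
    (h1 : Y₁ ≤ Y₂) (h2 : Y₂ ≤ Y₃) : p.IsMinX a Y₁ Y₃ (min m m') := by
  refine ⟨fun x ha hn hY1 hY3 => ?_, ?_⟩
  · rcases Nat.lt_or_ge Y₂ (p.y x) with hc | hc
    · exact (min_le_right _ _).trans (h'.1 x ha hn hc hY3)
    · exact (min_le_left _ _).trans (h.1 x ha hn hY1 hc)
  · rcases le_total m m' with hc | hc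
    · rw [min_eq_left hc]
      rcases h.2 with h3 | ⟨h3, h4, h5, h6⟩
      · exact Or.inl h3
      · exact Or.inr ⟨h3, h4, h5, h6.trans h2⟩
    · rw [min_eq_right hc]
      rcases h'.2 with h3 | ⟨h3, h4, h5, h6⟩
      · exact Or.inl h3
      · exact Or.inr ⟨h3, h4, lt_of_le_of_lt h1 h5, h6⟩

theorem isMinY_join {b X₁ X₂ X₃ m m' : ℕ} (h : p.IsMinY b X₁ X₂ m) (h' : p.IsMinY b X₂ X₃ m')
    (h1 : X₁ ≤ X₂) (h2 : X₂ ≤ X₃) : p.IsMinY b X₁ X₃ (min m m') :=
  isMinY_iff_swap.2 (isMinX_join (isMinY_iff_swap.1 h) (isMinY_iff_swap.1 h') h1 h2)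

/-- completeness of the moves of cost 1 -/
theorem math_C (ha : X ≤ a) (hb : Y ≤ b) (hq : p.MinPt X Y q) (haq : a < q) (hbq : b < p.y q) :
    (∀ x, X < x → x ≤ a → p.y x ≤ b → p.y x ≤ Y) ∧ p.MinPt a b q ∧
      ∀ h w, p.GoodSt a b X Y h w → p.y q < h ∧ q < w := by
  obtain ⟨hXq, hqn, hYq, hmin⟩ := hq
  refine ⟨fun x h1 h2 h3 => ?_, ⟨haq, hqn, hbq, fun x h1 h2 h3 => ?_⟩, fun h w hg => ⟨?_, ?_⟩⟩
  · by_contra hc
    have := hmin x h1 (by omega) (by omega)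
    omega
  · exact hmin x (by omega) h2 (by omega)
  · rcases hg.hh.2 with h1 | ⟨h1, h2, h3, h4⟩
    · have := p.y_le q
      omega
    · have hh : p.y (p.xx h) = h := p.y_xx h (by omega) h2
      have := hmin (p.xx h) h3 (by omega) (by omega)
      omega
  · rcases hg.ww.2 with h1 | ⟨h1, h2, h3, h4⟩
    · omega
    · by_contra hc
      rcases Nat.lt_or_ge w q with h5 | h5
      · have := hmin w (by omega) h5 h3
        omega
      · have : w = q := by omega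
        rw [this] at h4
        omega

/-- completeness of the moves of cost 2 -/
theorem math_P {x₁ x₂ : ℕ} (ha : X ≤ a) (hb : Y ≤ b) (hp : p.PairPt X Y x₁ x₂)
    (h1 : p.u a < p.y x₁) (h2 : p.r b < x₂) :
    (∀ x, X < x → x ≤ a → p.y x ≤ b → p.y x ≤ Y) ∧
      ∀ h w, p.GoodSt a b X Y h w →
        (h ≤ p.n ∧ ∃ m, m ≤ p.n ∧ p.IsMinX a Y (h - 1) m ∧ x₂ ≤ p.r h ∧ p.y x₁ ≤ p.u m) ∨
        (w ≤ p.n ∧ ∃ m, m ≤ p.n ∧ p.IsMinY b X (w - 1) m ∧ x₂ ≤ p.r m ∧ p.y x₁ ≤ p.u w) ∨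
        (∃ q m, p.MinPt a b q ∧ q < w ∧ p.y q < m ∧ p.IsMinY b a (q - 1) m ∧ m < h ∧
          x₂ ≤ p.r m ∧ p.y x₁ ≤ p.u q) := by
  obtain ⟨hX1, h12, hn2, hY2, hy21, hpmin⟩ := hp
  have hax1 : a < x₁ := by
    by_contra hc
    have := p.y_le_u (x := x₁) (X := a) (by omega)
    omega
  have hby2 : b < p.y x₂ := by
    by_contra hc
    have := p.le_r (x := x₂) (Y := b) (by omega) hn2 (by omega)
    omega
  refine ⟨fun x h3 h4 h5 => ?_, fun h w hg => ?_⟩
  · by_contra hc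
    have := hpmin x h3 (by omega) (by omega)
    omega
  -- the leftmost low point
  obtain ⟨m₀, hm₀⟩ := exists_isMinX p X Y (p.y x₂)
  have hm2 : m₀ ≤ x₂ := hm₀.1 x₂ (by omega) hn2 hY2 le_rfl
  obtain ⟨hXm, hmn, hYm, hym⟩ : X < m₀ ∧ m₀ ≤ p.n ∧ Y < p.y m₀ ∧ p.y m₀ ≤ p.y x₂ := by
    rcases hm₀.2 with h3 | h3
    · omega
    · exact h3
  have h1m : x₁ < m₀ := by
    rcases lt_trichotomy m₀ x₁ with h3 | h3 | h3
    · exfalso
      have h4 := hpmin m₀ hXm h3 hYm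
      have h5 : m₀ = x₂ := p.y_inj (by omega) hmn (by omega) hn2 (by omega)
      omega
    · exfalso
      rw [h3] at hym
      omega
    · exact h3
  -- the lowest point to the left of it
  obtain ⟨g, hg0⟩ := exists_isMinY p Y X (m₀ - 1)
  have hg1 : g ≤ p.y x₁ := hg0.1 x₁ (by omega) (by omega) (by omega)
  have hy1n := p.y_le x₁
  obtain ⟨hYg, hgn, hXs, hsm⟩ : Y < g ∧ g ≤ p.n ∧ X < p.xx g ∧ p.xx g ≤ m₀ - 1 := by
    rcases hg0.2 with h3 | h3
    · omega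
    · exact h3
  have hyg : p.y (p.xx g) = g := p.y_xx g (by omega) hgn
  have h2g : p.y x₂ < g := by
    by_contra hc
    have := hm₀.1 (p.xx g) hXs (p.xx_le g) (by omega) (by omega)
    omega
  have hempty : ∀ x, X < x → x < m₀ → Y < p.y x → g ≤ p.y x :=
    fun x h3 h4 h5 => hg0.1 x h3 (by omega) h5
  have hrg : x₂ ≤ p.r g := p.le_r (by omega) hn2 (by omega)
  have hum : p.y x₁ ≤ p.u m₀ := p.y_le_u (by omega)
  -- `g ≤ h`
  have hgh : g ≤ h := by
    rcases hg.hh.2 with h3 | ⟨h3, h4, h5, h6⟩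
    · omega
    · have hh : p.y (p.xx h) = h := p.y_xx h (by omega) h4
      have := hempty (p.xx h) h5 (by omega) (by omega)
      omega
  rcases Nat.lt_or_ge a (p.xx g) with hsa | hsa
  · have hgh' : g < h := by
      rcases hg.hh.2 with h3 | ⟨h3, h4, h5, h6⟩
      · omega
      · rcases Nat.lt_or_ge g h with h7 | h7
        · exact h7
        · exfalso
          have h8 : g = h := by omega
          rw [h8] at hsa
          omega
    rcases Nat.lt_or_ge b (p.y m₀) with hbm | hbm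
    · -- case 3
      refine Or.inr (Or.inr ⟨m₀, g, ⟨by omega, hmn, hbm, fun x h3 h4 h5 => ?_⟩, ?_, by omega,
        ⟨fun x h3 h4 h5 => hempty x (by omega) (by omega) (by omega),
          Or.inr ⟨by omega, hgn, hsa, hsm⟩⟩, hgh', hrg, hum⟩)
      · by_contra hc
        have := hm₀.1 x (by omega) (by omega) (by omega) (by omega)
        omega
      · rcases hg.ww.2 with h3 | ⟨h3, h4, h5, h6⟩
        · omega
        · have h7 := hm₀.1 w (by omega) h4 h5 (by omega)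
          rcases Nat.lt_or_ge m₀ w with h8 | h8
          · exact h8
          · exfalso
            have h9 : w = m₀ := by omega
            rw [h9] at h6
            omega
    · -- case 2
      have hwm : w ≤ m₀ := hg.ww.1 m₀ (by omega) hmn hYm hbm
      have hmw : m₀ ≤ w := by
        rcases hg.ww.2 with h3 | ⟨h3, h4, h5, h6⟩
        · omega
        · exact hm₀.1 w (by omega) h4 h5 (by omega)
      have hw : w = m₀ := le_antisymm hwm hmw
      subst hw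
      refine Or.inr (Or.inl ⟨hmn, g, hgn, ⟨fun x h3 h4 h5 => hempty x h3 (by omega) (by omega),
        Or.inr ⟨by omega, hgn, hXs, hsm⟩⟩, hrg, hum⟩)
  · -- case 1
    have hhg : h ≤ g := by
      have := hg.hh.1 (p.xx g) hXs hsa (by omega)
      omega
    have hh : h = g := le_antisymm hhg hgh
    subst hh
    refine Or.inl ⟨hgn, m₀, hmn, ⟨fun x h3 h4 h5 h6 => ?_,
      Or.inr ⟨by omega, hmn, hYm, by omega⟩⟩, hrg, hum⟩
    by_contra hc
    have := hempty x (by omega) (by omega) h5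
    omega

end math

end Pool.Agent.PD
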