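import Pool.Agent.PD.Inv
import Pool.Agent.PD.MATH

/-! Module ARR: the auxiliary arrays `W`, `ax`, `ay` of a level. -/

namespace Pool.Agent.PD

open PData

section arr
variable {p : PData} {s : S}

/-- nothing in an empty strip -/
theorem isMinX_empty (p : PData) (a c : ℕ) : p.IsMinX a c c (p.n + 1) :=
  ⟨fun x _ _ h3 h4 => by omega, Or.inl rfl⟩

/-- nothing in an empty strip -/
theorem isMinY_empty (p : PData) (b c : ℕ) : p.IsMinY b c c (p.n + 1) :=
  ⟨fun x h1 h2 _ => by omega, Or.inl rfl⟩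

/-- a strip of one ordinate whose point is to the left -/
theorem isMinX_one_left {a v : ℕ} (h : ¬ a < p.xx v) : p.IsMinX a (v - 1) v (p.n + 1) := by
  refine ⟨fun x h1 h2 h3 h4 => ?_, Or.inl rfl⟩
  exfalso
  have hy : p.y x = v := by omega
  have := p.xx_y x (by omega) h2
  rw [hy] at this
  omega

/-- a strip of one ordinate whose point is to the right -/
theorem isMinX_one_right {a v : ℕ} (hv : 1 ≤ v) (hn : v ≤ p.n) (h : a < p.xx v) :
    p.IsMinX a (v - 1) v (p.xx v) := by
  have h5 := p.y_xx v hv hn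
  refine ⟨fun x h1 h2 h3 h4 => ?_, Or.inr ⟨h, p.xx_le v, by omega, by omega⟩⟩
  have hy : p.y x = v := by omega
  have := p.xx_y x (by omega) h2
  rw [hy] at this
  omega

/-- a strip of one abscissa whose point is below -/
theorem isMinY_one_left {b x : ℕ} (h : ¬ b < p.y x) : p.IsMinY b (x - 1) x (p.n + 1) :=
  isMinY_iff_swap.2 (isMinX_one_left (p := p.swap) h)

/-- a strip of one abscissa whose point is above -/
theorem isMinY_one_right {b x : ℕ} (hx : 1 ≤ x) (hn : x ≤ p.n) (h : b < p.y x) :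
    p.IsMinY b (x - 1) x (p.y x) :=
  isMinY_iff_swap.2 (isMinX_one_right (p := p.swap) hx hn h)

theorem isMinX_le {a Y₁ Y₂ m : ℕ} (h : p.IsMinX a Y₁ Y₂ m) : m ≤ p.n + 1 := by
  rcases h.2 with h | h <;> omega

theorem isMinY_le {b X₁ X₂ m : ℕ} (h : p.IsMinY b X₁ X₂ m) : m ≤ p.n + 1 := by
  rcases h.2 with h | h <;> omega

/-- one step of the construction of `W` -/
theorem W_step {a v b m : ℕ} (hv : 1 ≤ v) (hvb : v ≤ b) (hn : v ≤ p.n)
    (h : p.IsMinX a v b m) :
    p.IsMinX a (v - 1) b (if a < p.xx v ∧ p.xx v < m then p.xx v else m) := by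
  by_cases h1 : a < p.xx v
  · have := isMinX_join (isMinX_one_right hv hn h1) h (by omega) hvb
    by_cases h2 : p.xx v < m
    · rw [if_pos ⟨h1, h2⟩]; rwa [min_eq_left h2.le] at this
    · rw [if_neg (fun h => h2 h.2)]; rwa [min_eq_right (by omega)] at this
  · have := isMinX_join (isMinX_one_left h1) h (by omega) hvb
    rw [if_neg (fun h => h1 h.1)]
    rwa [min_eq_right (isMinX_le h)] at this

/-- one step of the construction of `ax` -/
theorem AX_step {a v b m : ℕ} (hvb : b ≤ v) (hn : v + 1 ≤ p.n)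
    (h : p.IsMinX a b v m) :
    p.IsMinX a b (v + 1) (if a < p.xx (v + 1) ∧ p.xx (v + 1) < m then p.xx (v + 1) else m) := by
  by_cases h1 : a < p.xx (v + 1)
  · have h3 := isMinX_one_right (p := p) (v := v + 1) (by omega) hn h1
    have := isMinX_join h h3 hvb (by omega)
    by_cases h2 : p.xx (v + 1) < m
    · rw [if_pos ⟨h1, h2⟩]; rwa [min_eq_right h2.le] at this
    · rw [if_neg (fun h => h2 h.2)]; rwa [min_eq_left (by omega)] at this
  · have h3 := isMinX_one_left (p := p) (v := v + 1) h1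
    have := isMinX_join h h3 hvb (by omega)
    rw [if_neg (fun h => h1 h.1)]
    rwa [min_eq_left (isMinX_le h)] at this

/-- one step of the construction of `ay` -/
theorem AY_step {a x b m : ℕ} (hax : a ≤ x) (hn : x + 1 ≤ p.n)
    (h : p.IsMinY b a x m) :
    p.IsMinY b a (x + 1) (if b < p.y (x + 1) ∧ p.y (x + 1) < m then p.y (x + 1) else m) :=
  isMinY_iff_swap.2 (AX_step (p := p.swap) hax hn (isMinY_iff_swap.1 h))

theorem W_spec (hs : Static p s) (ha : s.v .a ≤ p.n) (hb : s.v .b ≤ p.n)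
    (h1 : s.v .b1 ≤ s.v .b) :
    Run p.n cW s (fun s' => (∀ v, s.v .b1 ≤ v → v ≤ s.v .b →
      p.IsMinX (s.v .a) v (s.v .b) (s'.m .W v)) ∧ s'.k = s.k + (s.v .b - s.v .b1)) := by
  rw [cW, run_blk_cons, run_sto, run_blk_cons, run_asg, run_blk_one]
  refine run_whl (I := fun s' => s.v .b1 ≤ s'.v .v ∧ s'.v .v ≤ s.v .b ∧
      (∀ v, s'.v .v ≤ v → v ≤ s.v .b → p.IsMinX (s.v .a) v (s.v .b) (s'.m .W v)) ∧
      s'.k = s.k + (s.v .b - s'.v .v)) (fun s' => s'.v .v) ?_ ?_ ?_
  · refine ⟨by simpa using h1, by simp, ?_, by simp⟩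
    intro v hv1 hv2
    have hv1' : s.v .b ≤ v := by simpa using hv1
    have : v = s.v .b := by omega
    subst this
    simp only [setv_m, setm_m_same, Expr.eval_var, hs.N1, Function.update_self]
    exact isMinX_empty p _ _
  · rintro s' hF ⟨hI1, hI2, hI3, hI4⟩ hc
    have hv_a : s'.v .a = s.v .a := by
      rw [hF.v .a (by decide)]; simp
    have hv_b1 : s'.v .b1 = s.v .b1 := by
      rw [hF.v .b1 (by decide)]; simp
    have hxx : s'.m .xx = p.xx := by
      rw [hF.m .xx (by decide)]; simp [hs.xx]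
    simp only [Expr.eval_var, hv_b1] at hc
    have hst := W_step (p := p) (a := s.v .a) (v := s'.v .v) (b := s.v .b) (m := s'.m .W (s'.v .v))
      (by omega) hI2 (by omega) (hI3 _ le_rfl hI2)
    have key : ∀ W'' : ℕ → ℕ, W'' (s'.v .v - 1) = (if s.v .a < p.xx (s'.v .v) ∧
        p.xx (s'.v .v) < s'.m .W (s'.v .v) then p.xx (s'.v .v) else s'.m .W (s'.v .v)) →
        (∀ j, j ≠ s'.v .v - 1 → W'' j = s'.m .W j) →
        ∀ v, s'.v .v - 1 ≤ v → v ≤ s.v .b → p.IsMinX (s.v .a) v (s.v .b) (W'' v) := by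
      intro W'' h2 h3 v hv1 hv2
      by_cases hv : v = s'.v .v - 1
      · subst hv; rw [h2]; exact hst
      · rw [h3 v hv]; exact hI3 v (by omega) hv2
    have hne : s'.v .v ≠ s'.v .v - 1 := by omega
    rw [run_blk_cons, run_sto, run_blk_cons, run_ite]
    simp only [Expr.eval_var, Expr.eval_pred, Expr.eval_arr, setm_v,
      setm_m_ne _ _ _ _ _ (show Arr.xx ≠ Arr.W by decide), hv_a, hxx]
    refine ⟨fun hA => ?_, fun hA => ?_⟩
    · rw [run_ite]
      simp only [Expr.eval_var, Expr.eval_arr, setm_v, setm_m_same,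
        setm_m_ne _ _ _ _ _ (show Arr.xx ≠ Arr.W by decide), hxx, Function.update_of_ne hne]
      refine ⟨fun hB => ?_, fun hB => ?_⟩
      · rw [run_sto, run_blk_one, run_asg]
        simp only [Expr.eval_var, Expr.eval_pred, Expr.eval_arr, setm_v, setm_m_same,
          setm_m_ne _ _ _ _ _ (show Arr.xx ≠ Arr.W by decide), hxx, tick_v, tick_m, tick_k,
          setv_v_same, setv_m, setv_k, setm_k]
        refine ⟨⟨by omega, by omega, key _ ?_ ?_, by omega⟩, by omega⟩
        · rw [Function.update_self, if_pos ⟨hA, hB⟩]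
        · intro j hj; rw [Function.update_of_ne hj, Function.update_of_ne hj]
      · rw [run_skip, run_blk_one, run_asg]
        simp only [Expr.eval_var, Expr.eval_pred, setm_v, setm_m_same, tick_v, tick_m, tick_k,
          setv_v_same, setv_m, setv_k, setm_k]
        refine ⟨⟨by omega, by omega, key _ ?_ ?_, by omega⟩, by omega⟩
        · rw [Function.update_self, if_neg (fun h => hB h.2)]
        · intro j hj; rw [Function.update_of_ne hj]
    · rw [run_skip, run_blk_one, run_asg]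
      simp only [Expr.eval_var, Expr.eval_pred, setm_v, setm_m_same, tick_v, tick_m, tick_k,
        setv_v_same, setv_m, setv_k, setm_k]
      refine ⟨⟨by omega, by omega, key _ ?_ ?_, by omega⟩, by omega⟩
      · rw [Function.update_self, if_neg (fun h => hA h.1)]
      · intro j hj; rw [Function.update_of_ne hj]
  · rintro s' hF ⟨hI1, hI2, hI3, hI4⟩ hc
    have hv_b1 : s'.v .b1 = s.v .b1 := by
      rw [hF.v .b1 (by decide)]; simp
    simp only [Expr.eval_var, hv_b1] at hc
    have : s'.v .v = s.v .b1 := by omega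
    rw [this] at hI3 hI4
    exact ⟨hI3, hI4⟩

theorem AX_spec (hs : Static p s) (ha : s.v .a ≤ p.n) (hb : s.v .b ≤ p.u (s.v .a)) :
    Run p.n cAX s (fun s' => (∀ v, s.v .b ≤ v → v ≤ p.u (s.v .a) →
      p.IsMinX (s.v .a) (s.v .b) v (s'.m .ax v)) ∧
      s'.k = s.k + (p.u (s.v .a) - s.v .b)) := by
  have hun := p.u_le_n (s.v .a)
  rw [cAX, run_blk_cons, run_sto, run_blk_cons, run_asg, run_blk_one]
  refine run_whl (I := fun s' => s.v .b ≤ s'.v .v ∧ s'.v .v ≤ p.u (s.v .a) ∧
      (∀ v, s.v .b ≤ v → v ≤ s'.v .v → p.IsMinX (s.v .a) (s.v .b) v (s'.m .ax v)) ∧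
      s'.k = s.k + (s'.v .v - s.v .b)) (fun s' => p.u (s.v .a) - s'.v .v) ?_ ?_ ?_
  · refine ⟨by simp, by simpa using hb, ?_, by simp⟩
    intro v hv1 hv2
    have hv1' : v ≤ s.v .b := by simpa using hv2
    have : v = s.v .b := by omega
    subst this
    simp only [setv_m, setm_m_same, Expr.eval_var, hs.N1, Function.update_self]
    exact isMinX_empty p _ _
  · rintro s' hF ⟨hI1, hI2, hI3, hI4⟩ hc
    have hv_a : s'.v .a = s.v .a := by
      rw [hF.v .a (by decide)]; simp
    have hu : s'.m .u = s.m .u := by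
      rw [hF.m .u (by decide)]; simp
    have hxx : s'.m .xx = p.xx := by
      rw [hF.m .xx (by decide)]; simp [hs.xx]
    simp only [Expr.eval_var, Expr.eval_arr, hu, hv_a, hs.u _ ha] at hc
    have hst := AX_step (p := p) (a := s.v .a) (v := s'.v .v) (b := s.v .b)
      (m := s'.m .ax (s'.v .v)) hI1 (by omega) (hI3 _ hI1 le_rfl)
    have key : ∀ W'' : ℕ → ℕ, W'' (s'.v .v + 1) = (if s.v .a < p.xx (s'.v .v + 1) ∧
        p.xx (s'.v .v + 1) < s'.m .ax (s'.v .v) then p.xx (s'.v .v + 1)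
          else s'.m .ax (s'.v .v)) →
        (∀ j, j ≠ s'.v .v + 1 → W'' j = s'.m .ax j) →
        ∀ v, s.v .b ≤ v → v ≤ s'.v .v + 1 → p.IsMinX (s.v .a) (s.v .b) v (W'' v) := by
      intro W'' h2 h3 v hv1 hv2
      by_cases hv : v = s'.v .v + 1
      · subst hv; rw [h2]; exact hst
      · rw [h3 v hv]; exact hI3 v hv1 (by omega)
    rw [run_blk_cons, run_asg, run_blk_cons, run_sto, run_blk_one, run_ite]
    simp only [Expr.eval_var, Expr.eval_pred, Expr.eval_succ, Expr.eval_arr, setm_v, setv_m,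
      setv_v_same, setv_v_ne _ _ _ _ (show Var.a ≠ Var.v by decide), Nat.add_sub_cancel,
      setm_m_ne _ _ _ _ _ (show Arr.xx ≠ Arr.ax by decide), hv_a, hxx]
    refine ⟨fun hA => ?_, fun hA => ?_⟩
    · rw [run_ite]
      simp only [Expr.eval_var, Expr.eval_arr, setm_v, setm_m_same, setv_m, setv_v_same,
        setm_m_ne _ _ _ _ _ (show Arr.xx ≠ Arr.ax by decide), hxx, Function.update_self]
      refine ⟨fun hB => ?_, fun hB => ?_⟩
      · rw [run_sto]
        simp only [Expr.eval_var, Expr.eval_arr, setm_v, setm_m_same,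
          setm_m_ne _ _ _ _ _ (show Arr.xx ≠ Arr.ax by decide), hxx, tick_v, tick_m, tick_k,
          setv_v_same, setv_m, setv_k, setm_k]
        refine ⟨⟨by omega, by omega, key _ ?_ ?_, by omega⟩, by omega⟩
        · rw [Function.update_self, if_pos ⟨hA, hB⟩]
        · intro j hj; rw [Function.update_of_ne hj, Function.update_of_ne hj]
      · rw [run_skip]
        simp only [setm_v, setm_m_same, tick_v, tick_m, tick_k,
          setv_v_same, setv_m, setv_k, setm_k]
        refine ⟨⟨by omega, by omega, key _ ?_ ?_, by omega⟩, by omega⟩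
        · rw [Function.update_self, if_neg (fun h => hB h.2)]
        · intro j hj; rw [Function.update_of_ne hj]
    · rw [run_skip]
      simp only [setm_v, setm_m_same, tick_v, tick_m, tick_k,
        setv_v_same, setv_m, setv_k, setm_k]
      refine ⟨⟨by omega, by omega, key _ ?_ ?_, by omega⟩, by omega⟩
      · rw [Function.update_self, if_neg (fun h => hA h.1)]
      · intro j hj; rw [Function.update_of_ne hj]
  · rintro s' hF ⟨hI1, hI2, hI3, hI4⟩ hc
    have hv_a : s'.v .a = s.v .a := by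
      rw [hF.v .a (by decide)]; simp
    have hu : s'.m .u = s.m .u := by
      rw [hF.m .u (by decide)]; simp
    simp only [Expr.eval_var, Expr.eval_arr, hu, hv_a, hs.u _ ha] at hc
    have : s'.v .v = p.u (s.v .a) := by omega
    rw [this] at hI3 hI4
    exact ⟨hI3, hI4⟩

theorem AYext_spec (hs : Static p s) (hE : s.v .Ex ≤ p.n) (ha : s.v .a ≤ s.v .x)
    (h : ∀ x, s.v .a ≤ x → x ≤ s.v .x → p.IsMinY (s.v .b) (s.v .a) x (s.m .ay x)) :
    Run p.n cAYext s (fun s' => (∀ x, s.v .a ≤ x → x ≤ max (s.v .x) (s.v .Ex) →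
      p.IsMinY (s.v .b) (s.v .a) x (s'.m .ay x)) ∧
      s'.k = s.k + (s.v .Ex - s.v .x)) := by
  rw [cAYext]
  refine run_whl (I := fun s' => s.v .x ≤ s'.v .x ∧ s'.v .x ≤ max (s.v .x) (s.v .Ex) ∧
      (∀ x, s.v .a ≤ x → x ≤ s'.v .x → p.IsMinY (s.v .b) (s.v .a) x (s'.m .ay x)) ∧
      s'.k = s.k + (s'.v .x - s.v .x)) (fun s' => s.v .Ex - s'.v .x) ?_ ?_ ?_
  · exact ⟨le_rfl, le_max_left _ _, h, by simp⟩
  · rintro s' hF ⟨hI1, hI2, hI3, hI4⟩ hc
    have hv_b : s'.v .b = s.v .b := hF.v .b (by decide)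
    have hv_E : s'.v .Ex = s.v .Ex := hF.v .Ex (by decide)
    have hy : s'.m .y = p.y := by rw [hF.m .y (by decide), hs.y]
    simp only [Expr.eval_var, hv_E] at hc
    have hst := AY_step (p := p) (a := s.v .a) (x := s'.v .x) (b := s.v .b)
      (m := s'.m .ay (s'.v .x)) (by omega) (by omega) (hI3 _ (by omega) le_rfl)
    have key : ∀ W'' : ℕ → ℕ, W'' (s'.v .x + 1) = (if s.v .b < p.y (s'.v .x + 1) ∧
        p.y (s'.v .x + 1) < s'.m .ay (s'.v .x) then p.y (s'.v .x + 1)
          else s'.m .ay (s'.v .x)) →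
        (∀ j, j ≠ s'.v .x + 1 → W'' j = s'.m .ay j) →
        ∀ x, s.v .a ≤ x → x ≤ s'.v .x + 1 → p.IsMinY (s.v .b) (s.v .a) x (W'' x) := by
      intro W'' h2 h3 v hv1 hv2
      by_cases hv : v = s'.v .x + 1
      · subst hv; rw [h2]; exact hst
      · rw [h3 v hv]; exact hI3 v hv1 (by omega)
    have hmax : s'.v .x + 1 ≤ max (s.v .x) (s.v .Ex) := le_max_of_le_right (by omega)
    rw [run_blk_cons, run_asg, run_blk_cons, run_sto, run_blk_one, run_ite]
    simp only [Expr.eval_var, Expr.eval_pred, Expr.eval_succ, Expr.eval_arr, setm_v, setv_m,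
      setv_v_same, setv_v_ne _ _ _ _ (show Var.b ≠ Var.x by decide), Nat.add_sub_cancel,
      setm_m_ne _ _ _ _ _ (show Arr.y ≠ Arr.ay by decide), hv_b, hy]
    refine ⟨fun hA => ?_, fun hA => ?_⟩
    · rw [run_ite]
      simp only [Expr.eval_var, Expr.eval_arr, setm_v, setm_m_same, setv_m, setv_v_same,
        setm_m_ne _ _ _ _ _ (show Arr.y ≠ Arr.ay by decide), hy, Function.update_self]
      refine ⟨fun hB => ?_, fun hB => ?_⟩
      · rw [run_sto]
        simp only [Expr.eval_var, Expr.eval_arr, setm_v, setm_m_same,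
          setm_m_ne _ _ _ _ _ (show Arr.y ≠ Arr.ay by decide), hy, tick_v, tick_m, tick_k,
          setv_v_same, setv_m, setv_k, setm_k]
        refine ⟨⟨by omega, hmax, key _ ?_ ?_, by omega⟩, by omega⟩
        · rw [Function.update_self, if_pos ⟨hA, hB⟩]
        · intro j hj; rw [Function.update_of_ne hj, Function.update_of_ne hj]
      · rw [run_skip]
        simp only [setm_v, setm_m_same, tick_v, tick_m, tick_k,
          setv_v_same, setv_m, setv_k, setm_k]
        refine ⟨⟨by omega, hmax, key _ ?_ ?_, by omega⟩, by omega⟩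
        · rw [Function.update_self, if_neg (fun h => hB h.2)]
        · intro j hj; rw [Function.update_of_ne hj]
    · rw [run_skip]
      simp only [setm_v, setm_m_same, tick_v, tick_m, tick_k,
        setv_v_same, setv_m, setv_k, setm_k]
      refine ⟨⟨by omega, hmax, key _ ?_ ?_, by omega⟩, by omega⟩
      · rw [Function.update_self, if_neg (fun h => hA h.1)]
      · intro j hj; rw [Function.update_of_ne hj]
  · rintro s' hF ⟨hI1, hI2, hI3, hI4⟩ hc
    have hv_E : s'.v .Ex = s.v .Ex := hF.v .Ex (by decide)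
    simp only [Expr.eval_var, hv_E] at hc
    have hm : max (s.v .x) (s.v .Ex) ≤ s'.v .x := max_le hI1 (by omega)
    refine ⟨fun x h1 h2 => hI3 x h1 (h2.trans hm), ?_⟩
    rcases le_total (s.v .x) (s.v .Ex) with h3 | h3
    · rw [max_eq_right h3] at hI2; omega
    · rw [max_eq_left h3] at hI2; omega

theorem AY_spec (hs : Static p s) (hb : s.v .b ≤ p.n) (ha : s.v .a ≤ p.r (s.v .b)) :
    Run p.n cAY s (fun s' => (∀ x, s.v .a ≤ x → x ≤ p.r (s.v .b) →
      p.IsMinY (s.v .b) (s.v .a) x (s'.m .ay x)) ∧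
      s'.k = s.k + (p.r (s.v .b) - s.v .a)) := by
  rw [cAY, run_blk_cons, run_sto, run_blk_cons, run_asg, run_blk_cons, run_asg, run_blk_one]
  simp only [Expr.eval_var, Expr.eval_arr, setm_v, setv_m,
    setv_v_ne _ _ _ _ (show Var.b ≠ Var.x by decide),
    setm_m_ne _ _ _ _ _ (show Arr.r ≠ Arr.ay by decide), hs.r _ hb, hs.N1]
  have hs' : Static p (((s.setm .ay (s.v .a) (p.n + 1)).setv .x (s.v .a)).setv .Ex
      (p.r (s.v .b))) := by
    refine ⟨by simp [hs.n], by simp [hs.N1], by simp [hs.y], by simp [hs.xx], fun X hX => ?_,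
      fun Y hY => ?_, fun X hX => ?_, by simp [hs.out], by simp [hs.SY0]⟩
    · simp [hs.u X hX]
    · simp [hs.r Y hY]
    · simp [hs.sm X hX]
  refine (AYext_spec hs' (by simpa using p.r_le_n _) (by simp) ?_).mono ?_
  · intro x h1 h2
    have h3 : s.v .a ≤ x := by simpa using h1
    have h4 : x ≤ s.v .a := by simpa using h2
    have : x = s.v .a := by omega
    subst this
    simp only [setv_m, setm_m_same, Function.update_self, setm_v, setv_v_ne _ _ _ _
      (show Var.b ≠ Var.Ex by decide), setv_v_ne _ _ _ _ (show Var.b ≠ Var.x by decide),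
      setv_v_ne _ _ _ _ (show Var.a ≠ Var.Ex by decide),
      setv_v_ne _ _ _ _ (show Var.a ≠ Var.x by decide)]
    exact isMinY_empty p _ _
  · rintro s' ⟨h1, h2⟩
    simp only [setv_m, setm_m_same, Function.update_self, setm_v, setv_v_ne _ _ _ _
      (show Var.b ≠ Var.Ex by decide), setv_v_ne _ _ _ _ (show Var.b ≠ Var.x by decide),
      setv_v_ne _ _ _ _ (show Var.a ≠ Var.Ex by decide),
      setv_v_ne _ _ _ _ (show Var.a ≠ Var.x by decide), setv_v_same,
      setv_v_ne _ _ _ _ (show Var.x ≠ Var.Ex by decide), setv_k, setm_k] at h1 h2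
    exact ⟨fun x h3 h4 => h1 x h3 (le_max_of_le_right h4), h2⟩

end arr

end Pool.Agent.PD
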