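import Pool.Agent.PD.Perm

/-! Closed sets of points are reached by the moves of the algorithm. -/

namespace Pool.Agent.PD

open PData

theorem dom_of_closed (p : PData) (D : Finset ℕ) (hD : ∀ d ∈ D, 1 ≤ d ∧ d ≤ p.n)
    (hcl : ∀ x, p.Und D x → ∀ d ∈ D, d < x ∧ p.y d < p.y x) :
    p.Dom D.card (D.sup id) (D.sup p.y) := by
  classical
  induction D using Finset.strongInduction with
  | H D ih =>
  rcases D.eq_empty_or_nonempty with rfl | hne
  · exact .zero
  obtain ⟨px, hpx, hsx⟩ := Finset.exists_mem_eq_sup D hne id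
  obtain ⟨py, hpy, hsy⟩ := Finset.exists_mem_eq_sup D hne p.y
  have hx : ∀ d ∈ D, d ≤ px := fun d hd => by
    have := Finset.le_sup (f := id) hd
    rw [hsx] at this; exact this
  have hy : ∀ d ∈ D, p.y d ≤ p.y py := fun d hd => by
    have := Finset.le_sup (f := p.y) hd
    rw [hsy] at this; exact this
  rw [hsx, hsy, id]
  have inj : ∀ x x', (1 ≤ x ∧ x ≤ p.n) → (1 ≤ x' ∧ x' ≤ p.n) → x ≠ x' → p.y x ≠ p.y x' :=
    fun x x' h h' hne h2 => hne (p.y_inj h.1 h.2 h'.1 h'.2 h2)
  -- a point whose only possible dominators are removed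
  have hback : ∀ (R : Finset ℕ) x, R ⊆ D → p.Und (D \ R) x →
      (∀ d ∈ R, (x < d ∧ p.y x < p.y d) ∨ (d < x ∧ p.y d < p.y x)) → p.Und D x := by
    intro R x hR hu h
    refine ⟨hu.1, hu.2.1, fun d hd => ?_⟩
    by_cases hdR : d ∈ R
    · exact h d hdR
    · exact hu.2.2 d (Finset.mem_sdiff.2 ⟨hd, hdR⟩)
  -- the induction hypothesis for the set without `R`
  have hih : ∀ (R : Finset ℕ), R ⊆ D → R.Nonempty →
      (∀ x, p.Und (D \ R) x → ∀ d ∈ D \ R, d < x ∧ p.y d < p.y x) →
      p.Dom (D \ R).card ((D \ R).sup id) ((D \ R).sup p.y) := by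
    intro R hR hRn hc
    refine ih (D \ R) ?_ (fun d hd => hD d (Finset.mem_sdiff.1 hd).1) hc
    obtain ⟨r, hr⟩ := hRn
    exact Finset.ssubset_iff_subset_ne.2 ⟨Finset.sdiff_subset, fun he => by
      have h1 : r ∈ D \ R := by rw [he]; exact hR hr
      exact (Finset.mem_sdiff.1 h1).2 hr⟩
  have hcard1 : ∀ d ∈ D, D.card = (D \ {d}).card + 1 := by
    intro d hd
    rw [Finset.card_sdiff_of_subset (Finset.singleton_subset_iff.2 hd), Finset.card_singleton]
    have := Finset.card_pos.2 hne
    omega
  by_cases hpp : px = py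
  · -- one point is maximal in both coordinates
    subst hpp
    have hlt : ∀ d ∈ D \ {px}, d < px ∧ p.y d < p.y px := by
      intro d hd
      rw [Finset.mem_sdiff, Finset.mem_singleton] at hd
      have h1 := hx d hd.1
      have h2 := hy d hd.1
      have h3 := inj d px (hD d hd.1) (hD px hpx) hd.2
      omega
    have hd := hih {px} (Finset.singleton_subset_iff.2 hpx) (Finset.singleton_nonempty _) (by
      intro x hu d hd
      have h1 := hlt d hd
      have h2 := hu.2.2 d hd
      by_contra hc
      rw [not_and_or] at hc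
      have hxp : x < px ∧ p.y x < p.y px := by omega
      have h3 := hcl x (hback {px} x (Finset.singleton_subset_iff.2 hpx) hu (fun d' hd' => by
        rw [Finset.mem_singleton] at hd'
        rw [hd']; exact Or.inl hxp)) px hpx
      omega)
    rw [hcard1 px hpx]
    refine .moveC hd ⟨?_, (hD px hpx).2, ?_, ?_⟩
    · rw [Finset.sup_lt_iff (by rw [Nat.bot_eq_zero]; exact (hD px hpx).1)]
      exact fun d hd => (hlt d hd).1
    · rw [Finset.sup_lt_iff (by
        rw [Nat.bot_eq_zero]; exact (p.y_mem px (hD px hpx).1 (hD px hpx).2).1)]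
      exact fun d hd => (hlt d hd).2
    · intro x h1 h2 h3
      have hxn : 1 ≤ x ∧ x ≤ p.n := ⟨by omega, h2.le.trans (hD px hpx).2⟩
      by_contra hc
      have h4 := inj x px hxn (hD px hpx) (by omega)
      have hxp : x < px ∧ p.y x < p.y px := by omega
      have h3 := hcl x ⟨hxn.1, hxn.2, fun d hd => by
        by_cases hdp : d = px
        · rw [hdp]; exact Or.inl hxp
        · have hd' : d ∈ D \ {px} := by
            rw [Finset.mem_sdiff, Finset.mem_singleton]; exact ⟨hd, hdp⟩
          have h5 : d ≤ (D \ {px}).sup id := Finset.le_sup (f := id) hd'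
          have h6 : p.y d ≤ (D \ {px}).sup p.y := Finset.le_sup (f := p.y) hd'
          right; omega⟩ px hpx
      omega
  · have hlx : py < px := lt_of_le_of_ne (hx py hpy) (Ne.symm hpp)
    have hly : p.y px < p.y py :=
      lt_of_le_of_ne (hy px hpx) (inj px py (hD px hpx) (hD py hpy) hpp)
    by_cases hc1 : ∀ x, p.Und (D \ {px}) x → ∀ d ∈ D \ {px}, d < x ∧ p.y d < p.y x
    · have hd := hih {px} (Finset.singleton_subset_iff.2 hpx) (Finset.singleton_nonempty _) hc1
      rw [hcard1 px hpx]
      have hpy' : py ∈ D \ {px} := by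
        rw [Finset.mem_sdiff, Finset.mem_singleton]; exact ⟨hpy, fun h => hpp h.symm⟩
      refine .mono (.moveR hd) ?_ (Finset.le_sup (f := p.y) hpy')
      refine p.le_r (hD px hpx).1 (hD px hpx).2 ?_
      exact hly.le.trans (Finset.le_sup (f := p.y) hpy')
    by_cases hc2 : ∀ x, p.Und (D \ {py}) x → ∀ d ∈ D \ {py}, d < x ∧ p.y d < p.y x
    · have hd := hih {py} (Finset.singleton_subset_iff.2 hpy) (Finset.singleton_nonempty _) hc2
      rw [hcard1 py hpy]
      have hpx' : px ∈ D \ {py} := by
        rw [Finset.mem_sdiff, Finset.mem_singleton]; exact ⟨hpx, hpp⟩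
      refine .mono (.moveU hd) (Finset.le_sup (f := id) hpx') ?_
      exact p.y_le_u (hlx.le.trans (Finset.le_sup (f := id) hpx'))
    push Not at hc1 hc2
    obtain ⟨z1, hz1, d1, hd1, hzd1⟩ := hc1
    obtain ⟨z2, hz2, d2, hd2, hzd2⟩ := hc2
    have hd1' := Finset.mem_sdiff.1 hd1
    have hd2' := Finset.mem_sdiff.1 hd2
    -- `z1` is South West of `py` and North West of `px`
    have hZ1 : z1 < py ∧ p.y z1 < p.y py ∧ p.y px < p.y z1 := by
      have h1 : z1 < d1 ∧ p.y z1 < p.y d1 := by
        rcases hz1.2.2 d1 hd1 with h | h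
        · exact h
        · have := hzd1 h.1; omega
      have h2 := hx d1 hd1'.1
      have h3 := hy d1 hd1'.1
      have h4 : p.y px ≤ p.y z1 := by
        by_contra hc
        have h5 := hcl z1 (hback {px} z1 (Finset.singleton_subset_iff.2 hpx) hz1 (fun d' hd' => by
          rw [Finset.mem_singleton] at hd'
          rw [hd']; left; omega)) px hpx
        omega
      have h5 := inj px z1 (hD px hpx) ⟨hz1.1, hz1.2.1⟩ (by omega)
      have h6 := hz1.2.2 py (by
        rw [Finset.mem_sdiff, Finset.mem_singleton]; exact ⟨hpy, fun h => hpp h.symm⟩)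
      omega
    have hZ2 : z2 < px ∧ py < z2 ∧ p.y z2 < p.y px := by
      have h1 : z2 < d2 ∧ p.y z2 < p.y d2 := by
        rcases hz2.2.2 d2 hd2 with h | h
        · exact h
        · have := hzd2 h.1; omega
      have h2 := hx d2 hd2'.1
      have h3 := hy d2 hd2'.1
      have h4 : py ≤ z2 := by
        by_contra hc
        have h5 := hcl z2 (hback {py} z2 (Finset.singleton_subset_iff.2 hpy) hz2 (fun d' hd' => by
          rw [Finset.mem_singleton] at hd'
          rw [hd']; left; omega)) py hpy
        omega
      have h5 : py ≠ z2 := by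
        rintro rfl
        omega
      have h6 := hz2.2.2 px (by
        rw [Finset.mem_sdiff, Finset.mem_singleton]; exact ⟨hpx, hpp⟩)
      omega
    have hpxI : px ∈ D \ {py} := by
      rw [Finset.mem_sdiff, Finset.mem_singleton]; exact ⟨hpx, hpp⟩
    have hpyI : py ∈ D \ {px} := by
      rw [Finset.mem_sdiff, Finset.mem_singleton]; exact ⟨hpy, fun h => hpp h.symm⟩
    have hiff : ∀ d ∈ D, d ≠ px → d ≠ py → (py < d ↔ p.y px < p.y d) := by
      intro d hd hdx hdy
      have h1 := hz1.2.2 d (by rw [Finset.mem_sdiff, Finset.mem_singleton]; exact ⟨hd, hdx⟩)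
      have h2 := hz2.2.2 d (by rw [Finset.mem_sdiff, Finset.mem_singleton]; exact ⟨hd, hdy⟩)
      omega
    by_cases hin : ∃ d ∈ D, d ≠ px ∧ d ≠ py ∧ py < d
    · obtain ⟨d, hd, hdx, hdy, hdl⟩ := hin
      have hdl2 := (hiff d hd hdx hdy).1 hdl
      have h1 := hx d hd
      have h2 := hy d hd
      have h3 := inj d py (hD d hd) (hD py hpy) hdy
      have hpx' : px ∈ D \ {d} := by
        rw [Finset.mem_sdiff, Finset.mem_singleton]; exact ⟨hpx, fun h => hdx h.symm⟩
      have hpy' : py ∈ D \ {d} := by
        rw [Finset.mem_sdiff, Finset.mem_singleton]; exact ⟨hpy, fun h => hdy h.symm⟩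
      have hd' := hih {d} (Finset.singleton_subset_iff.2 hd) (Finset.singleton_nonempty _) (by
        intro x hu e he
        refine hcl x (hback {d} x (Finset.singleton_subset_iff.2 hd) hu (fun d' hd' => ?_)) e
          (Finset.mem_sdiff.1 he).1
        rw [Finset.mem_singleton] at hd'
        rw [hd']
        have h4 := hu.2.2 px hpx'
        have h5 := hu.2.2 py hpy'
        rcases eq_or_ne x d with rfl | hxd
        · omega
        · have h6 := inj x d ⟨hu.1, hu.2.1⟩ (hD d hd) hxd
          omega)
      rw [hcard1 d hd]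
      exact .mono (.succ hd') (Finset.le_sup (f := id) hpx') (Finset.le_sup (f := p.y) hpy')
    · push Not at hin
      have hout : ∀ d ∈ D \ {px, py}, d < py ∧ p.y d < p.y px := by
        intro d hd
        rw [Finset.mem_sdiff, Finset.mem_insert, Finset.mem_singleton, not_or] at hd
        have h1 := hin d hd.1 hd.2.1 hd.2.2
        have h2 := hiff d hd.1 hd.2.1 hd.2.2
        have h3 := inj d px (hD d hd.1) (hD px hpx) hd.2.1
        omega
      have hsub : ({px, py} : Finset ℕ) ⊆ D := by
        intro d hd
        rw [Finset.mem_insert, Finset.mem_singleton] at hd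
        rcases hd with rfl | rfl
        · exact hpx
        · exact hpy
      have hd := hih {px, py} hsub ⟨px, Finset.mem_insert_self _ _⟩ (by
        intro x hu d hd
        have h1 := hout d hd
        rcases hu.2.2 d hd with h2 | h2
        · have h3 := hcl x (hback {px, py} x hsub hu (fun d' hd' => by
            rw [Finset.mem_insert, Finset.mem_singleton] at hd'
            left
            rcases hd' with rfl | rfl <;> omega)) px hpx
          omega
        · exact h2)
      have hcard : D.card = (D \ {px, py}).card + 2 := by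
        have h1 := Finset.card_sdiff_of_subset hsub
        have h2 := Finset.card_le_card hsub
        rw [Finset.card_pair hpp] at h1 h2
        omega
      rw [hcard]
      refine .moveP hd ⟨?_, hlx, (hD px hpx).2, ?_, hly, ?_⟩
      · rw [Finset.sup_lt_iff (by rw [Nat.bot_eq_zero]; exact (hD py hpy).1)]
        exact fun d hd => (hout d hd).1
      · rw [Finset.sup_lt_iff (by
          rw [Nat.bot_eq_zero]; exact (p.y_mem px (hD px hpx).1 (hD px hpx).2).1)]
        exact fun d hd => (hout d hd).2
      · intro x h1 h2 h3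
        by_contra hc
        have hxn : 1 ≤ x ∧ x ≤ p.n := ⟨by omega, by have := (hD py hpy).2; omega⟩
        have h4 := hcl x ⟨hxn.1, hxn.2, fun d hd => by
          by_cases hdp : d = px
          · rw [hdp]; left; omega
          by_cases hdq : d = py
          · rw [hdq]; left; omega
          have hd' : d ∈ D \ {px, py} := by
            rw [Finset.mem_sdiff, Finset.mem_insert, Finset.mem_singleton, not_or]
            exact ⟨hd, hdp, hdq⟩
          have h5 : d ≤ (D \ {px, py}).sup id := Finset.le_sup (f := id) hd'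
          have h6 : p.y d ≤ (D \ {px, py}).sup p.y := Finset.le_sup (f := p.y) hd'
          right; omega⟩ px hpx
        omega

end Pool.Agent.PD
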