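import Pool.Agent.PD.Sound

/-! The construction of the new frontier: the states `U` and `R`, insertion of a state, insertion
of the states of the queue. -/

namespace Pool.Agent.PD.Front

open PData Pool.Agent.PD

variable {p : PData} {s s' : S}

/-- the record of a new state -/
theorem rep_new {i X Y X' Y' q1 q2 c k : ℕ}
    (hcnt : s'.v .cnt = s.v .cnt + 1)
    (hSX : s'.m .SX = Function.update (s.m .SX) (s.v .cnt + 1) X')
    (hSY : s'.m .SY = Function.update (s.m .SY) (s.v .cnt + 1) Y')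
    (hpar : s'.m .par = Function.update (s.m .par) (s.v .cnt + 1) i)
    (hp1 : s'.m .p1 = Function.update (s.m .p1) (s.v .cnt + 1) q1)
    (hp2 : s'.m .p2 = Function.update (s.m .p2) (s.v .cnt + 1) q2)
    (hk : 1 ≤ k) (hr : Rep p s i X Y c)
    (hv : ∀ D, p.Valid X Y D → p.Valid X' Y' (addp q1 (addp q2 D)) ∧
      (addp q1 (addp q2 D)).card ≤ D.card + k) :
    Rep p s' (s.v .cnt + 1) X' Y' (c + k) ∧ Ext s s' := by
  have hne : ∀ j, j ≤ s.v .cnt → j ≠ s.v .cnt + 1 := fun j hj => by omega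
  have hE : Ext s s' := by
    refine ⟨by omega, ?_, ?_, ?_, ?_, ?_⟩
    · intro j hj; rw [hSX, Function.update_of_ne (hne j hj)]
    · intro j hj; rw [hSY, Function.update_of_ne (hne j hj)]
    · intro j hj; rw [hpar, Function.update_of_ne (hne j hj)]
    · intro j hj; rw [hp1, Function.update_of_ne (hne j hj)]
    · intro j hj; rw [hp2, Function.update_of_ne (hne j hj)]
  refine ⟨?_, hE⟩
  obtain ⟨D, l, hD, hl, hc, hval⟩ := hr.has
  obtain ⟨hv1, hv2⟩ := hv D hval
  have h1 := hr.pos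
  have h2 := hr.le
  refine ⟨by omega, by omega, ?_, ?_, addp q1 (addp q2 D), l + 1, ?_, by omega, by omega, hv1⟩
  · rw [hSX, Function.update_self]
  · rw [hSY, Function.update_self]
  · have e1 : s'.m .p1 (s.v .cnt + 1) = q1 := by rw [hp1, Function.update_self]
    have e2 : s'.m .p2 (s.v .cnt + 1) = q2 := by rw [hp2, Function.update_self]
    have e3 : s'.m .par (s.v .cnt + 1) = i := by rw [hpar, Function.update_self]
    have h3 : HasD (s'.m .par) (s'.m .p1) (s'.m .p2) (s.v .cnt + 1)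
        (addp (s'.m .p1 (s.v .cnt + 1)) (addp (s'.m .p2 (s.v .cnt + 1)) D)) (l + 1) := by
      refine HasD.step (by omega) (by rw [e3]; omega) ?_
      rw [e3]
      exact hasD_congr hD h2 hE.par hE.p1 hE.p2
    rw [e1, e2] at h3
    exact h3

/-- nothing happened to the records -/
theorem ext_of_eq (hc : s'.v .cnt = s.v .cnt) (hm : ∀ B, B ≠ .best → s'.m B = s.m B) :
    Ext s s' := by
  refine ⟨hc.ge, ?_, ?_, ?_, ?_, ?_⟩ <;> intro j _ <;> rw [hm _ (by decide)]

theorem static_of_eq (h : Static p s) (h1 : s'.v .n = s.v .n) (h2 : s'.v .N1 = s.v .N1)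
    (hm : ∀ B, B ≠ .best → s'.m B = s.m B) : Static p s' := by
  refine ⟨by rw [h1, h.n], by rw [h2, h.N1], ?_, ?_, ?_, ?_, ?_, ?_, ?_⟩
  · rw [hm _ (by decide), h.y]
  · rw [hm _ (by decide), h.xx]
  · intro X hX; rw [hm _ (by decide), h.u X hX]
  · intro X hX; rw [hm _ (by decide), h.r X hX]
  · intro X hX; rw [hm _ (by decide), h.sm X hX]
  · rw [hm _ (by decide), h.out]
  · rw [hm _ (by decide), h.SY0]

/-- `NFr` does not depend on `T`, `z`, `qa` and the ghost counter -/
theorem nfr_congr {t : ℕ} (h : NFr p s t)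
    (hv : ∀ x, x ≠ .T → x ≠ .z → x ≠ .qa → s'.v x = s.v x) (hm : s'.m = s.m) : NFr p s' t := by
  have e (x : Var) (h1 : x ≠ .T) (h2 : x ≠ .z) (h3 : x ≠ .qa) : s'.v x = s.v x := hv x h1 h2 h3
  have ea := e .a (by decide) (by decide) (by decide)
  have eb := e .b (by decide) (by decide) (by decide)
  have ean := e .an (by decide) (by decide) (by decide)
  have ebn := e .bn (by decide) (by decide) (by decide)
  have enb := e .nb (by decide) (by decide) (by decide)
  have eU := e .U (by decide) (by decide) (by decide)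
  have ec := e .cnt (by decide) (by decide) (by decide)
  have en := e .n (by decide) (by decide) (by decide)
  have eN := e .N1 (by decide) (by decide) (by decide)
  have hm' : ∀ B, B ≠ .best → s'.m B = s.m B := fun B _ => by rw [hm]
  have hE := ext_of_eq ec hm'
  refine ⟨static_of_eq h.stat en eN hm', by rw [ea]; exact h.a_le, by rw [eb]; exact h.b_le, ?_, ?_,
    ?_, ?_, ?_, ?_, ?_, ?_, ?_, ?_, ?_⟩
  · rw [eU, ea]; exact h.U.ext hE
  · intro x hx hb
    rw [ea] at hx
    rw [hm] at hb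
    rw [hm, eb, ebn, ean]
    obtain ⟨h1, h2⟩ := h.new x hx hb
    exact ⟨h1.ext hE, h2⟩
  · obtain ⟨X, hX, h1⟩ := h.nb
    rw [ean, enb, ebn]
    exact ⟨X, hX, h1.ext hE⟩
  · rw [ea, ean]; exact h.an_ge
  · rw [eb, ean]; exact h.an_r
  · rw [ean]; exact h.an_le
  · rw [ea, ean, hm]; exact h.an_at
  · rw [eb, ebn]; exact h.bn_b
  · rw [ea, ebn]; exact h.bn_u
  · rw [ebn]; exact h.bn_le
  · have := h.R
    unfold CovN at this ⊢
    rw [ea, eb, hm]
    exact this

theorem covN_congr {X Y : ℕ} (ea : s'.v .a = s.v .a) (hm : s'.m = s.m) :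
    CovN p s' X Y ↔ CovN p s X Y := by
  unfold CovN
  rw [ea, hm]

theorem covN_mono {X Y X' Y' : ℕ} (h : CovN p s X Y) (hX : X' ≤ X) (hY : Y' ≤ Y) :
    CovN p s X' Y' := by
  rcases h with ⟨h1, h2⟩ | ⟨x, h1, h2, h3, h4, h5⟩
  · exact Or.inl ⟨hX.trans h1, hY.trans h2⟩
  · exact Or.inr ⟨x, h1, h2, h3, hX.trans h4, hY.trans h5⟩

end Pool.Agent.PD.Front

namespace Pool.Agent.PD

open PData Pool.Agent.PD.Front

variable {p : PData} {s : S}

/-- the second half of `cUR2` -/
theorem R_part {t X : ℕ} (hs : Static p s) (ha : s.v .a ≤ p.n) (hb : s.v .b ≤ p.n)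
    (hcln : ∀ x, s.v .a < x → s.m .best x = 0)
    (hU : Rep p s (s.v .U) (s.v .a) (p.u (s.v .a)) (t + 1))
    (han : s.v .an = s.v .a) (hbn : s.v .bn = p.u (s.v .a)) (hnb : s.v .nb = s.v .U)
    (hX : X ≤ s.v .a) (hB : Rep p s (s.v .bId) X (s.v .b) t) :
    Run p.n (.ite (vr .a) (at' .r (vr .b)) (blk [
      cNew (at' .r (vr .b)) (vr .b) (vr .bId) .zero (at' .r (vr .b)),
      .sto .best (at' .r (vr .b)) (vr .cnt),
      .asg .an (at' .r (vr .b))]) .skip) s (fun s' => NFr p s' t ∧ Ext s s' ∧ s'.k = s.k ∧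
      ∀ x, x ≤ s.v .a → s'.m .best x = s.m .best x) := by
  have hbu : s.v .b ≤ p.u (s.v .a) := by
    obtain ⟨D, l, _, _, _, hv⟩ := hB.has
    exact hv.yu.trans (p.u_mono hX)
  rw [run_ite]
  simp only [Expr.eval_var, Expr.eval_arr, hs.r _ hb]
  refine ⟨fun hlt => ?_, fun hlt => ?_⟩
  · rw [run_blk_cons]
    refine new_spec _ _ _ _ _ ?_ (by rfl)
    intro s1 hv1 hcnt1 hk1 _ hm1 hSX1 hSY1 hpar1 hp11 hp21
    have e1 : (s.setv .cnt (s.v .cnt + 1)).v .b = s.v .b := by simp
    have e2 : (s.setv .cnt (s.v .cnt + 1)).v .bId = s.v .bId := by simp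
    simp only [Expr.eval_var, Expr.eval_arr, Expr.eval_zero, setv_m, e1, e2, hs.r _ hb] at hSX1 hSY1 hpar1 hp11 hp21
    obtain ⟨hR, hE1⟩ := Front.rep_new (p := p) (c := t) (k := 1) hcnt1 hSX1 hSY1 hpar1 hp11 hp21
      le_rfl hB (fun D hD => by
        rw [addp_zero]
        exact ⟨valid_R hD, card_addp _ _⟩)
    rw [run_blk_cons, run_sto, run_blk_one, run_asg]
    have va := hv1 .a (by decide)
    have vb := hv1 .b (by decide)
    have vU := hv1 .U (by decide)
    have van := hv1 .an (by decide)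
    have vbn := hv1 .bn (by decide)
    have vnb := hv1 .nb (by decide)
    have vn := hv1 .n (by decide)
    have vN := hv1 .N1 (by decide)
    have mr := hm1 .r (by decide) (by decide) (by decide) (by decide) (by decide)
    have mb := hm1 .best (by decide) (by decide) (by decide) (by decide) (by decide)
    have er : s1.m .r (s1.v .b) = p.r (s.v .b) := by rw [mr, vb, hs.r _ hb]
    have hst1 : Static p s1 := by
      refine ⟨by rw [vn, hs.n], by rw [vN, hs.N1], ?_, ?_, ?_, ?_, ?_, ?_, ?_⟩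
      · rw [hm1 .y (by decide) (by decide) (by decide) (by decide) (by decide), hs.y]
      · rw [hm1 .xx (by decide) (by decide) (by decide) (by decide) (by decide), hs.xx]
      · intro X hX; rw [hm1 .u (by decide) (by decide) (by decide) (by decide) (by decide), hs.u X hX]
      · intro X hX; rw [hm1 .r (by decide) (by decide) (by decide) (by decide) (by decide), hs.r X hX]
      · intro X hX; rw [hm1 .sm (by decide) (by decide) (by decide) (by decide) (by decide), hs.sm X hX]
      · rw [hm1 .out (by decide) (by decide) (by decide) (by decide) (by decide), hs.out]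
      · rw [hSY1, Function.update_of_ne (by omega), hs.SY0]
    -- the final state
    simp only [Expr.eval_var, Expr.eval_arr, setm_v, er]
    have er2 : (s1.setm .best (p.r (s.v .b)) (s1.v .cnt)).m .r (s1.v .b) = p.r (s.v .b) := by
      rw [setm_m_ne _ _ _ _ _ (by decide)]; exact er
    rw [er2]
    set s3 : S := (s1.setm .best (p.r (s.v .b)) (s1.v .cnt)).setv .an (p.r (s.v .b)) with hs3
    have wa : s3.v .a = s.v .a := by rw [hs3]; simpa using va
    have wb : s3.v .b = s.v .b := by rw [hs3]; simpa using vb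
    have wU : s3.v .U = s.v .U := by rw [hs3]; simpa using vU
    have wan : s3.v .an = p.r (s.v .b) := by rw [hs3]; simp
    have wbn : s3.v .bn = p.u (s.v .a) := by rw [hs3]; simpa using vbn.trans hbn
    have wnb : s3.v .nb = s.v .U := by rw [hs3]; simpa using vnb.trans hnb
    have wc : s3.v .cnt = s1.v .cnt := by rw [hs3]; simp
    have wm : ∀ B, B ≠ .best → s3.m B = s1.m B := by
      intro B hB; rw [hs3, setv_m, setm_m_ne _ _ _ _ _ hB]
    have wbest : s3.m .best = Function.update (s.m .best) (p.r (s.v .b)) (s1.v .cnt) := by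
      rw [hs3, setv_m, setm_m_same, mb]
    have hE2 : Ext s1 s3 := Front.ext_of_eq wc wm
    have hE3 : Ext s s3 := hE1.trans hE2
    have hst3 : Static p s3 := Front.static_of_eq hst1 (by rw [hs3]; simp) (by rw [hs3]; simp) wm
    have hb1 : s3.m .best (p.r (s.v .b)) = s.v .cnt + 1 := by
      rw [wbest, Function.update_self, hcnt1]
    have hSYb : s3.m .SY (s.v .cnt + 1) = s.v .b := (hR.ext hE2).sy
    refine ⟨⟨hst3, by rw [wa]; exact ha, by rw [wb]; exact hb, ?_, ?_, ?_, ?_, ?_, ?_, ?_, ?_, ?_,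
      ?_, ?_⟩, hE3, ?_, ?_⟩
    · rw [wU, wa]; exact hU.ext hE3
    · intro x hx hxb
      rw [wa] at hx
      have hxr : x = p.r (s.v .b) := by
        by_contra hne
        rw [wbest, Function.update_of_ne hne] at hxb
        exact hxb (hcln x hx)
      rw [hxr, hb1, hSYb, wb, wbn, wan]
      exact ⟨hR.ext hE2, le_rfl, hbu, le_rfl⟩
    · rw [wan, wnb, wbn]
      exact ⟨s.v .a, hlt.le, hU.ext hE3⟩
    · rw [wa, wan]; exact hlt.le
    · rw [wb, wan]
    · rw [wan]; exact p.r_le_n _
    · right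
      rw [wan, hb1]; omega
    · rw [wb, wbn]; exact hbu
    · rw [wa, wbn]
    · rw [wbn]; exact p.u_le_n _
    · right
      rw [wa, wb]
      exact ⟨p.r (s.v .b), hlt, p.r_le_n _, by rw [hb1]; omega, le_rfl, by rw [hb1, hSYb]⟩
    · rw [hs3]; simpa using hk1
    · intro x hx
      rw [wbest, Function.update_of_ne (by omega)]
  · rw [run_skip]
    refine ⟨⟨hs, ha, hb, hU, ?_, ?_, ?_, ?_, ?_, ?_, ?_, ?_, ?_, ?_⟩, Ext.refl s, rfl,
      fun _ _ => rfl⟩
    · intro x hx hxb
      exact absurd (hcln x hx) hxb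
    · rw [han, hbn, hnb]
      exact ⟨s.v .a, le_rfl, hU⟩
    · rw [han]
    · rw [han]; omega
    · rw [han]; exact ha
    · left; exact han
    · rw [hbn]; exact hbu
    · rw [hbn]
    · rw [hbn]; exact p.u_le_n _
    · left
      exact ⟨by omega, hbu⟩

theorem UR2_spec {t : ℕ} (hs : Static p s) (ha : s.v .a ≤ p.n) (hb : s.v .b ≤ p.n)
    (hcln : ∀ x, s.v .a < x → s.m .best x = 0)
    (hA : ∃ Y, Rep p s (s.m .best (s.v .a)) (s.v .a) Y t)
    (hB : ∃ X, X ≤ s.v .a ∧ Rep p s (s.v .bId) X (s.v .b) t) :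
    Run p.n cUR2 s (fun s' => NFr p s' t ∧ Ext s s' ∧ s'.k = s.k ∧
      ∀ x, x ≤ s.v .a → s'.m .best x = s.m .best x) := by
  obtain ⟨YA, hA⟩ := hA
  obtain ⟨XB, hXB, hB⟩ := hB
  unfold cUR2
  rw [run_blk_cons]
  refine new_spec _ _ _ _ _ ?_ (by rfl)
  intro s1 hv1 hcnt1 hk1 _ hm1 hSX1 hSY1 hpar1 hp11 hp21
  have e : (s.setv .cnt (s.v .cnt + 1)).v .a = s.v .a := by simp
  simp only [Expr.eval_var, Expr.eval_arr, Expr.eval_zero, setv_m, e, hs.xx, hs.u _ ha] at hSX1 hSY1 hpar1 hp11 hp21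
  obtain ⟨hU, hE1⟩ := Front.rep_new (p := p) (c := t) (k := 1) hcnt1 hSX1 hSY1 hpar1 hp11 hp21
    le_rfl hA (fun D hD => by
      rw [addp_zero]
      exact ⟨valid_U hD, card_addp _ _⟩)
  simp only [run_blk_cons, run_asg, run_blk_one]
  have hst1 : Static p s1 := by
    refine ⟨by rw [hv1 .n (by decide), hs.n], by rw [hv1 .N1 (by decide), hs.N1], ?_, ?_, ?_, ?_,
      ?_, ?_, ?_⟩
    · rw [hm1 .y (by decide) (by decide) (by decide) (by decide) (by decide), hs.y]
    · rw [hm1 .xx (by decide) (by decide) (by decide) (by decide) (by decide), hs.xx]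
    · intro X hX; rw [hm1 .u (by decide) (by decide) (by decide) (by decide) (by decide), hs.u X hX]
    · intro X hX; rw [hm1 .r (by decide) (by decide) (by decide) (by decide) (by decide), hs.r X hX]
    · intro X hX; rw [hm1 .sm (by decide) (by decide) (by decide) (by decide) (by decide), hs.sm X hX]
    · rw [hm1 .out (by decide) (by decide) (by decide) (by decide) (by decide), hs.out]
    · rw [hSY1, Function.update_of_ne (by omega), hs.SY0]
  have va := hv1 .a (by decide)
  have vb := hv1 .b (by decide)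
  have vI := hv1 .bId (by decide)
  have mb := hm1 .best (by decide) (by decide) (by decide) (by decide) (by decide)
  generalize hs2 : ((((s1.setv .U (Expr.eval s1 (vr .cnt))).setv .an
    (Expr.eval (s1.setv .U (Expr.eval s1 (vr .cnt))) (vr .a))).setv .bn
    (Expr.eval ((s1.setv .U (Expr.eval s1 (vr .cnt))).setv .an
      (Expr.eval (s1.setv .U (Expr.eval s1 (vr .cnt))) (vr .a))) (at' .u (vr .a)))).setv .nb
    (Expr.eval (((s1.setv .U (Expr.eval s1 (vr .cnt))).setv .an
    (Expr.eval (s1.setv .U (Expr.eval s1 (vr .cnt))) (vr .a))).setv .bn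
    (Expr.eval ((s1.setv .U (Expr.eval s1 (vr .cnt))).setv .an
      (Expr.eval (s1.setv .U (Expr.eval s1 (vr .cnt))) (vr .a))) (at' .u (vr .a)))) (vr .cnt)) : S) = s2
  have w : ∀ x, x ≠ .U → x ≠ .an → x ≠ .bn → x ≠ .nb → s2.v x = s1.v x := by
    intro x h1 h2 h3 h4
    rw [← hs2, setv_v_ne _ _ _ _ h4, setv_v_ne _ _ _ _ h3, setv_v_ne _ _ _ _ h2, setv_v_ne _ _ _ _ h1]
  have wm : s2.m = s1.m := by rw [← hs2]; simp only [setv_m]
  have wk : s2.k = s1.k := by rw [← hs2]; simp only [setv_k]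
  have wU : s2.v .U = s.v .cnt + 1 := by rw [← hs2]; simp [hcnt1]
  have wan : s2.v .an = s.v .a := by rw [← hs2]; simp [va]
  have wbn : s2.v .bn = p.u (s.v .a) := by
    rw [← hs2]
    simp [va, hst1.u _ ha]
  have wnb : s2.v .nb = s.v .cnt + 1 := by rw [← hs2]; simp [hcnt1]
  have wa : s2.v .a = s.v .a := by rw [w .a (by decide) (by decide) (by decide) (by decide), va]
  have wb : s2.v .b = s.v .b := by rw [w .b (by decide) (by decide) (by decide) (by decide), vb]
  have wI : s2.v .bId = s.v .bId := by rw [w .bId (by decide) (by decide) (by decide) (by decide), vI]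
  have wc : s2.v .cnt = s1.v .cnt := w .cnt (by decide) (by decide) (by decide) (by decide)
  have hE2 : Ext s1 s2 := Front.ext_of_eq wc (fun B _ => by rw [wm])
  have hE := hE1.trans hE2
  have hst2 : Static p s2 := Front.static_of_eq hst1
    (w .n (by decide) (by decide) (by decide) (by decide))
    (w .N1 (by decide) (by decide) (by decide) (by decide)) (fun B _ => by rw [wm])
  refine (R_part (t := t) (X := XB) hst2 (by rw [wa]; exact ha) (by rw [wb]; exact hb) ?_ ?_ ?_ ?_ ?_ ?_
    ?_).mono ?_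
  · intro x hx
    rw [wa] at hx
    rw [wm, mb]; exact hcln x hx
  · rw [wU, wa]; exact hU.ext hE2
  · rw [wan, wa]
  · rw [wbn, wa]
  · rw [wnb, wU]
  · rw [wa]; exact hXB
  · rw [wI, wb]; exact hB.ext hE
  · rintro s' ⟨h1, h2, h3, h4⟩
    refine ⟨h1, hE.trans h2, by rw [h3, wk, hk1], ?_⟩
    intro x hx
    rw [h4 x (by rw [wa]; exact hx), wm, mb]

/-- changes of `best`, `an`, `bn`, `nb` which keep `NFr` -/
theorem Front.nfr_insert {s' : S} {t X Y : ℕ} (h : NFr p s t) (hT : Rep p s (s.v .T) X Y (t + 1))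
    (haX : s.v .a < X) (hbY : s.v .b < Y)
    (hv : ∀ x, x ≠ .an → x ≠ .bn → x ≠ .nb → s'.v x = s.v x)
    (hm : ∀ B, B ≠ .best → s'.m B = s.m B)
    (hbest : s'.m .best = if s.m .SY (s.m .best X) < Y then
      Function.update (s.m .best) X (s.v .T) else s.m .best)
    (han : s'.v .an = max (s.v .an) X) (hbn : s'.v .bn = max (s.v .bn) Y)
    (hnb : s'.v .nb = if s.v .bn < Y then s.v .T else s.v .nb) :
    NFr p s' t ∧ (∀ X' Y', CovN p s X' Y' → CovN p s' X' Y') ∧
      CovN p s' X Y ∧ ∀ x, x ≤ s.v .a → s'.m .best x = s.m .best x := by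
  have ec := hv .cnt (by decide) (by decide) (by decide)
  have ea := hv .a (by decide) (by decide) (by decide)
  have eb := hv .b (by decide) (by decide) (by decide)
  have eU := hv .U (by decide) (by decide) (by decide)
  have hE : Ext s s' := Front.ext_of_eq ec hm
  have eSY : s'.m .SY = s.m .SY := hm _ (by decide)
  have hTpos := hT.pos
  have hval : ∃ D, p.Valid X Y D := by
    obtain ⟨D, _, _, _, _, hv⟩ := hT.has
    exact ⟨D, hv⟩
  obtain ⟨D, hD⟩ := hval
  have hXn : X ≤ p.n := hD.xr.trans (p.r_le_n _)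
  have hYn : Y ≤ p.n := hD.yu.trans (p.u_le_n _)
  have hbX : s'.m .best X ≠ 0 ∧ Y ≤ s.m .SY (s'.m .best X) := by
    rw [hbest]
    split_ifs with hc
    · rw [Function.update_self, hT.sy]
      exact ⟨by omega, le_rfl⟩
    · refine ⟨?_, by omega⟩
      intro h0
      rw [h0, h.stat.SY0] at hc
      omega
  have hmono : ∀ x, s.m .best x ≠ 0 →
      s'.m .best x ≠ 0 ∧ s.m .SY (s.m .best x) ≤ s.m .SY (s'.m .best x) := by
    intro x hx
    by_cases hxX : x = X
    · subst hxX
      refine ⟨hbX.1, ?_⟩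
      rw [hbest]
      split_ifs with hc
      · rw [Function.update_self, hT.sy]; exact hc.le
      · exact le_rfl
    · have : s'.m .best x = s.m .best x := by
        rw [hbest]
        split_ifs with hc
        · rw [Function.update_of_ne hxX]
        · rfl
      rw [this]
      exact ⟨hx, le_rfl⟩
  have hcov : ∀ X' Y', CovN p s X' Y' → CovN p s' X' Y' := by
    rintro X' Y' (h1 | ⟨x, h1, h2, h3, h4, h5⟩)
    · left; rw [ea]; exact h1
    · right
      rw [ea, eSY]
      exact ⟨x, h1, h2, (hmono x h3).1, h4, h5.trans (hmono x h3).2⟩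
  refine ⟨⟨Front.static_of_eq h.stat (hv .n (by decide) (by decide) (by decide))
      (hv .N1 (by decide) (by decide) (by decide)) hm, by rw [ea]; exact h.a_le,
      by rw [eb]; exact h.b_le, ?_, ?_, ?_, ?_, ?_, ?_, ?_, ?_, ?_, ?_, ?_⟩, hcov, ?_, ?_⟩
  · rw [eU, ea]; exact h.U.ext hE
  · intro x hx hxb
    rw [ea] at hx
    by_cases hc : x = X ∧ s.m .SY (s.m .best X) < Y
    · obtain ⟨h1, h2⟩ := hc
      have h3 : s'.m .best x = s.v .T := by
        rw [hbest, if_pos h2, h1, Function.update_self]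
      rw [h3, eSY, hT.sy, eb, hbn, han, h1]
      exact ⟨hT.ext hE, hbY.le, le_max_right _ _, le_max_right _ _⟩
    · have h3 : s'.m .best x = s.m .best x := by
        rw [hbest]
        split_ifs with hc'
        · rw [Function.update_of_ne (fun h => hc ⟨h, hc'⟩)]
        · rfl
      rw [h3] at hxb ⊢
      obtain ⟨h4, h5, h6, h7⟩ := h.new x hx hxb
      rw [eSY, eb, hbn, han]
      exact ⟨h4.ext hE, h5, h6.trans (le_max_left _ _), h7.trans (le_max_left _ _)⟩
  · rw [han, hnb, hbn]
    split_ifs with hc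
    · rw [max_eq_right hc.le]
      exact ⟨X, le_max_right _ _, hT.ext hE⟩
    · rw [max_eq_left (not_lt.1 hc)]
      obtain ⟨X', h1, h2⟩ := h.nb
      exact ⟨X', h1.trans (le_max_left _ _), h2.ext hE⟩
  · rw [ea, han]; exact h.an_ge.trans (le_max_left _ _)
  · rw [eb, han]; exact h.an_r.trans (le_max_left _ _)
  · rw [han]; exact max_le h.an_le hXn
  · rw [ea, han]
    rcases Nat.lt_or_ge (s.v .an) X with h1 | h1
    · rw [max_eq_right h1.le]
      exact Or.inr hbX.1
    · rw [max_eq_left h1]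
      rcases h.an_at with h2 | h2
      · exact Or.inl h2
      · exact Or.inr (hmono _ h2).1
  · rw [eb, hbn]; exact h.bn_b.trans (le_max_left _ _)
  · rw [ea, hbn]; exact h.bn_u.trans (le_max_left _ _)
  · rw [hbn]; exact max_le h.bn_le hYn
  · rw [eb]; exact hcov _ _ h.R
  · right
    rw [ea, eSY]
    exact ⟨X, haX, hXn, hbX.1, le_rfl, hbX.2⟩
  · intro x hx
    rw [hbest]
    split_ifs with hc
    · rw [Function.update_of_ne (by omega)]
    · rfl

theorem Insert_spec {t X Y : ℕ} (h : NFr p s t) (hT : Rep p s (s.v .T) X Y (t + 1)) :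
    Run p.n cInsert s (fun s' => NFr p s' t ∧ (∀ X' Y', CovN p s X' Y' → CovN p s' X' Y') ∧
      CovN p s' X Y ∧ s'.k = s.k ∧ ∀ x, x ≤ s.v .a → s'.m .best x = s.m .best x) := by
  have hX : s.m .SX (s.v .T) = X := hT.sx
  have hY : s.m .SY (s.v .T) = Y := hT.sy
  obtain ⟨D, _, _, _, _, hD⟩ := hT.has
  unfold cInsert
  rw [run_ite]
  simp only [Expr.eval_var, Expr.eval_arr, hX]
  refine ⟨fun h1 => ?_, fun h1 => ?_⟩
  · rw [run_ite]
    simp only [Expr.eval_var, Expr.eval_arr, hY]
    refine ⟨fun h2 => ?_, fun h2 => ?_⟩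
    · rw [run_blk_cons, run_ite]
      simp only [Expr.eval_var, Expr.eval_arr, hX, hY]
      -- first part
      have key : ∀ s1 : S, (s1.v = s.v) → (s1.k = s.k) →
          (∀ B, B ≠ .best → s1.m B = s.m B) →
          (s1.m .best = if s.m .SY (s.m .best X) < Y then
            Function.update (s.m .best) X (s.v .T) else s.m .best) →
          Run p.n (blk [
            .ite (vr .an) (at' .SX (vr .T)) (.asg .an (at' .SX (vr .T))) .skip,
            .ite (vr .bn) (at' .SY (vr .T))
              (blk [.asg .bn (at' .SY (vr .T)), .asg .nb (vr .T)]) .skip]) s1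
          (fun s' => NFr p s' t ∧ (∀ X' Y', CovN p s X' Y' → CovN p s' X' Y') ∧
            CovN p s' X Y ∧ s'.k = s.k ∧ ∀ x, x ≤ s.v .a → s'.m .best x = s.m .best x) := by
        intro s1 hv1 hk1 hm1 hb1
        have hX1 : s1.m .SX (s1.v .T) = X := by rw [hm1 _ (by decide), hv1, hX]
        have hY1 : s1.m .SY (s1.v .T) = Y := by rw [hm1 _ (by decide), hv1, hY]
        rw [run_blk_cons]
        have key2 : ∀ s2 : S, (∀ x, x ≠ .an → s2.v x = s.v x) → (s2.k = s.k) → (s2.m = s1.m) →
            (s2.v .an = max (s.v .an) X) →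
            Run p.n (blk [.ite (vr .bn) (at' .SY (vr .T))
              (blk [.asg .bn (at' .SY (vr .T)), .asg .nb (vr .T)]) .skip]) s2
          (fun s' => NFr p s' t ∧ (∀ X' Y', CovN p s X' Y' → CovN p s' X' Y') ∧
            CovN p s' X Y ∧ s'.k = s.k ∧ ∀ x, x ≤ s.v .a → s'.m .best x = s.m .best x) := by
          intro s2 hv2 hk2 hm2 han2
          have hT2 : s2.v .T = s.v .T := hv2 _ (by decide)
          have hbn2 : s2.v .bn = s.v .bn := hv2 _ (by decide)
          have hY2 : s2.m .SY (s.v .T) = Y := by rw [hm2, hm1 _ (by decide), hY]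
          have key3 : ∀ s3 : S, (∀ x, x ≠ .an → x ≠ .bn → x ≠ .nb → s3.v x = s.v x) →
              (s3.k = s.k) → (s3.m = s1.m) →
              (s3.v .an = max (s.v .an) X) → (s3.v .bn = max (s.v .bn) Y) →
              (s3.v .nb = if s.v .bn < Y then s.v .T else s.v .nb) →
              NFr p s3 t ∧ (∀ X' Y', CovN p s X' Y' → CovN p s3 X' Y') ∧
              CovN p s3 X Y ∧ s3.k = s.k ∧ ∀ x, x ≤ s.v .a → s3.m .best x = s.m .best x := by
            intro s3 hv3 hk3 hm3 han3 hbn3 hnb3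
            obtain ⟨g1, g2, g3, g4⟩ := Front.nfr_insert (s' := s3) h hT h1 h2 hv3
              (fun B hB => by rw [hm3]; exact hm1 B hB) (by rw [hm3]; exact hb1) han3 hbn3 hnb3
            exact ⟨g1, g2, g3, hk3, g4⟩
          rw [run_blk_one, run_ite]
          simp only [Expr.eval_var, Expr.eval_arr, hT2, hbn2, hY2]
          refine ⟨fun h5 => ?_, fun h5 => ?_⟩
          · rw [run_blk_cons, run_asg, run_blk_one, run_asg]
            simp only [Expr.eval_var, Expr.eval_arr, hT2, hY2]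
            refine key3 _ ?_ ?_ ?_ ?_ ?_ ?_
            · intro x g1 g2 g3
              rw [setv_v_ne _ _ _ _ g3, setv_v_ne _ _ _ _ g2]
              exact hv2 x g1
            · rw [setv_k, setv_k]; exact hk2
            · rw [setv_m, setv_m]; exact hm2
            · simpa using han2
            · simp [max_eq_right h5.le]
            · simp [h5, hT2]
          · rw [run_skip]
            refine key3 _ (fun x g1 _ _ => hv2 x g1) hk2 hm2 han2 ?_ ?_
            · rw [hbn2, max_eq_left (not_lt.1 h5)]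
            · rw [if_neg h5]; exact hv2 _ (by decide)
        rw [run_ite]
        simp only [Expr.eval_var, Expr.eval_arr, hX1]
        refine ⟨fun h5 => ?_, fun h5 => ?_⟩
        · rw [run_asg]
          simp only [Expr.eval_var, Expr.eval_arr, hX1]
          refine key2 _ ?_ ?_ ?_ ?_
          · intro x g1
            rw [setv_v_ne _ _ _ _ g1, hv1]
          · rw [setv_k]; exact hk1
          · rw [setv_m]
          · rw [hv1] at h5
            simp [max_eq_right h5.le]
        · rw [run_skip]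
          refine key2 _ (fun x _ => by rw [hv1]) hk1 rfl ?_
          rw [hv1] at h5 ⊢
          rw [max_eq_left (not_lt.1 h5)]
      refine ⟨fun h3 => ?_, fun h3 => ?_⟩
      · rw [run_sto]
        simp only [Expr.eval_var, Expr.eval_arr, hX]
        refine key _ rfl rfl ?_ ?_
        · intro B hB
          rw [setm_m_ne _ _ _ _ _ hB]
        · rw [setm_m_same, if_pos h3]
      · rw [run_skip]
        exact key _ rfl rfl (fun _ _ => rfl) (by rw [if_neg h3])
    · rw [run_skip]
      refine ⟨h, fun _ _ hc => hc, ?_, rfl, fun _ _ => rfl⟩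
      exact Front.covN_mono h.R (hD.xr.trans (p.r_mono (not_lt.1 h2))) (not_lt.1 h2)
  · rw [run_skip]
    refine ⟨h, fun _ _ hc => hc, ?_, rfl, fun _ _ => rfl⟩
    left
    exact ⟨not_lt.1 h1, hD.yu.trans (p.u_mono (not_lt.1 h1))⟩

theorem Queue_spec {t : ℕ} (h : NFr p s t) (hq : s.v .qa ≤ s.v .qb)
    (hrep : QRep p s (s.v .qa) (s.v .qb) (t + 1)) :
    Run p.n cQueue s (fun s' => NFr p s' t ∧ (∀ X' Y', CovN p s X' Y' → CovN p s' X' Y') ∧
      (∀ X Y, QCov s (s.v .qa) (s.v .qb) X Y → CovN p s' X Y) ∧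
      s'.k = s.k + (s.v .qb - s.v .qa) ∧ s'.v .qa = s.v .qb ∧
      ∀ x, x ≤ s.v .a → s'.m .best x = s.m .best x) := by
  unfold cQueue
  rw [run_blk_cons, run_asg, run_blk_cons]
  simp only [Expr.eval_var]
  refine (run_whl (fun s' => NFr p s' t ∧ (∀ X' Y', CovN p s X' Y' → CovN p s' X' Y') ∧
      (∀ X Y, QCov s (s.v .qa) (s'.v .z) X Y → CovN p s' X Y) ∧
      s'.k = s.k + (s'.v .z - s.v .qa) ∧ s.v .qa ≤ s'.v .z ∧ s'.v .z ≤ s.v .qb ∧
      ∀ x, x ≤ s.v .a → s'.m .best x = s.m .best x) (fun s' => s.v .qb - s'.v .z) ?_ ?_ ?_)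
  · refine ⟨Front.nfr_congr h ?_ rfl, ?_, ?_, ?_, ?_, ?_, ?_⟩
    · intro x _ h2 _
      rw [setv_v_ne _ _ _ _ h2]
    · intro X' Y' hc
      exact (Front.covN_congr (by simp) rfl).2 hc
    · rintro X Y ⟨z, h1, h2, _⟩
      simp only [setv_v_same] at h2
      omega
    · simp
    · simp
    · simpa using hq
    · intro x _; rfl
  · rintro s1 hF ⟨g1, g2, g3, g4, g5, g6, g7⟩ hlt
    have hqb : s1.v .qb = s.v .qb := by
      rw [hF.v .qb (by decide)]; simp
    simp only [Expr.eval_var, hqb] at hlt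
    have hDQ : s1.m .DQ = s.m .DQ := by rw [hF.m .DQ (by decide)]; rfl
    have hSX : s1.m .SX = s.m .SX := by rw [hF.m .SX (by decide)]; rfl
    have hSY : s1.m .SY = s.m .SY := by rw [hF.m .SY (by decide)]; rfl
    have hpar : s1.m .par = s.m .par := by rw [hF.m .par (by decide)]; rfl
    have hp1 : s1.m .p1 = s.m .p1 := by rw [hF.m .p1 (by decide)]; rfl
    have hp2 : s1.m .p2 = s.m .p2 := by rw [hF.m .p2 (by decide)]; rfl
    have hcnt : s1.v .cnt = s.v .cnt := by rw [hF.v .cnt (by decide)]; simp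
    have ha1 : s1.v .a = s.v .a := by rw [hF.v .a (by decide)]; simp
    rw [run_blk_cons, run_asg]
    simp only [Expr.eval_var, Expr.eval_arr, hDQ]
    set s2 : S := s1.setv .T (s.m .DQ (s1.v .z)) with hs2
    have n2 : NFr p s2 t := Front.nfr_congr g1 (by
      intro x h1 _ _
      rw [hs2, setv_v_ne _ _ _ _ h1]) rfl
    have hE : Ext s s2 := by
      refine ⟨?_, ?_, ?_, ?_, ?_, ?_⟩
      · rw [hs2, setv_v_ne _ _ _ _ (by decide), hcnt]
      · intro i _; rw [hs2, setv_m, hSX]
      · intro i _; rw [hs2, setv_m, hSY]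
      · intro i _; rw [hs2, setv_m, hpar]
      · intro i _; rw [hs2, setv_m, hp1]
      · intro i _; rw [hs2, setv_m, hp2]
    have hT : Rep p s2 (s2.v .T) (s.m .SX (s.m .DQ (s1.v .z))) (s.m .SY (s.m .DQ (s1.v .z)))
        (t + 1) := by
      have : s2.v .T = s.m .DQ (s1.v .z) := by rw [hs2, setv_v_same]
      rw [this]
      exact (hrep _ g5 hlt).ext hE
    rw [run_blk_cons]
    refine (Insert_spec n2 hT).addFrame.mono ?_
    rintro s3 ⟨hF3, f1, f2, f3, f4, f5⟩
    rw [run_blk_one, run_asg]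
    simp only [Expr.eval_var, Expr.eval_succ]
    have hz3 : s3.v .z = s1.v .z := by
      rw [hF3.v .z (by decide), hs2, setv_v_ne _ _ _ _ (by decide)]
    rw [hz3]
    have hcov4 : ∀ X Y, CovN p s3 X Y → CovN p (s3.setv .z (s1.v .z + 1)).tick X Y := by
      intro X Y hc
      exact (Front.covN_congr (by simp) rfl).2 hc
    have ha2 : s2.v .a = s.v .a := by rw [hs2, setv_v_ne _ _ _ _ (by decide), ha1]
    have hcov2 : ∀ X Y, CovN p s1 X Y → CovN p s2 X Y := by
      intro X Y hc
      exact (Front.covN_congr (ha2.trans ha1.symm) rfl).2 hc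
    refine ⟨⟨Front.nfr_congr f1 ?_ rfl, ?_, ?_, ?_, ?_, ?_, ?_⟩, ?_⟩
    · intro x _ h2 _
      rw [tick_v, setv_v_ne _ _ _ _ h2]
    · intro X' Y' hc
      exact hcov4 _ _ (f2 _ _ (hcov2 _ _ (g2 _ _ hc)))
    · rintro X Y ⟨z, h1, h2, h3, h4⟩
      simp only [tick_v, setv_v_same] at h2
      rcases Nat.lt_or_ge z (s1.v .z) with h5 | h5
      · exact hcov4 _ _ (f2 _ _ (hcov2 _ _ (g3 _ _ ⟨z, h1, h5, h3, h4⟩)))
      · have : z = s1.v .z := by omega
        subst this
        exact hcov4 _ _ (Front.covN_mono f3 h3 h4)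
    · simp only [tick_k, setv_k, tick_v, setv_v_same]
      rw [f4]
      show s1.k + 1 = _
      omega
    · simp only [tick_v, setv_v_same]; omega
    · simp only [tick_v, setv_v_same]; omega
    · intro x hx
      rw [tick_m, setv_m, f5 x (by rw [ha2]; exact hx)]
      exact g7 x hx
    · simp only [tick_v, setv_v_same]; omega
  · rintro s1 hF ⟨g1, g2, g3, g4, g5, g6, g7⟩ hlt
    have hqb : s1.v .qb = s.v .qb := by
      rw [hF.v .qb (by decide)]; simp
    have ha1 : s1.v .a = s.v .a := by rw [hF.v .a (by decide)]; simp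
    simp only [Expr.eval_var, hqb] at hlt
    have hz : s1.v .z = s.v .qb := by omega
    rw [run_blk_one, run_asg]
    simp only [Expr.eval_var, hqb]
    refine ⟨Front.nfr_congr g1 ?_ rfl, ?_, ?_, ?_, ?_, ?_⟩
    · intro x _ _ h3
      rw [setv_v_ne _ _ _ _ h3]
    · intro X' Y' hc
      exact (Front.covN_congr (by simp) rfl).2 (g2 _ _ hc)
    · intro X Y hc
      rw [hz] at g3
      exact (Front.covN_congr (by simp) rfl).2 (g3 _ _ hc)
    · rw [setv_k, g4, hz]
    · simp
    · intro x hx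
      rw [setv_m]; exact g7 x hx

end Pool.Agent.PD
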