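import Pool.Agent.PD.Ram

/-! Permutation graphs, dominating sets and the input of the machine. -/

namespace Pool.Agent.PD

/-- the permutation graph of `π`: vertices are labels, and for `i < j` the labels `i`, `j` are
adjacent if and only if `π⁻¹ j < π⁻¹ i` -/
def permGraph {n : ℕ} (π : Equiv.Perm (Fin n)) : SimpleGraph (Fin n) where
  Adj i j := (i < j ∧ π.symm j < π.symm i) ∨ (j < i ∧ π.symm i < π.symm j)
  symm := ⟨fun _ _ h => h.symm⟩
  loopless := ⟨fun i h => by rcases h with h | h <;> exact lt_irrefl _ h.1⟩

/-- `D` is a dominating set of `G` -/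
def IsDominating {V : Type} (G : SimpleGraph V) (D : Finset V) : Prop :=
  ∀ v, v ∉ D → ∃ w ∈ D, G.Adj v w

/-- the permutation diagram as an array: `π(1), …, π(n)` (labels and positions from `1` to `n`) -/
def diagram {n : ℕ} (π : Equiv.Perm (Fin n)) (x : ℕ) : ℕ :=
  if h : 1 ≤ x ∧ x ≤ n then (π ⟨x - 1, by omega⟩ : ℕ) + 1 else 0

/-- the initial configuration of the machine for the permutation diagram of `π`: register `0`
holds `n`, memory cell `x` holds `π(x)` for `1 ≤ x ≤ n`, everything else is `0` -/
def startCfg {n : ℕ} (π : Equiv.Perm (Fin n)) : Config :=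
  ⟨0, fun i => if i = 0 then n else 0, diagram π⟩

end Pool.Agent.PD
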