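import Pool.Agent.PD.Inv

/-! The initialization of the program: reading the permutation, the three arrays of running
maxima, and the initial state. -/

namespace Pool.Agent.PD

open PData

/-- specification of the reading of the input -/
theorem init_read (p : PData) (inp : ℕ → ℕ) (hinp : ∀ x, 1 ≤ x → x ≤ p.n → inp x = p.y x) :
    Run p.n cRead (initSt p.n inp)
      (fun s => s.m .y = p.y ∧ s.m .xx = p.xx ∧ s.k = p.n) := by
  rw [cRead, run_blk_cons, run_asg, run_blk_one]
  refine run_whl
    (I := fun s => s.v .x ≤ p.n ∧ s.k = s.v .x ∧ s.io = (initSt p.n inp).io ∧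
      (∀ i, s.m .y i = if i ≤ s.v .x then p.y i else 0) ∧
      (∀ v, s.m .xx v = if p.xx v ≤ s.v .x then p.xx v else 0))
    (μ := fun s => p.n - s.v .x) ?_ ?_ ?_
  · refine ⟨by simp, by simp [initSt], by simp, ?_, ?_⟩
    · intro i
      simp only [setv_m, setv_v_same, Expr.eval_zero]
      split_ifs with h
      · have : i = 0 := by omega
        subst this
        rw [p.y_zero]; rfl
      · rfl
    · intro v
      simp only [setv_m, setv_v_same, Expr.eval_zero]
      split_ifs with h
      · have : p.xx v = 0 := by omega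
        rw [this]; rfl
      · rfl
  · intro s hF hI hlt
    obtain ⟨h1, h2, h3, h4, h5⟩ := hI
    have hn : s.v .n = p.n := by
      rw [hF.v .n (by simp [blk, Cmd.wv])]
      simp [initSt]
    simp only [Expr.eval_var, hn] at hlt
    have hio : s.io (s.v .x + 1) = p.y (s.v .x + 1) := by
      rw [h3]
      simp only [initSt]
      rw [if_pos ⟨by omega, by omega⟩]
      exact hinp _ (by omega) (by omega)
    have hy1 := p.y_mem (s.v .x + 1) (by omega) (by omega)
    have hxy := p.xx_y (s.v .x + 1) (by omega) (by omega)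
    rw [run_blk_cons, run_asg, run_blk_cons, run_inp, run_blk_cons, run_sto, run_blk_one, run_sto]
    simp only [Expr.eval_var, Expr.eval_succ, setv_v_same, setv_io, hio]
    refine ⟨by omega, ⟨?_, ?_, ?_, ?_, ?_⟩, ?_⟩
    · simp; omega
    · simp [h2]
    · simp [h3]
    · intro i
      simp only [tick_m, setv_m, setm_v, tick_v, ne_eq, reduceCtorEq, not_false_eq_true,
        setm_m_ne, setm_m_same, setv_v_ne, setv_v_same, Function.update_apply, h4]
      by_cases hi : i = s.v .x + 1
      · subst hi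
        simp
      · rw [if_neg hi]
        by_cases hi2 : i ≤ s.v .x
        · rw [if_pos hi2, if_pos (by omega)]
        · rw [if_neg hi2, if_neg (by omega)]
    · intro v
      simp only [tick_m, setv_m, setm_v, tick_v, ne_eq, reduceCtorEq, not_false_eq_true,
        setm_m_ne, setm_m_same, setv_v_ne, setv_v_same, Function.update_apply, h5]
      by_cases hi : v = p.y (s.v .x + 1)
      · subst hi
        rw [if_pos rfl, hxy, if_pos le_rfl]
      · rw [if_neg hi]
        by_cases hi2 : p.xx v ≤ s.v .x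
        · rw [if_pos hi2, if_pos (by omega)]
        · rw [if_neg hi2, if_neg]
          intro hc
          apply hi
          have h6 : p.xx v = s.v .x + 1 := by omega
          have h7 : 1 ≤ v ∧ v ≤ p.n := by
            by_contra hc2
            rw [p.xx_out v (by omega)] at h6
            omega
          rw [← h6, p.y_xx v h7.1 h7.2]
    · simp; omega
  · intro s hF hI hlt
    obtain ⟨h1, h2, h3, h4, h5⟩ := hI
    have hn : s.v .n = p.n := by
      rw [hF.v .n (by simp [blk, Cmd.wv])]
      simp [initSt]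
    simp only [Expr.eval_var, hn] at hlt
    have hx : s.v .x = p.n := by omega
    refine ⟨?_, ?_, by rw [h2, hx]⟩
    · funext i
      rw [h4, hx]
      split_ifs with h
      · rfl
      · rw [p.y_out i (by omega)]
    · funext v
      rw [h5, hx, if_pos (p.xx_le v)]

/-- specification of the running maxima -/
theorem init_ur (p : PData) (s₀ : S) (hn : s₀.v .n = p.n) (hy : s₀.m .y = p.y)
    (hx : s₀.m .xx = p.xx) (hu : s₀.m .u 0 = 0) (hr : s₀.m .r 0 = 0) :
    Run p.n cUR s₀ (fun s => (∀ X, X ≤ p.n → s.m .u X = p.u X) ∧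
      (∀ X, X ≤ p.n → s.m .r X = p.r X) ∧ s.k = s₀.k + p.n) := by
  rw [cUR, run_blk_cons, run_asg, run_blk_one]
  refine run_whl
    (I := fun s => s.v .x ≤ p.n ∧ s.k = s₀.k + s.v .x ∧
      (∀ X, X ≤ s.v .x → s.m .u X = p.u X) ∧ (∀ X, X ≤ s.v .x → s.m .r X = p.r X))
    (μ := fun s => p.n - s.v .x) ?_ ?_ ?_
  · refine ⟨by simp, by simp, ?_, ?_⟩
    · intro X hX
      simp only [setv_v_same, Expr.eval_zero] at hX
      have : X = 0 := by omega
      subst this
      rw [setv_m, hu, p.u_zero]
    · intro X hX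
      simp only [setv_v_same, Expr.eval_zero] at hX
      have : X = 0 := by omega
      subst this
      rw [setv_m, hr, p.r_zero]
  · intro s hF hI hlt
    obtain ⟨h1, h2, h3, h4⟩ := hI
    have hn' : s.v .n = p.n := by
      rw [hF.v .n (by simp [blk, Cmd.wv]), setv_v_ne _ _ _ _ (by simp), hn]
    have hy' : s.m .y = p.y := by
      rw [hF.m .y (by simp [blk, Cmd.wm]), setv_m, hy]
    have hx' : s.m .xx = p.xx := by
      rw [hF.m .xx (by simp [blk, Cmd.wm]), setv_m, hx]
    simp only [Expr.eval_var, hn'] at hlt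
    have hus := p.u_succ (s.v .x)
    have hrs := p.r_succ (s.v .x)
    have hu3 := h3 _ le_rfl
    have hr4 := h4 _ le_rfl
    rw [run_blk_cons, run_asg, run_blk_cons]
    have key : Run p.n (.ite (at' .u (.pred (vr .x))) (at' .y (vr .x))
      (.sto .u (vr .x) (at' .y (vr .x))) (.sto .u (vr .x) (at' .u (.pred (vr .x)))))
      (s.setv .x (s.v .x + 1))
      (fun s' => s' = (s.setv .x (s.v .x + 1)).setm .u (s.v .x + 1) (p.u (s.v .x + 1))) := by
      rw [run_ite, run_sto, run_sto]
      simp only [Expr.eval_var, Expr.eval_pred, Expr.eval_arr, setv_v_same, setv_m,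
        hy', Nat.add_sub_cancel, hu3]
      constructor
      · intro h
        rw [hus, max_eq_right (by omega)]
      · intro h
        rw [hus, max_eq_left (by omega)]
    refine Run.mono key ?_
    rintro s' rfl
    rw [run_blk_one]
    have key2 : Run p.n (.ite (at' .r (.pred (vr .x))) (at' .xx (vr .x))
      (.sto .r (vr .x) (at' .xx (vr .x))) (.sto .r (vr .x) (at' .r (.pred (vr .x)))))
      ((s.setv .x (s.v .x + 1)).setm .u (s.v .x + 1) (p.u (s.v .x + 1)))
      (fun s' => s' = ((s.setv .x (s.v .x + 1)).setm .u (s.v .x + 1) (p.u (s.v .x + 1))).setm .r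
        (s.v .x + 1) (p.r (s.v .x + 1))) := by
      rw [run_ite, run_sto, run_sto]
      simp only [Expr.eval_var, Expr.eval_pred, Expr.eval_arr, setm_v, setv_v_same,
        setv_m, ne_eq, reduceCtorEq, not_false_eq_true, setm_m_ne,
        hx', Nat.add_sub_cancel, hr4]
      constructor
      · intro h
        rw [hrs, max_eq_right (by omega)]
      · intro h
        rw [hrs, max_eq_left (by omega)]
    refine Run.mono key2 ?_
    rintro s' rfl
    refine ⟨⟨?_, ?_, ?_, ?_⟩, ?_⟩
    · simp; omega
    · simp [h2]; omega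
    · intro X hX
      simp only [tick_v, setm_v, setv_v_same] at hX
      simp only [tick_m, setv_m, ne_eq, reduceCtorEq, not_false_eq_true,
        setm_m_ne, setm_m_same, Function.update_apply]
      split_ifs with h
      · rw [h]
      · exact h3 X (by omega)
    · intro X hX
      simp only [tick_v, setm_v, setv_v_same] at hX
      simp only [tick_m, setv_m, ne_eq, reduceCtorEq, not_false_eq_true,
        setm_m_ne, setm_m_same, Function.update_apply]
      split_ifs with h
      · rw [h]
      · exact h4 X (by omega)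
    · simp; omega
  · intro s hF hI hlt
    obtain ⟨h1, h2, h3, h4⟩ := hI
    have hn' : s.v .n = p.n := by
      rw [hF.v .n (by simp [blk, Cmd.wv]), setv_v_ne _ _ _ _ (by simp), hn]
    simp only [Expr.eval_var, hn'] at hlt
    have hx : s.v .x = p.n := by omega
    rw [hx] at h2 h3 h4
    exact ⟨h3, h4, h2⟩

/-- specification of the maxima to the right -/
theorem init_sm (p : PData) (s₀ : S) (hn : s₀.v .n = p.n) (hy : s₀.m .y = p.y)
    (hs : s₀.m .sm p.n = 0) :
    Run p.n cSM s₀ (fun s => (∀ X, X ≤ p.n → s.m .sm X = p.sm X) ∧ s.k = s₀.k + p.n) := by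
  rw [cSM, run_blk_cons, run_asg, run_blk_one]
  refine run_whl
    (I := fun s => s.v .x ≤ p.n ∧ s.k + s.v .x = s₀.k + p.n ∧
      (∀ X, s.v .x ≤ X → X ≤ p.n → s.m .sm X = p.sm X))
    (μ := fun s => s.v .x) ?_ ?_ ?_
  · refine ⟨by simp [hn], by simp [hn], ?_⟩
    intro X hX hX2
    simp only [setv_v_same, Expr.eval_var, hn] at hX
    have : X = p.n := by omega
    subst this
    rw [setv_m, hs, p.sm_n]
  · intro s hF hI hlt
    obtain ⟨h1, h2, h3⟩ := hI
    have hy' : s.m .y = p.y := by
      rw [hF.m .y (by simp [blk, Cmd.wm]), setv_m, hy]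
    simp only [Expr.eval_var, Expr.eval_zero] at hlt
    have hsp := p.sm_pred (X := s.v .x) (by omega) h1
    have hs3 := h3 _ le_rfl h1
    rw [run_blk_cons]
    have key : Run p.n (.ite (at' .sm (vr .x)) (at' .y (vr .x))
      (.sto .sm (.pred (vr .x)) (at' .y (vr .x)))
      (.sto .sm (.pred (vr .x)) (at' .sm (vr .x)))) s
      (fun s' => s' = s.setm .sm (s.v .x - 1) (p.sm (s.v .x - 1))) := by
      rw [run_ite, run_sto, run_sto]
      simp only [Expr.eval_var, Expr.eval_pred, Expr.eval_arr, hy', hs3]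
      constructor
      · intro h
        rw [hsp, max_eq_right (by omega)]
      · intro h
        rw [hsp, max_eq_left (by omega)]
    refine Run.mono key ?_
    rintro s' rfl
    rw [run_blk_one, run_asg]
    simp only [Expr.eval_var, Expr.eval_pred, setm_v]
    refine ⟨⟨?_, ?_, ?_⟩, ?_⟩
    · simp; omega
    · simp; omega
    · intro X hX hX2
      simp only [tick_v, setv_v_same] at hX
      simp only [tick_m, setv_m, setm_m_same, Function.update_apply]
      split_ifs with h
      · rw [h]
      · exact h3 X (by omega) hX2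
    · simp; omega
  · intro s hF hI hlt
    obtain ⟨h1, h2, h3⟩ := hI
    simp only [Expr.eval_var, Expr.eval_zero] at hlt
    have hx : s.v .x = 0 := by omega
    rw [hx] at h2 h3
    exact ⟨fun X hX => h3 X (Nat.zero_le _) hX, h2⟩

/-- the root state is valid -/
theorem init_valid_root (p : PData) : p.Valid 0 0 ∅ where
  mem := by simp
  und := fun x hx => ⟨hx.1, (p.y_mem x hx.1 hx.2.1).1⟩
  xr := Nat.zero_le _
  yu := Nat.zero_le _

theorem init_dom_zero {p : PData} {t X Y : ℕ} (h : p.Dom t X Y) (ht : t = 0) : X = 0 ∧ Y = 0 := by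
  induction h with
  | zero => exact ⟨rfl, rfl⟩
  | mono _ h1 h2 ih =>
    obtain ⟨h3, h4⟩ := ih ht
    exact ⟨by omega, by omega⟩
  | succ _ _ => omega
  | moveR _ _ => omega
  | moveU _ _ => omega
  | moveC _ _ _ => omega
  | moveP _ _ _ => omega

/-- the initial phase of the program establishes the invariant of the levels -/
theorem init_spec (p : PData) (inp : ℕ → ℕ) (hinp : ∀ x, 1 ≤ x → x ≤ p.n → inp x = p.y x) :
    Run p.n (blk [cRead, cUR, cSM, cRoot]) (initSt p.n inp)
      (fun s => LInv p s 0 ∧ LCost p s 0 ∧ s.v .don = 0) := by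
  rw [run_blk_cons]
  refine Run.mono (init_read p inp hinp).addFrame ?_
  rintro s1 ⟨F1, hy1, hx1, hk1⟩
  have hv1 : ∀ x, x ≠ .x → x ≠ .T → x ≠ .n → s1.v x = 0 := by
    intro x h1 h2 h3
    rw [F1.v x (by simp [cRead, blk, Cmd.wv, h1, h2])]
    simp [initSt, h3]
  have hn1 : s1.v .n = p.n := by
    rw [F1.v .n (by simp [cRead, blk, Cmd.wv])]
    simp [initSt]
  have hm1 : ∀ B, B ≠ .y → B ≠ .xx → s1.m B = fun _ => 0 := by
    intro B h1 h2
    rw [F1.m B (by simp [cRead, blk, Cmd.wm, h1, h2])]
    rfl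
  rw [run_blk_cons]
  refine Run.mono (init_ur p s1 hn1 hy1 hx1 (by rw [hm1 _ (by simp) (by simp)])
    (by rw [hm1 _ (by simp) (by simp)])).addFrame ?_
  rintro s2 ⟨F2, hu2, hr2, hk2⟩
  have hv2 : ∀ x, x ≠ .x → s2.v x = s1.v x := by
    intro x h1
    rw [F2.v x (by simp [cUR, blk, Cmd.wv, h1])]
  have hm2 : ∀ B, B ≠ .u → B ≠ .r → s2.m B = s1.m B := by
    intro B h1 h2
    rw [F2.m B (by simp [cUR, blk, Cmd.wm, h1, h2])]
  rw [run_blk_cons]
  refine Run.mono (init_sm p s2 (by rw [hv2 _ (by simp), hn1])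
    (by rw [hm2 _ (by simp) (by simp), hy1])
    (by rw [hm2 _ (by simp) (by simp), hm1 _ (by simp) (by simp)])).addFrame ?_
  rintro s3 ⟨F3, hs3, hk3⟩
  have hv3 : ∀ x, x ≠ .x → s3.v x = s2.v x := by
    intro x h1
    rw [F3.v x (by simp [cSM, blk, Cmd.wv, h1])]
  have hm3 : ∀ B, B ≠ .sm → s3.m B = s2.m B := by
    intro B h1
    rw [F3.m B (by simp [cSM, blk, Cmd.wm, h1])]
  rw [run_blk_one, cRoot, run_blk_cons, run_asg, run_blk_cons, run_asg, run_blk_cons, run_sto,
    run_blk_one, run_asg]
  simp only [Expr.eval_var, Expr.eval_succ, Expr.eval_zero, Nat.zero_add]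
  -- the final state
  set s4 : S := (((s3.setv .N1 (s3.v .n + 1)).setv .cnt 1).setm .best 0 1).setv .bId 1 with hs4
  have hn3 : s3.v .n = p.n := by rw [hv3 _ (by simp), hv2 _ (by simp), hn1]
  have V : ∀ x, x ≠ .x → x ≠ .T → x ≠ .n → x ≠ .N1 → x ≠ .cnt → x ≠ .bId → s4.v x = 0 := by
    intro x h1 h2 h3 h4 h5 h6
    rw [hs4, setv_v_ne _ _ _ _ h6, setm_v, setv_v_ne _ _ _ _ h5, setv_v_ne _ _ _ _ h4,
      hv3 _ h1, hv2 _ h1, hv1 _ h1 h2 h3]
  have M : ∀ B, B ≠ .best → s4.m B = s3.m B := by
    intro B h1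
    rw [hs4, setv_m, setm_m_ne _ _ _ _ _ h1, setv_m, setv_m]
  have M0 : ∀ B, B ≠ .best → B ≠ .sm → B ≠ .u → B ≠ .r → B ≠ .y → B ≠ .xx →
      s4.m B = fun _ => 0 := by
    intro B h1 h2 h3 h4 h5 h6
    rw [M B h1, hm3 B h2, hm2 B h3 h4, hm1 B h5 h6]
  have Va : s4.v .a = 0 := V _ (by simp) (by simp) (by simp) (by simp) (by simp) (by simp)
  have Vb : s4.v .b = 0 := V _ (by simp) (by simp) (by simp) (by simp) (by simp) (by simp)
  have Va1 : s4.v .a1 = 0 := V _ (by simp) (by simp) (by simp) (by simp) (by simp) (by simp)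
  have Vb1 : s4.v .b1 = 0 := V _ (by simp) (by simp) (by simp) (by simp) (by simp) (by simp)
  have Vqa : s4.v .qa = 0 := V _ (by simp) (by simp) (by simp) (by simp) (by simp) (by simp)
  have Vqb : s4.v .qb = 0 := V _ (by simp) (by simp) (by simp) (by simp) (by simp) (by simp)
  have Vqc : s4.v .qc = 0 := V _ (by simp) (by simp) (by simp) (by simp) (by simp) (by simp)
  have Vdon : s4.v .don = 0 := V _ (by simp) (by simp) (by simp) (by simp) (by simp) (by simp)
  have Vn : s4.v .n = p.n := by
    rw [hs4, setv_v_ne _ _ _ _ (by simp), setm_v, setv_v_ne _ _ _ _ (by simp),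
      setv_v_ne _ _ _ _ (by simp), hn3]
  have VN1 : s4.v .N1 = p.n + 1 := by
    rw [hs4, setv_v_ne _ _ _ _ (by simp), setm_v, setv_v_ne _ _ _ _ (by simp), setv_v_same, hn3]
  have Vcnt : s4.v .cnt = 1 := by
    rw [hs4, setv_v_ne _ _ _ _ (by simp), setm_v, setv_v_same]
  have VbId : s4.v .bId = 1 := by
    rw [hs4, setv_v_same]
  have Mbest : ∀ x, s4.m .best x = if x = 0 then 1 else 0 := by
    intro x
    rw [hs4, setv_m, setm_m_same, setv_m, setv_m, hm3 _ (by simp), hm2 _ (by simp) (by simp),
      hm1 _ (by simp) (by simp), Function.update_apply]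
  have MSX : s4.m .SX = fun _ => 0 :=
    M0 _ (by simp) (by simp) (by simp) (by simp) (by simp) (by simp)
  have MSY : s4.m .SY = fun _ => 0 :=
    M0 _ (by simp) (by simp) (by simp) (by simp) (by simp) (by simp)
  have Mhb : s4.m .hb = fun _ => 0 :=
    M0 _ (by simp) (by simp) (by simp) (by simp) (by simp) (by simp)
  have Mout : s4.m .out = fun _ => 0 :=
    M0 _ (by simp) (by simp) (by simp) (by simp) (by simp) (by simp)
  have K : s4.k = 3 * p.n := by
    have : s4.k = s3.k := rfl
    rw [this, hk3, hk2, hk1]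
    omega
  have R : Rep p s4 1 0 0 0 := by
    refine ⟨le_rfl, by rw [Vcnt], by rw [MSX], by rw [MSY], ∅, 0, HasD.root, le_rfl, by simp,
      init_valid_root p⟩
  clear_value s4
  refine ⟨?_, ?_, Vdon⟩
  · refine
      { stat := ⟨Vn, VN1, ?_, ?_, ?_, ?_, ?_, Mout, by rw [MSY]⟩
        a_le := by omega
        b_le := by omega
        a1_le := by omega
        b1_le := by omega
        t_le := by omega
        cln := ?_
        hbcln := ?_
        fr := ?_
        ba := ?_
        bid := ?_
        cov := ?_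
        qle := by omega
        qbc := by omega
        que := ?_
        qcov := ?_
        low := fun D _ => Nat.zero_le _ }
    · rw [M _ (by simp), hm3 _ (by simp), hm2 _ (by simp) (by simp), hy1]
    · rw [M _ (by simp), hm3 _ (by simp), hm2 _ (by simp) (by simp), hx1]
    · intro X hX
      rw [M _ (by simp), hm3 _ (by simp), hu2 X hX]
    · intro X hX
      rw [M _ (by simp), hm3 _ (by simp), hr2 X hX]
    · intro X hX
      rw [M _ (by simp), hs3 X hX]
    · intro x hx
      rw [Mbest, if_neg (by omega)]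
    · intro x hx
      rw [Mhb]
    · intro x hx1 hx2 hx3
      have hx0 : x = 0 := by omega
      subst hx0
      rw [Mbest, if_pos rfl, MSY, Vb, Vb1]
      exact ⟨R, le_rfl, le_rfl⟩
    · rw [Mbest, Va, if_pos rfl]
      exact one_ne_zero
    · refine ⟨0, Nat.zero_le _, ?_⟩
      rw [VbId, Vb]
      exact R
    · intro X Y hD
      obtain ⟨rfl, rfl⟩ := init_dom_zero hD rfl
      exact ⟨0, by omega, by omega, by rw [Mbest, if_pos rfl]; exact one_ne_zero, le_rfl,
        Nat.zero_le _⟩
    · intro z h1 h2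
      omega
    · intro t' ht'
      omega
  · unfold LCost
    rw [K, Va, Vb, Va1, Vb1, Vqa, Vqb]

end Pool.Agent.PD
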