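import Mathlib

/-! Permutation data and the combinatorial notions of the algorithm.
Points are `(x, y x)` for `1 ≤ x ≤ n`; a point is named by its abscissa `x`. -/

namespace Pool.Agent.PD

/-- a permutation of `{1, …, n}` and its inverse, both extended by `0` -/
structure PData where
  n : ℕ
  y : ℕ → ℕ
  xx : ℕ → ℕ
  y_mem : ∀ x, 1 ≤ x → x ≤ n → 1 ≤ y x ∧ y x ≤ n
  xx_mem : ∀ v, 1 ≤ v → v ≤ n → 1 ≤ xx v ∧ xx v ≤ n
  xx_y : ∀ x, 1 ≤ x → x ≤ n → xx (y x) = x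
  y_xx : ∀ v, 1 ≤ v → v ≤ n → y (xx v) = v
  y_out : ∀ x, (x = 0 ∨ n < x) → y x = 0
  xx_out : ∀ v, (v = 0 ∨ n < v) → xx v = 0

namespace PData

variable (p : PData)

/-- exchange of the two coordinates -/
def swap : PData where
  n := p.n
  y := p.xx
  xx := p.y
  y_mem := p.xx_mem
  xx_mem := p.y_mem
  xx_y := p.y_xx
  y_xx := p.xx_y
  y_out := p.xx_out
  xx_out := p.y_out

@[simp] theorem swap_n : p.swap.n = p.n := rfl
@[simp] theorem swap_y : p.swap.y = p.xx := rfl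
@[simp] theorem swap_xx : p.swap.xx = p.y := rfl
@[simp] theorem swap_swap : p.swap.swap = p := rfl

/-- largest `y x` with `x ≤ X` -/
def u (X : ℕ) : ℕ := (Finset.range (X + 1)).sup p.y

/-- largest `x` with `y x ≤ Y` -/
def r (Y : ℕ) : ℕ := (Finset.range (Y + 1)).sup p.xx

/-- largest `y x` with `X < x` -/
def sm (X : ℕ) : ℕ := (Finset.Ioc X p.n).sup p.y

theorem swap_u : p.swap.u = p.r := rfl
theorem swap_r : p.swap.r = p.u := rfl

theorem y_le (x : ℕ) : p.y x ≤ p.n := by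
  by_cases h : 1 ≤ x ∧ x ≤ p.n
  · exact (p.y_mem x h.1 h.2).2
  · rw [p.y_out x (by omega)]; exact Nat.zero_le _

theorem xx_le (x : ℕ) : p.xx x ≤ p.n := p.swap.y_le x

theorem y_zero : p.y 0 = 0 := p.y_out 0 (Or.inl rfl)
theorem xx_zero : p.xx 0 = 0 := p.xx_out 0 (Or.inl rfl)

/-- `x ↦ y x` is injective on the points -/
theorem y_inj {x x' : ℕ} (hx : 1 ≤ x) (hxn : x ≤ p.n) (hx' : 1 ≤ x') (hxn' : x' ≤ p.n)
    (h : p.y x = p.y x') : x = x' := by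
  rw [← p.xx_y x hx hxn, ← p.xx_y x' hx' hxn', h]

/-- a positive value of `y` comes from a point -/
theorem pos_of_y_pos {x : ℕ} (h : 0 < p.y x) : 1 ≤ x ∧ x ≤ p.n := by
  by_contra hc
  rw [p.y_out x (by omega)] at h
  exact absurd h (lt_irrefl 0)

theorem y_le_u {x X : ℕ} (h : x ≤ X) : p.y x ≤ p.u X :=
  Finset.le_sup (f := p.y) (Finset.mem_range.2 (by omega))

theorem xx_le_r {v Y : ℕ} (h : v ≤ Y) : p.xx v ≤ p.r Y := p.swap.y_le_u h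

theorem u_le {X c : ℕ} (h : ∀ x, x ≤ X → p.y x ≤ c) : p.u X ≤ c :=
  Finset.sup_le (fun x hx => h x (by rw [Finset.mem_range] at hx; omega))

theorem r_le {Y c : ℕ} (h : ∀ v, v ≤ Y → p.xx v ≤ c) : p.r Y ≤ c := p.swap.u_le h

theorem u_mono {X X' : ℕ} (h : X ≤ X') : p.u X ≤ p.u X' :=
  p.u_le (fun _ hx => p.y_le_u (hx.trans h))

theorem r_mono {Y Y' : ℕ} (h : Y ≤ Y') : p.r Y ≤ p.r Y' := p.swap.u_mono h

theorem u_le_n (X : ℕ) : p.u X ≤ p.n := p.u_le (fun x _ => p.y_le x)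
theorem r_le_n (Y : ℕ) : p.r Y ≤ p.n := p.swap.u_le_n Y

theorem u_zero : p.u 0 = 0 := by
  have : p.u 0 ≤ 0 := p.u_le (fun x hx => by
    have : x = 0 := by omega
    rw [this, p.y_zero])
  omega

theorem r_zero : p.r 0 = 0 := p.swap.u_zero

/-- the maximum is attained -/
theorem exists_u (X : ℕ) : ∃ x, x ≤ X ∧ p.y x = p.u X := by
  obtain ⟨x, hx, h⟩ := Finset.exists_mem_eq_sup (Finset.range (X + 1)) ⟨0, by simp⟩ p.y
  exact ⟨x, by rw [Finset.mem_range] at hx; omega, h.symm⟩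

theorem exists_r (Y : ℕ) : ∃ v, v ≤ Y ∧ p.xx v = p.r Y := p.swap.exists_u Y

theorem u_pos {X : ℕ} (h1 : 1 ≤ X) (h2 : 1 ≤ p.n) : 1 ≤ p.u X :=
  (p.y_mem 1 le_rfl h2).1.trans (p.y_le_u h1)

theorem r_pos {Y : ℕ} (h1 : 1 ≤ Y) (h2 : 1 ≤ p.n) : 1 ≤ p.r Y := p.swap.u_pos h1 h2

/-- the point of maximal ordinate among the first `X` -/
theorem xx_u_le (X : ℕ) : p.xx (p.u X) ≤ X := by
  obtain ⟨x, hx, h⟩ := p.exists_u X
  rw [← h]
  by_cases hc : 1 ≤ x ∧ x ≤ p.n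
  · rw [p.xx_y x hc.1 hc.2]; exact hx
  · rw [p.y_out x (by omega), p.xx_zero]; exact Nat.zero_le _

theorem y_r_le (Y : ℕ) : p.y (p.r Y) ≤ Y := p.swap.xx_u_le Y

theorem y_xx_u (X : ℕ) : p.y (p.xx (p.u X)) = p.u X := by
  by_cases hc : 1 ≤ p.u X
  · exact p.y_xx _ hc (p.u_le_n X)
  · have : p.u X = 0 := by omega
    rw [this, p.xx_zero, p.y_zero]

theorem xx_y_r (Y : ℕ) : p.xx (p.y (p.r Y)) = p.r Y := p.swap.y_xx_u Y

theorem le_r {x Y : ℕ} (hx : 1 ≤ x) (hn : x ≤ p.n) (h : p.y x ≤ Y) : x ≤ p.r Y := by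
  have := p.xx_le_r h
  rwa [p.xx_y x hx hn] at this

theorem u_succ (X : ℕ) : p.u (X + 1) = max (p.u X) (p.y (X + 1)) := by
  apply le_antisymm
  · refine p.u_le (fun x hx => ?_)
    rcases Nat.lt_or_ge X x with h | h
    · have : x = X + 1 := by omega
      rw [this]; exact le_max_right _ _
    · exact le_max_of_le_left (p.y_le_u h)
  · exact max_le (p.u_mono (Nat.le_succ X)) (p.y_le_u le_rfl)

theorem r_succ (Y : ℕ) : p.r (Y + 1) = max (p.r Y) (p.xx (Y + 1)) := p.swap.u_succ Y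

theorem y_le_sm {x X : ℕ} (h : X < x) (hn : x ≤ p.n) : p.y x ≤ p.sm X :=
  Finset.le_sup (f := p.y) (Finset.mem_Ioc.2 ⟨h, hn⟩)

theorem sm_le {X c : ℕ} (h : ∀ x, X < x → x ≤ p.n → p.y x ≤ c) : p.sm X ≤ c :=
  Finset.sup_le (fun x hx => h x (Finset.mem_Ioc.1 hx).1 (Finset.mem_Ioc.1 hx).2)

theorem sm_le_iff {X c : ℕ} : p.sm X ≤ c ↔ ∀ x, X < x → x ≤ p.n → p.y x ≤ c :=
  ⟨fun h x h1 h2 => (p.y_le_sm h1 h2).trans h, p.sm_le⟩

theorem sm_n : p.sm p.n = 0 := by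
  have : p.sm p.n ≤ 0 := p.sm_le (fun x h1 h2 => by omega)
  omega

theorem sm_pred {X : ℕ} (h1 : 1 ≤ X) (h2 : X ≤ p.n) : p.sm (X - 1) = max (p.sm X) (p.y X) := by
  apply le_antisymm
  · refine p.sm_le (fun x hx hn => ?_)
    rcases Nat.lt_or_ge X x with h | h
    · exact le_max_of_le_left (p.y_le_sm h hn)
    · have : x = X := by omega
      rw [this]; exact le_max_right _ _
  · refine max_le (p.sm_le (fun x hx hn => p.y_le_sm (by omega) hn)) (p.y_le_sm (by omega) h2)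

/-- `x` is a point different from and not adjacent to any point of `D` -/
def Und (D : Finset ℕ) (x : ℕ) : Prop :=
  1 ≤ x ∧ x ≤ p.n ∧ ∀ d ∈ D, (x < d ∧ p.y x < p.y d) ∨ (d < x ∧ p.y d < p.y x)

/-- `(X, Y)` is a state of the set `D` of points: `D` lies in `[1, X] × [1, Y]` and the points
not dominated by `D` are those of the quadrant `(X, ∞) × (Y, ∞)` -/
structure Valid (X Y : ℕ) (D : Finset ℕ) : Prop where
  mem : ∀ d ∈ D, 1 ≤ d ∧ d ≤ p.n ∧ d ≤ X ∧ p.y d ≤ Y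
  und : ∀ x, p.Und D x → X < x ∧ Y < p.y x
  xr : X ≤ p.r Y
  yu : Y ≤ p.u X

/-- add a point (`0` stands for no point) -/
def addp (q : ℕ) (D : Finset ℕ) : Finset ℕ := if q = 0 then D else insert q D

/-- `q` is a minimal point of the quadrant of `(X, Y)` -/
def MinPt (X Y q : ℕ) : Prop :=
  X < q ∧ q ≤ p.n ∧ Y < p.y q ∧ ∀ x, X < x → x < q → Y < p.y x → p.y q < p.y x

/-- `x₁`, `x₂` are points of the quadrant of `(X, Y)`, the second South East of the first,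
and there are no points South West of both in the quadrant -/
def PairPt (X Y x₁ x₂ : ℕ) : Prop :=
  X < x₁ ∧ x₁ < x₂ ∧ x₂ ≤ p.n ∧ Y < p.y x₂ ∧ p.y x₂ < p.y x₁ ∧
    ∀ x, X < x → x < x₁ → Y < p.y x → p.y x₂ ≤ p.y x

/-- the pairs that can be reached with `t` points by the moves of the algorithm -/
inductive Dom : ℕ → ℕ → ℕ → Prop where
  | zero : Dom 0 0 0
  | mono {t X Y X' Y' : ℕ} : Dom t X Y → X' ≤ X → Y' ≤ Y → Dom t X' Y'
  | succ {t X Y : ℕ} : Dom t X Y → Dom (t + 1) X Y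
  | moveR {t X Y : ℕ} : Dom t X Y → Dom (t + 1) (p.r Y) Y
  | moveU {t X Y : ℕ} : Dom t X Y → Dom (t + 1) X (p.u X)
  | moveC {t X Y q : ℕ} : Dom t X Y → p.MinPt X Y q → Dom (t + 1) q (p.y q)
  | moveP {t X Y x₁ x₂ : ℕ} : Dom t X Y → p.PairPt X Y x₁ x₂ → Dom (t + 2) x₂ (p.y x₁)

/-- results of the moves of cost 2 -/
def Pair (t X Y : ℕ) : Prop :=
  ∃ X₀ Y₀ x₁ x₂, p.Dom t X₀ Y₀ ∧ p.PairPt X₀ Y₀ x₁ x₂ ∧ X = x₂ ∧ Y = p.y x₁

/-- `D` is a dominating set -/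
def Dominating (D : Finset ℕ) : Prop :=
  (∀ d ∈ D, 1 ≤ d ∧ d ≤ p.n) ∧ ∀ x, ¬ p.Und D x

/-- `m` is the least abscissa `> a` of a point with ordinate in `(Y₁, Y₂]`, or `n + 1` -/
def IsMinX (a Y₁ Y₂ m : ℕ) : Prop :=
  (∀ x, a < x → x ≤ p.n → Y₁ < p.y x → p.y x ≤ Y₂ → m ≤ x) ∧
    (m = p.n + 1 ∨ (a < m ∧ m ≤ p.n ∧ Y₁ < p.y m ∧ p.y m ≤ Y₂))

/-- `m` is the least ordinate `> b` of a point with abscissa in `(X₁, X₂]`, or `n + 1` -/
def IsMinY (b X₁ X₂ m : ℕ) : Prop :=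
  (∀ x, X₁ < x → x ≤ X₂ → b < p.y x → m ≤ p.y x) ∧
    (m = p.n + 1 ∨ (b < m ∧ m ≤ p.n ∧ X₁ < p.xx m ∧ p.xx m ≤ X₂))

/-- the data of a good state `(X, Y)` of the frontier with maxima `a`, `b` -/
structure GoodSt (a b X Y h w : ℕ) : Prop where
  xa : X ≤ a
  yb : Y ≤ b
  good : ∀ x, X < x → x ≤ a → p.y x ≤ b → p.y x ≤ Y
  hh : p.IsMinY b X a h
  ww : p.IsMinX a Y b w

end PData

end Pool.Agent.PD
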