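import Pool.Agent.PD.Prog
import Pool.Agent.PD.Perm

/-! Invariants of the program. -/

namespace Pool.Agent.PD

open PData

/-- the initial state of the high level program -/
def initSt (N : ℕ) (inp : ℕ → ℕ) : S where
  v := fun x => if x = .n then N else 0
  m := fun _ _ => 0
  io := fun i => if 1 ≤ i ∧ i ≤ N then inp i else 0
  k := 0

/-- `HasD par p1 p2 i D l`: the state number `i` has the set `D` of points, `l` steps
from the root -/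
inductive HasD (par p1 p2 : ℕ → ℕ) : ℕ → Finset ℕ → ℕ → Prop where
  | root : HasD par p1 p2 1 ∅ 0
  | step {i l : ℕ} {D : Finset ℕ} : 1 < i → par i < i → HasD par p1 p2 (par i) D l →
      HasD par p1 p2 i (addp (p1 i) (addp (p2 i) D)) (l + 1)

/-- state number `i` is recorded as `(X, Y)`, with a set of at most `c` points -/
structure Rep (p : PData) (s : S) (i X Y c : ℕ) : Prop where
  pos : 1 ≤ i
  le : i ≤ s.v .cnt
  sx : s.m .SX i = X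
  sy : s.m .SY i = Y
  has : ∃ D l, HasD (s.m .par) (s.m .p1) (s.m .p2) i D l ∧ l ≤ c ∧ D.card ≤ c ∧ p.Valid X Y D

/-- `s'` has all records of `s` -/
structure Ext (s s' : S) : Prop where
  cnt : s.v .cnt ≤ s'.v .cnt
  SX : ∀ i, i ≤ s.v .cnt → s'.m .SX i = s.m .SX i
  SY : ∀ i, i ≤ s.v .cnt → s'.m .SY i = s.m .SY i
  par : ∀ i, i ≤ s.v .cnt → s'.m .par i = s.m .par i
  p1 : ∀ i, i ≤ s.v .cnt → s'.m .p1 i = s.m .p1 i
  p2 : ∀ i, i ≤ s.v .cnt → s'.m .p2 i = s.m .p2 i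

/-- the static part of the state -/
structure Static (p : PData) (s : S) : Prop where
  n : s.v .n = p.n
  N1 : s.v .N1 = p.n + 1
  y : s.m .y = p.y
  xx : s.m .xx = p.xx
  u : ∀ X, X ≤ p.n → s.m .u X = p.u X
  r : ∀ Y, Y ≤ p.n → s.m .r Y = p.r Y
  sm : ∀ X, X ≤ p.n → s.m .sm X = p.sm X
  out : s.m .out = fun _ => 0
  SY0 : s.m .SY 0 = 0

/-- the state `(X, Y)` is covered by the current frontier -/
def Cov (s : S) (X Y : ℕ) : Prop :=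
  ∃ x, s.v .a1 ≤ x ∧ x ≤ s.v .a ∧ s.m .best x ≠ 0 ∧ X ≤ x ∧ Y ≤ s.m .SY (s.m .best x)

/-- the state `(X, Y)` is covered by the part `[q₁, q₂)` of the queue -/
def QCov (s : S) (q₁ q₂ X Y : ℕ) : Prop :=
  ∃ z, q₁ ≤ z ∧ z < q₂ ∧ X ≤ s.m .SX (s.m .DQ z) ∧ Y ≤ s.m .SY (s.m .DQ z)

/-- all entries of the part `[q₁, q₂)` of the queue are records of cost `≤ c` -/
def QRep (p : PData) (s : S) (q₁ q₂ c : ℕ) : Prop :=
  ∀ z, q₁ ≤ z → z < q₂ → Rep p s (s.m .DQ z) (s.m .SX (s.m .DQ z)) (s.m .SY (s.m .DQ z)) c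

/-- the invariant at the beginning of level `t` -/
structure LInv (p : PData) (s : S) (t : ℕ) : Prop where
  stat : Static p s
  a_le : s.v .a ≤ p.n
  b_le : s.v .b ≤ p.n
  a1_le : s.v .a1 ≤ s.v .a
  b1_le : s.v .b1 ≤ s.v .b
  t_le : t ≤ s.v .a
  cln : ∀ x, s.v .a < x → s.m .best x = 0
  hbcln : ∀ x, s.v .a < x → s.m .hb x = 0
  fr : ∀ x, s.v .a1 ≤ x → x ≤ s.v .a → s.m .best x ≠ 0 →
    Rep p s (s.m .best x) x (s.m .SY (s.m .best x)) t ∧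
      s.v .b1 ≤ s.m .SY (s.m .best x) ∧ s.m .SY (s.m .best x) ≤ s.v .b
  ba : s.m .best (s.v .a) ≠ 0
  bid : ∃ X, X ≤ s.v .a ∧ Rep p s (s.v .bId) X (s.v .b) t
  cov : ∀ X Y, p.Dom t X Y → Cov s X Y
  qle : s.v .qa ≤ s.v .qb
  qbc : s.v .qc = s.v .qb
  que : QRep p s (s.v .qa) (s.v .qb) (t + 1)
  qcov : ∀ t', t' + 1 = t → ∀ X Y, p.Pair t' X Y →
    (X ≤ s.v .a ∧ Y ≤ p.u (s.v .a)) ∨ (X ≤ p.r (s.v .b) ∧ Y ≤ s.v .b) ∨
      QCov s (s.v .qa) (s.v .qb) X Y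
  low : ∀ D, p.Dominating D → t ≤ D.card

/-- the bound for the number of loop iterations at the beginning of level `t` -/
def LCost (p : PData) (s : S) (t : ℕ) : Prop :=
  s.k + (s.v .qb - s.v .qa) ≤ 3 * p.n + 4 * (s.v .a + s.v .a1 + s.v .b + s.v .b1) + 4 * t

/-- the state `(X, Y)` is covered by the new frontier (under construction) -/
def CovN (p : PData) (s : S) (X Y : ℕ) : Prop :=
  (X ≤ s.v .a ∧ Y ≤ p.u (s.v .a)) ∨
    ∃ x, s.v .a < x ∧ x ≤ p.n ∧ s.m .best x ≠ 0 ∧ X ≤ x ∧ Y ≤ s.m .SY (s.m .best x)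

/-- the new frontier of level `t + 1`, under construction -/
structure NFr (p : PData) (s : S) (t : ℕ) : Prop where
  stat : Static p s
  a_le : s.v .a ≤ p.n
  b_le : s.v .b ≤ p.n
  U : Rep p s (s.v .U) (s.v .a) (p.u (s.v .a)) (t + 1)
  new : ∀ x, s.v .a < x → s.m .best x ≠ 0 →
    Rep p s (s.m .best x) x (s.m .SY (s.m .best x)) (t + 1) ∧
      s.v .b ≤ s.m .SY (s.m .best x) ∧ s.m .SY (s.m .best x) ≤ s.v .bn ∧ x ≤ s.v .an
  nb : ∃ X, X ≤ s.v .an ∧ Rep p s (s.v .nb) X (s.v .bn) (t + 1)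
  an_ge : s.v .a ≤ s.v .an
  an_r : p.r (s.v .b) ≤ s.v .an
  an_le : s.v .an ≤ p.n
  an_at : s.v .an = s.v .a ∨ s.m .best (s.v .an) ≠ 0
  bn_b : s.v .b ≤ s.v .bn
  bn_u : p.u (s.v .a) ≤ s.v .bn
  bn_le : s.v .bn ≤ p.n
  R : CovN p s (p.r (s.v .b)) (s.v .b)

/-- every good state of the frontier with next abscissa `w` below has `h ≤ hb[w]` -/
def HbCompl (p : PData) (s : S) : Prop :=
  ∀ x, s.v .a1 ≤ x → x ≤ s.v .a → s.m .best x ≠ 0 → ∀ h w,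
    p.GoodSt (s.v .a) (s.v .b) x (s.m .SY (s.m .best x)) h w → h ≤ s.m .hb w

/-- every entry `hb[w] ≠ 0` comes from a good state -/
def HbSound (p : PData) (s : S) (t : ℕ) : Prop :=
  ∀ w, s.v .a < w → s.m .hb w ≠ 0 → ∃ X Y, Rep p s (s.m .hbid w) X Y t ∧
    p.GoodSt (s.v .a) (s.v .b) X Y (s.m .hb w) w

/-- the same, with the information that the good state is in the frontier -/
def HbStrong (p : PData) (s : S) : Prop :=
  ∀ w, s.v .a < w → s.m .hb w ≠ 0 → ∃ x, s.v .a1 ≤ x ∧ x ≤ s.v .a ∧ s.m .best x ≠ 0 ∧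
    s.m .hbid w = s.m .best x ∧
    p.GoodSt (s.v .a) (s.v .b) x (s.m .SY (s.m .best x)) (s.m .hb w) w

/-- the arrays `W`, `ax`, `ay` of the level -/
structure WA (p : PData) (s : S) : Prop where
  W : ∀ v, s.v .b1 ≤ v → v ≤ s.v .b → p.IsMinX (s.v .a) v (s.v .b) (s.m .W v)
  ax : ∀ v, s.v .b ≤ v → v ≤ p.u (s.v .a) → p.IsMinX (s.v .a) (s.v .b) v (s.m .ax v)
  ay : ∀ x, s.v .a ≤ x → x ≤ p.r (s.v .b) → p.IsMinY (s.v .b) (s.v .a) x (s.m .ay x)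

/-- what the scan over the frontier achieves -/
structure ScanPost (p : PData) (s s' : S) (t : ℕ) : Prop where
  stat : Static p s'
  ext : Ext s s'
  don0 : s'.v .don = 0 → ∀ x, s.v .a1 ≤ x → x ≤ s.v .a → s.m .best x ≠ 0 →
    s.m .SY (s.m .best x) < p.sm x
  don1 : s'.v .don ≠ 0 → ∃ X Y, Rep p s' (s'.v .don) X Y t ∧ p.sm X ≤ Y
  qle : s.v .qb ≤ s'.v .qc
  dq : ∀ z, z < s.v .qb → s'.m .DQ z = s.m .DQ z
  new : QRep p s' (s.v .qb) (s'.v .qc) (t + 2)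
  D1 : ∀ x, s.v .a1 ≤ x → x ≤ s.v .a → s.m .best x ≠ 0 → ∀ h w,
    p.GoodSt (s.v .a) (s.v .b) x (s.m .SY (s.m .best x)) h w → h ≤ p.n → ∀ m, m ≤ p.n →
    p.IsMinX (s.v .a) (s.m .SY (s.m .best x)) (h - 1) m →
    QCov s' (s.v .qb) (s'.v .qc) (p.r h) (p.u m)
  D2 : ∀ x, s.v .a1 ≤ x → x ≤ s.v .a → s.m .best x ≠ 0 → ∀ h w,
    p.GoodSt (s.v .a) (s.v .b) x (s.m .SY (s.m .best x)) h w → w ≤ p.n → ∀ m, m ≤ p.n →
    p.IsMinY (s.v .b) x (w - 1) m →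
    QCov s' (s.v .qb) (s'.v .qc) (p.r m) (p.u w)
  hbc : HbCompl p s'
  hbs : HbStrong p s'
  cost : s'.k + (s'.v .qc - s.v .qb) ≤ s.k + 3 * (s.v .a + 1 - s.v .a1)

/-- what the search for the lowest point achieves -/
structure LowPost (p : PData) (s s' : S) : Prop where
  ay : ∀ x, s.v .a ≤ x → x ≤ s'.v .Ex → p.IsMinY (s.v .b) (s.v .a) x (s'.m .ay x)
  Er : p.r (s.v .b) ≤ s'.v .Ex
  En : s'.v .Ex ≤ p.n
  Ex : s'.v .Ex = p.r (s.v .b) ∨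
    (p.MinPt (s.v .a) (s.v .b) (s'.v .Ex) ∧ p.y (s'.v .Ex) < s.m .hb (p.n + 1))
  min : ∀ q, p.MinPt (s.v .a) (s.v .b) q → p.y q < s.m .hb (p.n + 1) → q ≤ s'.v .Ex
  cost : ∃ e, s.v .b ≤ e ∧ (e ≤ p.u (s.v .a) ∨ ∃ q, q ≤ s'.v .Ex ∧
      p.MinPt (s.v .a) (s.v .b) q ∧ p.y q = e ∧ e < s.m .hb (p.n + 1)) ∧
    s'.k ≤ s.k + (s'.v .Ex - p.r (s.v .b)) + (e - s.v .b)

/-- what the scan over the minimal points achieves -/
structure StairPost (p : PData) (s s' : S) (t : ℕ) : Prop where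
  nfr : NFr p s' t
  ext : Ext s s'
  mono : ∀ X Y, CovN p s X Y → CovN p s' X Y
  C : ∀ q w, p.MinPt (s.v .a) (s.v .b) q → q ≤ s.v .Ex → q < w → (w ≤ s.v .Ex ∨ w = p.n + 1) →
    p.y q < s.m .hb w → CovN p s' q (p.y q)
  P : ∀ q w m, p.MinPt (s.v .a) (s.v .b) q → q ≤ s.v .Ex → q < w →
    (w ≤ s.v .Ex ∨ w = p.n + 1) → p.IsMinY (s.v .b) (s.v .a) (q - 1) m → m < s.m .hb w →
    QCov s' (s.v .qc) (s'.v .qc) (p.r m) (p.u q)
  best : ∀ x, x ≤ s.v .a → s'.m .best x = s.m .best x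
  qle : s.v .qc ≤ s'.v .qc
  dq : ∀ z, z < s.v .qc → s'.m .DQ z = s.m .DQ z
  new : QRep p s' (s.v .qc) (s'.v .qc) (t + 2)
  cost : s'.k + (s'.v .qc - s.v .qc) ≤ s.k + 2 * (s.v .Ex - s.v .a)

/-- the final state of the loop over the levels -/
structure Fin' (p : PData) (s : S) : Prop where
  stat : Static p s
  rep : ∃ t X Y, t ≤ p.n ∧ Rep p s (s.v .don) X Y t ∧ p.sm X ≤ Y ∧
    ∀ D, p.Dominating D → t ≤ D.card
  cost : s.k ≤ 28 * p.n + 4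

end Pool.Agent.PD
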