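import Pool.Agent.PD.Inv
import Pool.Agent.PD.ARR

/-! Module LOW: the search for the lowest point of the quadrant. -/

namespace Pool.Agent.PD

open PData

section low
variable {p : PData} {s : S}

/-- the lowest point of the quadrant is a minimal point -/
theorem low_minPt {a b v : ℕ} (hv : b < v) (hx : a < p.xx v)
    (hw : ∀ w, b < w → w < v → p.xx w ≤ a) : p.MinPt a b (p.xx v) ∧ p.y (p.xx v) = v := by
  have hvn : v ≤ p.n := by
    by_contra hc
    rw [p.xx_out v (by omega)] at hx
    omega
  have hy : p.y (p.xx v) = v := p.y_xx v (by omega) hvn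
  refine ⟨⟨hx, p.xx_le v, by omega, fun x h1 h2 h3 => ?_⟩, hy⟩
  have hxn := p.xx_le v
  have hxx : p.xx (p.y x) = x := p.xx_y x (by omega) (by omega)
  rw [hy]
  by_contra hc
  rcases Nat.lt_or_ge (p.y x) v with h | h
  · have := hw (p.y x) h3 h
    omega
  · have h4 : p.y x = v := by omega
    rw [h4] at hxx
    omega

/-- minimal points are left of the lowest point -/
theorem low_min {a b v q : ℕ} (hv : b < v) (hx : a < p.xx v)
    (hw : ∀ w, b < w → w < v → p.xx w ≤ a) (hq : p.MinPt a b q) : q ≤ p.xx v := by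
  obtain ⟨⟨_, _, _, _⟩, hy⟩ := low_minPt hv hx hw
  obtain ⟨h1, h2, h3, h4⟩ := hq
  have hxx : p.xx (p.y q) = q := p.xx_y q (by omega) h2
  by_contra hc
  have h5 := h4 (p.xx v) hx (by omega) (by omega)
  rw [hy] at h5
  have := hw (p.y q) h3 h5
  omega

theorem Low_spec (hs : Static p s) (hb : s.v .b ≤ p.n) (ha : s.v .a ≤ p.r (s.v .b))
    (hay : ∀ x, s.v .a ≤ x → x ≤ p.r (s.v .b) → p.IsMinY (s.v .b) (s.v .a) x (s.m .ay x))
    (hbu : s.v .b ≤ p.u (s.v .a))
    (hH : s.m .hb (p.n + 1) ≤ p.u (s.v .a) ∨ ∃ q, s.v .a < q ∧ q ≤ p.n ∧ s.v .b < p.y q) :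
    Run p.n cLow s (fun s' => LowPost p s s') := by
  unfold cLow
  rw [run_blk_cons, run_asg, run_blk_cons, run_asg, run_blk_cons, run_asg, run_blk_cons]
  refine run_whl (fun s1 => s.v .b < s1.v .v ∧
      (∀ w, s.v .b < w → w < s1.v .v → p.xx w ≤ s.v .a) ∧
      ((s1.v .L = s.m .hb (p.n + 1) ∧ s1.v .Ex = p.r (s.v .b) ∧
          (s1.v .v ≤ s.v .b + 1 ∨ s1.v .v ≤ s.m .hb (p.n + 1)) ∧
          s1.k + (s.v .b + 1) = s.k + s1.v .v) ∨
        (s1.v .L = 0 ∧ s1.v .Ex = max (p.r (s.v .b)) (p.xx (s1.v .v)) ∧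
          s.v .a < p.xx (s1.v .v) ∧ s1.v .v < s.m .hb (p.n + 1) ∧
          s1.k + s.v .b = s.k + s1.v .v)))
    (fun s1 => s1.v .L - s1.v .v) ?_ ?_ ?_
  · simp [hs.N1, hs.r _ hb]
    omega
  · intro s1 hF hI hc
    have hva : s1.v .a = s.v .a := by
      rw [hF.v .a (by decide)]; simp
    have hxx : s1.m .xx = p.xx := by
      rw [hF.m .xx (by decide)]; simp [hs.xx]
    obtain ⟨h1, h2, h3⟩ := hI
    simp only [Expr.eval_var] at hc
    rcases h3 with ⟨h4, h5, h6, h7⟩ | ⟨h4, _⟩
    · rw [run_ite]
      simp only [Expr.eval_var, Expr.eval_arr, hxx, hva]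
      refine ⟨fun hlt => ?_, fun hlt => ?_⟩
      · rw [run_blk_cons, run_ite, run_skip, run_asg, run_blk_one, run_blk_one]
        simp only [Expr.eval_var, Expr.eval_arr, hxx]
        refine ⟨fun hE => ?_, fun hE => ?_⟩
        · simp [run_asg]
          refine ⟨⟨h1, h2, ?_⟩, by omega⟩
          refine Or.inr ⟨by omega, hlt, by omega, by omega⟩
        · simp [run_asg]
          refine ⟨⟨h1, h2, ?_⟩, by omega⟩
          refine Or.inr ⟨by omega, hlt, by omega, by omega⟩
      · rw [run_asg]
        simp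
        refine ⟨⟨by omega, fun w hw1 hw2 => ?_, ?_⟩, by omega⟩
        · rcases Nat.lt_or_ge w (s1.v .v) with h | h
          · exact h2 w hw1 h
          · have : w = s1.v .v := by omega
            rw [this]; omega
        · exact Or.inl ⟨h4, h5, by omega, by omega⟩
    · omega
  · intro s1 hF hI hc
    have hva : s1.v .a = s.v .a := by
      rw [hF.v .a (by decide)]; simp
    have hvb : s1.v .b = s.v .b := by
      rw [hF.v .b (by decide)]; simp
    have hM : s1.m = s.m := by
      funext B
      rw [hF.m B (by simp [Cmd.wm, blk])]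
      simp
    have hs1 : Static p (s1.setv .x (p.r (s.v .b))) := by
      constructor
      · rw [setv_v_ne _ _ _ _ (by decide), hF.v .n (by decide)]; simp [hs.n]
      · rw [setv_v_ne _ _ _ _ (by decide), hF.v .N1 (by decide)]; simp [hs.N1]
      · rw [setv_m, hM, hs.y]
      · rw [setv_m, hM, hs.xx]
      · rw [setv_m, hM]; exact hs.u
      · rw [setv_m, hM]; exact hs.r
      · rw [setv_m, hM]; exact hs.sm
      · rw [setv_m, hM]; exact hs.out
      · rw [setv_m, hM]; exact hs.SY0
    obtain ⟨h1, h2, h3⟩ := hI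
    simp only [Expr.eval_var] at hc
    have hExn : s1.v .Ex ≤ p.n := by
      rcases h3 with ⟨_, h5, _⟩ | ⟨_, h5, _⟩
      · rw [h5]; exact p.r_le_n _
      · rw [h5]; exact max_le (p.r_le_n _) (p.xx_le _)
    have hrE : p.r (s.v .b) ≤ s1.v .Ex := by
      rcases h3 with ⟨_, h5, _⟩ | ⟨_, h5, _⟩
      · rw [h5]
      · rw [h5]; exact le_max_left _ _
    rw [run_blk_cons, run_asg, run_blk_one]
    have hev : (at' .r (vr .b) : E).eval s1 = p.r (s.v .b) := by
      simp only [Expr.eval_var, Expr.eval_arr, hvb, hM, hs.r _ hb]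
    rw [hev]
    refine (AYext_spec hs1 (by simpa using hExn) (by simpa [hva] using ha) ?_).addFrame.mono ?_
    · simpa [hva, hvb, hM] using hay
    · rintro s' ⟨hF', h4, h5⟩
      have hEx' : s'.v .Ex = s1.v .Ex := by
        rw [hF'.v .Ex (by decide)]; simp
      simp only [setv_k, setv_v_same, hva, hvb, setv_v_ne _ _ _ _ (show Var.a ≠ Var.x by decide),
        setv_v_ne _ _ _ _ (show Var.b ≠ Var.x by decide),
        setv_v_ne _ _ _ _ (show Var.Ex ≠ Var.x by decide)] at h4 h5
      have hfound : s1.v .L = 0 ∧ s1.v .Ex = max (p.r (s.v .b)) (p.xx (s1.v .v)) ∧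
          s.v .a < p.xx (s1.v .v) ∧ s1.v .v < s.m .hb (p.n + 1) ∧
          s1.k + s.v .b = s.k + s1.v .v → p.MinPt (s.v .a) (s.v .b) (p.xx (s1.v .v)) ∧
            p.y (p.xx (s1.v .v)) = s1.v .v := by
        rintro ⟨_, _, h6, _, _⟩
        exact low_minPt h1 h6 h2
      constructor
      · intro x hx1 hx2
        exact h4 x hx1 (by rw [hEx'] at hx2; exact le_max_of_le_right hx2)
      · rw [hEx']; exact hrE
      · rw [hEx']; exact hExn
      · rw [hEx']
        rcases h3 with ⟨_, h6, _⟩ | h6
        · exact Or.inl h6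
        · obtain ⟨h7, h8⟩ := hfound h6
          obtain ⟨_, h9, h10, h11, _⟩ := h6
          rcases le_total (p.xx (s1.v .v)) (p.r (s.v .b)) with h | h
          · left; omega
          · right
            have : s1.v .Ex = p.xx (s1.v .v) := by omega
            rw [this, h8]
            exact ⟨h7, h11⟩
      · intro q hq1 hq2
        rw [hEx']
        rcases h3 with ⟨h6, _⟩ | h6
        · obtain ⟨h7, h8, h9, _⟩ := hq1
          have h10 := h2 (p.y q) h9 (by omega)
          rw [p.xx_y q (by omega) h8] at h10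
          omega
        · have := low_min h1 h6.2.2.1 h2 hq1
          have := h6.2.1
          omega
      · rw [hEx']
        rcases h3 with ⟨h6, h7, h8, h9⟩ | h6
        · refine ⟨s1.v .v - 1, by omega, Or.inl ?_, by omega⟩
          by_cases hvb1 : s1.v .v ≤ s.v .b + 1
          · omega
          have h10 : s1.v .v = s.m .hb (p.n + 1) := by omega
          rcases hH with hH | ⟨q, hq1, hq2, hq3⟩
          · omega
          · have h11 : s1.v .v ≤ p.y q := by
              by_contra hcc
              have h12 := h2 (p.y q) hq3 (by omega)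
              rw [p.xx_y q (by omega) hq2] at h12
              omega
            have h12 := p.y_le q
            have h13 := h2 (s1.v .v - 1) (by omega) (by omega)
            have h14 := p.y_le_u h13
            rw [p.y_xx _ (by omega) (by omega)] at h14
            exact h14
        · obtain ⟨h7, h8⟩ := hfound h6
          obtain ⟨_, h9, h10, h11, h12⟩ := h6
          refine ⟨s1.v .v, by omega, Or.inr ⟨p.xx (s1.v .v), by omega, h7, h8, h11⟩, by omega⟩

end low

end Pool.Agent.PD
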