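import Mathlib

/-! A small structured imperative language (variables, arrays, an input/output
array `io` whose indices must stay `≤ N`), its big-step semantics with a ghost counter of
loop iterations, and rules to verify programs. -/

set_option linter.unusedSectionVars false

namespace Pool.Agent.PD

/-- expressions over variables `V` and arrays `A` -/
inductive Expr (V A : Type) where
  | zero : Expr V A
  | var : V → Expr V A
  | succ : Expr V A → Expr V A
  | pred : Expr V A → Expr V A
  | arr : A → Expr V A → Expr V A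

/-- states: variables, arrays, the input/output array, the number of loop iterations so far -/
@[ext] structure St (V A : Type) where
  v : V → ℕ
  m : A → ℕ → ℕ
  io : ℕ → ℕ
  k : ℕ

/-- commands; the test of `ite` and `whl` is `e₁ < e₂` -/
inductive Cmd (V A : Type) where
  | skip : Cmd V A
  | asg : V → Expr V A → Cmd V A
  | sto : A → Expr V A → Expr V A → Cmd V A
  | inp : V → Expr V A → Cmd V A
  | outp : Expr V A → Expr V A → Cmd V A
  | seq : Cmd V A → Cmd V A → Cmd V A
  | ite : Expr V A → Expr V A → Cmd V A → Cmd V A → Cmd V A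
  | whl : Expr V A → Expr V A → Cmd V A → Cmd V A

variable {V A : Type}

/-- value of an expression -/
def Expr.eval (s : St V A) : Expr V A → ℕ
  | .zero => 0
  | .var x => s.v x
  | .succ e => e.eval s + 1
  | .pred e => e.eval s - 1
  | .arr B e => s.m B (e.eval s)

@[simp] theorem Expr.eval_zero (s : St V A) : (Expr.zero : Expr V A).eval s = 0 := rfl
@[simp] theorem Expr.eval_var (s : St V A) (x : V) : (Expr.var x : Expr V A).eval s = s.v x := rfl
@[simp] theorem Expr.eval_succ (s : St V A) (e : Expr V A) : (Expr.succ e).eval s = e.eval s + 1 := rfl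
@[simp] theorem Expr.eval_pred (s : St V A) (e : Expr V A) : (Expr.pred e).eval s = e.eval s - 1 := rfl
@[simp] theorem Expr.eval_arr (s : St V A) (B : A) (e : Expr V A) :
    (Expr.arr B e).eval s = s.m B (e.eval s) := rfl

/-- number of nodes of an expression -/
def Expr.size : Expr V A → ℕ
  | .zero => 1
  | .var _ => 1
  | .succ e => e.size + 1
  | .pred e => e.size + 1
  | .arr _ e => e.size + 1

variable [DecidableEq V] [DecidableEq A]

/-- assignment to a variable -/
def St.setv (s : St V A) (x : V) (c : ℕ) : St V A :=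
  { s with v := fun y => if y = x then c else s.v y }

/-- assignment to an array entry -/
def St.setm (s : St V A) (B : A) (i c : ℕ) : St V A :=
  { s with m := fun B' j => if B' = B then (if j = i then c else s.m B' j) else s.m B' j }

/-- assignment to an entry of the input/output array -/
def St.seto (s : St V A) (i c : ℕ) : St V A :=
  { s with io := fun j => if j = i then c else s.io j }

/-- count one loop iteration -/
def St.tick (s : St V A) : St V A := { s with k := s.k + 1 }

section simps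
variable (s : St V A) (x y : V) (B B' : A) (i j c : ℕ)

@[simp] theorem setv_v_same : (s.setv x c).v x = c := by simp [St.setv]
@[simp] theorem setv_v_ne (h : y ≠ x) : (s.setv x c).v y = s.v y := by simp [St.setv, h]
@[simp] theorem setv_m : (s.setv x c).m = s.m := rfl
@[simp] theorem setv_io : (s.setv x c).io = s.io := rfl
@[simp] theorem setv_k : (s.setv x c).k = s.k := rfl
@[simp] theorem setm_v : (s.setm B i c).v = s.v := rfl
@[simp] theorem setm_io : (s.setm B i c).io = s.io := rfl
@[simp] theorem setm_k : (s.setm B i c).k = s.k := rfl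
@[simp] theorem setm_m_same : (s.setm B i c).m B = Function.update (s.m B) i c := by
  funext j; simp [St.setm, Function.update_apply]
@[simp] theorem setm_m_ne (h : B' ≠ B) : (s.setm B i c).m B' = s.m B' := by
  funext j; simp [St.setm, h]
@[simp] theorem seto_v : (s.seto i c).v = s.v := rfl
@[simp] theorem seto_m : (s.seto i c).m = s.m := rfl
@[simp] theorem seto_k : (s.seto i c).k = s.k := rfl
@[simp] theorem seto_io : (s.seto i c).io = Function.update s.io i c := by
  funext j; simp [St.seto, Function.update_apply]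
@[simp] theorem tick_v : s.tick.v = s.v := rfl
@[simp] theorem tick_m : s.tick.m = s.m := rfl
@[simp] theorem tick_io : s.tick.io = s.io := rfl
@[simp] theorem tick_k : s.tick.k = s.k + 1 := rfl
end simps

/-- big-step execution; every access to `io` has index `≤ N` -/
inductive Exec (N : ℕ) : Cmd V A → St V A → St V A → Prop where
  | skip (s) : Exec N .skip s s
  | asg (s x e) : Exec N (.asg x e) s (s.setv x (Expr.eval s e))
  | sto (s B e₁ e₂) : Exec N (.sto B e₁ e₂) s (s.setm B (Expr.eval s e₁) (Expr.eval s e₂))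
  | inp (s x e) : Expr.eval s e ≤ N → Exec N (.inp x e) s (s.setv x (s.io (Expr.eval s e)))
  | outp (s e₁ e₂) : Expr.eval s e₁ ≤ N →
      Exec N (.outp e₁ e₂) s (s.seto (Expr.eval s e₁) (Expr.eval s e₂))
  | seq {c₁ c₂ s s' s''} : Exec N c₁ s s' → Exec N c₂ s' s'' → Exec N (.seq c₁ c₂) s s''
  | iteT {e₁ e₂ c₁ c₂ s s'} : Expr.eval s e₁ < Expr.eval s e₂ → Exec N c₁ s s' →
      Exec N (.ite e₁ e₂ c₁ c₂) s s'
  | iteF {e₁ e₂ c₁ c₂ s s'} : ¬ Expr.eval s e₁ < Expr.eval s e₂ → Exec N c₂ s s' →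
      Exec N (.ite e₁ e₂ c₁ c₂) s s'
  | whlF {e₁ e₂ c s} : ¬ Expr.eval s e₁ < Expr.eval s e₂ → Exec N (.whl e₁ e₂ c) s s
  | whlT {e₁ e₂ c s s' s''} : Expr.eval s e₁ < Expr.eval s e₂ → Exec N c s s' →
      Exec N (.whl e₁ e₂ c) s'.tick s'' → Exec N (.whl e₁ e₂ c) s s''

/-- total correctness -/
def Run (N : ℕ) (c : Cmd V A) (s : St V A) (Q : St V A → Prop) : Prop :=
  ∃ s', Exec N c s s' ∧ Q s'

variable {N : ℕ} {s : St V A} {Q Q' : St V A → Prop}

theorem Run.mono {c : Cmd V A} (h : Run N c s Q) (hq : ∀ s', Q s' → Q' s') : Run N c s Q' := by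
  obtain ⟨s', h1, h2⟩ := h
  exact ⟨s', h1, hq _ h2⟩

theorem run_skip : Run N .skip s Q ↔ Q s := by
  constructor
  · rintro ⟨s', h, hq⟩; cases h; exact hq
  · intro h; exact ⟨s, .skip s, h⟩

theorem run_asg {x : V} {e : Expr V A} : Run N (.asg x e) s Q ↔ Q (s.setv x (e.eval s)) := by
  constructor
  · rintro ⟨s', h, hq⟩; cases h; exact hq
  · intro h; exact ⟨_, .asg s x e, h⟩

theorem run_sto {B : A} {e₁ e₂ : Expr V A} :
    Run N (.sto B e₁ e₂) s Q ↔ Q (s.setm B (e₁.eval s) (e₂.eval s)) := by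
  constructor
  · rintro ⟨s', h, hq⟩; cases h; exact hq
  · intro h; exact ⟨_, .sto s B e₁ e₂, h⟩

theorem run_inp {x : V} {e : Expr V A} :
    Run N (.inp x e) s Q ↔ e.eval s ≤ N ∧ Q (s.setv x (s.io (e.eval s))) := by
  constructor
  · rintro ⟨s', h, hq⟩; cases h with | inp _ _ _ hN => exact ⟨hN, hq⟩
  · rintro ⟨hN, h⟩; exact ⟨_, .inp s x e hN, h⟩

theorem run_outp {e₁ e₂ : Expr V A} :
    Run N (.outp e₁ e₂) s Q ↔ e₁.eval s ≤ N ∧ Q (s.seto (e₁.eval s) (e₂.eval s)) := by
  constructor
  · rintro ⟨s', h, hq⟩; cases h with | outp _ _ _ hN => exact ⟨hN, hq⟩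
  · rintro ⟨hN, h⟩; exact ⟨_, .outp s e₁ e₂ hN, h⟩

theorem run_seq {c₁ c₂ : Cmd V A} :
    Run N (.seq c₁ c₂) s Q ↔ Run N c₁ s (fun s' => Run N c₂ s' Q) := by
  constructor
  · rintro ⟨s'', h, hq⟩
    cases h with | seq h1 h2 => exact ⟨_, h1, _, h2, hq⟩
  · rintro ⟨s', h1, s'', h2, hq⟩
    exact ⟨s'', .seq h1 h2, hq⟩

theorem run_ite {e₁ e₂ : Expr V A} {c₁ c₂ : Cmd V A} :
    Run N (.ite e₁ e₂ c₁ c₂) s Q ↔
      (e₁.eval s < e₂.eval s → Run N c₁ s Q) ∧ (¬ e₁.eval s < e₂.eval s → Run N c₂ s Q) := by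
  constructor
  · rintro ⟨s', h, hq⟩
    cases h with
    | iteT hc h => exact ⟨fun _ => ⟨_, h, hq⟩, fun hn => absurd hc hn⟩
    | iteF hc h => exact ⟨fun hn => absurd hn hc, fun _ => ⟨_, h, hq⟩⟩
  · rintro ⟨h1, h2⟩
    by_cases hc : e₁.eval s < e₂.eval s
    · obtain ⟨s', h, hq⟩ := h1 hc
      exact ⟨s', .iteT hc h, hq⟩
    · obtain ⟨s', h, hq⟩ := h2 hc
      exact ⟨s', .iteF hc h, hq⟩

/-- variables written by a command -/
def Cmd.wv : Cmd V A → List V
  | .skip => []
  | .asg x _ => [x]
  | .sto _ _ _ => []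
  | .inp x _ => [x]
  | .outp _ _ => []
  | .seq c₁ c₂ => c₁.wv ++ c₂.wv
  | .ite _ _ c₁ c₂ => c₁.wv ++ c₂.wv
  | .whl _ _ c => c.wv

/-- arrays written by a command -/
def Cmd.wm : Cmd V A → List A
  | .skip => []
  | .asg _ _ => []
  | .sto B _ _ => [B]
  | .inp _ _ => []
  | .outp _ _ => []
  | .seq c₁ c₂ => c₁.wm ++ c₂.wm
  | .ite _ _ c₁ c₂ => c₁.wm ++ c₂.wm
  | .whl _ _ c => c.wm

theorem Exec.frame_v {c : Cmd V A} {s s' : St V A} (h : Exec N c s s') :
    ∀ x, x ∉ c.wv → s'.v x = s.v x := by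
  induction h with
  | skip s => intro x _; rfl
  | asg s y e => intro x hx; simp only [Cmd.wv, List.mem_singleton] at hx; simp [hx]
  | sto s B e₁ e₂ => intro x _; rfl
  | inp s y e _ => intro x hx; simp only [Cmd.wv, List.mem_singleton] at hx; simp [hx]
  | outp s e₁ e₂ _ => intro x _; rfl
  | seq _ _ ih1 ih2 =>
    intro x hx; simp only [Cmd.wv, List.mem_append, not_or] at hx
    rw [ih2 x hx.2, ih1 x hx.1]
  | iteT _ _ ih => intro x hx; simp only [Cmd.wv, List.mem_append, not_or] at hx; exact ih x hx.1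
  | iteF _ _ ih => intro x hx; simp only [Cmd.wv, List.mem_append, not_or] at hx; exact ih x hx.2
  | whlF _ => intro x _; rfl
  | whlT _ _ _ ih1 ih2 =>
    intro x hx; rw [ih2 x hx, tick_v, ih1 x hx]

theorem Exec.frame_m {c : Cmd V A} {s s' : St V A} (h : Exec N c s s') :
    ∀ B, B ∉ c.wm → s'.m B = s.m B := by
  induction h with
  | skip s => intro x _; rfl
  | asg s y e => intro x _; rfl
  | sto s B e₁ e₂ => intro x hx; simp only [Cmd.wm, List.mem_singleton] at hx; simp [hx]
  | inp s y e _ => intro x _; rfl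
  | outp s e₁ e₂ _ => intro x _; rfl
  | seq _ _ ih1 ih2 =>
    intro x hx; simp only [Cmd.wm, List.mem_append, not_or] at hx
    rw [ih2 x hx.2, ih1 x hx.1]
  | iteT _ _ ih => intro x hx; simp only [Cmd.wm, List.mem_append, not_or] at hx; exact ih x hx.1
  | iteF _ _ ih => intro x hx; simp only [Cmd.wm, List.mem_append, not_or] at hx; exact ih x hx.2
  | whlF _ => intro x _; rfl
  | whlT _ _ _ ih1 ih2 =>
    intro x hx; rw [ih2 x hx, tick_m, ih1 x hx]

/-- `s'` agrees with `s` outside the variables and arrays written by `c` -/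
structure Frame (c : Cmd V A) (s s' : St V A) : Prop where
  v : ∀ x, x ∉ c.wv → s'.v x = s.v x
  m : ∀ B, B ∉ c.wm → s'.m B = s.m B

theorem Exec.frame {c : Cmd V A} {s s' : St V A} (h : Exec N c s s') : Frame c s s' :=
  ⟨h.frame_v, h.frame_m⟩

theorem Frame.refl (c : Cmd V A) (s : St V A) : Frame c s s := ⟨fun _ _ => rfl, fun _ _ => rfl⟩

/-- the postcondition may use the frame for free -/
theorem Run.addFrame {c : Cmd V A} (h : Run N c s Q) : Run N c s (fun s' => Frame c s s' ∧ Q s') := by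
  obtain ⟨s', h1, h2⟩ := h
  exact ⟨s', h1, h1.frame, h2⟩

/-- rule of composition: a specification of the first part, then the rest -/
theorem Run.bind {c₁ c₂ : Cmd V A} {R : St V A → Prop} (h : Run N c₁ s R)
    (h2 : ∀ s', Frame c₁ s s' → R s' → Run N c₂ s' Q) : Run N (.seq c₁ c₂) s Q := by
  rw [run_seq]
  exact h.addFrame.mono (fun s' h' => h2 s' h'.1 h'.2)

/-- rule for loops, with an invariant `I` and a measure `μ`; the frame of the loop is free -/
theorem run_whl {e₁ e₂ : Expr V A} {c : Cmd V A} {s₀ : St V A} (I : St V A → Prop)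
    (μ : St V A → ℕ) (h0 : I s₀)
    (hstep : ∀ s, Frame c s₀ s → I s → e₁.eval s < e₂.eval s →
      Run N c s (fun s' => I s'.tick ∧ μ s'.tick < μ s))
    (hend : ∀ s, Frame c s₀ s → I s → ¬ e₁.eval s < e₂.eval s → Q s) :
    Run N (.whl e₁ e₂ c) s₀ Q := by
  suffices H : ∀ k s, μ s ≤ k → Frame c s₀ s → I s →
      Run N (.whl e₁ e₂ c) s Q from H _ s₀ le_rfl (Frame.refl _ _) h0
  intro k
  induction k with
  | zero =>
    intro s hk hF hI
    by_cases hc : e₁.eval s < e₂.eval s
    · obtain ⟨s', _, _, h3⟩ := hstep s hF hI hc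
      omega
    · exact ⟨s, .whlF hc, hend s hF hI hc⟩
  | succ k ih =>
    intro s hk hF hI
    by_cases hc : e₁.eval s < e₂.eval s
    · obtain ⟨s', h1, h2, h3⟩ := hstep s hF hI hc
      have hF' : Frame c s₀ s'.tick :=
        ⟨fun x hx => by rw [tick_v, h1.frame_v x hx, hF.v x hx],
          fun B hB => by rw [tick_m, h1.frame_m B hB, hF.m B hB]⟩
      obtain ⟨s'', h4, h5⟩ := ih s'.tick (by omega) hF' h2
      exact ⟨s'', .whlT hc h1 h4, h5⟩
    · exact ⟨s, .whlF hc, hend s hF hI hc⟩

/-- a list of commands, one after the other -/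
def blk : List (Cmd V A) → Cmd V A
  | [] => .skip
  | [c] => c
  | c :: c' :: cs => .seq c (blk (c' :: cs))

theorem run_blk_cons {c c' : Cmd V A} {cs : List (Cmd V A)} :
    Run N (blk (c :: c' :: cs)) s Q ↔ Run N c s (fun s' => Run N (blk (c' :: cs)) s' Q) := by
  rw [blk, run_seq]

theorem run_blk_one {c : Cmd V A} : Run N (blk [c]) s Q ↔ Run N c s Q := by
  rw [blk]

theorem run_blk_nil : Run N (blk []) s Q ↔ Q s := by
  rw [blk, run_skip]

end Pool.Agent.PD
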