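import Mathlib

/-! The unit-cost random access machine. -/

namespace Pool.Agent.PD

/-- instructions of the random access machine: registers `reg 0, reg 1, …` (a program names only
finitely many of them) and a memory `mem 0, mem 1, …` of words addressed by registers -/
inductive Instr
  /-- `reg d := c` -/
  | const (d c : ℕ)
  /-- `reg d := reg i + reg j` -/
  | add (d i j : ℕ)
  /-- `reg d := reg i - reg j` (truncated at `0`) -/
  | sub (d i j : ℕ)
  /-- `reg d := mem (reg i)` -/
  | load (d i : ℕ)
  /-- `mem (reg i) := reg j` -/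
  | store (i j : ℕ)
  /-- if `reg i < reg j` then jump to instruction number `l` -/
  | jlt (i j l : ℕ)

/-- configurations: program counter, registers, memory -/
structure Config where
  pc : ℕ
  reg : ℕ → ℕ
  mem : ℕ → ℕ

/-- effect of one instruction -/
def Instr.exec : Instr → Config → Config
  | .const d c, σ => ⟨σ.pc + 1, Function.update σ.reg d c, σ.mem⟩
  | .add d i j, σ => ⟨σ.pc + 1, Function.update σ.reg d (σ.reg i + σ.reg j), σ.mem⟩
  | .sub d i j, σ => ⟨σ.pc + 1, Function.update σ.reg d (σ.reg i - σ.reg j), σ.mem⟩
  | .load d i, σ => ⟨σ.pc + 1, Function.update σ.reg d (σ.mem (σ.reg i)), σ.mem⟩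
  | .store i j, σ => ⟨σ.pc + 1, σ.reg, Function.update σ.mem (σ.reg i) (σ.reg j)⟩
  | .jlt i j l, σ => ⟨if σ.reg i < σ.reg j then l else σ.pc + 1, σ.reg, σ.mem⟩

/-- one step of the machine with program `P`; the machine halts when the program counter
leaves the program -/
def stepP (P : List Instr) (σ : Config) : Config :=
  match P[σ.pc]? with
  | some I => I.exec σ
  | none => σ

/-- `t` steps -/
def runP (P : List Instr) (t : ℕ) (σ : Config) : Config := (stepP P)^[t] σ

/-- all words of a configuration (program counter, registers and memory) are at most `B` -/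
structure Config.Bdd (B : ℕ) (σ : Config) : Prop where
  pc : σ.pc ≤ B
  reg : ∀ i, σ.reg i ≤ B
  mem : ∀ i, σ.mem i ≤ B

/-- the initial configuration: `reg 0 = n`, memory cells `1, …, n` hold the input -/
def initCfg (n : ℕ) (inp : ℕ → ℕ) : Config :=
  ⟨0, fun i => if i = 0 then n else 0, fun i => if 1 ≤ i ∧ i ≤ n then inp i else 0⟩

end Pool.Agent.PD
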