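import Pool.Agent.PD.Inv
import Pool.Agent.PD.Ram

/-! Compilation of the structured programs to the flat random access machine. -/

set_option linter.unusedSectionVars false
set_option linter.constructorNameAsVariable false

namespace Pool.Agent.PD

namespace Comp

/-- number of an array -/
noncomputable def ix (B : Arr) : ℕ := (Fintype.equivFin Arr B : ℕ)

/-- register of a variable; register `0` holds `N`, register `1` holds `0` -/
noncomputable def rg (x : Var) : ℕ := 2 + (Fintype.equivFin Var x : ℕ)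

/-- first temporary register -/
def T0 : ℕ := 32

theorem ix_lt (B : Arr) : ix B < 32 := by
  have h := (Fintype.equivFin Arr B).isLt
  have h2 : Fintype.card Arr = 18 := by decide
  unfold ix
  omega

theorem ix_inj {B B' : Arr} (h : ix B = ix B') : B = B' := by
  unfold ix at h
  exact (Fintype.equivFin Arr).injective (Fin.ext h)

theorem rg_lt (x : Var) : rg x < T0 := by
  have h := (Fintype.equivFin Var x).isLt
  have h2 : Fintype.card Var = 30 := by decide
  unfold rg T0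
  omega

theorem rg_ge (x : Var) : 2 ≤ rg x := by
  unfold rg
  omega

theorem rg_inj {x y : Var} (h : rg x = rg y) : x = y := by
  unfold rg at h
  exact (Fintype.equivFin Var).injective (Fin.ext (by omega))

/-- registers and memory are bounded -/
structure RB (Q : ℕ) (σ : Config) : Prop where
  reg : ∀ i, σ.reg i ≤ Q
  mem : ∀ i, σ.mem i ≤ Q

/-- `t` steps, all configurations bounded -/
inductive Steps (P : List Instr) (Q : ℕ) : ℕ → Config → Config → Prop
  | refl (σ : Config) : RB Q σ → σ.pc ≤ P.length → Steps P Q 0 σ σ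
  | step {t : ℕ} {σ σ' : Config} {I : Instr} : RB Q σ → P[σ.pc]? = some I →
      Steps P Q t (I.exec σ) σ' → Steps P Q (t + 1) σ σ'

variable {P : List Instr} {Q N M : ℕ} {σ σ' σ'' : Config} {s s' : S}

theorem Steps.trans {t t' : ℕ} (h : Steps P Q t σ σ') (h' : Steps P Q t' σ' σ'') :
    Steps P Q (t + t') σ σ'' := by
  induction h with
  | refl σ _ _ => simpa using h'
  | step h1 h2 _ ih =>
    have := Steps.step h1 h2 (ih h')
    rwa [show ∀ a b : ℕ, a + b + 1 = a + 1 + b from fun a b => by omega] at this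

theorem Steps.rb_left {t : ℕ} (h : Steps P Q t σ σ') : RB Q σ := by
  cases h with
  | refl _ h1 _ => exact h1
  | step h1 _ _ => exact h1

theorem Steps.rb_right {t : ℕ} (h : Steps P Q t σ σ') : RB Q σ' := by
  induction h with
  | refl _ h1 _ => exact h1
  | step _ _ _ ih => exact ih

theorem Steps.run {t : ℕ} (h : Steps P Q t σ σ') {B : ℕ} (hB : P.length ≤ B) (hQ : Q ≤ B) :
    runP P t σ = σ' ∧ ∀ j, j ≤ t → (runP P j σ).Bdd B := by
  induction h with
  | refl σ h1 h2 =>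
    refine ⟨rfl, fun j hj => ?_⟩
    have : j = 0 := by omega
    subst this
    exact ⟨h2.trans hB, fun i => (h1.reg i).trans hQ, fun i => (h1.mem i).trans hQ⟩
  | @step t σ σ' I h1 h2 _ ih =>
    have hs : stepP P σ = I.exec σ := by simp only [stepP, h2]
    refine ⟨?_, fun j hj => ?_⟩
    · have := ih.1
      unfold runP at this ⊢
      rw [Function.iterate_succ_apply, hs]
      exact this
    · cases j with
      | zero =>
        have hlt : σ.pc < P.length := by
          by_contra hc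
          rw [List.getElem?_eq_none (by omega)] at h2
          exact absurd h2 (by simp)
        exact ⟨by simpa [runP] using (by omega : σ.pc ≤ B), fun i => (h1.reg i).trans hQ,
          fun i => (h1.mem i).trans hQ⟩
      | succ j =>
        have := ih.2 j (by omega)
        unfold runP at this ⊢
        rw [Function.iterate_succ_apply, hs]
        exact this

/-- the list `L` stands in `P` at position `p` -/
def CodeAt (P : List Instr) : ℕ → List Instr → Prop
  | p, [] => p ≤ P.length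
  | p, I :: L => P[p]? = some I ∧ CodeAt P (p + 1) L

theorem CodeAt.le {p : ℕ} {L : List Instr} (h : CodeAt P p L) : p + L.length ≤ P.length := by
  induction L generalizing p with
  | nil => simpa [CodeAt] using h
  | cons I L ih =>
    have := ih h.2
    simp only [List.length_cons]
    omega

theorem codeAt_append {p : ℕ} {L L' : List Instr} (h : CodeAt P p (L ++ L')) :
    CodeAt P p L ∧ CodeAt P (p + L.length) L' := by
  induction L generalizing p with
  | nil =>
    have := h.le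
    refine ⟨?_, by simpa using h⟩
    simp only [CodeAt]
    simp only [List.nil_append] at this
    omega
  | cons I L ih =>
    have := ih h.2
    refine ⟨⟨h.1, this.1⟩, ?_⟩
    have h2 := this.2
    rw [List.length_cons, show p + (L.length + 1) = p + 1 + L.length by omega]
    exact h2

theorem codeAt_self (L L' : List Instr) : CodeAt (L ++ L') L.length L' := by
  induction L' generalizing L with
  | nil => simp [CodeAt]
  | cons I L' ih =>
    refine ⟨by simp, ?_⟩
    have := ih (L ++ [I])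
    simpa using this

/-- straight line code -/
def wp (Q : ℕ) : List Instr → Config → (Config → Prop) → Prop
  | [], σ, Φ => Φ σ
  | I :: L, σ, Φ => (I.exec σ).pc = σ.pc + 1 ∧ RB Q (I.exec σ) ∧ wp Q L (I.exec σ) Φ

theorem wp_append {L L' : List Instr} {Φ : Config → Prop} :
    wp Q (L ++ L') σ Φ ↔ wp Q L σ (fun σ' => wp Q L' σ' Φ) := by
  induction L generalizing σ with
  | nil => simp [wp]
  | cons I L ih => simp only [List.cons_append, wp, ih]

theorem wp_sound {L : List Instr} {Φ : Config → Prop} (h : wp Q L σ Φ) (hr : RB Q σ)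
    (hc : CodeAt P σ.pc L) :
    ∃ σ', Steps P Q L.length σ σ' ∧ Φ σ' ∧ σ'.pc = σ.pc + L.length := by
  induction L generalizing σ with
  | nil => exact ⟨σ, .refl σ hr (by simpa [CodeAt] using hc), h, by simp⟩
  | cons I L ih =>
    obtain ⟨h1, h2, h3⟩ := h
    have hc2 : CodeAt P (I.exec σ).pc L := by rw [h1]; exact hc.2
    obtain ⟨σ', h4, h5, h6⟩ := ih h3 h2 hc2
    refine ⟨σ', .step hr hc.1 h4, h5, ?_⟩
    rw [h6, h1, List.length_cons]
    omega

theorem RB.upd {pc d c : ℕ} (h : RB Q σ) (hc : c ≤ Q) :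
    RB Q ⟨pc, Function.update σ.reg d c, σ.mem⟩ := by
  refine ⟨fun i => ?_, h.mem⟩
  by_cases hi : i = d
  · subst hi; simpa using hc
  · simpa [Function.update_of_ne hi] using h.reg i

theorem RB.updm {pc d c : ℕ} (h : RB Q σ) (hc : c ≤ Q) :
    RB Q ⟨pc, σ.reg, Function.update σ.mem d c⟩ := by
  refine ⟨h.reg, fun i => ?_⟩
  by_cases hi : i = d
  · subst hi; simpa using hc
  · simpa [Function.update_of_ne hi] using h.mem i

/-- the configuration represents the state `s`, whose values are at most `M` -/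
structure Sim (N M : ℕ) (s : S) (σ : Config) : Prop where
  r0 : σ.reg 0 = N
  r1 : σ.reg 1 = 0
  rv : ∀ x, σ.reg (rg x) = s.v x
  vb : ∀ x, s.v x ≤ M
  io : ∀ i, i ≤ N → σ.mem i = s.io i
  ar : ∀ B i, σ.mem (N + 1 + ix B + 32 * i) = s.m B i
  mb : ∀ i, σ.mem i ≤ M

theorem Sim.mono {M' : ℕ} (h : Sim N M s σ) (hM : M ≤ M') : Sim N M' s σ :=
  ⟨h.r0, h.r1, h.rv, fun x => (h.vb x).trans hM, h.io, h.ar, fun i => (h.mb i).trans hM⟩

/-- temporaries may change -/
theorem Sim.upd {pc d c : ℕ} (h : Sim N M s σ) (hd : T0 ≤ d) :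
    Sim N M s ⟨pc, Function.update σ.reg d c, σ.mem⟩ := by
  have hT : T0 = 32 := rfl
  refine ⟨?_, ?_, fun x => ?_, h.vb, h.io, h.ar, h.mb⟩
  · show Function.update σ.reg d c 0 = N
    rw [Function.update_of_ne (by omega)]; exact h.r0
  · show Function.update σ.reg d c 1 = 0
    rw [Function.update_of_ne (by omega)]; exact h.r1
  · show Function.update σ.reg d c (rg x) = _
    have := rg_lt x
    rw [Function.update_of_ne (by omega)]; exact h.rv x

theorem Sim.eval_le (h : Sim N M s σ) (e : E) : e.eval s ≤ M + e.size := by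
  induction e with
  | zero => simp
  | var x => have := h.vb x; simp only [Expr.eval_var]; omega
  | succ e ih => simp only [Expr.eval_succ, Expr.size]; omega
  | pred e ih => simp only [Expr.eval_pred, Expr.size]; omega
  | arr B e ih =>
    simp only [Expr.eval_arr]
    rw [← h.ar]
    have := h.mb (N + 1 + ix B + 32 * e.eval s)
    omega

/-- replace `i` in register `d` by the address of entry `i` of `B` -/
noncomputable def cAddr (B : Arr) (d : ℕ) : List Instr :=
  [.add d d d, .add d d d, .add d d d, .add d d d, .add d d d, .add d d 0,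
    .const (d + 1) (ix B + 1), .add d d (d + 1)]

/-- code for an expression, value into register `d`; uses only registers `d` and `d + 1` -/
noncomputable def cE : E → ℕ → List Instr
  | .zero, d => [.const d 0]
  | .var x, d => [.add d (rg x) 1]
  | .succ e, d => cE e d ++ [.const (d + 1) 1, .add d d (d + 1)]
  | .pred e, d => cE e d ++ [.const (d + 1) 1, .sub d d (d + 1)]
  | .arr B e, d => cE e d ++ (cAddr B d ++ [.load d d])

/-- the state after a piece of code that only changes registers `≥ d` -/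
structure Aft (N M Q : ℕ) (s : S) (d : ℕ) (σ σ' : Config) : Prop where
  sim : Sim N M s σ'
  rb : RB Q σ'
  low : ∀ r, r < d → σ'.reg r = σ.reg r

theorem Aft.upd {d d' pc c : ℕ} (h : Aft N M Q s d σ σ') (hd : T0 ≤ d) (hd' : d ≤ d')
    (hc : c ≤ Q) : Aft N M Q s d σ ⟨pc, Function.update σ'.reg d' c, σ'.mem⟩ :=
  ⟨h.sim.upd (by omega), h.rb.upd hc, fun r hr => by
    show Function.update σ'.reg d' c r = _
    rw [Function.update_of_ne (by omega)]; exact h.low r hr⟩

/-- one instruction that changes a temporary register -/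
theorem wp_upd {d d' c : ℕ} {I : Instr} {L : List Instr} {Φ : Config → Prop}
    (h : Aft N M Q s d σ σ') (hd : T0 ≤ d) (hd' : d ≤ d') (hI : I.exec σ' =
      ⟨σ'.pc + 1, Function.update σ'.reg d' c, σ'.mem⟩) (hQ : c ≤ Q)
    (k : ∀ σ'', Aft N M Q s d σ σ'' → σ''.reg d' = c →
      (∀ r, r ≠ d' → σ''.reg r = σ'.reg r) → σ''.mem = σ'.mem → wp Q L σ'' Φ) :
    wp Q (I :: L) σ' Φ := by
  unfold wp
  rw [hI]
  refine ⟨rfl, h.rb.upd hQ, k _ (h.upd hd hd' hQ) ?_ ?_ rfl⟩
  · simp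
  · intro r hr
    show Function.update σ'.reg d' c r = _
    rw [Function.update_of_ne hr]

theorem wp_add {d d' i j c : ℕ} {L : List Instr} {Φ : Config → Prop}
    (h : Aft N M Q s d σ σ') (hd : T0 ≤ d) (hd' : d ≤ d') (hc : σ'.reg i + σ'.reg j = c)
    (hQ : c ≤ Q)
    (k : ∀ σ'', Aft N M Q s d σ σ'' → σ''.reg d' = c →
      (∀ r, r ≠ d' → σ''.reg r = σ'.reg r) → σ''.mem = σ'.mem → wp Q L σ'' Φ) :
    wp Q (.add d' i j :: L) σ' Φ :=
  wp_upd h hd hd' (by rw [← hc]; rfl) hQ k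

theorem wp_sub {d d' i j c : ℕ} {L : List Instr} {Φ : Config → Prop}
    (h : Aft N M Q s d σ σ') (hd : T0 ≤ d) (hd' : d ≤ d') (hc : σ'.reg i - σ'.reg j = c)
    (hQ : c ≤ Q)
    (k : ∀ σ'', Aft N M Q s d σ σ'' → σ''.reg d' = c →
      (∀ r, r ≠ d' → σ''.reg r = σ'.reg r) → σ''.mem = σ'.mem → wp Q L σ'' Φ) :
    wp Q (.sub d' i j :: L) σ' Φ :=
  wp_upd h hd hd' (by rw [← hc]; rfl) hQ k

theorem wp_const {d d' c : ℕ} {L : List Instr} {Φ : Config → Prop}
    (h : Aft N M Q s d σ σ') (hd : T0 ≤ d) (hd' : d ≤ d')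
    (hQ : c ≤ Q)
    (k : ∀ σ'', Aft N M Q s d σ σ'' → σ''.reg d' = c →
      (∀ r, r ≠ d' → σ''.reg r = σ'.reg r) → σ''.mem = σ'.mem → wp Q L σ'' Φ) :
    wp Q (.const d' c :: L) σ' Φ :=
  wp_upd h hd hd' rfl hQ k

theorem wp_load {d d' i c : ℕ} {L : List Instr} {Φ : Config → Prop}
    (h : Aft N M Q s d σ σ') (hd : T0 ≤ d) (hd' : d ≤ d') (hc : σ'.mem (σ'.reg i) = c)
    (k : ∀ σ'', Aft N M Q s d σ σ'' → σ''.reg d' = c →
      (∀ r, r ≠ d' → σ''.reg r = σ'.reg r) → σ''.mem = σ'.mem → wp Q L σ'' Φ) :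
    wp Q (.load d' i :: L) σ' Φ :=
  wp_upd h hd hd' (by rw [← hc]; rfl) (by rw [← hc]; exact h.rb.mem _) k

theorem wp_addr (B : Arr) {d a : ℕ} (hd : T0 ≤ d) (h : Aft N M Q s d σ σ')
    (ha : σ'.reg d = a) (hQ : N + 33 + 32 * a ≤ Q) {L : List Instr} {Φ : Config → Prop}
    (hΦ : ∀ σ'', Aft N M Q s d σ σ'' → σ''.reg d = N + 1 + ix B + 32 * a →
      σ''.mem = σ'.mem → wp Q L σ'' Φ) :
    wp Q (cAddr B d ++ L) σ' Φ := by
  have hB := ix_lt B
  have hT : T0 = 32 := rfl
  unfold cAddr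
  refine wp_add h hd le_rfl (c := 2 * a) (by omega) (by omega) fun σ1 h1 e1 _ m1 => ?_
  refine wp_add h1 hd le_rfl (c := 4 * a) (by omega) (by omega) fun σ2 h2 e2 _ m2 => ?_
  refine wp_add h2 hd le_rfl (c := 8 * a) (by omega) (by omega) fun σ3 h3 e3 _ m3 => ?_
  refine wp_add h3 hd le_rfl (c := 16 * a) (by omega) (by omega) fun σ4 h4 e4 _ m4 => ?_
  refine wp_add h4 hd le_rfl (c := 32 * a) (by omega) (by omega) fun σ5 h5 e5 _ m5 => ?_
  have e0 := h5.sim.r0
  refine wp_add h5 hd le_rfl (c := 32 * a + N) (by omega) (by omega) fun σ6 h6 e6 _ m6 => ?_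
  refine wp_const h6 hd (Nat.le_succ d) (c := ix B + 1) (by omega) fun σ7 h7 e7 f7 m7 => ?_
  have e6' := f7 d (by omega)
  refine wp_add h7 hd le_rfl (c := N + 1 + ix B + 32 * a) (by omega) (by omega)
    fun σ8 h8 e8 _ m8 => ?_
  exact hΦ σ8 h8 e8 (by rw [m8, m7, m6, m5, m4, m3, m2, m1])

/-- correctness of the code of an expression -/
theorem wp_E (e : E) {d : ℕ} (hd : T0 ≤ d) (h : Aft N M Q s d σ σ')
    (hQ : N + 33 + 32 * (M + e.size) ≤ Q) {L : List Instr} {Φ : Config → Prop}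
    (hΦ : ∀ σ'', Aft N M Q s d σ σ'' → σ''.reg d = e.eval s →
      σ''.mem = σ'.mem → wp Q L σ'' Φ) :
    wp Q (cE e d ++ L) σ' Φ := by
  have hT : T0 = 32 := rfl
  induction e generalizing L Φ with
  | zero =>
    exact wp_const h hd le_rfl (by omega) fun σ'' h1 e1 _ m1 => hΦ σ'' h1 e1 m1
  | var x =>
    have hx := h.sim.vb x
    have h1 := h.sim.r1
    have h2 := h.sim.rv x
    refine wp_add h hd le_rfl (c := s.v x) (by omega) (by omega) fun σ'' h1 e1 _ m1 =>
      hΦ σ'' h1 e1 m1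
  | succ e ih =>
    have he := h.sim.eval_le e
    simp only [Expr.size] at hQ
    simp only [cE, List.append_assoc, List.cons_append, List.nil_append]
    refine ih (by omega) fun σ1 h1 e1 m1 => ?_
    refine wp_const h1 hd (Nat.le_succ d) (c := 1) (by omega) fun σ2 h2 e2 f2 m2 => ?_
    have e1' := f2 d (by omega)
    refine wp_add h2 hd le_rfl (c := e.eval s + 1) (by omega) (by omega)
      fun σ3 h3 e3 f3 m3 => ?_
    exact hΦ σ3 h3 e3 (by rw [m3, m2, m1])
  | pred e ih =>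
    have he := h.sim.eval_le e
    simp only [Expr.size] at hQ
    simp only [cE, List.append_assoc, List.cons_append, List.nil_append]
    refine ih (by omega) fun σ1 h1 e1 m1 => ?_
    refine wp_const h1 hd (Nat.le_succ d) (c := 1) (by omega) fun σ2 h2 e2 f2 m2 => ?_
    have e1' := f2 d (by omega)
    refine wp_sub h2 hd le_rfl (c := e.eval s - 1) (by omega) (by omega)
      fun σ3 h3 e3 f3 m3 => ?_
    exact hΦ σ3 h3 e3 (by rw [m3, m2, m1])
  | arr B e ih =>
    have he := h.sim.eval_le e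
    simp only [Expr.size] at hQ
    simp only [cE, List.append_assoc, List.cons_append, List.nil_append]
    refine ih (by omega) fun σ1 h1 e1 m1 => ?_
    refine wp_addr B hd h1 e1 (by omega) fun σ2 h2 e2 m2 => ?_
    refine wp_load h2 hd le_rfl (c := s.m B (e.eval s)) ?_ fun σ3 h3 e3 f3 m3 => ?_
    · rw [e2, h2.sim.ar]
    · exact hΦ σ3 h3 e3 (by rw [m3, m2, m1])

/-- the two values of a test -/
noncomputable def cT (e₁ e₂ : E) : List Instr := cE e₁ T0 ++ cE e₂ (T0 + 1)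

/-- unconditional jump -/
def jmp (l : ℕ) : List Instr := [.const T0 0, .const (T0 + 1) 1, .jlt T0 (T0 + 1) l]

/-- length of the code of a command -/
noncomputable def len : C → ℕ
  | .skip => 0
  | .asg _ e => (cE e T0).length + 1
  | .sto _ e₁ e₂ => (cE e₁ T0).length + 8 + (cE e₂ (T0 + 1)).length + 1
  | .inp _ e => (cE e T0).length + 2
  | .outp e₁ e₂ => (cE e₁ T0).length + (cE e₂ (T0 + 1)).length + 1
  | .seq c₁ c₂ => len c₁ + len c₂
  | .ite e₁ e₂ c₁ c₂ => (cT e₁ e₂).length + 4 + len c₂ + len c₁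
  | .whl e₁ e₂ c => (cT e₁ e₂).length + 4 + len c + 3

/-- code of a command at position `p` -/
noncomputable def cC : C → ℕ → List Instr
  | .skip, _ => []
  | .asg x e, _ => cE e T0 ++ [.add (rg x) T0 1]
  | .sto B e₁ e₂, _ => cE e₁ T0 ++ (cAddr B T0 ++ (cE e₂ (T0 + 1) ++ [.store T0 (T0 + 1)]))
  | .inp x e, _ => cE e T0 ++ [.load T0 T0, .add (rg x) T0 1]
  | .outp e₁ e₂, _ => cE e₁ T0 ++ (cE e₂ (T0 + 1) ++ [.store T0 (T0 + 1)])
  | .seq c₁ c₂, p => cC c₁ p ++ cC c₂ (p + len c₁)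
  | .ite e₁ e₂ c₁ c₂, p => cT e₁ e₂ ++ (.jlt T0 (T0 + 1) (p + (cT e₁ e₂).length + 4 + len c₂) ::
      (cC c₂ (p + (cT e₁ e₂).length + 1) ++
        (jmp (p + (cT e₁ e₂).length + 4 + len c₂ + len c₁) ++
          cC c₁ (p + (cT e₁ e₂).length + 4 + len c₂))))
  | .whl e₁ e₂ c, p => cT e₁ e₂ ++ (.jlt T0 (T0 + 1) (p + (cT e₁ e₂).length + 4) ::
      (jmp (p + (cT e₁ e₂).length + 4 + len c + 3) ++
        (cC c (p + (cT e₁ e₂).length + 4) ++ jmp p)))

theorem len_cC (c : C) (p : ℕ) : (cC c p).length = len c := by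
  induction c generalizing p with
  | skip => rfl
  | asg x e => simp [cC, len]
  | sto B e₁ e₂ => simp [cC, len, cAddr]; omega
  | inp x e => simp [cC, len]
  | outp e₁ e₂ => simp [cC, len]; omega
  | seq c₁ c₂ ih1 ih2 => simp [cC, len, ih1, ih2]
  | ite e₁ e₂ c₁ c₂ ih1 ih2 => simp [cC, len, ih1, ih2, jmp]; omega
  | whl e₁ e₂ c ih => simp [cC, len, ih, jmp]; omega

/-- weight: the sum of the sizes of all expressions -/
def wt : C → ℕ
  | .skip => 0
  | .asg _ e => e.size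
  | .sto _ e₁ e₂ => e₁.size + e₂.size
  | .inp _ e => e.size
  | .outp e₁ e₂ => e₁.size + e₂.size
  | .seq c₁ c₂ => wt c₁ + wt c₂
  | .ite e₁ e₂ c₁ c₂ => e₁.size + e₂.size + wt c₁ + wt c₂
  | .whl e₁ e₂ c => e₁.size + e₂.size + wt c

theorem Sim.congr (h : Sim N M s σ) (hr : σ'.reg = σ.reg) (hm : σ'.mem = σ.mem) :
    Sim N M s σ' := by
  obtain ⟨pc, r, m⟩ := σ
  obtain ⟨pc', r', m'⟩ := σ'
  simp only at hr hm
  subst hr hm
  exact ⟨h.r0, h.r1, h.rv, h.vb, h.io, h.ar, h.mb⟩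

theorem Sim.tick (h : Sim N M s σ) : Sim N M s.tick σ :=
  ⟨h.r0, h.r1, h.rv, h.vb, h.io, h.ar, h.mb⟩

theorem Sim.setv (h : Sim N M s σ) {x : Var} {c pc : ℕ} (hc : c ≤ M) :
    Sim N M (s.setv x c) ⟨pc, Function.update σ.reg (rg x) c, σ.mem⟩ := by
  have hx := rg_ge x
  refine ⟨?_, ?_, fun y => ?_, fun y => ?_, h.io, h.ar, h.mb⟩
  · show Function.update σ.reg (rg x) c 0 = N
    rw [Function.update_of_ne (by omega)]; exact h.r0
  · show Function.update σ.reg (rg x) c 1 = 0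
    rw [Function.update_of_ne (by omega)]; exact h.r1
  · show Function.update σ.reg (rg x) c (rg y) = _
    by_cases hy : y = x
    · subst hy; simp
    · rw [Function.update_of_ne (fun hh => hy (rg_inj hh)), setv_v_ne _ _ _ _ hy]
      exact h.rv y
  · by_cases hy : y = x
    · subst hy; simpa using hc
    · rw [setv_v_ne _ _ _ _ hy]; exact h.vb y

theorem Sim.setm (h : Sim N M s σ) {B : Arr} {i c pc : ℕ} (hc : c ≤ M) :
    Sim N M (s.setm B i c) ⟨pc, σ.reg, Function.update σ.mem (N + 1 + ix B + 32 * i) c⟩ := by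
  have hB := ix_lt B
  refine ⟨h.r0, h.r1, h.rv, h.vb, fun j hj => ?_, fun B' j => ?_, fun j => ?_⟩
  · show Function.update σ.mem (N + 1 + ix B + 32 * i) c j = _
    rw [Function.update_of_ne (by omega)]; exact h.io j hj
  · show Function.update σ.mem (N + 1 + ix B + 32 * i) c (N + 1 + ix B' + 32 * j) = _
    have hB' := ix_lt B'
    by_cases hBB : B' = B
    · subst hBB
      rw [setm_m_same]
      by_cases hj : j = i
      · subst hj; simp
      · rw [Function.update_of_ne (by omega), Function.update_of_ne hj]; exact h.ar B' j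
    · rw [setm_m_ne _ _ _ _ _ hBB, Function.update_of_ne]
      · exact h.ar B' j
      · intro hh
        exact hBB (ix_inj (by omega))
  · show Function.update σ.mem (N + 1 + ix B + 32 * i) c j ≤ M
    by_cases hj : j = N + 1 + ix B + 32 * i
    · subst hj; simpa using hc
    · rw [Function.update_of_ne hj]; exact h.mb j

theorem Sim.seto (h : Sim N M s σ) {i c pc : ℕ} (hi : i ≤ N) (hc : c ≤ M) :
    Sim N M (s.seto i c) ⟨pc, σ.reg, Function.update σ.mem i c⟩ := by
  refine ⟨h.r0, h.r1, h.rv, h.vb, fun j hj => ?_, fun B' j => ?_, fun j => ?_⟩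
  · show Function.update σ.mem i c j = _
    rw [seto_io]
    by_cases hji : j = i
    · subst hji; simp
    · rw [Function.update_of_ne hji, Function.update_of_ne hji]; exact h.io j hj
  · show Function.update σ.mem i c (N + 1 + ix B' + 32 * j) = _
    rw [Function.update_of_ne (by omega)]; exact h.ar B' j
  · show Function.update σ.mem i c j ≤ M
    by_cases hj : j = i
    · subst hj; simpa using hc
    · rw [Function.update_of_ne hj]; exact h.mb j

theorem Aft.start (h : Sim N M s σ) (hr : RB Q σ) {d : ℕ} : Aft N M Q s d σ σ :=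
  ⟨h, hr, fun _ _ => rfl⟩

theorem Aft.up {d d' : ℕ} (h : Aft N M Q s d σ σ') : Aft N M Q s d' σ' σ' :=
  ⟨h.sim, h.rb, fun _ _ => rfl⟩

/-- a final instruction of straight line code -/
theorem wp_last {I : Instr} {Φ : Config → Prop} (h1 : (I.exec σ').pc = σ'.pc + 1)
    (h2 : RB Q (I.exec σ')) (h3 : Φ (I.exec σ')) : wp Q [I] σ' Φ := ⟨h1, h2, h3⟩

theorem test_ok (e₁ e₂ : E) (h : Sim N M s σ) (hr : RB Q σ)
    (hQ : N + 33 + 32 * (M + (e₁.size + e₂.size)) ≤ Q) {L : List Instr}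
    (hc : CodeAt P σ.pc (cT e₁ e₂ ++ L)) :
    ∃ σ', Steps P Q (cT e₁ e₂).length σ σ' ∧ Sim N M s σ' ∧
      σ'.pc = σ.pc + (cT e₁ e₂).length ∧ σ'.reg T0 = e₁.eval s ∧
      σ'.reg (T0 + 1) = e₂.eval s := by
  have hw : wp Q (cT e₁ e₂) σ (fun σ' => Sim N M s σ' ∧ σ'.reg T0 = e₁.eval s ∧
      σ'.reg (T0 + 1) = e₂.eval s) := by
    unfold cT
    refine wp_E e₁ le_rfl (Aft.start h hr) (by omega) fun σ1 h1 v1 m1 => ?_
    rw [← List.append_nil (cE e₂ (T0 + 1))]
    refine wp_E e₂ (Nat.le_succ T0) h1.up (by omega) fun σ2 h2 v2 m2 => ?_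
    exact ⟨h2.sim, by rw [h2.low T0 (Nat.lt_succ_self _), v1], v2⟩
  obtain ⟨σ', h1, h2, h3⟩ := wp_sound hw hr (codeAt_append hc).1
  exact ⟨σ', h1, h2.1, h3, h2.2.1, h2.2.2⟩

theorem jmp_ok {l : ℕ} (h : Sim N M s σ) (hr : RB Q σ) (hQ : 1 ≤ Q) (hl : l ≤ P.length)
    {L : List Instr} (hc : CodeAt P σ.pc (jmp l ++ L)) :
    ∃ σ', Steps P Q 3 σ σ' ∧ Sim N M s σ' ∧ σ'.pc = l := by
  have hw : wp Q [.const T0 0, .const (T0 + 1) 1] σ (fun σ' => Sim N M s σ' ∧
      σ'.reg T0 = 0 ∧ σ'.reg (T0 + 1) = 1) := by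
    refine wp_const (Aft.start h hr) le_rfl le_rfl (Nat.zero_le _) fun σ1 h1 v1 f1 m1 => ?_
    refine wp_const h1 le_rfl (Nat.le_succ _) hQ fun σ2 h2 v2 f2 m2 => ?_
    exact ⟨h2.sim, by rw [f2 T0 (by omega), v1], v2⟩
  obtain ⟨σ', h1, ⟨h2, v1, v2⟩, h3⟩ := wp_sound hw hr ⟨hc.1, hc.2.1, by
    have := hc.2.2.2.le; show _ ≤ _; omega⟩
  have h4 : P[σ'.pc]? = some (.jlt T0 (T0 + 1) l) := by
    rw [h3]; exact hc.2.2.1
  refine ⟨_, h1.trans (.step h1.rb_right h4 (.refl _ ⟨h1.rb_right.reg, h1.rb_right.mem⟩ ?_)),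
    h2.congr rfl rfl, ?_⟩
  · simp only [Instr.exec, v1, v2]; simpa using hl
  · simp only [Instr.exec, v1, v2]; simp

theorem jlt_ok {l : ℕ} (h : Sim N M s σ) (hr : RB Q σ) (hl : l ≤ P.length)
    {L : List Instr} (hc : CodeAt P σ.pc (.jlt T0 (T0 + 1) l :: L)) :
    ∃ σ', Steps P Q 1 σ σ' ∧ Sim N M s σ' ∧
      σ'.pc = if σ.reg T0 < σ.reg (T0 + 1) then l else σ.pc + 1 := by
  refine ⟨_, .step hr hc.1 (.refl _ ⟨hr.reg, hr.mem⟩ ?_), h.congr rfl rfl, rfl⟩
  have := hc.2.le
  simp only [Instr.exec]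
  split_ifs <;> omega

/-- correctness of the code of a command -/
theorem sim_exec {c : C} (h : Exec N c s s') : ∃ d, s'.k = s.k + d ∧
    ∀ (P : List Instr) (Q M : ℕ) (σ : Config), CodeAt P σ.pc (cC c σ.pc) → Sim N M s σ →
      RB Q σ → N + 33 + 32 * (M + wt c * (d + 1)) ≤ Q →
      ∃ t σ', t ≤ len c * (d + 1) ∧ Steps P Q t σ σ' ∧ Sim N (M + wt c * (d + 1)) s' σ' ∧
        σ'.pc = σ.pc + len c := by
  have hT : T0 = 32 := rfl
  induction h with
  | skip s =>
    refine ⟨0, rfl, fun P Q M σ hc hS hr hQ => ⟨0, σ, by simp, .refl σ hr ?_, ?_, rfl⟩⟩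
    · have := hc.le; omega
    · exact hS.mono (by omega)
  | asg s x e =>
    refine ⟨0, rfl, fun P Q M σ hc hS hr hQ => ?_⟩
    simp only [wt, zero_add, mul_one] at hQ ⊢
    have hw : wp Q (cC (.asg x e) σ.pc) σ (fun σ' => Sim N (M + e.size)
        (s.setv x (e.eval s)) σ') := by
      unfold cC
      refine wp_E e le_rfl (Aft.start hS hr) hQ fun σ1 h1 v1 m1 => ?_
      have hv := h1.sim.eval_le e
      have e2 : σ1.reg T0 + σ1.reg 1 = e.eval s := by rw [v1, h1.sim.r1]; rfl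
      refine wp_last rfl ?_ ?_
      · simp only [Instr.exec, e2]; exact h1.rb.upd (by omega)
      · simp only [Instr.exec, e2]
        exact (h1.sim.mono (Nat.le_add_right _ _)).setv hv
    obtain ⟨σ', h1, h2, h3⟩ := wp_sound hw hr hc
    rw [len_cC] at h1 h3
    exact ⟨_, σ', le_rfl, h1, h2, h3⟩
  | sto s B e₁ e₂ =>
    refine ⟨0, rfl, fun P Q M σ hc hS hr hQ => ?_⟩
    simp only [wt, zero_add, mul_one] at hQ ⊢
    have hw : wp Q (cC (.sto B e₁ e₂) σ.pc) σ (fun σ' => Sim N (M + (e₁.size + e₂.size))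
        (s.setm B (e₁.eval s) (e₂.eval s)) σ') := by
      unfold cC
      refine wp_E e₁ le_rfl (Aft.start hS hr) (by omega) fun σ1 h1 v1 m1 => ?_
      have hv1 := h1.sim.eval_le e₁
      refine wp_addr B le_rfl h1 v1 (by omega) fun σ2 h2 v2 m2 => ?_
      refine wp_E e₂ (Nat.le_succ T0) h2.up (by omega) fun σ3 h3 v3 m3 => ?_
      have hv2 := h3.sim.eval_le e₂
      have v2' := h3.low T0 (Nat.lt_succ_self _)
      rw [v2] at v2'
      refine wp_last rfl ?_ ?_
      · simp only [Instr.exec, v3, v2']; exact h3.rb.updm (by omega)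
      · simp only [Instr.exec, v3, v2']
        exact (h3.sim.mono (Nat.le_add_right _ _)).setm (by omega)
    obtain ⟨σ', h1, h2, h3⟩ := wp_sound hw hr hc
    rw [len_cC] at h1 h3
    exact ⟨_, σ', le_rfl, h1, h2, h3⟩
  | inp s x e hN =>
    refine ⟨0, rfl, fun P Q M σ hc hS hr hQ => ?_⟩
    simp only [wt, zero_add, mul_one] at hQ ⊢
    have hw : wp Q (cC (.inp x e) σ.pc) σ (fun σ' => Sim N (M + e.size)
        (s.setv x (s.io (e.eval s))) σ') := by
      unfold cC
      refine wp_E e le_rfl (Aft.start hS hr) hQ fun σ1 h1 v1 m1 => ?_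
      refine wp_load h1 le_rfl le_rfl (c := s.io (e.eval s)) ?_ fun σ2 h2 v2 f2 m2 => ?_
      · rw [v1, h1.sim.io _ hN]
      have e2 : σ2.reg T0 + σ2.reg 1 = s.io (e.eval s) := by rw [v2, h2.sim.r1]; rfl
      have hv : s.io (e.eval s) ≤ M := by rw [← hS.io _ hN]; exact hS.mb _
      refine wp_last rfl ?_ ?_
      · simp only [Instr.exec, e2]; exact h2.rb.upd (by omega)
      · simp only [Instr.exec, e2]
        exact (h2.sim.mono (Nat.le_add_right _ _)).setv (by omega)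
    obtain ⟨σ', h1, h2, h3⟩ := wp_sound hw hr hc
    rw [len_cC] at h1 h3
    exact ⟨_, σ', le_rfl, h1, h2, h3⟩
  | outp s e₁ e₂ hN =>
    refine ⟨0, rfl, fun P Q M σ hc hS hr hQ => ?_⟩
    simp only [wt, zero_add, mul_one] at hQ ⊢
    have hw : wp Q (cC (.outp e₁ e₂) σ.pc) σ (fun σ' => Sim N (M + (e₁.size + e₂.size))
        (s.seto (e₁.eval s) (e₂.eval s)) σ') := by
      unfold cC
      refine wp_E e₁ le_rfl (Aft.start hS hr) (by omega) fun σ1 h1 v1 m1 => ?_
      refine wp_E e₂ (Nat.le_succ T0) h1.up (by omega) fun σ3 h3 v3 m3 => ?_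
      have hv2 := h3.sim.eval_le e₂
      have v1' := h3.low T0 (Nat.lt_succ_self _)
      rw [v1] at v1'
      refine wp_last rfl ?_ ?_
      · simp only [Instr.exec, v3, v1']; exact h3.rb.updm (by omega)
      · simp only [Instr.exec, v3, v1']
        exact (h3.sim.mono (Nat.le_add_right _ _)).seto hN (by omega)
    obtain ⟨σ', h1, h2, h3⟩ := wp_sound hw hr hc
    rw [len_cC] at h1 h3
    exact ⟨_, σ', le_rfl, h1, h2, h3⟩
  | @seq c₁ c₂ s s' s'' _ _ ih1 ih2 =>
    obtain ⟨d1, hd1, ih1⟩ := ih1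
    obtain ⟨d2, hd2, ih2⟩ := ih2
    refine ⟨d1 + d2, by omega, fun P Q M σ hc hS hr hQ => ?_⟩
    simp only [wt, len] at hQ ⊢
    have i1 : wt c₁ * (d1 + 1) ≤ wt c₁ * (d1 + d2 + 1) := Nat.mul_le_mul_left _ (by omega)
    have i2 : wt c₂ * (d2 + 1) ≤ wt c₂ * (d1 + d2 + 1) := Nat.mul_le_mul_left _ (by omega)
    have j1 : len c₁ * (d1 + 1) ≤ len c₁ * (d1 + d2 + 1) := Nat.mul_le_mul_left _ (by omega)
    have j2 : len c₂ * (d2 + 1) ≤ len c₂ * (d1 + d2 + 1) := Nat.mul_le_mul_left _ (by omega)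
    rw [Nat.add_mul] at hQ ⊢
    rw [Nat.add_mul]
    have hc' := codeAt_append hc
    rw [len_cC] at hc'
    obtain ⟨t1, σ1, ht1, hs1, hS1, hp1⟩ := ih1 P Q M σ hc'.1 hS hr (by omega)
    obtain ⟨t2, σ2, ht2, hs2, hS2, hp2⟩ := ih2 P Q _ σ1 (by rw [hp1]; exact hc'.2) hS1
      hs1.rb_right (by omega)
    exact ⟨t1 + t2, σ2, by omega, hs1.trans hs2, hS2.mono (by omega), by omega⟩
  | @iteT e₁ e₂ c₁ c₂ s s' hlt _ ih =>
    obtain ⟨d, hd, ih⟩ := ih
    refine ⟨d, hd, fun P Q M σ hc hS hr hQ => ?_⟩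
    simp only [wt, len] at hQ ⊢
    have i1 : wt c₁ * (d + 1) + (e₁.size + e₂.size) ≤
        (e₁.size + e₂.size + wt c₁ + wt c₂) * (d + 1) := by nlinarith
    have j1 : (cT e₁ e₂).length + 4 + len c₁ * (d + 1) ≤
        ((cT e₁ e₂).length + 4 + len c₂ + len c₁) * (d + 1) := by nlinarith
    have hcl := hc.le
    rw [len_cC] at hcl
    simp only [len] at hcl
    obtain ⟨σ1, hs1, hS1, hp1, hv1, hv2⟩ := test_ok e₁ e₂ hS hr (by omega) hc
    have hc1 := (codeAt_append hc).2
    rw [← hp1] at hc1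
    obtain ⟨σ2, hs2, hS2, hp2⟩ := jlt_ok hS1 hs1.rb_right (by omega) hc1
    rw [hv1, hv2, if_pos hlt] at hp2
    have hc2 := (codeAt_append (codeAt_append hc1.2).2).2
    rw [len_cC] at hc2
    obtain ⟨t3, σ3, ht3, hs3, hS3, hp3⟩ := ih P Q M σ2 (by
      rw [hp2]
      convert hc2 using 1
      rw [hp1]
      simp only [jmp, List.length_cons, List.length_nil]
      omega) hS2 hs2.rb_right (by omega)
    exact ⟨_, σ3, by omega, (hs1.trans hs2).trans hs3, hS3.mono (by omega), by omega⟩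
  | @iteF e₁ e₂ c₁ c₂ s s' hlt _ ih =>
    obtain ⟨d, hd, ih⟩ := ih
    refine ⟨d, hd, fun P Q M σ hc hS hr hQ => ?_⟩
    simp only [wt, len] at hQ ⊢
    have i1 : wt c₂ * (d + 1) + (e₁.size + e₂.size) ≤
        (e₁.size + e₂.size + wt c₁ + wt c₂) * (d + 1) := by nlinarith
    have j1 : (cT e₁ e₂).length + 4 + len c₂ * (d + 1) ≤
        ((cT e₁ e₂).length + 4 + len c₂ + len c₁) * (d + 1) := by nlinarith
    have hcl := hc.le
    rw [len_cC] at hcl
    simp only [len] at hcl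
    obtain ⟨σ1, hs1, hS1, hp1, hv1, hv2⟩ := test_ok e₁ e₂ hS hr (by omega) hc
    have hc1 := (codeAt_append hc).2
    rw [← hp1] at hc1
    obtain ⟨σ2, hs2, hS2, hp2⟩ := jlt_ok hS1 hs1.rb_right (by omega) hc1
    rw [hv1, hv2, if_neg hlt] at hp2
    have hc2 := codeAt_append hc1.2
    rw [len_cC] at hc2
    obtain ⟨t3, σ3, ht3, hs3, hS3, hp3⟩ := ih P Q M σ2 (by rw [hp2]; exact hc2.1)
      hS2 hs2.rb_right (by omega)
    obtain ⟨σ4, hs4, hS4, hp4⟩ := jmp_ok (P := P) hS3 hs3.rb_right (by omega)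
      (l := σ1.pc + 4 + len c₂ + len c₁) (by omega) (L := cC c₁ (σ1.pc + 4 + len c₂))
      (by rw [hp3, hp2]; exact hc2.2)
    exact ⟨_, σ4, by omega, ((hs1.trans hs2).trans hs3).trans hs4, hS4.mono (by omega),
      by omega⟩
  | @whlF e₁ e₂ c s hlt =>
    refine ⟨0, rfl, fun P Q M σ hc hS hr hQ => ?_⟩
    simp only [wt, len, zero_add, mul_one] at hQ ⊢
    have hcl := hc.le
    rw [len_cC] at hcl
    simp only [len] at hcl
    obtain ⟨σ1, hs1, hS1, hp1, hv1, hv2⟩ := test_ok e₁ e₂ hS hr (by omega) hc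
    have hc1 := (codeAt_append hc).2
    rw [← hp1] at hc1
    obtain ⟨σ2, hs2, hS2, hp2⟩ := jlt_ok hS1 hs1.rb_right (by omega) hc1
    rw [hv1, hv2, if_neg hlt] at hp2
    obtain ⟨σ4, hs4, hS4, hp4⟩ := jmp_ok (P := P) hS2 hs2.rb_right (by omega)
      (l := σ1.pc + 4 + len c + 3) (by omega)
      (by rw [hp2]; exact hc1.2)
    exact ⟨_, σ4, by omega, (hs1.trans hs2).trans hs4, hS4.mono (by omega), by omega⟩
  | @whlT e₁ e₂ c s s' s'' hlt _ _ ih1 ih2 =>
    obtain ⟨d1, hd1, ih1⟩ := ih1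
    obtain ⟨d2, hd2, ih2⟩ := ih2
    rw [tick_k] at hd2
    refine ⟨d1 + 1 + d2, by omega, fun P Q M σ hc hS hr hQ => ?_⟩
    have hcl := hc.le
    rw [len_cC] at hcl
    have i1 : wt c * (d1 + 1) + (e₁.size + e₂.size) ≤ wt (.whl e₁ e₂ c) * (d1 + 1) := by
      simp only [wt]; nlinarith
    have j1 : (cT e₁ e₂).length + 4 + len c * (d1 + 1) ≤ len (.whl e₁ e₂ c) * (d1 + 1) := by
      simp only [len]; nlinarith
    have i2 : wt (.whl e₁ e₂ c) * (d1 + 1 + d2 + 1) =
      wt (.whl e₁ e₂ c) * (d1 + 1) + wt (.whl e₁ e₂ c) * (d2 + 1) := by ring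
    have j2 : len (.whl e₁ e₂ c) * (d1 + 1 + d2 + 1) =
      len (.whl e₁ e₂ c) * (d1 + 1) + len (.whl e₁ e₂ c) * (d2 + 1) := by ring
    have hl : len (.whl e₁ e₂ c) = (cT e₁ e₂).length + 4 + len c + 3 := rfl
    obtain ⟨σ1, hs1, hS1, hp1, hv1, hv2⟩ := test_ok e₁ e₂ hS hr (by omega) hc
    have hc1 := (codeAt_append hc).2
    rw [← hp1] at hc1
    obtain ⟨σ2, hs2, hS2, hp2⟩ := jlt_ok hS1 hs1.rb_right (by omega) hc1
    rw [hv1, hv2, if_pos hlt] at hp2
    have hc2 := codeAt_append (codeAt_append hc1.2).2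
    rw [len_cC] at hc2
    have e3 : (jmp (σ1.pc + 4 + len c + 3)).length = 3 := rfl
    rw [e3] at hc2
    have e4 : σ1.pc + 1 + 3 = σ2.pc := by omega
    rw [e4] at hc2
    obtain ⟨t3, σ3, ht3, hs3, hS3, hp3⟩ := ih1 P Q M σ2 hc2.1 hS2 hs2.rb_right (by omega)
    obtain ⟨σ4, hs4, hS4, hp4⟩ := jmp_ok (P := P) hS3 hs3.rb_right (by omega)
      (l := σ.pc) (by omega) (L := []) (by rw [hp3, List.append_nil]; exact hc2.2)
    obtain ⟨t5, σ5, ht5, hs5, hS5, hp5⟩ := ih2 P Q _ σ4 (by rw [hp4]; exact hc) hS4.tick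
      hs4.rb_right (by omega)
    exact ⟨_, σ5, by omega, (((hs1.trans hs2).trans hs3).trans hs4).trans hs5,
      hS5.mono (by omega), by omega⟩

end Comp

open Pool.Agent.PD.Comp in
theorem ram_compile (c : C) : ∃ (P : List Instr) (K : ℕ), ∀ (N : ℕ) (inp : ℕ → ℕ) (s' : S),
    (∀ i, 1 ≤ i → i ≤ N → inp i ≤ N) → Exec N c (initSt N inp) s' →
    ∃ t, t ≤ K * (s'.k + N + 1) ∧ P.length ≤ (runP P t (initCfg N inp)).pc ∧
      (∀ i, i ≤ N → (runP P t (initCfg N inp)).mem i = s'.io i) ∧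
      ∀ j, j ≤ t → (runP P j (initCfg N inp)).Bdd (K * (s'.k + N + 1)) := by
  refine ⟨[Instr.add (rg .n) 0 1] ++ cC c 1, 70 + 32 * wt c + len c, ?_⟩
  intro N inp s' hinp h
  obtain ⟨d, hd, H⟩ := sim_exec h
  have hd' : s'.k = d := by rw [hd]; show 0 + d = d; omega
  have hN := rg_ge Var.n
  have hmem : ∀ i, (initCfg N inp).mem i ≤ N := by
    intro i
    show (if 1 ≤ i ∧ i ≤ N then inp i else 0) ≤ N
    split_ifs with hi
    · exact hinp i hi.1 hi.2
    · omega
  have hreg : ∀ i, (initCfg N inp).reg i ≤ N := by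
    intro i
    show (if i = 0 then N else 0) ≤ N
    split_ifs <;> omega
  have e1 : (Instr.add (rg .n) 0 1).exec (initCfg N inp) =
      ⟨1, Function.update (initCfg N inp).reg (rg .n) N, (initCfg N inp).mem⟩ := by
    simp [Instr.exec, initCfg]
  have hS : Sim N N (initSt N inp) ((Instr.add (rg .n) 0 1).exec (initCfg N inp)) := by
    rw [e1]
    refine ⟨?_, ?_, fun x => ?_, fun x => ?_, fun i hi => rfl, fun B i => ?_, hmem⟩
    · show Function.update (initCfg N inp).reg (rg .n) N 0 = N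
      rw [Function.update_of_ne (by omega)]; rfl
    · show Function.update (initCfg N inp).reg (rg .n) N 1 = 0
      rw [Function.update_of_ne (by omega)]; rfl
    · show Function.update (initCfg N inp).reg (rg .n) N (rg x) = if x = .n then N else 0
      by_cases hx : x = .n
      · subst hx; simp
      · rw [Function.update_of_ne (fun hh => hx (rg_inj hh)), if_neg hx]
        have := rg_ge x
        show (if rg x = 0 then N else 0) = 0
        rw [if_neg (by omega)]
    · show (if x = .n then N else 0) ≤ N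
      split_ifs <;> omega
    · show (if 1 ≤ N + 1 + ix B + 32 * i ∧ N + 1 + ix B + 32 * i ≤ N then _ else 0) = 0
      rw [if_neg (by omega)]
  have hlen : ([Instr.add (rg .n) 0 1] ++ cC c 1).length = len c + 1 := by
    rw [List.length_append, len_cC, List.length_singleton]; omega
  have hQ1 : N ≤ N + 33 + 32 * (N + wt c * (d + 1)) := by omega
  have hr0 : RB (N + 33 + 32 * (N + wt c * (d + 1))) (initCfg N inp) :=
    ⟨fun i => (hreg i).trans hQ1, fun i => (hmem i).trans hQ1⟩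
  have hr1 : RB (N + 33 + 32 * (N + wt c * (d + 1)))
      ((Instr.add (rg .n) 0 1).exec (initCfg N inp)) := by
    rw [e1]
    exact hr0.upd hQ1
  obtain ⟨t, σ', ht, hs, hS', hp⟩ := H ([Instr.add (rg .n) 0 1] ++ cC c 1) _ N
    ((Instr.add (rg .n) 0 1).exec (initCfg N inp))
    (codeAt_self [Instr.add (rg .n) 0 1] (cC c 1)) hS hr1 le_rfl
  have hs' := Steps.step (P := [Instr.add (rg .n) 0 1] ++ cC c 1) hr0
    (I := .add (rg .n) 0 1) rfl hs
  have b1 : (70 + 32 * wt c + len c) * (s'.k + N + 1) =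
    70 * (s'.k + N + 1) + 32 * (wt c * (d + 1)) + 32 * (wt c * N) + len c * (d + 1) +
      len c * N := by rw [hd']; ring
  obtain ⟨hrun, hB⟩ := hs'.run (B := (70 + 32 * wt c + len c) * (s'.k + N + 1))
    (by
      rw [hlen, b1]
      have : len c * 1 ≤ len c * (d + 1) := Nat.mul_le_mul_left _ (by omega)
      omega)
    (by rw [b1]; omega)
  refine ⟨t + 1, by rw [b1]; omega, ?_, fun i hi => ?_, hB⟩
  · rw [hrun, hlen, hp, e1]
    show _ ≤ 1 + len c
    omega
  · rw [hrun]; exact hS'.io i hi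

end Pool.Agent.PD
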