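import Pool.Agent.PD.Inv

/-! Module REC: the reconstruction of the dominating set and the output. -/

namespace Pool.Agent.PD

open PData

section rec
variable {p : PData} {s : S}

/-- membership in a set with a possibly missing new point -/
theorem mem_addp_iff {q x : ℕ} {D : Finset ℕ} (hx : 1 ≤ x) :
    x ∈ addp q D ↔ x = q ∨ x ∈ D := by
  unfold addp
  split_ifs with h
  · constructor
    · exact fun h' => Or.inr h'
    · rintro (h' | h')
      · omega
      · exact h'
  · rw [Finset.mem_insert]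

/-- marking a point -/
theorem update_y_eq_one_iff {f : ℕ → ℕ} {q x : ℕ} (hx : 1 ≤ x) (hn : x ≤ p.n) :
    Function.update f (p.y q) 1 (p.y x) = 1 ↔ x = q ∨ f (p.y x) = 1 := by
  have h1 := (p.y_mem x hx hn).1
  by_cases h : p.y x = p.y q
  · rw [h, Function.update_self]
    have hq := p.pos_of_y_pos (x := q) (by omega)
    have := p.y_inj hx hn hq.1 hq.2 h
    simp [this]
  · rw [Function.update_of_ne h]
    constructor
    · exact fun h' => Or.inr h'
    · rintro (h' | h')
      · exact absurd (by rw [h']) h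
      · exact h'

theorem update_one_le {f : ℕ → ℕ} {i : ℕ} (h : ∀ v, f v ≤ 1) (v : ℕ) :
    Function.update f i 1 v ≤ 1 := by
  rw [Function.update_apply]
  split_ifs
  · exact le_rfl
  · exact h v

theorem Rec_spec {t X Y : ℕ} (hs : Static p s) (hr : Rep p s (s.v .don) X Y t) :
    Run p.n cRec s (fun s' => s'.k ≤ s.k + t ∧ ∃ D, D.card ≤ t ∧ p.Valid X Y D ∧
      (∀ v, s'.m .out v ≤ 1) ∧
      ∀ x, 1 ≤ x → x ≤ p.n → (s'.m .out (p.y x) = 1 ↔ x ∈ D)) := by
  obtain ⟨D, l, hD, hl, hc, hv⟩ := hr.has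
  rw [cRec, run_blk_cons, run_asg, run_blk_one]
  refine run_whl (fun s' => (∃ D' l', HasD (s.m .par) (s.m .p1) (s.m .p2) (s'.v .i) D' l' ∧
      s'.k + l' ≤ s.k + l ∧
      ∀ x, 1 ≤ x → x ≤ p.n → (x ∈ D ↔ x ∈ D' ∨ s'.m .out (p.y x) = 1)) ∧
      ∀ v, s'.m .out v ≤ 1) (fun s' => s'.v .i) ?_ ?_ ?_
  · refine ⟨⟨D, l, ?_, ?_, ?_⟩, ?_⟩
    · simpa using hD
    · simp
    · intro x _ _
      simp [hs.out]
    · intro v
      simp [hs.out]
  · intro s' hF hI hlt
    obtain ⟨⟨D', l', hD', hk, hmem⟩, hout⟩ := hI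
    have hy : s'.m .y = p.y := by
      rw [hF.m .y (by decide), setv_m, hs.y]
    have hp1 : s'.m .p1 = s.m .p1 := by rw [hF.m .p1 (by decide), setv_m]
    have hp2 : s'.m .p2 = s.m .p2 := by rw [hF.m .p2 (by decide), setv_m]
    have hpar : s'.m .par = s.m .par := by rw [hF.m .par (by decide), setv_m]
    simp only [Expr.eval_succ, Expr.eval_zero, Expr.eval_var] at hlt
    generalize hi : s'.v .i = i at hD' hlt
    cases hD' with
    | root => omega
    | @step _ l'' D'' h1 h2 h3 =>
      rw [run_blk_cons, run_sto, run_blk_cons, run_sto, run_blk_one, run_asg]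
      simp only [Expr.eval_arr, Expr.eval_var, Expr.eval_succ, Expr.eval_zero, setm_v, setm_m_same,
        setm_m_ne, ne_eq, reduceCtorEq, not_false_eq_true, tick_v, setv_v_same, tick_k, setv_k,
        setm_k, tick_m, setv_m, hy, hp1, hp2, hpar, hi, zero_add]
      refine ⟨⟨⟨D'', l'', h3, by omega, fun x hx hn => ?_⟩, fun v => ?_⟩, h2⟩
      · rw [hmem x hx hn, mem_addp_iff hx, mem_addp_iff hx, update_y_eq_one_iff hx hn,
          update_y_eq_one_iff hx hn]
        tauto
      · exact update_one_le (fun v => update_one_le hout v) v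
  · intro s' hF hI hlt
    obtain ⟨⟨D', l', hD', hk, hmem⟩, hout⟩ := hI
    simp only [Expr.eval_succ, Expr.eval_zero, Expr.eval_var] at hlt
    generalize hi : s'.v .i = i at hD' hlt
    cases hD' with
    | root =>
      refine ⟨by omega, D, hc, hv, hout, fun x hx hn => ?_⟩
      rw [hmem x hx hn]
      simp
    | @step _ l'' D'' h1 h2 h3 => omega

theorem Out_spec (hs : s.v .n = p.n) :
    Run p.n cOut s (fun s' => s'.k = s.k + p.n ∧
      ∀ i, 1 ≤ i → i ≤ p.n → s'.io i = s.m .out i) := by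
  rw [cOut, run_blk_cons, run_asg, run_blk_one]
  refine run_whl (fun s' => s'.v .x ≤ p.n ∧ s'.k = s.k + s'.v .x ∧
      ∀ i, 1 ≤ i → i ≤ s'.v .x → s'.io i = s.m .out i) (fun s' => p.n - s'.v .x) ?_ ?_ ?_
  · refine ⟨by simp, by simp, fun i h1 h2 => ?_⟩
    simp only [Expr.eval_zero, setv_v_same] at h2
    omega
  · intro s' hF hI hlt
    obtain ⟨hx, hk, hio⟩ := hI
    have hout : s'.m .out = s.m .out := by rw [hF.m .out (by decide), setv_m]
    have hn : s'.v .n = p.n := by
      rw [hF.v .n (by decide)]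
      simpa using hs
    simp only [Expr.eval_var, hn] at hlt
    rw [run_blk_cons, run_asg, run_blk_one, run_outp]
    simp only [Expr.eval_arr, Expr.eval_var, Expr.eval_succ, setv_v_same, tick_v, seto_v, tick_k,
      seto_k, setv_k, tick_io, seto_io, setv_io, setv_m, hout]
    refine ⟨by omega, ⟨by omega, by omega, fun i h1 h2 => ?_⟩, by omega⟩
    rw [Function.update_apply]
    split_ifs with h
    · rw [h]
    · exact hio i h1 (by omega)
  · intro s' hF hI hlt
    obtain ⟨hx, hk, hio⟩ := hI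
    have hn : s'.v .n = p.n := by
      rw [hF.v .n (by decide)]
      simpa using hs
    simp only [Expr.eval_var, hn] at hlt
    have : s'.v .x = p.n := by omega
    rw [this] at hk hio
    exact ⟨hk, hio⟩

end rec

end Pool.Agent.PD
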