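import Pool.Agent.PD.Sound
import Pool.Agent.PD.MATH

/-! The scan over the frontier. -/

namespace Pool.Agent.PD

open PData

section scan
variable {p : PData} {s σ σ' : S}

theorem ScanExt.sxdq {c : ℕ} {z : ℕ} (hr : Rep p σ (σ.m .DQ z) (σ.m .SX (σ.m .DQ z))
    (σ.m .SY (σ.m .DQ z)) c) (he : Ext σ σ') (hdq : σ'.m .DQ z = σ.m .DQ z) :
    Rep p σ' (σ'.m .DQ z) (σ'.m .SX (σ'.m .DQ z)) (σ'.m .SY (σ'.m .DQ z)) c := by
  have h1 := hr.ext he
  rw [hdq, he.SX _ hr.le, he.SY _ hr.le]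
  exact h1

/-- the part of the invariant about the records and the queue -/
structure QI (p : PData) (s σ : S) (t : ℕ) : Prop where
  stat : Static p σ
  ext : Ext s σ
  qle : s.v .qb ≤ σ.v .qc
  dq : ∀ z, z < s.v .qb → σ.m .DQ z = s.m .DQ z
  new : QRep p σ (s.v .qb) (σ.v .qc) (t + 2)

/-- one candidate -/
theorem pushNew_spec {t X Y X' Y' q1 q2 : ℕ} {Q : S → Prop} (eX eY e1 e2 : E)
    (hQ : QI p s σ t) (hr : Rep p σ (σ.v .i) X Y t)
    (hX : eX.eval (σ.setv .cnt (σ.v .cnt + 1)) = X')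
    (hY : eY.eval (σ.setv .cnt (σ.v .cnt + 1)) = Y')
    (h1 : e1.eval (σ.setv .cnt (σ.v .cnt + 1)) = q1)
    (h2 : e2.eval (σ.setv .cnt (σ.v .cnt + 1)) = q2)
    (hv : ∀ D, p.Valid X Y D → p.Valid X' Y' (addp q1 (addp q2 D)))
    (hn : (noRec eY && noRec (vr .i) && noRec e1 && noRec e2) = true)
    (H : ∀ σ', (∀ x, x ≠ .cnt → x ≠ .qc → σ'.v x = σ.v x) → σ'.v .qc = σ.v .qc + 1 →
      σ'.k = σ.k →
      (∀ B, B ≠ .SX → B ≠ .SY → B ≠ .par → B ≠ .p1 → B ≠ .p2 → B ≠ .DQ → σ'.m B = σ.m B) →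
      QI p s σ' t → Ext σ σ' →
      (∀ U V, QCov σ (s.v .qb) (σ.v .qc) U V → QCov σ' (s.v .qb) (σ'.v .qc) U V) →
      QCov σ' (s.v .qb) (σ'.v .qc) X' Y' → Q σ') :
    Run p.n (blk [cNew eX eY (vr .i) e1 e2, cPush]) σ Q := by
  rw [run_blk_cons]
  apply new_spec (hn := hn)
  intro σ₁ hv1 hc1 hk1 hio1 hm1 hSX hSY hpar hp1 hp2
  rw [hX] at hSX
  rw [hY] at hSY
  rw [h1] at hp1
  rw [h2] at hp2
  have hpar' : (vr .i : E).eval (σ.setv .cnt (σ.v .cnt + 1)) = σ.v .i := by
    simp [vr]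
  rw [hpar'] at hpar
  rw [run_blk_one]
  unfold cPush
  rw [run_blk_cons, run_sto, run_blk_one, run_asg]
  simp only [Expr.eval_var, Expr.eval_succ, setm_v]
  rw [hv1 .qc (by decide), hc1]
  set σ₂ : S := (σ₁.setm .DQ (σ.v .qc) (σ.v .cnt + 1)).setv .qc (σ.v .qc + 1) with hσ₂
  have v2 : ∀ x, x ≠ .cnt → x ≠ .qc → σ₂.v x = σ.v x := by
    intro x h1 h2
    rw [hσ₂, setv_v_ne _ _ _ _ h2, setm_v, hv1 x h1]
  have qc2 : σ₂.v .qc = σ.v .qc + 1 := by rw [hσ₂, setv_v_same]
  have cnt2 : σ₂.v .cnt = σ.v .cnt + 1 := by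
    rw [hσ₂, setv_v_ne _ _ _ _ (by decide), setm_v, hc1]
  have m2 : ∀ B, B ≠ .DQ → σ₂.m B = σ₁.m B := by
    intro B hB
    rw [hσ₂, setv_m, setm_m_ne _ _ _ _ _ hB]
  have dq2 : σ₂.m .DQ = Function.update (σ.m .DQ) (σ.v .qc) (σ.v .cnt + 1) := by
    rw [hσ₂, setv_m, setm_m_same, hm1 .DQ (by decide) (by decide) (by decide) (by decide) (by decide)]
  have hext : Ext σ σ₂ := by
    refine ⟨by rw [cnt2]; exact Nat.le_succ _, ?_, ?_, ?_, ?_, ?_⟩
    · intro i hi
      rw [m2 _ (by decide), hSX, Function.update_of_ne (by omega)]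
    · intro i hi
      rw [m2 _ (by decide), hSY, Function.update_of_ne (by omega)]
    · intro i hi
      rw [m2 _ (by decide), hpar, Function.update_of_ne (by omega)]
    · intro i hi
      rw [m2 _ (by decide), hp1, Function.update_of_ne (by omega)]
    · intro i hi
      rw [m2 _ (by decide), hp2, Function.update_of_ne (by omega)]
  have sx2 : σ₂.m .SX (σ.v .cnt + 1) = X' := by
    rw [m2 _ (by decide), hSX, Function.update_self]
  have sy2 : σ₂.m .SY (σ.v .cnt + 1) = Y' := by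
    rw [m2 _ (by decide), hSY, Function.update_self]
  have par2 : σ₂.m .par (σ.v .cnt + 1) = σ.v .i := by
    rw [m2 _ (by decide), hpar, Function.update_self]
  have p12 : σ₂.m .p1 (σ.v .cnt + 1) = q1 := by
    rw [m2 _ (by decide), hp1, Function.update_self]
  have p22 : σ₂.m .p2 (σ.v .cnt + 1) = q2 := by
    rw [m2 _ (by decide), hp2, Function.update_self]
  have hle := hr.le
  have hpos := hr.pos
  have hrep : Rep p σ₂ (σ.v .cnt + 1) X' Y' (t + 2) := by
    refine ⟨by omega, by rw [cnt2], sx2, sy2, ?_⟩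
    obtain ⟨D, l, hD, hl, hcard, hval⟩ := (hr.ext hext).has
    refine ⟨addp q1 (addp q2 D), l + 1, ?_, by omega, ?_, hv D hval⟩
    · rw [← p12, ← p22]
      refine HasD.step (by omega) (by rw [par2]; omega) ?_
      rw [par2]; exact hD
    · have := card_addp q1 (addp q2 D)
      have := card_addp q2 D
      omega
  have hst : Static p σ₂ := by
    have hs := hQ.stat
    refine ⟨?_, ?_, ?_, ?_, ?_, ?_, ?_, ?_, ?_⟩
    · rw [v2 _ (by decide) (by decide)]; exact hs.n
    · rw [v2 _ (by decide) (by decide)]; exact hs.N1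
    · rw [m2 _ (by decide), hm1 _ (by decide) (by decide) (by decide) (by decide) (by decide)]; exact hs.y
    · rw [m2 _ (by decide), hm1 _ (by decide) (by decide) (by decide) (by decide) (by decide)]; exact hs.xx
    · rw [m2 _ (by decide), hm1 _ (by decide) (by decide) (by decide) (by decide) (by decide)]; exact hs.u
    · rw [m2 _ (by decide), hm1 _ (by decide) (by decide) (by decide) (by decide) (by decide)]; exact hs.r
    · rw [m2 _ (by decide), hm1 _ (by decide) (by decide) (by decide) (by decide) (by decide)]; exact hs.sm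
    · rw [m2 _ (by decide), hm1 _ (by decide) (by decide) (by decide) (by decide) (by decide)]; exact hs.out
    · rw [hext.SY 0 (Nat.zero_le _)]; exact hs.SY0
  have hdqo : ∀ z, z < σ.v .qc → σ₂.m .DQ z = σ.m .DQ z := by
    intro z hz
    rw [dq2, Function.update_of_ne (by omega)]
  have hdqn : σ₂.m .DQ (σ.v .qc) = σ.v .cnt + 1 := by
    rw [dq2, Function.update_self]
  have hqle := hQ.qle
  have hQI : QI p s σ₂ t := by
    refine ⟨hst, hQ.ext.trans hext, by rw [qc2]; omega, ?_, ?_⟩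
    · intro z hz
      rw [hdqo z (by omega)]; exact hQ.dq z hz
    · intro z hz1 hz2
      rw [qc2] at hz2
      rcases Nat.lt_or_ge z (σ.v .qc) with hz | hz
      · exact ScanExt.sxdq (hQ.new z hz1 hz) hext (hdqo z hz)
      · have : z = σ.v .qc := by omega
        rw [this, hdqn, sx2, sy2]
        exact hrep
  refine H σ₂ v2 qc2 ?_ ?_ hQI hext ?_ ?_
  · rw [hσ₂, setv_k, setm_k, hk1]
  · intro B h1 h2 h3 h4 h5 h6
    rw [m2 _ h6, hm1 _ h1 h2 h3 h4 h5]
  · rintro U V ⟨z, hz1, hz2, hz3, hz4⟩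
    have hl := (hQ.new z hz1 hz2).le
    refine ⟨z, hz1, by rw [qc2]; omega, ?_, ?_⟩
    · rw [hdqo z hz2, hext.SX _ hl]; exact hz3
    · rw [hdqo z hz2, hext.SY _ hl]; exact hz4
  · refine ⟨σ.v .qc, hqle, by rw [qc2]; omega, ?_, ?_⟩
    · rw [hdqn, sx2]
    · rw [hdqn, sy2]

theorem setv_setv (x : Var) (c d : ℕ) : (σ.setv x c).setv x d = σ.setv x d := by
  apply St.ext
  · funext y
    by_cases hy : y = x
    · rw [hy, setv_v_same, setv_v_same]
    · rw [setv_v_ne _ _ _ _ hy, setv_v_ne _ _ _ _ hy, setv_v_ne _ _ _ _ hy]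
  · rfl
  · rfl
  · rfl

theorem QI.setv {t : ℕ} (h : QI p s σ t) (x : Var) (c : ℕ) (h1 : x ≠ .n) (h2 : x ≠ .N1)
    (h3 : x ≠ .cnt) (h4 : x ≠ .qc) : QI p s (σ.setv x c) t := by
  have hs := h.stat
  have he := h.ext
  refine ⟨⟨?_, ?_, hs.y, hs.xx, hs.u, hs.r, hs.sm, hs.out, hs.SY0⟩,
    ⟨?_, he.SX, he.SY, he.par, he.p1, he.p2⟩, ?_, h.dq, ?_⟩
  · rw [setv_v_ne _ _ _ _ h1.symm]; exact hs.n
  · rw [setv_v_ne _ _ _ _ h2.symm]; exact hs.N1
  · rw [setv_v_ne _ _ _ _ h3.symm]; exact he.cnt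
  · rw [setv_v_ne _ _ _ _ h4.symm]; exact h.qle
  · rw [setv_v_ne _ _ _ _ h4.symm]
    intro z hz1 hz2
    obtain ⟨a1, a2, a3, a4, a5⟩ := h.new z hz1 hz2
    exact ⟨a1, by rw [setv_v_ne _ _ _ _ h3.symm]; exact a2, a3, a4, a5⟩

theorem Rep.setv {i X Y c : ℕ} (h : Rep p σ i X Y c) (x : Var) (d : ℕ)
    (h3 : x ≠ .cnt) : Rep p (σ.setv x d) i X Y c :=
  ⟨h.pos, by rw [setv_v_ne _ _ _ _ h3.symm]; exact h.le, h.sx, h.sy, h.has⟩

theorem Ext.setv_left (x : Var) (d : ℕ) (h3 : x ≠ .cnt) (h : Ext (σ.setv x d) σ') :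
    Ext σ σ' := by
  have e : (σ.setv x d).v .cnt = σ.v .cnt := setv_v_ne _ _ _ _ h3.symm
  refine ⟨?_, ?_, ?_, ?_, ?_, ?_⟩
  · have := h.cnt; rwa [e] at this
  · have := h.SX; rwa [e] at this
  · have := h.SY; rwa [e] at this
  · have := h.par; rwa [e] at this
  · have := h.p1; rwa [e] at this
  · have := h.p2; rwa [e] at this

theorem Ext.setv_right (x : Var) (d : ℕ) (h3 : x ≠ .cnt) (h : Ext σ σ') :
    Ext σ (σ'.setv x d) :=
  ⟨by rw [setv_v_ne _ _ _ _ h3.symm]; exact h.cnt, h.SX, h.SY, h.par, h.p1, h.p2⟩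

/-- a step of the scan which only adds records and entries of the queue -/
structure QS (p : PData) (s σ σ' : S) (t : ℕ) : Prop where
  v : ∀ x, x ≠ .cnt → x ≠ .qc → x ≠ .mm → σ'.v x = σ.v x
  m : ∀ B, B ≠ .SX → B ≠ .SY → B ≠ .par → B ≠ .p1 → B ≠ .p2 → B ≠ .DQ → σ'.m B = σ.m B
  k : σ'.k = σ.k
  qi : QI p s σ' t
  ext : Ext σ σ'
  qle : σ.v .qc ≤ σ'.v .qc
  cov : ∀ U V, QCov σ (s.v .qb) (σ.v .qc) U V → QCov σ' (s.v .qb) (σ'.v .qc) U V

theorem QS.refl {t : ℕ} (h : QI p s σ t) : QS p s σ σ t :=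
  ⟨fun _ _ _ _ => rfl, fun _ _ _ _ _ _ _ => rfl, rfl, h, Ext.refl σ, le_rfl, fun _ _ h => h⟩

theorem QS.mm {t : ℕ} (h : QI p s σ t) (c : ℕ) : QS p s σ (σ.setv .mm c) t := by
  refine ⟨fun x _ _ h => setv_v_ne _ _ _ _ h, fun _ _ _ _ _ _ _ => rfl, rfl,
    h.setv .mm c (by decide) (by decide) (by decide) (by decide),
    (Ext.refl σ).setv_right .mm c (by decide), ?_, ?_⟩
  · rw [setv_v_ne _ _ _ _ (by decide)]
  · rw [setv_v_ne _ _ _ _ (by decide)]
    exact fun _ _ h => h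

theorem QS.trans {t : ℕ} {σ₁ σ₂ : S} (h : QS p s σ σ₁ t) (h' : QS p s σ₁ σ₂ t) :
    QS p s σ σ₂ t :=
  ⟨fun x h1 h2 h3 => (h'.v x h1 h2 h3).trans (h.v x h1 h2 h3),
    fun B h1 h2 h3 h4 h5 h6 => (h'.m B h1 h2 h3 h4 h5 h6).trans (h.m B h1 h2 h3 h4 h5 h6),
    h'.k.trans h.k, h'.qi, h.ext.trans h'.ext, h.qle.trans h'.qle,
    fun U V hc => h'.cov U V (h.cov U V hc)⟩

theorem min_run {N : ℕ} {Q : S → Prop} (e : E) (y : Var) (hy : y ≠ .mm) (c : C) (cs : List C)
    (h : Run N (blk (c :: cs)) (σ.setv .mm (min (σ.v y) (e.eval σ))) Q) :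
    Run N (blk (.asg .mm e :: .ite (vr y) (vr .mm) (.asg .mm (vr y)) .skip :: c :: cs)) σ Q := by
  rw [run_blk_cons, run_asg, run_blk_cons, run_ite]
  simp only [Expr.eval_var, setv_v_same, setv_v_ne _ _ _ _ hy]
  constructor
  · intro hlt
    rw [run_asg, Expr.eval_var, setv_v_ne _ _ _ _ hy, setv_setv]
    rwa [min_eq_left hlt.le] at h
  · intro hlt
    rw [run_skip]
    rwa [min_eq_right (not_lt.1 hlt)] at h

/-- the first candidate -/
def cG1 : C := .ite (vr .h) (vr .N1) (blk [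
    .asg .mm (at' .ax (.pred (vr .h))),
    .ite (vr .w) (vr .mm) (.asg .mm (vr .w)) .skip,
    .ite (vr .mm) (vr .N1) (blk [
      cNew (at' .r (vr .h)) (at' .u (vr .mm)) (vr .i) (at' .xx (at' .u (vr .mm))) (at' .r (vr .h)),
      cPush]) .skip]) .skip

/-- the second candidate -/
def cG2 : C := .ite (vr .w) (vr .N1) (blk [
    .asg .mm (at' .ay (.pred (vr .w))),
    .ite (vr .h) (vr .mm) (.asg .mm (vr .h)) .skip,
    .ite (vr .mm) (vr .N1) (blk [
      cNew (at' .r (vr .mm)) (at' .u (vr .w)) (vr .i) (at' .xx (at' .u (vr .w))) (at' .r (vr .mm)),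
      cPush]) .skip]) .skip

/-- the update of `hb` -/
def cG3 : C := .ite (at' .hb (vr .w)) (vr .h) (blk [
    .sto .hb (vr .w) (vr .h),
    .sto .hbid (vr .w) (vr .i)]) .skip

theorem cGood_eq : cGood = blk [.asg .w (at' .W (vr .Y)), cG1, cG2, cG3] := rfl

theorem G1_spec {t x : ℕ} {Q : S → Prop} (hQ : QI p s σ t)
    (hr : Rep p σ (σ.v .i) x (σ.v .Y) t)
    (hg : p.GoodSt (σ.v .a) (σ.v .b) x (σ.v .Y) (σ.v .h) (σ.v .w))
    (hax : ∀ v, σ.v .b ≤ v → v ≤ p.u (σ.v .a) →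
      p.IsMinX (σ.v .a) (σ.v .b) v (σ.m .ax v))
    (H : ∀ σ', QS p s σ σ' t → σ'.v .qc ≤ σ.v .qc + 1 →
      (σ.v .h ≤ p.n → ∀ m, m ≤ p.n → p.IsMinX (σ.v .a) (σ.v .Y) (σ.v .h - 1) m →
        QCov σ' (s.v .qb) (σ'.v .qc) (p.r (σ.v .h)) (p.u m)) → Q σ') :
    Run p.n cG1 σ Q := by
  have hN1 := hQ.stat.N1
  unfold cG1
  rw [run_ite]
  simp only [Expr.eval_var]
  constructor
  · intro hlt
    have hn : σ.v .h ≤ p.n := by omega
    have hh := hg.hh.2
    have hmin : p.IsMinX (σ.v .a) (σ.v .Y) (σ.v .h - 1)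
        (min (σ.v .w) (σ.m .ax (σ.v .h - 1))) := by
      have h2 : p.IsMinX (σ.v .a) (σ.v .b) (σ.v .h - 1) (σ.m .ax (σ.v .h - 1)) := by
        apply hax
        · omega
        · have h3 : p.y (p.xx (σ.v .h)) = σ.v .h := p.y_xx _ (by omega) hn
          have h4 : p.y (p.xx (σ.v .h)) ≤ p.u (σ.v .a) := p.y_le_u (by omega)
          omega
      exact isMinX_join hg.ww h2 hg.yb (by omega)
    apply min_run _ _ (by decide)
    simp only [Expr.eval_arr, Expr.eval_pred, Expr.eval_var]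
    generalize min (σ.v .w) (σ.m .ax (σ.v .h - 1)) = M at hmin ⊢
    rw [run_blk_one, run_ite]
    simp only [Expr.eval_var, setv_v_same]
    rw [setv_v_ne _ _ _ _ (by decide), hN1]
    constructor
    · intro hM
      have hQ' : QI p s (σ.setv .mm M) t :=
        hQ.setv .mm M (by decide) (by decide) (by decide) (by decide)
      have hMn : M ≤ p.n := by omega
      have e1 : ∀ c, (((σ.setv .mm M).setv .cnt c).v .h) = σ.v .h := by
        intro c
        rw [setv_v_ne _ _ _ _ (by decide), setv_v_ne _ _ _ _ (by decide)]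
      have e2 : ∀ c, (((σ.setv .mm M).setv .cnt c).v .mm) = M := by
        intro c
        rw [setv_v_ne _ _ _ _ (by decide), setv_v_same]
      have e3 : (σ.setv .mm M).v .qc = σ.v .qc := setv_v_ne _ _ _ _ (by decide)
      have e4 : (σ.setv .mm M).v .i = σ.v .i := setv_v_ne _ _ _ _ (by decide)
      refine pushNew_spec (X := x) (Y := σ.v .Y) (X' := p.r (σ.v .h)) (Y' := p.u M)
        (q1 := p.xx (p.u M)) (q2 := p.r (σ.v .h)) _ _ _ _ hQ' ?_ ?_ ?_ ?_ ?_ ?_ rfl ?_
      · rw [e4]; exact hr.setv .mm M (by decide)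
      · simp only [Expr.eval_arr, Expr.eval_var, setv_m, e1]
        exact hQ.stat.r _ hn
      · simp only [Expr.eval_arr, Expr.eval_var, setv_m, e2]
        exact hQ.stat.u _ hMn
      · simp only [Expr.eval_arr, Expr.eval_var, setv_m, e2]
        rw [hQ.stat.u _ hMn, hQ.stat.xx]
      · simp only [Expr.eval_arr, Expr.eval_var, setv_m, e1]
        exact hQ.stat.r _ hn
      · intro D hD
        exact valid_D1 hD hg hn hmin hMn
      · intro σ' hv hqc hk hm hqi hext hcov hnew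
        refine H σ' ((QS.mm hQ M).trans ⟨fun x h1 h2 _ => hv x h1 h2, hm, hk, hqi, hext, ?_, hcov⟩)
          ?_ ?_
        · rw [hqc]; omega
        · rw [hqc, e3]
        · intro _ m hm1 hm2
          rw [isMinX_unique hm2 hmin]
          exact hnew
    · intro hM
      rw [run_skip]
      refine H _ (QS.mm hQ M) ?_ ?_
      · rw [setv_v_ne _ _ _ _ (by decide)]; omega
      · intro _ m hm1 hm2
        have := isMinX_unique hm2 hmin
        omega
  · intro hlt
    rw [run_skip]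
    exact H σ (QS.refl hQ) (by omega) (fun h1 => by omega)

theorem G2_spec {t x : ℕ} {Q : S → Prop} (hQ : QI p s σ t)
    (hr : Rep p σ (σ.v .i) x (σ.v .Y) t)
    (hg : p.GoodSt (σ.v .a) (σ.v .b) x (σ.v .Y) (σ.v .h) (σ.v .w))
    (hay : ∀ x, σ.v .a ≤ x → x ≤ p.r (σ.v .b) →
      p.IsMinY (σ.v .b) (σ.v .a) x (σ.m .ay x))
    (H : ∀ σ', QS p s σ σ' t → σ'.v .qc ≤ σ.v .qc + 1 →
      (σ.v .w ≤ p.n → ∀ m, m ≤ p.n → p.IsMinY (σ.v .b) x (σ.v .w - 1) m →
        QCov σ' (s.v .qb) (σ'.v .qc) (p.r m) (p.u (σ.v .w))) → Q σ') :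
    Run p.n cG2 σ Q := by
  have hN1 := hQ.stat.N1
  unfold cG2
  rw [run_ite]
  simp only [Expr.eval_var]
  constructor
  · intro hlt
    have hn : σ.v .w ≤ p.n := by omega
    have hw := hg.ww.2
    have hmin : p.IsMinY (σ.v .b) x (σ.v .w - 1)
        (min (σ.v .h) (σ.m .ay (σ.v .w - 1))) := by
      have h2 : p.IsMinY (σ.v .b) (σ.v .a) (σ.v .w - 1) (σ.m .ay (σ.v .w - 1)) := by
        apply hay
        · omega
        · have h4 : σ.v .w ≤ p.r (σ.v .b) := p.le_r (by omega) hn (by omega)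
          omega
      exact isMinY_join hg.hh h2 hg.xa (by omega)
    apply min_run _ _ (by decide)
    simp only [Expr.eval_arr, Expr.eval_pred, Expr.eval_var]
    generalize min (σ.v .h) (σ.m .ay (σ.v .w - 1)) = M at hmin ⊢
    rw [run_blk_one, run_ite]
    simp only [Expr.eval_var, setv_v_same]
    rw [setv_v_ne _ _ _ _ (by decide), hN1]
    constructor
    · intro hM
      have hQ' : QI p s (σ.setv .mm M) t :=
        hQ.setv .mm M (by decide) (by decide) (by decide) (by decide)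
      have hMn : M ≤ p.n := by omega
      have e1 : ∀ c, (((σ.setv .mm M).setv .cnt c).v .w) = σ.v .w := by
        intro c
        rw [setv_v_ne _ _ _ _ (by decide), setv_v_ne _ _ _ _ (by decide)]
      have e2 : ∀ c, (((σ.setv .mm M).setv .cnt c).v .mm) = M := by
        intro c
        rw [setv_v_ne _ _ _ _ (by decide), setv_v_same]
      have e3 : (σ.setv .mm M).v .qc = σ.v .qc := setv_v_ne _ _ _ _ (by decide)
      have e4 : (σ.setv .mm M).v .i = σ.v .i := setv_v_ne _ _ _ _ (by decide)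
      refine pushNew_spec (X := x) (Y := σ.v .Y) (X' := p.r M) (Y' := p.u (σ.v .w))
        (q1 := p.xx (p.u (σ.v .w))) (q2 := p.r M) _ _ _ _ hQ' ?_ ?_ ?_ ?_ ?_ ?_ rfl ?_
      · rw [e4]; exact hr.setv .mm M (by decide)
      · simp only [Expr.eval_arr, Expr.eval_var, setv_m, e2]
        exact hQ.stat.r _ hMn
      · simp only [Expr.eval_arr, Expr.eval_var, setv_m, e1]
        exact hQ.stat.u _ hn
      · simp only [Expr.eval_arr, Expr.eval_var, setv_m, e1]
        rw [hQ.stat.u _ hn, hQ.stat.xx]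
      · simp only [Expr.eval_arr, Expr.eval_var, setv_m, e2]
        exact hQ.stat.r _ hMn
      · intro D hD
        exact valid_D2 hD hg hn hmin hMn
      · intro σ' hv hqc hk hm hqi hext hcov hnew
        refine H σ' ((QS.mm hQ M).trans ⟨fun x h1 h2 _ => hv x h1 h2, hm, hk, hqi, hext, ?_, hcov⟩)
          ?_ ?_
        · rw [hqc]; omega
        · rw [hqc, e3]
        · intro _ m hm1 hm2
          rw [isMinY_unique hm2 hmin]
          exact hnew
    · intro hM
      rw [run_skip]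
      refine H _ (QS.mm hQ M) ?_ ?_
      · rw [setv_v_ne _ _ _ _ (by decide)]; omega
      · intro _ m hm1 hm2
        have := isMinY_unique hm2 hmin
        omega
  · intro hlt
    rw [run_skip]
    exact H σ (QS.refl hQ) (by omega) (fun h1 => by omega)

theorem QI.congr {t : ℕ} (h : QI p s σ t) (hv : σ'.v = σ.v)
    (hm : ∀ B, B ≠ .hb → B ≠ .hbid → σ'.m B = σ.m B) : QI p s σ' t := by
  have hs := h.stat
  have he := h.ext
  have eSX := hm .SX (by decide) (by decide)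
  have eSY := hm .SY (by decide) (by decide)
  have epar := hm .par (by decide) (by decide)
  have ep1 := hm .p1 (by decide) (by decide)
  have ep2 := hm .p2 (by decide) (by decide)
  have eDQ := hm .DQ (by decide) (by decide)
  refine ⟨⟨?_, ?_, ?_, ?_, ?_, ?_, ?_, ?_, ?_⟩, ⟨?_, ?_, ?_, ?_, ?_, ?_⟩, ?_, ?_, ?_⟩
  · rw [hv]; exact hs.n
  · rw [hv]; exact hs.N1
  · rw [hm _ (by decide) (by decide)]; exact hs.y
  · rw [hm _ (by decide) (by decide)]; exact hs.xx
  · rw [hm _ (by decide) (by decide)]; exact hs.u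
  · rw [hm _ (by decide) (by decide)]; exact hs.r
  · rw [hm _ (by decide) (by decide)]; exact hs.sm
  · rw [hm _ (by decide) (by decide)]; exact hs.out
  · rw [hm _ (by decide) (by decide)]; exact hs.SY0
  · rw [hv]; exact he.cnt
  · rw [eSX]; exact he.SX
  · rw [eSY]; exact he.SY
  · rw [epar]; exact he.par
  · rw [ep1]; exact he.p1
  · rw [ep2]; exact he.p2
  · rw [hv]; exact h.qle
  · rw [eDQ]; exact h.dq
  · rw [hv]
    intro z hz1 hz2
    obtain ⟨a1, a2, a3, a4, a5⟩ := h.new z hz1 hz2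
    refine ⟨?_, ?_, ?_, ?_, ?_⟩
    · rw [eDQ]; exact a1
    · rw [eDQ, hv]; exact a2
    · rw [eDQ, eSX]
    · rw [eDQ, eSY]
    · rw [eDQ, eSX, eSY, epar, ep1, ep2]; exact a5

/-- the postcondition of the work for one good state -/
structure GP (p : PData) (s σ σ' : S) (t x : ℕ) : Prop where
  v : ∀ x, x ≠ .cnt → x ≠ .qc → x ≠ .mm → x ≠ .w → σ'.v x = σ.v x
  m : ∀ B, B ≠ .SX → B ≠ .SY → B ≠ .par → B ≠ .p1 → B ≠ .p2 → B ≠ .DQ → B ≠ .hb →
    B ≠ .hbid → σ'.m B = σ.m B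
  k : σ'.k = σ.k
  qi : QI p s σ' t
  ext : Ext σ σ'
  qc : σ'.v .qc ≤ σ.v .qc + 2
  cov : ∀ U V, QCov σ (s.v .qb) (σ.v .qc) U V → QCov σ' (s.v .qb) (σ'.v .qc) U V
  d1 : σ.v .h ≤ p.n → ∀ m, m ≤ p.n → p.IsMinX (σ.v .a) (σ.v .Y) (σ.v .h - 1) m →
    QCov σ' (s.v .qb) (σ'.v .qc) (p.r (σ.v .h)) (p.u m)
  d2 : σ.m .W (σ.v .Y) ≤ p.n → ∀ m, m ≤ p.n →
    p.IsMinY (σ.v .b) x (σ.m .W (σ.v .Y) - 1) m →
    QCov σ' (s.v .qb) (σ'.v .qc) (p.r m) (p.u (σ.m .W (σ.v .Y)))
  hb : (σ.m .hb (σ.m .W (σ.v .Y)) < σ.v .h ∧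
      σ'.m .hb = Function.update (σ.m .hb) (σ.m .W (σ.v .Y)) (σ.v .h) ∧
      σ'.m .hbid = Function.update (σ.m .hbid) (σ.m .W (σ.v .Y)) (σ.v .i)) ∨
    (σ.v .h ≤ σ.m .hb (σ.m .W (σ.v .Y)) ∧ σ'.m .hb = σ.m .hb ∧ σ'.m .hbid = σ.m .hbid)

theorem good_spec {t x : ℕ} (hQ : QI p s σ t)
    (hr : Rep p σ (σ.v .i) x (σ.v .Y) t)
    (hg : p.GoodSt (σ.v .a) (σ.v .b) x (σ.v .Y) (σ.v .h) (σ.m .W (σ.v .Y)))
    (hax : ∀ v, σ.v .b ≤ v → v ≤ p.u (σ.v .a) →
      p.IsMinX (σ.v .a) (σ.v .b) v (σ.m .ax v))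
    (hay : ∀ x, σ.v .a ≤ x → x ≤ p.r (σ.v .b) →
      p.IsMinY (σ.v .b) (σ.v .a) x (σ.m .ay x)) :
    Run p.n cGood σ (fun σ' => GP p s σ σ' t x) := by
  rw [cGood_eq, run_blk_cons, run_asg]
  simp only [Expr.eval_arr, Expr.eval_var]
  set w := σ.m .W (σ.v .Y) with hw
  have e0 : ∀ y, y ≠ .w → (σ.setv .w w).v y = σ.v y := fun y hy => setv_v_ne _ _ _ _ hy
  have ew : (σ.setv .w w).v .w = w := setv_v_same _ _ _
  have hQ0 : QI p s (σ.setv .w w) t :=
    hQ.setv .w w (by decide) (by decide) (by decide) (by decide)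
  have hcov0 : ∀ U V, QCov σ (s.v .qb) (σ.v .qc) U V →
      QCov (σ.setv .w w) (s.v .qb) ((σ.setv .w w).v .qc) U V := by
    intro U V hc
    rw [e0 .qc (by decide)]
    exact hc
  have hext0 : Ext σ (σ.setv .w w) := (Ext.refl σ).setv_right .w w (by decide)
  have hk0 : (σ.setv .w w).k = σ.k := rfl
  have hm0 : (σ.setv .w w).m = σ.m := rfl
  have hr0 : Rep p (σ.setv .w w) ((σ.setv .w w).v .i) x ((σ.setv .w w).v .Y) t := by
    rw [e0 .i (by decide), e0 .Y (by decide)]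
    exact hr.setv .w w (by decide)
  have hg0 : p.GoodSt ((σ.setv .w w).v .a) ((σ.setv .w w).v .b) x ((σ.setv .w w).v .Y)
      ((σ.setv .w w).v .h) ((σ.setv .w w).v .w) := by
    rw [e0 .a (by decide), e0 .b (by decide), e0 .Y (by decide), e0 .h (by decide), ew]
    exact hg
  have hax0 : ∀ v, (σ.setv .w w).v .b ≤ v → v ≤ p.u ((σ.setv .w w).v .a) →
      p.IsMinX ((σ.setv .w w).v .a) ((σ.setv .w w).v .b) v ((σ.setv .w w).m .ax v) := by
    rw [e0 .a (by decide), e0 .b (by decide)]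
    exact hax
  have hay0 : ∀ x, (σ.setv .w w).v .a ≤ x → x ≤ p.r ((σ.setv .w w).v .b) →
      p.IsMinY ((σ.setv .w w).v .b) ((σ.setv .w w).v .a) x ((σ.setv .w w).m .ay x) := by
    rw [e0 .a (by decide), e0 .b (by decide)]
    exact hay
  generalize σ.setv .w w = σ₀ at *
  rw [run_blk_cons]
  refine G1_spec hQ0 hr0 hg0 hax0 ?_
  intro σ₁ h1 hqc1 hd1
  rw [run_blk_cons]
  have f1 : ∀ y, y ≠ .cnt → y ≠ .qc → y ≠ .mm → y ≠ .w → σ₁.v y = σ.v y :=
    fun y h2 h3 h4 h5 => (h1.v y h2 h3 h4).trans (e0 y h5)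
  have fw1 : σ₁.v .w = w := (h1.v .w (by decide) (by decide) (by decide)).trans ew
  refine G2_spec (x := x) h1.qi ?_ ?_ ?_ ?_
  · rw [f1 .i (by decide) (by decide) (by decide) (by decide),
      f1 .Y (by decide) (by decide) (by decide) (by decide)]
    have := hr0.ext h1.ext
    rwa [e0 .i (by decide), e0 .Y (by decide)] at this
  · rw [f1 .a (by decide) (by decide) (by decide) (by decide),
      f1 .b (by decide) (by decide) (by decide) (by decide),
      f1 .Y (by decide) (by decide) (by decide) (by decide),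
      f1 .h (by decide) (by decide) (by decide) (by decide), fw1]
    exact hg
  · rw [f1 .a (by decide) (by decide) (by decide) (by decide),
      f1 .b (by decide) (by decide) (by decide) (by decide),
      h1.m .ay (by decide) (by decide) (by decide) (by decide) (by decide) (by decide), hm0]
    exact hay
  intro σ₂ h2 hqc2 hd2
  rw [run_blk_one]
  have f2 : ∀ y, y ≠ .cnt → y ≠ .qc → y ≠ .mm → y ≠ .w → σ₂.v y = σ.v y :=
    fun y h3 h4 h5 h6 => (h2.v y h3 h4 h5).trans (f1 y h3 h4 h5 h6)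
  have fw2 : σ₂.v .w = w := (h2.v .w (by decide) (by decide) (by decide)).trans fw1
  have fm2 : ∀ B, B ≠ .SX → B ≠ .SY → B ≠ .par → B ≠ .p1 → B ≠ .p2 → B ≠ .DQ →
      σ₂.m B = σ.m B := by
    intro B b1 b2 b3 b4 b5 b6
    rw [h2.m B b1 b2 b3 b4 b5 b6, h1.m B b1 b2 b3 b4 b5 b6, hm0]
  have fk2 : σ₂.k = σ.k := by rw [h2.k, h1.k, hk0]
  have hqc : σ₂.v .qc ≤ σ.v .qc + 2 := by
    have := e0 .qc (by decide)
    omega
  have hcov : ∀ U V, QCov σ (s.v .qb) (σ.v .qc) U V → QCov σ₂ (s.v .qb) (σ₂.v .qc) U V :=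
    fun U V hc => h2.cov U V (h1.cov U V (hcov0 U V hc))
  have hd1' : σ.v .h ≤ p.n → ∀ m, m ≤ p.n → p.IsMinX (σ.v .a) (σ.v .Y) (σ.v .h - 1) m →
      QCov σ₂ (s.v .qb) (σ₂.v .qc) (p.r (σ.v .h)) (p.u m) := by
    intro q1 m q2 q3
    rw [e0 .h (by decide), e0 .a (by decide), e0 .Y (by decide)] at hd1
    exact h2.cov _ _ (hd1 q1 m q2 q3)
  have hd2' : w ≤ p.n → ∀ m, m ≤ p.n → p.IsMinY (σ.v .b) x (w - 1) m →
      QCov σ₂ (s.v .qb) (σ₂.v .qc) (p.r m) (p.u w) := by
    intro q1 m q2 q3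
    rw [fw1, f1 .b (by decide) (by decide) (by decide) (by decide)] at hd2
    exact hd2 q1 m q2 q3
  have hext2 : Ext σ σ₂ := (hext0.trans h1.ext).trans h2.ext
  have hhb2 : σ₂.m .hb = σ.m .hb :=
    fm2 .hb (by decide) (by decide) (by decide) (by decide) (by decide) (by decide)
  have hhbid2 : σ₂.m .hbid = σ.m .hbid :=
    fm2 .hbid (by decide) (by decide) (by decide) (by decide) (by decide) (by decide)
  unfold cG3
  rw [run_ite]
  simp only [Expr.eval_arr, Expr.eval_var]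
  rw [fw2, hhb2, f2 .h (by decide) (by decide) (by decide) (by decide)]
  constructor
  · intro hlt
    rw [run_blk_cons, run_sto, run_blk_one, run_sto]
    simp only [Expr.eval_var, setm_v]
    rw [fw2, f2 .h (by decide) (by decide) (by decide) (by decide),
      f2 .i (by decide) (by decide) (by decide) (by decide)]
    set σ₃ : S := (σ₂.setm .hb w (σ.v .h)).setm .hbid w (σ.v .i) with hσ₃
    have hv3 : σ₃.v = σ₂.v := rfl
    have hm3 : ∀ B, B ≠ .hb → B ≠ .hbid → σ₃.m B = σ₂.m B := by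
      intro B b1 b2
      rw [hσ₃, setm_m_ne _ _ _ _ _ b2, setm_m_ne _ _ _ _ _ b1]
    have eSX := hm3 .SX (by decide) (by decide)
    have eSY := hm3 .SY (by decide) (by decide)
    have epar := hm3 .par (by decide) (by decide)
    have ep1 := hm3 .p1 (by decide) (by decide)
    have ep2 := hm3 .p2 (by decide) (by decide)
    have eDQ := hm3 .DQ (by decide) (by decide)
    have hq3 : ∀ q1 q2 U V, QCov σ₂ q1 q2 U V → QCov σ₃ q1 q2 U V := by
      intro q1 q2 U V hc
      unfold QCov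
      rw [eDQ, eSX, eSY]
      exact hc
    refine ⟨?_, ?_, ?_, h2.qi.congr hv3 hm3, ?_, ?_, ?_, ?_, ?_, Or.inl ⟨hlt, ?_, ?_⟩⟩
    · rw [hv3]; exact f2
    · intro B b1 b2 b3 b4 b5 b6 b7 b8
      rw [hm3 B b7 b8, fm2 B b1 b2 b3 b4 b5 b6]
    · rw [← fk2]; rfl
    · refine ⟨hext2.cnt, ?_, ?_, ?_, ?_, ?_⟩
      · rw [eSX]; exact hext2.SX
      · rw [eSY]; exact hext2.SY
      · rw [epar]; exact hext2.par
      · rw [ep1]; exact hext2.p1
      · rw [ep2]; exact hext2.p2
    · exact hqc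
    · exact fun U V hc => hq3 _ _ _ _ (hcov U V hc)
    · exact fun q1 m q2 q3 => hq3 _ _ _ _ (hd1' q1 m q2 q3)
    · exact fun q1 m q2 q3 => hq3 _ _ _ _ (hd2' q1 m q2 q3)
    · rw [hσ₃, setm_m_ne _ _ _ _ _ (by decide), setm_m_same, hhb2]
    · rw [hσ₃, setm_m_same, setm_m_ne _ _ _ _ _ (by decide), hhbid2]
  · intro hlt
    rw [run_skip]
    exact ⟨f2, fun B b1 b2 b3 b4 b5 b6 _ _ => fm2 B b1 b2 b3 b4 b5 b6, fk2, h2.qi, hext2, hqc,
      hcov, hd1', hd2', Or.inr ⟨not_lt.1 hlt, hhb2, hhbid2⟩⟩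

/-- the invariant of the scan: `h`, `om` for the abscissas `≥ x₁`, the states of abscissa `≥ x₂`
have been treated -/
structure SInv (p : PData) (s σ : S) (t x₁ x₂ : ℕ) : Prop where
  qi : QI p s σ t
  va : σ.v .a = s.v .a
  vb : σ.v .b = s.v .b
  mbest : σ.m .best = s.m .best
  mW : σ.m .W = s.m .W
  max : σ.m .ax = s.m .ax
  may : σ.m .ay = s.m .ay
  h1 : ∀ x', x₁ ≤ x' → x' ≤ s.v .a → s.v .b < p.y x' → σ.v .h ≤ p.y x'
  h2 : σ.v .h = p.n + 1 ∨ (s.v .b < σ.v .h ∧ σ.v .h ≤ p.n ∧ x₁ ≤ p.xx (σ.v .h) ∧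
    p.xx (σ.v .h) ≤ s.v .a)
  om : ∀ c, σ.v .om ≤ c ↔ ∀ x', x₁ ≤ x' → x' ≤ s.v .a → p.y x' ≤ s.v .b → p.y x' ≤ c
  don0 : σ.v .don = 0 → ∀ x, x₂ ≤ x → x ≤ s.v .a → s.m .best x ≠ 0 →
    s.m .SY (s.m .best x) < p.sm x
  don1 : σ.v .don ≠ 0 → ∃ X Y, Rep p σ (σ.v .don) X Y t ∧ p.sm X ≤ Y
  D1 : ∀ x, x₂ ≤ x → x ≤ s.v .a → s.m .best x ≠ 0 → ∀ h w,
    p.GoodSt (s.v .a) (s.v .b) x (s.m .SY (s.m .best x)) h w → h ≤ p.n → ∀ m, m ≤ p.n →
    p.IsMinX (s.v .a) (s.m .SY (s.m .best x)) (h - 1) m →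
    QCov σ (s.v .qb) (σ.v .qc) (p.r h) (p.u m)
  D2 : ∀ x, x₂ ≤ x → x ≤ s.v .a → s.m .best x ≠ 0 → ∀ h w,
    p.GoodSt (s.v .a) (s.v .b) x (s.m .SY (s.m .best x)) h w → w ≤ p.n → ∀ m, m ≤ p.n →
    p.IsMinY (s.v .b) x (w - 1) m →
    QCov σ (s.v .qb) (σ.v .qc) (p.r m) (p.u w)
  hbc : ∀ x, x₂ ≤ x → x ≤ s.v .a → s.m .best x ≠ 0 → ∀ h w,
    p.GoodSt (s.v .a) (s.v .b) x (s.m .SY (s.m .best x)) h w → h ≤ σ.m .hb w
  hbs : ∀ w, s.v .a < w → σ.m .hb w ≠ 0 → ∃ x, x₂ ≤ x ∧ x ≤ s.v .a ∧ s.m .best x ≠ 0 ∧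
    σ.m .hbid w = s.m .best x ∧
    p.GoodSt (s.v .a) (s.v .b) x (s.m .SY (s.m .best x)) (σ.m .hb w) w

theorem SInv.setv {t x₁ x₂ : ℕ} (h : SInv p s σ t x₁ x₂) (y : Var) (c : ℕ) (h1 : y ≠ .n)
    (h2 : y ≠ .N1) (h3 : y ≠ .cnt) (h4 : y ≠ .qc) (h5 : y ≠ .a) (h6 : y ≠ .b) (h7 : y ≠ .h)
    (h8 : y ≠ .om) (h9 : y ≠ .don) : SInv p s (σ.setv y c) t x₁ x₂ := by
  have e4 : (σ.setv y c).v .qc = σ.v .qc := setv_v_ne _ _ _ _ h4.symm
  have e5 : (σ.setv y c).v .a = σ.v .a := setv_v_ne _ _ _ _ h5.symm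
  have e6 : (σ.setv y c).v .b = σ.v .b := setv_v_ne _ _ _ _ h6.symm
  have e7 : (σ.setv y c).v .h = σ.v .h := setv_v_ne _ _ _ _ h7.symm
  have e8 : (σ.setv y c).v .om = σ.v .om := setv_v_ne _ _ _ _ h8.symm
  have e9 : (σ.setv y c).v .don = σ.v .don := setv_v_ne _ _ _ _ h9.symm
  refine ⟨h.qi.setv y c h1 h2 h3 h4, e5.trans h.va, e6.trans h.vb, h.mbest, h.mW, h.max, h.may,
    ?_, ?_, ?_, ?_, ?_, ?_, ?_, h.hbc, h.hbs⟩
  · rw [e7]; exact h.h1
  · rw [e7]; exact h.h2
  · rw [e8]; exact h.om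
  · rw [e9]; exact h.don0
  · rw [e9]
    intro hd
    obtain ⟨X, Y, hr, hs⟩ := h.don1 hd
    exact ⟨X, Y, hr.setv y c h3, hs⟩
  · rw [e4]; exact h.D1
  · rw [e4]; exact h.D2

theorem SInv.setdon {t x₁ x₂ X Y i : ℕ} (h : SInv p s σ t x₁ x₂) (hr : Rep p σ i X Y t)
    (hsm : p.sm X ≤ Y) : SInv p s (σ.setv .don i) t x₁ x₂ := by
  have e4 : (σ.setv .don i).v .qc = σ.v .qc := setv_v_ne _ _ _ _ (by decide)
  have e5 : (σ.setv .don i).v .a = σ.v .a := setv_v_ne _ _ _ _ (by decide)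
  have e6 : (σ.setv .don i).v .b = σ.v .b := setv_v_ne _ _ _ _ (by decide)
  have e7 : (σ.setv .don i).v .h = σ.v .h := setv_v_ne _ _ _ _ (by decide)
  have e8 : (σ.setv .don i).v .om = σ.v .om := setv_v_ne _ _ _ _ (by decide)
  have e9 : (σ.setv .don i).v .don = i := setv_v_same _ _ _
  refine ⟨h.qi.setv .don i (by decide) (by decide) (by decide) (by decide), e5.trans h.va,
    e6.trans h.vb, h.mbest, h.mW, h.max, h.may, ?_, ?_, ?_, ?_, ?_, ?_, ?_, h.hbc, h.hbs⟩
  · rw [e7]; exact h.h1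
  · rw [e7]; exact h.h2
  · rw [e8]; exact h.om
  · rw [e9]
    intro hi
    have := hr.pos
    omega
  · rw [e9]
    intro hd
    exact ⟨X, Y, hr.setv .don i (by decide), hsm⟩
  · rw [e4]; exact h.D1
  · rw [e4]; exact h.D2

theorem SInv.sY {t x₁ x₂ i : ℕ} (h : SInv p s σ t x₁ x₂) (hi : i ≤ s.v .cnt) :
    σ.m .SY i = s.m .SY i := h.qi.ext.SY i hi

/-- treatment of the state of abscissa `x` -/
theorem scanA_spec {t x : ℕ} (hL : LInv p s t) (hw : WA p s) (hI : SInv p s σ t (x + 1) (x + 1))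
    (hx : σ.v .x = x) (h1 : s.v .a1 ≤ x) (h2 : x ≤ s.v .a) (hi : σ.v .i = s.m .best x) :
    Run p.n (.ite .zero (vr .i) (blk [
      .asg .Y (at' .SY (vr .i)),
      .ite (at' .sm (vr .x)) (.succ (vr .Y)) (.asg .don (vr .i)) .skip,
      .ite (vr .om) (.succ (vr .Y)) cGood .skip]) .skip) σ
      (fun σ' => SInv p s σ' t (x + 1) x ∧ σ'.v .x = x ∧ σ'.k = σ.k ∧
        σ'.v .qc ≤ σ.v .qc + 2) := by
  rw [run_ite]
  simp only [Expr.eval_zero, Expr.eval_var]
  rw [hi]
  constructor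
  · intro hpos
    have hne : s.m .best x ≠ 0 := by omega
    obtain ⟨hrep, hYb1, hYb⟩ := hL.fr x h1 h2 hne
    have hrepσ : Rep p σ (s.m .best x) x (s.m .SY (s.m .best x)) t := hrep.ext hI.qi.ext
    have hsy : σ.m .SY (s.m .best x) = s.m .SY (s.m .best x) := hI.sY hrep.le
    rw [run_blk_cons, run_asg]
    simp only [Expr.eval_arr, Expr.eval_var]
    rw [hi, hsy]
    generalize hY : s.m .SY (s.m .best x) = Y at *
    have hI' : SInv p s (σ.setv .Y Y) t (x + 1) (x + 1) :=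
      hI.setv .Y Y (by decide) (by decide) (by decide) (by decide) (by decide) (by decide)
        (by decide) (by decide) (by decide)
    have hYv : (σ.setv .Y Y).v .Y = Y := setv_v_same _ _ _
    have hxv : (σ.setv .Y Y).v .x = x := (setv_v_ne _ _ _ _ (by decide)).trans hx
    have hiv : (σ.setv .Y Y).v .i = s.m .best x := (setv_v_ne _ _ _ _ (by decide)).trans hi
    have hqv : (σ.setv .Y Y).v .qc = σ.v .qc := setv_v_ne _ _ _ _ (by decide)
    have hkv : (σ.setv .Y Y).k = σ.k := rfl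
    have hrep' : Rep p (σ.setv .Y Y) (s.m .best x) x Y t := hrepσ.setv .Y Y (by decide)
    generalize σ.setv .Y Y = σ₀ at hI' hYv hxv hiv hqv hkv hrep' ⊢
    rw [run_blk_cons]
    -- the test of the end
    have key : Run p.n (.ite (at' .sm (vr .x)) (.succ (vr .Y)) (.asg .don (vr .i)) .skip) σ₀
        (fun σ₁ => SInv p s σ₁ t (x + 1) (x + 1) ∧ σ₁.v .Y = Y ∧ σ₁.v .x = x ∧
          σ₁.v .i = s.m .best x ∧ σ₁.v .qc = σ.v .qc ∧ σ₁.k = σ.k ∧
          Rep p σ₁ (s.m .best x) x Y t ∧ (σ₁.v .don = 0 → Y < p.sm x)) := by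
      rw [run_ite]
      simp only [Expr.eval_arr, Expr.eval_var, Expr.eval_succ]
      have hxn : x ≤ p.n := h2.trans hL.a_le
      rw [hxv, hYv, hI'.qi.stat.sm x hxn]
      constructor
      · intro hlt
        rw [run_asg, Expr.eval_var, hiv]
        have hsm : p.sm x ≤ Y := by omega
        refine ⟨hI'.setdon hrep' hsm, ?_, ?_, ?_, ?_, ?_, hrep'.setv _ _ (by decide), ?_⟩
        · rw [setv_v_ne _ _ _ _ (by decide)]; exact hYv
        · rw [setv_v_ne _ _ _ _ (by decide)]; exact hxv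
        · rw [setv_v_ne _ _ _ _ (by decide)]; exact hiv
        · rw [setv_v_ne _ _ _ _ (by decide)]; exact hqv
        · exact hkv
        · rw [setv_v_same]
          intro h0
          omega
      · intro hlt
        rw [run_skip]
        exact ⟨hI', hYv, hxv, hiv, hqv, hkv, hrep', fun _ => by omega⟩
    refine key.mono ?_
    clear key hI' hYv hxv hiv hqv hkv hrep'
    clear σ₀
    rintro σ₁ ⟨hJ, hY1, hx1, hi1, hq1, hk1, hrep1, hdon⟩
    rw [run_blk_one, run_ite]
    simp only [Expr.eval_var, Expr.eval_succ]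
    rw [hY1]
    have hgoodiff : σ₁.v .om ≤ Y ↔ ∀ x', x + 1 ≤ x' → x' ≤ s.v .a → p.y x' ≤ s.v .b →
        p.y x' ≤ Y := hJ.om Y
    constructor
    · intro hlt
      have hom : ∀ x', x + 1 ≤ x' → x' ≤ s.v .a → p.y x' ≤ s.v .b → p.y x' ≤ Y :=
        hgoodiff.1 (by omega)
      have hmY : p.IsMinY (s.v .b) x (s.v .a) (σ₁.v .h) := by
        refine ⟨fun x' a1 a2 a3 => hJ.h1 x' a1 a2 a3, ?_⟩
        rcases hJ.h2 with h3 | ⟨h3, h4, h5, h6⟩
        · exact Or.inl h3
        · exact Or.inr ⟨h3, h4, h5, h6⟩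
      have hmX : p.IsMinX (s.v .a) Y (s.v .b) (s.m .W Y) := hw.W Y hYb1 hYb
      have hG : p.GoodSt (s.v .a) (s.v .b) x Y (σ₁.v .h) (s.m .W Y) :=
        ⟨h2, hYb, hom, hmY, hmX⟩
      have hun : ∀ h w, p.GoodSt (s.v .a) (s.v .b) x Y h w → h = σ₁.v .h ∧ w = s.m .W Y :=
        fun h w hg => ⟨isMinY_unique hg.hh hmY, isMinX_unique hg.ww hmX⟩
      refine (good_spec (x := x) hJ.qi ?_ ?_ ?_ ?_).mono ?_
      · rw [hi1, hY1]; exact hrep1
      · rw [hJ.va, hJ.vb, hY1, hJ.mW]; exact hG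
      · rw [hJ.va, hJ.vb, hJ.max]; exact hw.ax
      · rw [hJ.va, hJ.vb, hJ.may]; exact hw.ay
      intro σ₂ hP
      have wne : s.v .a < s.m .W Y := by
        have := hmX.2
        have := hL.a_le
        omega
      have hv := hP.v
      have vh : σ₂.v .h = σ₁.v .h := hv .h (by decide) (by decide) (by decide) (by decide)
      have vom : σ₂.v .om = σ₁.v .om := hv .om (by decide) (by decide) (by decide) (by decide)
      have vdon : σ₂.v .don = σ₁.v .don :=
        hv .don (by decide) (by decide) (by decide) (by decide)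
      have hd1 := hP.d1
      have hd2 := hP.d2
      have hhb := hP.hb
      rw [hJ.va, hY1] at hd1
      rw [hJ.vb, hJ.mW, hY1] at hd2
      rw [hJ.mW, hY1, hi1] at hhb
      refine ⟨⟨hP.qi, ?_, ?_, ?_, ?_, ?_, ?_, ?_, ?_, ?_, ?_, ?_, ?_, ?_, ?_, ?_⟩, ?_, ?_, ?_⟩
      · rw [hv .a (by decide) (by decide) (by decide) (by decide), hJ.va]
      · rw [hv .b (by decide) (by decide) (by decide) (by decide), hJ.vb]
      · rw [hP.m .best (by decide) (by decide) (by decide) (by decide) (by decide) (by decide)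
          (by decide) (by decide), hJ.mbest]
      · rw [hP.m .W (by decide) (by decide) (by decide) (by decide) (by decide) (by decide)
          (by decide) (by decide), hJ.mW]
      · rw [hP.m .ax (by decide) (by decide) (by decide) (by decide) (by decide) (by decide)
          (by decide) (by decide), hJ.max]
      · rw [hP.m .ay (by decide) (by decide) (by decide) (by decide) (by decide) (by decide)
          (by decide) (by decide), hJ.may]
      · rw [vh]; exact hJ.h1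
      · rw [vh]; exact hJ.h2
      · rw [vom]; exact hJ.om
      · rw [vdon]
        intro h0 x' a1 a2 a3
        rcases Nat.lt_or_ge x x' with h5 | h5
        · exact hJ.don0 h0 x' h5 a2 a3
        · have : x' = x := by omega
          rw [this, hY]
          exact hdon h0
      · rw [vdon]
        intro h0
        obtain ⟨X, Y', b1, b2⟩ := hJ.don1 h0
        exact ⟨X, Y', b1.ext hP.ext, b2⟩
      · intro x' a1 a2 a3 h w hg b1 m b2 b3
        rcases Nat.lt_or_ge x x' with h5 | h5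
        · exact hP.cov _ _ (hJ.D1 x' h5 a2 a3 h w hg b1 m b2 b3)
        · have : x' = x := by omega
          rw [this, hY] at hg b3
          obtain ⟨rfl, rfl⟩ := hun h w hg
          exact hd1 b1 m b2 b3
      · intro x' a1 a2 a3 h w hg b1 m b2 b3
        rcases Nat.lt_or_ge x x' with h5 | h5
        · exact hP.cov _ _ (hJ.D2 x' h5 a2 a3 h w hg b1 m b2 b3)
        · have : x' = x := by omega
          rw [this, hY] at hg
          rw [this] at b3
          obtain ⟨rfl, rfl⟩ := hun h w hg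
          exact hd2 b1 m b2 b3
      · intro x' a1 a2 a3 h w hg
        rcases Nat.lt_or_ge x x' with h5 | h5
        · have h6 := hJ.hbc x' h5 a2 a3 h w hg
          rcases hhb with ⟨c1, c2, c3⟩ | ⟨c1, c2, c3⟩
          · rw [c2]
            by_cases hww : w = s.m .W Y
            · rw [hww, Function.update_self]
              rw [hww] at h6
              omega
            · rw [Function.update_of_ne hww]
              exact h6
          · rw [c2]; exact h6
        · have : x' = x := by omega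
          rw [this, hY] at hg
          obtain ⟨rfl, rfl⟩ := hun h w hg
          rcases hhb with ⟨c1, c2, c3⟩ | ⟨c1, c2, c3⟩
          · rw [c2, Function.update_self]
          · rw [c2]; exact c1
      · intro w a1 a2
        have old : σ₁.m .hb w ≠ 0 → σ₂.m .hb w = σ₁.m .hb w → σ₂.m .hbid w = σ₁.m .hbid w →
            ∃ x', x ≤ x' ∧ x' ≤ s.v .a ∧ s.m .best x' ≠ 0 ∧
            σ₂.m .hbid w = s.m .best x' ∧
            p.GoodSt (s.v .a) (s.v .b) x' (s.m .SY (s.m .best x')) (σ₂.m .hb w) w := by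
          intro d1 d2 d3
          obtain ⟨x', f1, f2, f3, f4, f5⟩ := hJ.hbs w a1 d1
          exact ⟨x', by omega, f2, f3, by rw [d3]; exact f4, by rw [d2]; exact f5⟩
        rcases hhb with ⟨c1, c2, c3⟩ | ⟨c1, c2, c3⟩
        · by_cases hww : w = s.m .W Y
          · refine ⟨x, le_rfl, h2, hne, ?_, ?_⟩
            · rw [c3, hww, Function.update_self]
            · rw [c2, hww, Function.update_self, hY]
              exact hG
          · have g1 : σ₂.m .hb w = σ₁.m .hb w := by rw [c2, Function.update_of_ne hww]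
            have g2 : σ₂.m .hbid w = σ₁.m .hbid w := by rw [c3, Function.update_of_ne hww]
            exact old (by rw [← g1]; exact a2) g1 g2
        · exact old (by rw [← c2]; exact a2) (by rw [c2]) (by rw [c3])
      · rw [hv .x (by decide) (by decide) (by decide) (by decide), hx1]
      · rw [hP.k, hk1]
      · have := hP.qc
        rw [hq1] at this
        exact this
    · intro hlt
      rw [run_skip]
      have hno : ∀ h w, ¬ p.GoodSt (s.v .a) (s.v .b) x Y h w := by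
        intro h w hg
        exact hlt (Nat.lt_succ_of_le (hgoodiff.2 (fun x' a1 a2 a3 => hg.good x' a1 a2 a3)))
      refine ⟨⟨hJ.qi, hJ.va, hJ.vb, hJ.mbest, hJ.mW, hJ.max, hJ.may, hJ.h1, hJ.h2, hJ.om,
        ?_, hJ.don1, ?_, ?_, ?_, ?_⟩, hx1, hk1, by rw [hq1]; omega⟩
      · intro h0 x' a1 a2 a3
        rcases Nat.lt_or_ge x x' with h5 | h5
        · exact hJ.don0 h0 x' h5 a2 a3
        · have : x' = x := by omega
          rw [this, hY]
          exact hdon h0
      · intro x' a1 a2 a3 h w hg b1 m b2 b3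
        rcases Nat.lt_or_ge x x' with h5 | h5
        · exact hJ.D1 x' h5 a2 a3 h w hg b1 m b2 b3
        · have : x' = x := by omega
          rw [this, hY] at hg
          exact absurd hg (hno h w)
      · intro x' a1 a2 a3 h w hg b1 m b2 b3
        rcases Nat.lt_or_ge x x' with h5 | h5
        · exact hJ.D2 x' h5 a2 a3 h w hg b1 m b2 b3
        · have : x' = x := by omega
          rw [this, hY] at hg
          exact absurd hg (hno h w)
      · intro x' a1 a2 a3 h w hg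
        rcases Nat.lt_or_ge x x' with h5 | h5
        · exact hJ.hbc x' h5 a2 a3 h w hg
        · have : x' = x := by omega
          rw [this, hY] at hg
          exact absurd hg (hno h w)
      · intro w a1 a2
        obtain ⟨x', f1, f2, f3, f4, f5⟩ := hJ.hbs w a1 a2
        exact ⟨x', by omega, f2, f3, f4, f5⟩
  · intro h0
    rw [run_skip]
    have hz : s.m .best x = 0 := by omega
    refine ⟨⟨hI.qi, hI.va, hI.vb, hI.mbest, hI.mW, hI.max, hI.may, hI.h1, hI.h2, hI.om,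
        ?_, hI.don1, ?_, ?_, ?_, ?_⟩, hx, rfl, by omega⟩
    · intro h0 x' a1 a2 a3
      rcases Nat.lt_or_ge x x' with h5 | h5
      · exact hI.don0 h0 x' h5 a2 a3
      · have : x' = x := by omega
        rw [this] at a3
        exact absurd hz a3
    · intro x' a1 a2 a3
      rcases Nat.lt_or_ge x x' with h5 | h5
      · exact hI.D1 x' h5 a2 a3
      · have : x' = x := by omega
        rw [this] at a3
        exact absurd hz a3
    · intro x' a1 a2 a3
      rcases Nat.lt_or_ge x x' with h5 | h5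
      · exact hI.D2 x' h5 a2 a3
      · have : x' = x := by omega
        rw [this] at a3
        exact absurd hz a3
    · intro x' a1 a2 a3
      rcases Nat.lt_or_ge x x' with h5 | h5
      · exact hI.hbc x' h5 a2 a3
      · have : x' = x := by omega
        rw [this] at a3
        exact absurd hz a3
    · intro w a1 a2
      obtain ⟨x', f1, f2, f3, f4, f5⟩ := hI.hbs w a1 a2
      exact ⟨x', by omega, f2, f3, f4, f5⟩

/-- the update of `h` and `om` -/
theorem scanB_spec {t x : ℕ} (hI : SInv p s σ t (x + 1) x)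
    (hx : σ.v .x = x) (h2 : x ≤ s.v .a) :
    Run p.n (.ite (vr .b) (at' .y (vr .x))
      (.ite (at' .y (vr .x)) (vr .h) (.asg .h (at' .y (vr .x))) .skip)
      (.ite (vr .om) (at' .y (vr .x)) (.asg .om (at' .y (vr .x))) .skip)) σ
      (fun σ' => SInv p s σ' t x x ∧ σ'.v .x = x ∧ σ'.k = σ.k ∧ σ'.v .qc = σ.v .qc) := by
  have hy := hI.qi.stat.y
  rw [run_ite]
  simp only [Expr.eval_arr, Expr.eval_var]
  rw [hy, hx, hI.vb]
  constructor
  · intro hlt
    have hxp := p.pos_of_y_pos (show 0 < p.y x by omega)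
    have hxx : p.xx (p.y x) = x := p.xx_y x hxp.1 hxp.2
    have omI : ∀ c, σ.v .om ≤ c ↔ ∀ x', x ≤ x' → x' ≤ s.v .a → p.y x' ≤ s.v .b → p.y x' ≤ c := by
      intro c
      rw [hI.om c]
      constructor
      · intro h x' a1 a2 a3
        rcases Nat.lt_or_ge x x' with h5 | h5
        · exact h x' h5 a2 a3
        · have : x' = x := by omega
          rw [this] at a3
          omega
      · intro h x' a1 a2 a3
        exact h x' (by omega) a2 a3
    rw [run_ite]
    simp only [Expr.eval_arr, Expr.eval_var]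
    rw [hy, hx]
    constructor
    · intro hlt2
      rw [run_asg]
      simp only [Expr.eval_arr, Expr.eval_var]
      rw [hy, hx]
      generalize hc : p.y x = c at *
      have e : ∀ y, y ≠ .h → (σ.setv .h c).v y = σ.v y := fun y hy => setv_v_ne _ _ _ _ hy
      have eh : (σ.setv .h c).v .h = c := setv_v_same _ _ _
      refine ⟨⟨hI.qi.setv .h c (by decide) (by decide) (by decide) (by decide),
        (e _ (by decide)).trans hI.va, (e _ (by decide)).trans hI.vb, hI.mbest, hI.mW, hI.max,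
        hI.may, ?_, ?_, ?_, ?_, ?_, ?_, ?_, hI.hbc, hI.hbs⟩, (e _ (by decide)).trans hx, rfl,
        e _ (by decide)⟩
      · rw [eh]
        intro x' a1 a2 a3
        rcases Nat.lt_or_ge x x' with h5 | h5
        · have := hI.h1 x' h5 a2 a3
          omega
        · have : x' = x := by omega
          rw [this, hc]
      · rw [eh]
        right
        have := p.y_le x
        exact ⟨hlt, by omega, by omega, by omega⟩
      · rw [e _ (by decide)]; exact omI
      · rw [e _ (by decide)]; exact hI.don0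
      · rw [e _ (by decide)]
        intro h0
        obtain ⟨X, Y', b1, b2⟩ := hI.don1 h0
        exact ⟨X, Y', b1.setv .h c (by decide), b2⟩
      · rw [e _ (by decide)]; exact hI.D1
      · rw [e _ (by decide)]; exact hI.D2
    · intro hlt2
      rw [run_skip]
      refine ⟨⟨hI.qi, hI.va, hI.vb, hI.mbest, hI.mW, hI.max, hI.may, ?_, ?_, omI,
        hI.don0, hI.don1, hI.D1, hI.D2, hI.hbc, hI.hbs⟩, hx, rfl, rfl⟩
      · intro x' a1 a2 a3
        rcases Nat.lt_or_ge x x' with h5 | h5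
        · exact hI.h1 x' h5 a2 a3
        · have : x' = x := by omega
          rw [this]
          omega
      · rcases hI.h2 with h3 | ⟨h3, h4, h5, h6⟩
        · exact Or.inl h3
        · exact Or.inr ⟨h3, h4, by omega, h6⟩
  · intro hlt
    have hI1 : ∀ x', x ≤ x' → x' ≤ s.v .a → s.v .b < p.y x' → σ.v .h ≤ p.y x' := by
      intro x' a1 a2 a3
      rcases Nat.lt_or_ge x x' with h5 | h5
      · exact hI.h1 x' h5 a2 a3
      · have : x' = x := by omega
        rw [this] at a3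
        omega
    have hI2 : σ.v .h = p.n + 1 ∨ (s.v .b < σ.v .h ∧ σ.v .h ≤ p.n ∧ x ≤ p.xx (σ.v .h) ∧
        p.xx (σ.v .h) ≤ s.v .a) := by
      rcases hI.h2 with h3 | ⟨h3, h4, h5, h6⟩
      · exact Or.inl h3
      · exact Or.inr ⟨h3, h4, by omega, h6⟩
    rw [run_ite]
    simp only [Expr.eval_arr, Expr.eval_var]
    rw [hy, hx]
    constructor
    · intro hlt2
      rw [run_asg]
      simp only [Expr.eval_arr, Expr.eval_var]
      rw [hy, hx]
      generalize hc : p.y x = c at *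
      have e : ∀ y, y ≠ .om → (σ.setv .om c).v y = σ.v y := fun y hy => setv_v_ne _ _ _ _ hy
      have eh : (σ.setv .om c).v .om = c := setv_v_same _ _ _
      refine ⟨⟨hI.qi.setv .om c (by decide) (by decide) (by decide) (by decide),
        (e _ (by decide)).trans hI.va, (e _ (by decide)).trans hI.vb, hI.mbest, hI.mW, hI.max,
        hI.may, ?_, ?_, ?_, ?_, ?_, ?_, ?_, hI.hbc, hI.hbs⟩, (e _ (by decide)).trans hx, rfl,
        e _ (by decide)⟩
      · rw [e _ (by decide)]; exact hI1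
      · rw [e _ (by decide)]; exact hI2
      · rw [eh]
        intro d
        constructor
        · intro h x' a1 a2 a3
          rcases Nat.lt_or_ge x x' with h5 | h5
          · exact (hI.om d).1 (by omega) x' h5 a2 a3
          · have : x' = x := by omega
            rw [this, hc]
            exact h
        · intro h
          have := h x le_rfl h2 (by omega)
          omega
      · rw [e _ (by decide)]; exact hI.don0
      · rw [e _ (by decide)]
        intro h0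
        obtain ⟨X, Y', b1, b2⟩ := hI.don1 h0
        exact ⟨X, Y', b1.setv .om c (by decide), b2⟩
      · rw [e _ (by decide)]; exact hI.D1
      · rw [e _ (by decide)]; exact hI.D2
    · intro hlt2
      rw [run_skip]
      refine ⟨⟨hI.qi, hI.va, hI.vb, hI.mbest, hI.mW, hI.max, hI.may, hI1, hI2, ?_,
        hI.don0, hI.don1, hI.D1, hI.D2, hI.hbc, hI.hbs⟩, hx, rfl, rfl⟩
      intro d
      rw [hI.om d]
      constructor
      · intro h x' a1 a2 a3
        rcases Nat.lt_or_ge x x' with h5 | h5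
        · exact h x' h5 a2 a3
        · have : x' = x := by omega
          rw [this]
          have := (hI.om d).2 h
          omega
      · intro h x' a1 a2 a3
        exact h x' (by omega) a2 a3

theorem SInv.tick {t x₁ x₂ : ℕ} (h : SInv p s σ t x₁ x₂) : SInv p s σ.tick t x₁ x₂ := by
  have hs := h.qi.stat
  have he := h.qi.ext
  have rt : ∀ i X Y c, Rep p σ i X Y c → Rep p σ.tick i X Y c := by
    rintro i X Y c ⟨a1, a2, a3, a4, a5⟩
    exact ⟨a1, a2, a3, a4, a5⟩
  exact ⟨⟨⟨hs.n, hs.N1, hs.y, hs.xx, hs.u, hs.r, hs.sm, hs.out, hs.SY0⟩,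
    ⟨he.cnt, he.SX, he.SY, he.par, he.p1, he.p2⟩, h.qi.qle, h.qi.dq,
    fun z h1 h2 => rt _ _ _ _ (h.qi.new z h1 h2)⟩, h.va, h.vb, h.mbest, h.mW, h.max, h.may,
    h.h1, h.h2, h.om, h.don0, fun h0 => by
      obtain ⟨X, Y', b1, b2⟩ := h.don1 h0
      exact ⟨X, Y', rt _ _ _ _ b1, b2⟩, h.D1, h.D2, h.hbc, h.hbs⟩

theorem Scan_spec {t : ℕ} (h : LInv p s t) (hd : s.v .don = 0) (hw : WA p s) :
    Run p.n cScan s (fun s' => ScanPost p s s' t) := by
  have hN1 := h.stat.N1
  unfold cScan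
  rw [run_blk_cons, run_asg, run_blk_cons, run_asg, run_blk_cons, run_asg, run_blk_one]
  simp only [Expr.eval_zero, Expr.eval_var, Expr.eval_succ]
  have e1 : (s.setv .h (s.v .N1)).v .a = s.v .a := setv_v_ne _ _ _ _ (by decide)
  have e2 : ((s.setv .h (s.v .N1)).setv .om 0).v .a = s.v .a :=
    (setv_v_ne _ _ _ _ (by decide)).trans e1
  rw [e2]
  set σ₀ : S := ((s.setv .h (s.v .N1)).setv .om 0).setv .x (s.v .a + 1) with hσ₀
  have f : ∀ y, y ≠ .h → y ≠ .om → y ≠ .x → σ₀.v y = s.v y := by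
    intro y h1 h2 h3
    rw [hσ₀, setv_v_ne _ _ _ _ h3, setv_v_ne _ _ _ _ h2, setv_v_ne _ _ _ _ h1]
  have fh : σ₀.v .h = p.n + 1 := by
    rw [hσ₀, setv_v_ne _ _ _ _ (by decide), setv_v_ne _ _ _ _ (by decide), setv_v_same, hN1]
  have fom : σ₀.v .om = 0 := by
    rw [hσ₀, setv_v_ne _ _ _ _ (by decide), setv_v_same]
  have fx : σ₀.v .x = s.v .a + 1 := by
    rw [hσ₀, setv_v_same]
  have fm : σ₀.m = s.m := rfl
  have fk : σ₀.k = s.k := rfl
  have hQ0 : QI p s s t := by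
    refine ⟨h.stat, Ext.refl s, h.qbc.ge, fun _ _ => rfl, ?_⟩
    intro z h1 h2
    have := h.qbc
    omega
  have hQ : QI p s σ₀ t :=
    ((hQ0.setv .h _ (by decide) (by decide) (by decide) (by decide)).setv .om _
      (by decide) (by decide) (by decide) (by decide)).setv .x _
      (by decide) (by decide) (by decide) (by decide)
  have hI0 : SInv p s σ₀ t (s.v .a + 1) (s.v .a + 1) := by
    refine ⟨hQ, f _ (by decide) (by decide) (by decide), f _ (by decide) (by decide) (by decide),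
      rfl, rfl, rfl, rfl, ?_, ?_, ?_, ?_, ?_, ?_, ?_, ?_, ?_⟩
    · intro x' a1 a2; omega
    · exact Or.inl fh
    · intro c
      rw [fom]
      constructor
      · intro _ x' a1 a2; omega
      · intro _; exact Nat.zero_le _
    · intro _ x' a1 a2; omega
    · rw [f _ (by decide) (by decide) (by decide), hd]
      intro h0
      exact absurd rfl h0
    · intro x' a1 a2; omega
    · intro x' a1 a2; omega
    · intro x' a1 a2; omega
    · intro w a1 a2
      exact absurd (h.hbcln w a1) a2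
  refine run_whl (fun σ => SInv p s σ t (σ.v .x) (σ.v .x) ∧ s.v .a1 ≤ σ.v .x ∧
      σ.v .x ≤ s.v .a + 1 ∧ σ.k + (σ.v .qc - s.v .qb) ≤ s.k + 3 * (s.v .a + 1 - σ.v .x))
    (fun σ => σ.v .x) ?_ ?_ ?_
  · refine ⟨by rw [fx]; exact hI0, ?_, by rw [fx], ?_⟩
    · rw [fx]
      have := h.a1_le
      omega
    · rw [fx, fk, f _ (by decide) (by decide) (by decide), h.qbc]
      omega
  · rintro σ hF ⟨hI, hlo, hhi, hcost⟩ hlt
    simp only [Expr.eval_var] at hlt
    rw [hF.v .a1 (by decide), f .a1 (by decide) (by decide) (by decide)] at hlt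
    obtain ⟨x, hx⟩ : ∃ x, σ.v .x = x + 1 := ⟨σ.v .x - 1, by omega⟩
    rw [hx] at hI hlt hhi hcost
    rw [run_blk_cons, run_asg, run_blk_cons, run_asg]
    simp only [Expr.eval_arr, Expr.eval_pred, Expr.eval_var]
    have hx1 : σ.v .x - 1 = x := by omega
    rw [hx1, setv_v_same]
    have hI1 : SInv p s (σ.setv .x x) t (x + 1) (x + 1) :=
      hI.setv .x x (by decide) (by decide) (by decide) (by decide) (by decide) (by decide)
        (by decide) (by decide) (by decide)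
    have hm1 : (σ.setv .x x).m .best x = s.m .best x := by rw [hI1.mbest]
    rw [hm1]
    have hI2 : SInv p s ((σ.setv .x x).setv .i (s.m .best x)) t (x + 1) (x + 1) :=
      hI1.setv .i _ (by decide) (by decide) (by decide) (by decide) (by decide) (by decide)
        (by decide) (by decide) (by decide)
    have g1 : ((σ.setv .x x).setv .i (s.m .best x)).v .x = x := by
      rw [setv_v_ne _ _ _ _ (by decide), setv_v_same]
    have g2 : ((σ.setv .x x).setv .i (s.m .best x)).v .i = s.m .best x := setv_v_same _ _ _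
    have g3 : ((σ.setv .x x).setv .i (s.m .best x)).v .qc = σ.v .qc := by
      rw [setv_v_ne _ _ _ _ (by decide), setv_v_ne _ _ _ _ (by decide)]
    have g4 : ((σ.setv .x x).setv .i (s.m .best x)).k = σ.k := rfl
    generalize (σ.setv .x x).setv .i (s.m .best x) = σ₁ at hI2 g1 g2 g3 g4 ⊢
    rw [run_blk_cons]
    refine (scanA_spec h hw hI2 g1 (by omega) (by omega) g2).mono ?_
    rintro σ₂ ⟨hJ, j1, j2, j3⟩
    rw [run_blk_one]
    refine (scanB_spec hJ j1 (by omega)).mono ?_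
    rintro σ₃ ⟨hK, k1, k2, k3⟩
    have hq1 := hJ.qi.qle
    have hq2 := hI.qi.qle
    rw [tick_v, k1]
    refine ⟨⟨hK.tick, by omega, by omega, ?_⟩, by omega⟩
    rw [tick_k, k2, k3, j2, g4]
    omega
  · rintro σ hF ⟨hI, hlo, hhi, hcost⟩ hlt
    simp only [Expr.eval_var] at hlt
    have va1 : σ.v .a1 = s.v .a1 := by
      rw [hF.v .a1 (by decide), f .a1 (by decide) (by decide) (by decide)]
    rw [va1] at hlt
    have hx : σ.v .x = s.v .a1 := by omega
    rw [hx] at hI hcost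
    have hsy : ∀ x, s.v .a1 ≤ x → x ≤ s.v .a → s.m .best x ≠ 0 →
        σ.m .SY (s.m .best x) = s.m .SY (s.m .best x) :=
      fun x h1 h2 h3 => hI.sY (h.fr x h1 h2 h3).1.le
    refine ⟨hI.qi.stat, hI.qi.ext, hI.don0, hI.don1, hI.qi.qle, hI.qi.dq, hI.qi.new, hI.D1,
      hI.D2, ?_, ?_, hcost⟩
    · intro x h1 h2 h3 h' w hg
      rw [va1] at h1
      rw [hI.va] at h2
      rw [hI.mbest] at h3 hg
      rw [hI.va, hI.vb, hsy x h1 h2 h3] at hg
      exact hI.hbc x h1 h2 h3 h' w hg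
    · intro w h1 h2
      rw [hI.va] at h1
      obtain ⟨x, f1, f2, f3, f4, f5⟩ := hI.hbs w h1 h2
      refine ⟨x, by rw [va1]; exact f1, by rw [hI.va]; exact f2, by rw [hI.mbest]; exact f3,
        by rw [hI.mbest]; exact f4, ?_⟩
      rw [hI.va, hI.vb, hI.mbest, hsy x f1 f2 f3]
      exact f5

end scan

end Pool.Agent.PD
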