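import Pool.Agent.PD.Front
import Pool.Agent.PD.MATH

/-! Module STAIR: the scan over the minimal points of the quadrant. -/

set_option linter.unusedVariables false
set_option linter.constructorNameAsVariable false
set_option linter.unusedSimpArgs false

namespace Pool.Agent.PD

open PData

section stair
variable {p : PData}

/-- `s'` arises from `s` by the creation of one state with the given data -/
structure NewSt (s s' : S) (X Y i q1 q2 : ℕ) : Prop where
  v : ∀ x, x ≠ .cnt → s'.v x = s.v x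
  cnt : s'.v .cnt = s.v .cnt + 1
  k : s'.k = s.k
  m : ∀ B, B ≠ .SX → B ≠ .SY → B ≠ .par → B ≠ .p1 → B ≠ .p2 → s'.m B = s.m B
  SX : s'.m .SX = Function.update (s.m .SX) (s.v .cnt + 1) X
  SY : s'.m .SY = Function.update (s.m .SY) (s.v .cnt + 1) Y
  par : s'.m .par = Function.update (s.m .par) (s.v .cnt + 1) i
  p1 : s'.m .p1 = Function.update (s.m .p1) (s.v .cnt + 1) q1
  p2 : s'.m .p2 = Function.update (s.m .p2) (s.v .cnt + 1) q2

theorem upd_of_le {f : ℕ → ℕ} {c i z : ℕ} (h : i ≤ c) : Function.update f (c + 1) z i = f i :=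
  Function.update_of_ne (by omega) _ _

theorem NewSt.ext {s s' : S} {X Y i q1 q2 : ℕ} (h : NewSt s s' X Y i q1 q2) : Ext s s' where
  cnt := by rw [h.cnt]; omega
  SX := fun i hi => by rw [h.SX, upd_of_le hi]
  SY := fun i hi => by rw [h.SY, upd_of_le hi]
  par := fun i hi => by rw [h.par, upd_of_le hi]
  p1 := fun i hi => by rw [h.p1, upd_of_le hi]
  p2 := fun i hi => by rw [h.p2, upd_of_le hi]

theorem NewSt.rep {s s' : S} {X Y i q1 q2 X0 Y0 c c' : ℕ} (h : NewSt s s' X Y i q1 q2)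
    (hr : Rep p s i X0 Y0 c)
    (hval : ∀ D, p.Valid X0 Y0 D → p.Valid X Y (addp q1 (addp q2 D)))
    (hc : ∀ D : Finset ℕ, D.card ≤ c → (addp q1 (addp q2 D)).card ≤ c') (hc2 : c + 1 ≤ c') :
    Rep p s' (s'.v .cnt) X Y c' := by
  obtain ⟨hpos, hle, -, -, D, l, hD, hl, hcard, hV⟩ := hr
  refine ⟨by rw [h.cnt]; omega, le_rfl, by rw [h.cnt, h.SX]; simp, by rw [h.cnt, h.SY]; simp,
    addp q1 (addp q2 D), l + 1, ?_, by omega, hc D hcard, hval D hV⟩
  have h1 : s'.m .par (s.v .cnt + 1) = i := by rw [h.par]; simp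
  have h2 : s'.m .p1 (s.v .cnt + 1) = q1 := by rw [h.p1]; simp
  have h3 : s'.m .p2 (s.v .cnt + 1) = q2 := by rw [h.p2]; simp
  have hD' : HasD (s'.m .par) (s'.m .p1) (s'.m .p2) i D l :=
    hasD_congr hD hle (fun j hj => h.ext.par j hj) (fun j hj => h.ext.p1 j hj)
      (fun j hj => h.ext.p2 j hj)
  rw [h.cnt]
  have := HasD.step (par := s'.m .par) (p1 := s'.m .p1) (p2 := s'.m .p2) (i := s.v .cnt + 1)
    (l := l) (D := D) (by omega) (by rw [h1]; omega) (by rw [h1]; exact hD')
  rwa [h2, h3] at this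

/-- creation of a state, with evaluated arguments -/
theorem new_spec' {N : ℕ} {s : S} (eX eY ep e1 e2 : E)
    (hn : (noRec eY && noRec ep && noRec e1 && noRec e2) = true) :
    Run N (cNew eX eY ep e1 e2) s (fun s' => NewSt s s'
      (eX.eval (s.setv .cnt (s.v .cnt + 1))) (eY.eval (s.setv .cnt (s.v .cnt + 1)))
      (ep.eval (s.setv .cnt (s.v .cnt + 1))) (e1.eval (s.setv .cnt (s.v .cnt + 1)))
      (e2.eval (s.setv .cnt (s.v .cnt + 1)))) :=
  new_spec eX eY ep e1 e2 (fun s' hv hc hk _ hm h1 h2 h3 h4 h5 =>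
    ⟨hv, hc, hk, hm, h1, h2, h3, h4, h5⟩) hn

/-- everything relevant for the new frontier agrees -/
structure Same (s s' : S) : Prop where
  ext : Ext s s'
  v : ∀ x, x ≠ .cnt → x ≠ .T → x ≠ .mm → x ≠ .qc → x ≠ .cur → x ≠ .cid → x ≠ .x →
    s'.v x = s.v x
  m : ∀ B, B ≠ .SX → B ≠ .SY → B ≠ .par → B ≠ .p1 → B ≠ .p2 → B ≠ .DQ → s'.m B = s.m B

theorem NewSt.same {s s' : S} {X Y i q1 q2 : ℕ} (h : NewSt s s' X Y i q1 q2) : Same s s' :=
  ⟨h.ext, fun x hx _ _ _ _ _ _ => h.v x hx, fun B h1 h2 h3 h4 h5 _ => h.m B h1 h2 h3 h4 h5⟩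

theorem Same.static {s s' : S} (h : Same s s') (hs : Static p s) : Static p s' where
  n := by rw [h.v .n (by decide) (by decide) (by decide) (by decide) (by decide) (by decide)
    (by decide)]; exact hs.n
  N1 := by rw [h.v .N1 (by decide) (by decide) (by decide) (by decide) (by decide) (by decide)
    (by decide)]; exact hs.N1
  y := by rw [h.m .y (by decide) (by decide) (by decide) (by decide) (by decide) (by decide)]
          exact hs.y
  xx := by rw [h.m .xx (by decide) (by decide) (by decide) (by decide) (by decide) (by decide)]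
           exact hs.xx
  u := fun X hX => by
    rw [h.m .u (by decide) (by decide) (by decide) (by decide) (by decide) (by decide)]
    exact hs.u X hX
  r := fun X hX => by
    rw [h.m .r (by decide) (by decide) (by decide) (by decide) (by decide) (by decide)]
    exact hs.r X hX
  sm := fun X hX => by
    rw [h.m .sm (by decide) (by decide) (by decide) (by decide) (by decide) (by decide)]
    exact hs.sm X hX
  out := by
    rw [h.m .out (by decide) (by decide) (by decide) (by decide) (by decide) (by decide)]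
    exact hs.out
  SY0 := by rw [h.ext.SY 0 (Nat.zero_le _)]; exact hs.SY0

theorem Same.nfr {s s' : S} {t : ℕ} (h : Same s s') (hn : NFr p s t) :
    NFr p s' t ∧ ∀ X Y, CovN p s X Y → CovN p s' X Y := by
  have ha : s'.v .a = s.v .a := h.v .a (by decide) (by decide) (by decide) (by decide) (by decide)
    (by decide) (by decide)
  have hb : s'.v .b = s.v .b := h.v .b (by decide) (by decide) (by decide) (by decide) (by decide)
    (by decide) (by decide)
  have hU : s'.v .U = s.v .U := h.v .U (by decide) (by decide) (by decide) (by decide) (by decide)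
    (by decide) (by decide)
  have han : s'.v .an = s.v .an := h.v .an (by decide) (by decide) (by decide) (by decide)
    (by decide) (by decide) (by decide)
  have hbn : s'.v .bn = s.v .bn := h.v .bn (by decide) (by decide) (by decide) (by decide)
    (by decide) (by decide) (by decide)
  have hnb : s'.v .nb = s.v .nb := h.v .nb (by decide) (by decide) (by decide) (by decide)
    (by decide) (by decide) (by decide)
  have hbest : s'.m .best = s.m .best := h.m .best (by decide) (by decide) (by decide) (by decide)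
    (by decide) (by decide)
  have hSY : ∀ x, s.v .a < x → s.m .best x ≠ 0 →
      s'.m .SY (s.m .best x) = s.m .SY (s.m .best x) := fun x hx hbx =>
    h.ext.SY _ (hn.new x hx hbx).1.le
  have hcov : ∀ X Y, CovN p s X Y → CovN p s' X Y := by
    rintro X Y (hc | ⟨x, h1, h2, h3, h4, h5⟩)
    · left; rw [ha]; exact hc
    · right
      refine ⟨x, by rw [ha]; exact h1, h2, by rw [hbest]; exact h3, h4, ?_⟩
      rw [hbest, hSY x h1 h3]; exact h5
  refine ⟨⟨h.static hn.stat, by rw [ha]; exact hn.a_le, by rw [hb]; exact hn.b_le, ?_, ?_, ?_, ?_,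
    ?_, ?_, ?_, ?_, ?_, ?_, ?_⟩, hcov⟩
  · rw [hU, ha]; exact hn.U.ext h.ext
  · intro x hx hbx
    rw [ha] at hx
    rw [hbest] at hbx
    obtain ⟨h1, h2, h3, h4⟩ := hn.new x hx hbx
    rw [hbest, hSY x hx hbx, hb, hbn, han]
    exact ⟨h1.ext h.ext, h2, h3, h4⟩
  · obtain ⟨X, h1, h2⟩ := hn.nb
    exact ⟨X, by rw [han]; exact h1, by rw [hnb, hbn]; exact h2.ext h.ext⟩
  · rw [ha, han]; exact hn.an_ge
  · rw [hb, han]; exact hn.an_r
  · rw [han]; exact hn.an_le
  · rw [han, ha, hbest]; exact hn.an_at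
  · rw [hb, hbn]; exact hn.bn_b
  · rw [ha, hbn]; exact hn.bn_u
  · rw [hbn]; exact hn.bn_le
  · rw [hb]; exact hcov _ _ hn.R

theorem Rep.congr {s s' : S} {i X Y c : ℕ} (h : Rep p s i X Y c) (hc : s'.v .cnt = s.v .cnt)
    (hm : ∀ B, B ≠ .best → B ≠ .DQ → s'.m B = s.m B) : Rep p s' i X Y c := by
  refine h.ext ⟨le_of_eq hc.symm, ?_, ?_, ?_, ?_, ?_⟩
  · intro i _; rw [hm .SX (by decide) (by decide)]
  · intro i _; rw [hm .SY (by decide) (by decide)]
  · intro i _; rw [hm .par (by decide) (by decide)]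
  · intro i _; rw [hm .p1 (by decide) (by decide)]
  · intro i _; rw [hm .p2 (by decide) (by decide)]

theorem ext_congr {s s' : S} (hc : s'.v .cnt = s.v .cnt)
    (hm : ∀ B, B ≠ .best → B ≠ .DQ → s'.m B = s.m B) : Ext s s' := by
  refine ⟨le_of_eq hc.symm, ?_, ?_, ?_, ?_, ?_⟩
  · intro i _; rw [hm .SX (by decide) (by decide)]
  · intro i _; rw [hm .SY (by decide) (by decide)]
  · intro i _; rw [hm .par (by decide) (by decide)]
  · intro i _; rw [hm .p1 (by decide) (by decide)]
  · intro i _; rw [hm .p2 (by decide) (by decide)]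

/-- the current bound comes from a good state with next abscissa beyond `x` -/
def CurOk (p : PData) (s : S) (t : ℕ) : Prop :=
  s.v .cur = 0 ∨ ∃ w X Y, s.v .x < w ∧ Rep p s (s.v .cid) X Y t ∧
    p.GoodSt (s.v .a) (s.v .b) X Y (s.v .cur) w

/-- the move of cost 1 -/
def cSt1 : C := .ite (at' .y (vr .x)) (vr .cur) (blk [
          cNew (vr .x) (at' .y (vr .x)) (vr .cid) (vr .x) .zero,
          .asg .T (vr .cnt),
          cInsert]) .skip

/-- the move of cost 2 -/
def cSt2 : C := .ite (at' .ay (.pred (vr .x))) (vr .cur) (blk [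
          .asg .mm (at' .ay (.pred (vr .x))),
          cNew (at' .r (vr .mm)) (at' .u (vr .x)) (vr .cid) (at' .xx (at' .u (vr .x)))
            (at' .r (vr .mm)),
          cPush]) .skip

/-- effect of the move of cost 1 -/
structure B1 (p : PData) (t : ℕ) (s s' : S) : Prop where
  nfr : NFr p s' t
  ext : Ext s s'
  mono : ∀ X Y, CovN p s X Y → CovN p s' X Y
  v : ∀ x, x ≠ .cnt → x ≠ .T → x ≠ .an → x ≠ .bn → x ≠ .nb → s'.v x = s.v x
  m : ∀ B, B ≠ .best → B ≠ .SX → B ≠ .SY → B ≠ .par → B ≠ .p1 → B ≠ .p2 → s'.m B = s.m B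
  best : ∀ x, x ≤ s.v .a → s'.m .best x = s.m .best x
  C : p.y (s.v .x) < s.v .cur → CovN p s' (s.v .x) (p.y (s.v .x))
  k : s'.k = s.k

theorem st1_spec {s : S} {t : ℕ} (h : NFr p s t) (hcur : CurOk p s t)
    (hq : p.MinPt (s.v .a) (s.v .b) (s.v .x)) : Run p.n cSt1 s (fun s' => B1 p t s s') := by
  rw [cSt1, run_ite]
  simp only [Expr.eval_arr, Expr.eval_var]
  have hy : s.m .y = p.y := h.stat.y
  rw [hy]
  constructor
  · intro hlt
    rcases hcur with hcur | ⟨w, X, Y, hw, hrep, hg⟩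
    · omega
    rw [run_blk_cons]
    refine (new_spec' _ _ _ _ _ (by rfl)).mono fun s1 h1 => ?_
    simp only [Expr.eval_var, Expr.eval_arr, Expr.eval_zero, setv_m, hy] at h1
    rw [setv_v_ne _ _ _ _ (by decide), setv_v_ne _ _ _ _ (by decide)] at h1
    have hrep1 : Rep p s1 (s1.v .cnt) (s.v .x) (p.y (s.v .x)) (t + 1) := by
      refine h1.rep hrep (fun D hD => ?_) (fun D hD => ?_) le_rfl
      · rw [addp_zero]
        exact valid_C hD (minPt_of_good hg hq hw hlt)
      · rw [addp_zero]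
        exact (card_addp _ _).trans (by omega)
    obtain ⟨hn1, hm1⟩ := h1.same.nfr h
    rw [run_blk_cons, run_asg, run_blk_one]
    simp only [Expr.eval_var]
    set s2 := s1.setv .T (s1.v .cnt) with hs2
    have hsame2 : Same s1 s2 := by
      refine ⟨ext_congr (by rw [hs2, setv_v_ne _ _ _ _ (by decide)]) (fun B _ _ => rfl), ?_, ?_⟩
      · intro x _ hx _ _ _ _ _
        rw [hs2, setv_v_ne _ _ _ _ hx]
      · intro B _ _ _ _ _ _
        rfl
    obtain ⟨hn2, hm2⟩ := hsame2.nfr hn1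
    have hT : s2.v .T = s1.v .cnt := by rw [hs2, setv_v_same]
    have hrep2 : Rep p s2 (s2.v .T) (s.v .x) (p.y (s.v .x)) (t + 1) := by
      rw [hT]
      exact hrep1.ext hsame2.ext
    refine (Insert_spec hn2 hrep2).addFrame.mono ?_
    rintro s3 ⟨hF, hn3, hm3, hc3, hk3, hb3⟩
    have hv2 : ∀ x, x ≠ .cnt → x ≠ .T → s2.v x = s.v x := by
      intro x h1' h2'
      rw [hs2, setv_v_ne _ _ _ _ h2', h1.v x h1']
    have hvF : ∀ x, x ≠ .an → x ≠ .bn → x ≠ .nb → s3.v x = s2.v x := by
      intro x h1' h2' h3'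
      refine hF.v x ?_
      simp only [cInsert, Cmd.wv, blk, List.mem_append, List.mem_singleton, List.not_mem_nil,
        List.append_nil, List.nil_append]
      tauto
    have hmF : ∀ B, B ≠ .best → s3.m B = s2.m B := by
      intro B h1'
      refine hF.m B ?_
      simp only [cInsert, Cmd.wm, blk, List.mem_append, List.mem_singleton, List.not_mem_nil,
        List.append_nil, List.nil_append]
      tauto
    have hcnt3 : s3.v .cnt = s2.v .cnt := hvF .cnt (by decide) (by decide) (by decide)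
    have hext3 : Ext s2 s3 := ext_congr hcnt3 (fun B hB _ => hmF B hB)
    refine ⟨hn3, (h1.ext.trans hsame2.ext).trans hext3, ?_, ?_, ?_, ?_, ?_, ?_⟩
    · intro X' Y' hc
      exact hm3 _ _ (hm2 _ _ (hm1 _ _ hc))
    · intro x h1' h2' h3' h4' h5'
      rw [hvF x h3' h4' h5', hv2 x h1' h2']
    · intro B h1' h2' h3' h4' h5' h6'
      rw [hmF B h1', hs2, setv_m, h1.m B h2' h3' h4' h5' h6']
    · intro x hx
      rw [hb3 x (by rw [hv2 .a (by decide) (by decide)]; exact hx), hs2, setv_m,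
        h1.m .best (by decide) (by decide) (by decide) (by decide) (by decide)]
    · intro _
      exact hc3
    · rw [hk3, hs2, setv_k, h1.k]
  · intro hlt
    rw [run_skip]
    exact ⟨h, Ext.refl s, fun _ _ hc => hc, fun _ _ _ _ _ _ => rfl, fun _ _ _ _ _ _ _ => rfl,
      fun _ _ => rfl, fun hc => absurd hc hlt, rfl⟩

/-- effect of the move of cost 2 -/
structure B2 (p : PData) (t : ℕ) (s s' : S) : Prop where
  nfr : NFr p s' t
  ext : Ext s s'
  mono : ∀ X Y, CovN p s X Y → CovN p s' X Y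
  v : ∀ x, x ≠ .cnt → x ≠ .mm → x ≠ .qc → s'.v x = s.v x
  m : ∀ B, B ≠ .SX → B ≠ .SY → B ≠ .par → B ≠ .p1 → B ≠ .p2 → B ≠ .DQ → s'.m B = s.m B
  P : s.m .ay (s.v .x - 1) < s.v .cur →
    QCov s' (s.v .qc) (s'.v .qc) (p.r (s.m .ay (s.v .x - 1))) (p.u (s.v .x))
  qle : s.v .qc ≤ s'.v .qc
  q1 : s'.v .qc ≤ s.v .qc + 1
  dq : ∀ z, z < s.v .qc → s'.m .DQ z = s.m .DQ z
  new : QRep p s' (s.v .qc) (s'.v .qc) (t + 2)
  k : s'.k = s.k

theorem st2_spec {s : S} {t : ℕ} (h : NFr p s t) (hcur : CurOk p s t)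
    (hq : p.MinPt (s.v .a) (s.v .b) (s.v .x)) (hxn : s.v .x ≤ p.n)
    (hay : p.IsMinY (s.v .b) (s.v .a) (s.v .x - 1) (s.m .ay (s.v .x - 1))) :
    Run p.n cSt2 s (fun s' => B2 p t s s') := by
  rw [cSt2, run_ite]
  simp only [Expr.eval_arr, Expr.eval_var, Expr.eval_pred]
  constructor
  · intro hlt
    rcases hcur with hcur | ⟨w, X, Y, hw, hrep, hg⟩
    · omega
    set m := s.m .ay (s.v .x - 1) with hm
    have hmn : m ≤ p.n := by
      rcases hg.hh.2 with h1 | h1
      · omega
      · omega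
    rw [run_blk_cons, run_asg]
    simp only [Expr.eval_arr, Expr.eval_var, Expr.eval_pred]
    rw [← hm]
    set s1 := s.setv .mm m with hs1
    have hv1 : ∀ x, x ≠ .mm → s1.v x = s.v x := fun x hx => by rw [hs1, setv_v_ne _ _ _ _ hx]
    have hmm1 : s1.v .mm = m := by rw [hs1, setv_v_same]
    have hm1 : s1.m = s.m := rfl
    have hsame1 : Same s s1 := by
      refine ⟨ext_congr (hv1 .cnt (by decide)) (fun B _ _ => rfl), ?_, fun B _ _ _ _ _ _ => rfl⟩
      intro x _ _ hx _ _ _ _
      exact hv1 x hx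
    obtain ⟨hn1, hc1⟩ := hsame1.nfr h
    rw [run_blk_cons]
    refine (new_spec' _ _ _ _ _ (by rfl)).mono fun s2 h2 => ?_
    simp only [Expr.eval_var, Expr.eval_arr, Expr.eval_zero, setv_m] at h2
    have e1 : ∀ x, x ≠ .cnt → (s1.setv .cnt (s1.v .cnt + 1)).v x = s1.v x :=
      fun x hx => setv_v_ne s1 _ _ _ hx
    rw [e1 .mm (by decide), e1 .x (by decide), e1 .cid (by decide), hmm1, hv1 .x (by decide),
      hv1 .cid (by decide), hm1, h.stat.xx, h.stat.r m hmn, h.stat.u _ hxn] at h2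
    have hrep1 : Rep p s1 (s.v .cid) X Y t := hrep.ext hsame1.ext
    have hrep2 : Rep p s2 (s2.v .cnt) (p.r m) (p.u (s.v .x)) (t + 2) := by
      refine h2.rep hrep1 (fun D hD => ?_) (fun D hD => ?_) (by omega)
      · exact valid_P hD hg hq hw hay hlt
      · have h3 := card_addp (p.xx (p.u (s.v .x))) (addp (p.r m) D)
        have h4 := card_addp (p.r m) D
        omega
    obtain ⟨hn2, hc2⟩ := h2.same.nfr hn1
    rw [run_blk_one, cPush, run_blk_cons, run_sto, run_blk_one, run_asg]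
    simp only [Expr.eval_var, Expr.eval_succ, setm_v]
    set s3 := (s2.setm .DQ (s2.v .qc) (s2.v .cnt)).setv .qc (s2.v .qc + 1) with hs3
    have hv3 : ∀ x, x ≠ .qc → s3.v x = s2.v x := fun x hx => by
      rw [hs3, setv_v_ne _ _ _ _ hx, setm_v]
    have hm3 : ∀ B, B ≠ .DQ → s3.m B = s2.m B := fun B hB => by
      rw [hs3, setv_m, setm_m_ne _ _ _ _ _ hB]
    have hD3 : s3.m .DQ = Function.update (s2.m .DQ) (s2.v .qc) (s2.v .cnt) := by
      rw [hs3, setv_m, setm_m_same]
    have hq3 : s3.v .qc = s2.v .qc + 1 := by rw [hs3, setv_v_same]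
    have hv2 : ∀ x, x ≠ .cnt → x ≠ .mm → s2.v x = s.v x := fun x h1' h2' => by
      rw [h2.v x h1', hv1 x h2']
    have hqc2 : s2.v .qc = s.v .qc := hv2 .qc (by decide) (by decide)
    have hsame3 : Same s2 s3 := by
      refine ⟨ext_congr (hv3 .cnt (by decide)) (fun B _ hB => hm3 B hB), ?_, ?_⟩
      · intro x _ _ _ hx _ _ _
        exact hv3 x hx
      · intro B _ _ _ _ _ hB
        exact hm3 B hB
    obtain ⟨hn3, hc3⟩ := hsame3.nfr hn2
    have hrep3 : Rep p s3 (s2.v .cnt) (p.r m) (p.u (s.v .x)) (t + 2) := hrep2.ext hsame3.ext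
    have hDq : s3.m .DQ (s.v .qc) = s2.v .cnt := by
      rw [hD3, hqc2, Function.update_self]
    refine ⟨hn3, (hsame1.ext.trans h2.ext).trans hsame3.ext, ?_, ?_, ?_, ?_, ?_, ?_, ?_, ?_, ?_⟩
    · intro X' Y' hc
      exact hc3 _ _ (hc2 _ _ (hc1 _ _ hc))
    · intro x h1' h2' h3'
      rw [hv3 x h3', hv2 x h1' h2']
    · intro B h1' h2' h3' h4' h5' h6'
      rw [hm3 B h6', h2.m B h1' h2' h3' h4' h5', hm1]
    · intro _
      refine ⟨s.v .qc, le_rfl, by rw [hq3, hqc2]; omega, ?_, ?_⟩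
      · rw [hDq, hrep3.sx]
      · rw [hDq, hrep3.sy]
    · rw [hq3, hqc2]; omega
    · rw [hq3, hqc2]
    · intro z hz
      rw [hD3, hqc2, Function.update_of_ne (by omega),
        h2.m .DQ (by decide) (by decide) (by decide) (by decide) (by decide), hm1]
    · intro z hz1 hz2
      rw [hq3, hqc2] at hz2
      have hzq : z = s.v .qc := by omega
      rw [hzq, hDq, hrep3.sx, hrep3.sy]
      exact hrep3
    · rw [hs3, setv_k, setm_k, h2.k, hs1, setv_k]
  · intro hlt
    rw [run_skip]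
    exact ⟨h, Ext.refl s, fun _ _ hc => hc, fun _ _ _ _ => rfl, fun _ _ _ _ _ _ _ => rfl,
      fun hc => absurd hc hlt, le_rfl, Nat.le_succ _, fun _ _ => rfl,
      fun z h1 h2 => absurd h2 (by omega), rfl⟩

/-- both moves at a minimal point -/
def cSt : C := .ite (vr .b) (at' .y (vr .x))
      (.ite (at' .y (vr .x)) (at' .ay (.pred (vr .x))) (blk [cSt1, cSt2]) .skip) .skip

/-- effect of both moves -/
structure B3 (p : PData) (t : ℕ) (s s' : S) : Prop where
  nfr : NFr p s' t
  ext : Ext s s'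
  mono : ∀ X Y, CovN p s X Y → CovN p s' X Y
  v : ∀ x, x ≠ .cnt → x ≠ .T → x ≠ .an → x ≠ .bn → x ≠ .nb → x ≠ .mm → x ≠ .qc →
    s'.v x = s.v x
  m : ∀ B, B ≠ .best → B ≠ .SX → B ≠ .SY → B ≠ .par → B ≠ .p1 → B ≠ .p2 → B ≠ .DQ →
    s'.m B = s.m B
  best : ∀ x, x ≤ s.v .a → s'.m .best x = s.m .best x
  C : p.MinPt (s.v .a) (s.v .b) (s.v .x) → p.y (s.v .x) < s.v .cur →
    CovN p s' (s.v .x) (p.y (s.v .x))
  P : p.MinPt (s.v .a) (s.v .b) (s.v .x) → s.m .ay (s.v .x - 1) < s.v .cur →
    QCov s' (s.v .qc) (s'.v .qc) (p.r (s.m .ay (s.v .x - 1))) (p.u (s.v .x))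
  qle : s.v .qc ≤ s'.v .qc
  q1 : s'.v .qc ≤ s.v .qc + 1
  dq : ∀ z, z < s.v .qc → s'.m .DQ z = s.m .DQ z
  new : QRep p s' (s.v .qc) (s'.v .qc) (t + 2)
  k : s'.k = s.k

theorem minPt_iff {a b x m : ℕ} (hax : a < x) (hxn : x ≤ p.n) (hm : p.IsMinY b a (x - 1) m) :
    p.MinPt a b x ↔ b < p.y x ∧ p.y x < m := by
  constructor
  · rintro ⟨h1, h2, h3, h4⟩
    refine ⟨h3, ?_⟩
    rcases hm.2 with h5 | ⟨h5, h6, h7, h8⟩
    · have := p.y_le x
      omega
    · have h9 := h4 (p.xx m) (by omega) (by omega)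
      rw [p.y_xx m (by omega) h6] at h9
      exact h9 h5
  · rintro ⟨h1, h2⟩
    exact ⟨hax, hxn, h1, fun x' h3 h4 h5 => h2.trans_le (hm.1 x' h3 (by omega) h5)⟩

theorem st_spec {s : S} {t : ℕ} (h : NFr p s t) (hcur : CurOk p s t)
    (hax : s.v .a < s.v .x) (hxn : s.v .x ≤ p.n)
    (hay : p.IsMinY (s.v .b) (s.v .a) (s.v .x - 1) (s.m .ay (s.v .x - 1))) :
    Run p.n cSt s (fun s' => B3 p t s s') := by
  have hiff := minPt_iff hax hxn hay
  have hy : s.m .y = p.y := h.stat.y
  have hskip : ¬ p.MinPt (s.v .a) (s.v .b) (s.v .x) → B3 p t s s := fun hno =>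
    ⟨h, Ext.refl s, fun _ _ hc => hc, fun _ _ _ _ _ _ _ _ => rfl, fun _ _ _ _ _ _ _ _ => rfl,
      fun _ _ => rfl, fun hc => absurd hc hno, fun hc => absurd hc hno, le_rfl, Nat.le_succ _,
      fun _ _ => rfl, fun z h1 h2 => absurd h2 (by omega), rfl⟩
  rw [cSt, run_ite]
  simp only [Expr.eval_arr, Expr.eval_var, Expr.eval_pred]
  rw [hy]
  constructor
  · intro h1
    rw [run_ite]
    simp only [Expr.eval_arr, Expr.eval_var, Expr.eval_pred]
    rw [hy]
    constructor
    · intro h2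
      have hq := hiff.2 ⟨h1, h2⟩
      rw [run_blk_cons]
      refine (st1_spec h hcur hq).mono fun s1 h3 => ?_
      rw [run_blk_one]
      have hx1 : s1.v .x = s.v .x := h3.v .x (by decide) (by decide) (by decide) (by decide)
        (by decide)
      have ha1 : s1.v .a = s.v .a := h3.v .a (by decide) (by decide) (by decide) (by decide)
        (by decide)
      have hb1 : s1.v .b = s.v .b := h3.v .b (by decide) (by decide) (by decide) (by decide)
        (by decide)
      have hc1 : s1.v .cur = s.v .cur := h3.v .cur (by decide) (by decide) (by decide) (by decide)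
        (by decide)
      have hi1 : s1.v .cid = s.v .cid := h3.v .cid (by decide) (by decide) (by decide) (by decide)
        (by decide)
      have hq1 : s1.v .qc = s.v .qc := h3.v .qc (by decide) (by decide) (by decide) (by decide)
        (by decide)
      have hay1 : s1.m .ay = s.m .ay := h3.m .ay (by decide) (by decide) (by decide) (by decide)
        (by decide) (by decide)
      have hD1 : s1.m .DQ = s.m .DQ := h3.m .DQ (by decide) (by decide) (by decide) (by decide)
        (by decide) (by decide)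
      have hcur1 : CurOk p s1 t := by
        rcases hcur with hcur | ⟨w, X, Y, hw, hrep, hg⟩
        · left; rw [hc1]; exact hcur
        · right
          exact ⟨w, X, Y, by rw [hx1]; exact hw, by rw [hi1]; exact hrep.ext h3.ext,
            by rw [ha1, hb1, hc1]; exact hg⟩
      refine (st2_spec h3.nfr hcur1 (by rw [ha1, hb1, hx1]; exact hq) (by rw [hx1]; exact hxn)
        (by rw [ha1, hb1, hx1, hay1]; exact hay)).mono fun s2 h4 => ?_
      refine ⟨h4.nfr, h3.ext.trans h4.ext, fun _ _ hc => h4.mono _ _ (h3.mono _ _ hc), ?_, ?_, ?_,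
        ?_, ?_, ?_, ?_, ?_, ?_, ?_⟩
      · intro x a1 a2 a3 a4 a5 a6 a7
        rw [h4.v x a1 a6 a7, h3.v x a1 a2 a3 a4 a5]
      · intro B a0 a1 a2 a3 a4 a5 a6
        rw [h4.m B a1 a2 a3 a4 a5 a6, h3.m B a0 a1 a2 a3 a4 a5]
      · intro x hx
        rw [h4.m .best (by decide) (by decide) (by decide) (by decide) (by decide) (by decide),
          h3.best x hx]
      · intro _ hlt
        exact h4.mono _ _ (h3.C hlt)
      · intro _ hlt
        have := h4.P (by rw [hx1, hay1, hc1]; exact hlt)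
        rw [hx1, hay1, hq1] at this
        exact this
      · have := h4.qle
        rw [hq1] at this
        exact this
      · have := h4.q1
        rw [hq1] at this
        exact this
      · intro z hz
        rw [h4.dq z (by rw [hq1]; exact hz), hD1]
      · have := h4.new
        rw [hq1] at this
        exact this
      · rw [h4.k, h3.k]
    · intro h2
      rw [run_skip]
      exact hskip fun hq => h2 (hiff.1 hq).2
  · intro h1
    rw [run_skip]
    exact hskip fun hq => h1 (hiff.1 hq).1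

/-- the loop invariant -/
structure StI (p : PData) (t : ℕ) (s₀ s : S) : Prop where
  nfr : NFr p s t
  ext : Ext s₀ s
  mono : ∀ X Y, CovN p s₀ X Y → CovN p s X Y
  va : s.v .a = s₀.v .a
  vb : s.v .b = s₀.v .b
  hb : s.m .hb = s₀.m .hb
  hbid : s.m .hbid = s₀.m .hbid
  ay : s.m .ay = s₀.m .ay
  xa : s₀.v .a ≤ s.v .x
  xE : s.v .x ≤ s₀.v .Ex
  cur : CurOk p s t
  max : ∀ w, s.v .x < w → (w ≤ s₀.v .Ex ∨ w = p.n + 1) → s₀.m .hb w ≤ s.v .cur
  C : ∀ q w, p.MinPt (s₀.v .a) (s₀.v .b) q → s.v .x < q → q ≤ s₀.v .Ex → q < w →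
    (w ≤ s₀.v .Ex ∨ w = p.n + 1) → p.y q < s₀.m .hb w → CovN p s q (p.y q)
  P : ∀ q w m, p.MinPt (s₀.v .a) (s₀.v .b) q → s.v .x < q → q ≤ s₀.v .Ex → q < w →
    (w ≤ s₀.v .Ex ∨ w = p.n + 1) → p.IsMinY (s₀.v .b) (s₀.v .a) (q - 1) m → m < s₀.m .hb w →
    QCov s (s₀.v .qc) (s.v .qc) (p.r m) (p.u q)
  best : ∀ x, x ≤ s₀.v .a → s.m .best x = s₀.m .best x
  qle : s₀.v .qc ≤ s.v .qc
  dq : ∀ z, z < s₀.v .qc → s.m .DQ z = s₀.m .DQ z
  new : QRep p s (s₀.v .qc) (s.v .qc) (t + 2)
  cost : s.k + (s.v .qc - s₀.v .qc) ≤ s₀.k + 2 * (s₀.v .Ex - s.v .x)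

theorem Stair_step {s₀ s : S} {t : ℕ} (hE : s₀.v .Ex ≤ p.n)
    (hay : ∀ x, s₀.v .a ≤ x → x ≤ s₀.v .Ex → p.IsMinY (s₀.v .b) (s₀.v .a) x (s₀.m .ay x))
    (hbs : HbSound p s₀ t) (I : StI p t s₀ s) (hlt : s.v .a < s.v .x) :
    Run p.n (blk [cSt, .ite (vr .cur) (at' .hb (vr .x)) (blk [
      .asg .cur (at' .hb (vr .x)),
      .asg .cid (at' .hbid (vr .x))]) .skip,
    .asg .x (.pred (vr .x))]) s
      (fun s' => StI p t s₀ s'.tick ∧ s'.tick.v .x < s.v .x) := by
  have hxE := I.xE
  have hay' : p.IsMinY (s.v .b) (s.v .a) (s.v .x - 1) (s.m .ay (s.v .x - 1)) := by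
    rw [I.va, I.vb, I.ay]
    exact hay _ (by have := I.va; omega) (by omega)
  rw [run_blk_cons]
  refine (st_spec I.nfr I.cur hlt (by omega) hay').mono fun s1 h1 => ?_
  have hx1 : s1.v .x = s.v .x := h1.v .x (by decide) (by decide) (by decide) (by decide)
    (by decide) (by decide) (by decide)
  have ha1 : s1.v .a = s₀.v .a := by
    rw [h1.v .a (by decide) (by decide) (by decide) (by decide) (by decide) (by decide)
      (by decide), I.va]
  have hb1 : s1.v .b = s₀.v .b := by
    rw [h1.v .b (by decide) (by decide) (by decide) (by decide) (by decide) (by decide)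
      (by decide), I.vb]
  have hc1 : s1.v .cur = s.v .cur := h1.v .cur (by decide) (by decide) (by decide) (by decide)
    (by decide) (by decide) (by decide)
  have hi1 : s1.v .cid = s.v .cid := h1.v .cid (by decide) (by decide) (by decide) (by decide)
    (by decide) (by decide) (by decide)
  have hhb1 : s1.m .hb = s₀.m .hb := by
    rw [h1.m .hb (by decide) (by decide) (by decide) (by decide) (by decide) (by decide)
      (by decide), I.hb]
  have hhbid1 : s1.m .hbid = s₀.m .hbid := by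
    rw [h1.m .hbid (by decide) (by decide) (by decide) (by decide) (by decide) (by decide)
      (by decide), I.hbid]
  have hay1 : s1.m .ay = s₀.m .ay := by
    rw [h1.m .ay (by decide) (by decide) (by decide) (by decide) (by decide) (by decide)
      (by decide), I.ay]
  have hext1 : Ext s₀ s1 := I.ext.trans h1.ext
  -- the state after the update of `cur`
  have key : ∀ s2 : S, (∀ x, x ≠ .cur → x ≠ .cid → s2.v x = s1.v x) → s2.m = s1.m → s2.k = s1.k →
      (s2.v .cur = 0 ∨ ∃ w X Y, s.v .x ≤ w ∧ Rep p s1 (s2.v .cid) X Y t ∧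
        p.GoodSt (s₀.v .a) (s₀.v .b) X Y (s2.v .cur) w) →
      s.v .cur ≤ s2.v .cur → s₀.m .hb (s.v .x) ≤ s2.v .cur →
      Run p.n (blk [.asg .x (.pred (vr .x))]) s2
        (fun s' => StI p t s₀ s'.tick ∧ s'.tick.v .x < s.v .x) := by
    intro s2 hv2 hm2 hk2 hcur2 hge hge2
    rw [run_blk_one, run_asg]
    simp only [Expr.eval_pred, Expr.eval_var]
    have hx2 : s2.v .x = s.v .x := by rw [hv2 .x (by decide) (by decide), hx1]
    rw [hx2]
    set s3 := s2.setv .x (s.v .x - 1) with hs3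
    have hv3 : ∀ x, x ≠ .cur → x ≠ .cid → x ≠ .x → s3.tick.v x = s1.v x := by
      intro x a1 a2 a3
      rw [tick_v, hs3, setv_v_ne _ _ _ _ a3, hv2 x a1 a2]
    have hcur3 : s3.tick.v .cur = s2.v .cur := by
      rw [tick_v, hs3, setv_v_ne _ _ _ _ (by decide)]
    have hcid3 : s3.tick.v .cid = s2.v .cid := by
      rw [tick_v, hs3, setv_v_ne _ _ _ _ (by decide)]
    have hx3 : s3.tick.v .x = s.v .x - 1 := by rw [tick_v, hs3, setv_v_same]
    have hm3 : s3.tick.m = s1.m := by rw [tick_m, hs3, setv_m, hm2]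
    have hsame : Same s1 s3.tick := by
      refine ⟨ext_congr (hv3 .cnt (by decide) (by decide) (by decide))
        (fun B _ _ => by rw [hm3]), ?_, ?_⟩
      · intro x _ _ _ _ a1 a2 a3
        exact hv3 x a1 a2 a3
      · intro B _ _ _ _ _ _
        rw [hm3]
    obtain ⟨hn3, hc3⟩ := hsame.nfr h1.nfr
    have ha3 : s3.tick.v .a = s₀.v .a := by
      rw [hv3 .a (by decide) (by decide) (by decide), ha1]
    have hb3 : s3.tick.v .b = s₀.v .b := by
      rw [hv3 .b (by decide) (by decide) (by decide), hb1]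
    have hq3 : s3.tick.v .qc = s1.v .qc := hv3 .qc (by decide) (by decide) (by decide)
    have hqmono : ∀ X Y, QCov s (s₀.v .qc) (s.v .qc) X Y →
        QCov s3.tick (s₀.v .qc) (s3.tick.v .qc) X Y := by
      rintro X Y ⟨z, a1, a2, a3, a4⟩
      have h5 : s1.m .DQ z = s.m .DQ z := h1.dq z a2
      have h6 := (I.new z a1 a2).le
      refine ⟨z, a1, by rw [hq3]; exact a2.trans_le h1.qle, ?_, ?_⟩
      · rw [hm3, h5, h1.ext.SX _ h6]; exact a3
      · rw [hm3, h5, h1.ext.SY _ h6]; exact a4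
    have hxa := I.va
    refine ⟨⟨hn3, hext1.trans hsame.ext, fun _ _ hc => hc3 _ _ (h1.mono _ _ (I.mono _ _ hc)),
      ha3, hb3, by rw [hm3]; exact hhb1, by rw [hm3]; exact hhbid1, by rw [hm3]; exact hay1,
      by rw [hx3]; omega, by rw [hx3]; omega, ?_, ?_, ?_, ?_, ?_, ?_, ?_, ?_, ?_⟩,
      by rw [hx3]; omega⟩
    · rcases hcur2 with h5 | ⟨w, X, Y, h5, h6, h7⟩
      · left; rw [hcur3]; exact h5
      · right
        exact ⟨w, X, Y, by rw [hx3]; omega, by rw [hcid3]; exact h6.ext hsame.ext,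
          by rw [ha3, hb3, hcur3]; exact h7⟩
    · intro w hw1 hw2
      rw [hx3] at hw1
      rw [hcur3]
      rcases Nat.lt_or_ge (s.v .x) w with h5 | h5
      · exact (I.max w h5 hw2).trans hge
      · have : w = s.v .x := by omega
        rw [this]; exact hge2
    · intro q w hq hq1 hq2 hqw hw hlt'
      rw [hx3] at hq1
      rcases Nat.lt_or_ge (s.v .x) q with h5 | h5
      · exact hc3 _ _ (h1.mono _ _ (I.C q w hq h5 hq2 hqw hw hlt'))
      · have hqx : q = s.v .x := by omega
        have h6 := h1.C (by rw [I.va, I.vb, ← hqx]; exact hq)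
          (by rw [← hqx]; exact hlt'.trans_le (I.max w (by omega) hw))
        rw [hqx]
        exact hc3 _ _ h6
    · intro q w m hq hq1 hq2 hqw hw hm hlt'
      rw [hx3] at hq1
      rcases Nat.lt_or_ge (s.v .x) q with h5 | h5
      · exact hqmono _ _ (I.P q w m hq h5 hq2 hqw hw hm hlt')
      · have hqx : q = s.v .x := by omega
        have hmm : s.m .ay (s.v .x - 1) = m := by
          refine isMinY_unique hay' ?_
          rw [I.va, I.vb, ← hqx]; exact hm
        have h6 := h1.P (by rw [I.va, I.vb, ← hqx]; exact hq)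
          (by rw [hmm]; exact hlt'.trans_le (I.max w (by omega) hw))
        rw [hmm, ← hqx] at h6
        obtain ⟨z, a1, a2, a3, a4⟩ := h6
        refine ⟨z, I.qle.trans a1, by rw [hq3]; exact a2, ?_, ?_⟩
        · rw [hm3]; exact a3
        · rw [hm3]; exact a4
    · intro x hx
      rw [hm3, h1.best x (by rw [I.va]; exact hx), I.best x hx]
    · rw [hq3]; exact I.qle.trans h1.qle
    · intro z hz
      rw [hm3, h1.dq z (hz.trans_le I.qle), I.dq z hz]
    · intro z hz1 hz2
      rw [hq3] at hz2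
      have hR : Rep p s1 (s1.m .DQ z) (s1.m .SX (s1.m .DQ z)) (s1.m .SY (s1.m .DQ z)) (t + 2) := by
        rcases Nat.lt_or_ge z (s.v .qc) with h5 | h5
        · have h6 := I.new z hz1 h5
          rw [h1.dq z h5, h1.ext.SX _ h6.le, h1.ext.SY _ h6.le]
          exact h6.ext h1.ext
        · exact h1.new z h5 hz2
      rw [hm3]
      exact hR.ext hsame.ext
    · rw [hq3, hx3, tick_k, hs3, setv_k, hk2, h1.k]
      have h5 := h1.q1
      have h6 := I.cost
      have h7 := h1.qle
      have h8 := I.qle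
      omega
  rw [run_blk_cons, run_ite]
  simp only [Expr.eval_arr, Expr.eval_var]
  rw [hc1, hhb1, hx1]
  have hcurOld : s.v .cur = 0 ∨ ∃ w X Y, s.v .x ≤ w ∧ Rep p s1 (s.v .cid) X Y t ∧
      p.GoodSt (s₀.v .a) (s₀.v .b) X Y (s.v .cur) w := by
    rcases I.cur with h5 | ⟨w, X, Y, h5, h6, h7⟩
    · exact Or.inl h5
    · right
      refine ⟨w, X, Y, h5.le, h6.ext h1.ext, ?_⟩
      rw [I.va, I.vb] at h7
      exact h7
  constructor
  · intro hc
    rw [run_blk_cons, run_asg]
    simp only [Expr.eval_arr, Expr.eval_var]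
    rw [hhb1, hx1, run_blk_one, run_asg]
    simp only [Expr.eval_arr, Expr.eval_var]
    rw [setv_m, hhbid1, setv_v_ne _ _ _ _ (by decide), hx1]
    refine key _ ?_ rfl rfl ?_ ?_ ?_
    · intro x a1 a2
      rw [setv_v_ne _ _ _ _ a2, setv_v_ne _ _ _ _ a1]
    · right
      obtain ⟨X, Y, h5, h6⟩ := hbs (s.v .x) (by have := I.va; omega) (by omega)
      refine ⟨s.v .x, X, Y, le_rfl, ?_, ?_⟩
      · rw [setv_v_same]; exact h5.ext hext1
      · rw [setv_v_ne _ _ _ _ (by decide), setv_v_same]; exact h6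
    · rw [setv_v_ne _ _ _ _ (by decide), setv_v_same]; exact hc.le
    · rw [setv_v_ne _ _ _ _ (by decide), setv_v_same]
  · intro hc
    rw [run_skip]
    refine key _ (fun _ _ _ => rfl) rfl rfl ?_ ?_ ?_
    · rw [hc1, hi1]; exact hcurOld
    · rw [hc1]
    · rw [hc1]; omega

theorem Stair_spec {s : S} {t : ℕ} (h : NFr p s t) (hr : p.r (s.v .b) ≤ s.v .Ex)
    (hE : s.v .Ex ≤ p.n)
    (hay : ∀ x, s.v .a ≤ x → x ≤ s.v .Ex → p.IsMinY (s.v .b) (s.v .a) x (s.m .ay x))
    (hbs : HbSound p s t) :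
    Run p.n cStair s (fun s' => StairPost p s s' t) := by
  have hN1 : s.v .N1 = p.n + 1 := h.stat.N1
  rw [cStair, run_blk_cons, run_asg]
  simp only [Expr.eval_arr, Expr.eval_var]
  rw [run_blk_cons, run_asg]
  simp only [Expr.eval_arr, Expr.eval_var]
  rw [run_blk_cons, run_asg]
  simp only [Expr.eval_arr, Expr.eval_var]
  rw [run_blk_one]
  rw [setv_m, setv_v_ne _ _ _ _ (by decide : (Var.N1 : Var) ≠ .cur), hN1]
  set s1 := ((s.setv .cur (s.m .hb (p.n + 1))).setv .cid (s.m .hbid (p.n + 1))) with hs1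
  have hExv : s1.v .Ex = s.v .Ex := by
    rw [hs1, setv_v_ne _ _ _ _ (by decide), setv_v_ne _ _ _ _ (by decide)]
  rw [hExv]
  set s2 := s1.setv .x (s.v .Ex) with hs2
  have hv2 : ∀ x, x ≠ .cur → x ≠ .cid → x ≠ .x → s2.v x = s.v x := by
    intro x a1 a2 a3
    rw [hs2, setv_v_ne _ _ _ _ a3, hs1, setv_v_ne _ _ _ _ a2, setv_v_ne _ _ _ _ a1]
  have hm2 : s2.m = s.m := rfl
  have hk2 : s2.k = s.k := rfl
  have hx2 : s2.v .x = s.v .Ex := by rw [hs2, setv_v_same]
  have hcur2 : s2.v .cur = s.m .hb (p.n + 1) := by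
    rw [hs2, setv_v_ne _ _ _ _ (by decide), hs1, setv_v_ne _ _ _ _ (by decide), setv_v_same]
  have hcid2 : s2.v .cid = s.m .hbid (p.n + 1) := by
    rw [hs2, setv_v_ne _ _ _ _ (by decide), hs1, setv_v_same]
  have ha2 : s2.v .a = s.v .a := hv2 .a (by decide) (by decide) (by decide)
  have hb2 : s2.v .b = s.v .b := hv2 .b (by decide) (by decide) (by decide)
  have hq2 : s2.v .qc = s.v .qc := hv2 .qc (by decide) (by decide) (by decide)
  have hsame : Same s s2 := by
    refine ⟨ext_congr (hv2 .cnt (by decide) (by decide) (by decide)) (fun B _ _ => by rw [hm2]),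
      ?_, fun B _ _ _ _ _ _ => by rw [hm2]⟩
    intro x _ _ _ _ a1 a2 a3
    exact hv2 x a1 a2 a3
  obtain ⟨hn2, hc2⟩ := hsame.nfr h
  -- `a ≤ Ex`
  by_cases haE : s.v .a ≤ s.v .Ex
  · have hI : StI p t s s2 := by
      refine ⟨hn2, hsame.ext, hc2, ha2, hb2, by rw [hm2], by rw [hm2], by rw [hm2],
        by rw [hx2]; exact haE, by rw [hx2], ?_, ?_, ?_, ?_, fun _ _ => by rw [hm2],
        by rw [hq2], fun _ _ => by rw [hm2], ?_, ?_⟩
      · by_cases h0 : s.m .hb (p.n + 1) = 0
        · left; rw [hcur2]; exact h0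
        · right
          obtain ⟨X, Y, h5, h6⟩ := hbs (p.n + 1) (by have := h.a_le; omega) h0
          exact ⟨p.n + 1, X, Y, by rw [hx2]; omega, by rw [hcid2]; exact h5.ext hsame.ext,
            by rw [ha2, hb2, hcur2]; exact h6⟩
      · intro w hw1 hw2
        rw [hx2] at hw1
        rw [hcur2]
        rcases hw2 with h5 | h5
        · omega
        · rw [h5]
      · intro q w _ h1 h2
        rw [hx2] at h1
        omega
      · intro q w m _ h1 h2
        rw [hx2] at h1
        omega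
      · intro z h1 h2
        rw [hq2] at h2
        omega
      · rw [hq2, hk2, hx2]
        omega
    refine run_whl (fun s' => StI p t s s') (fun s' => s'.v .x) hI ?_ ?_
    · intro s' _ I hlt
      simp only [Expr.eval_var] at hlt
      exact Stair_step hE hay hbs I hlt
    · intro s' _ I hlt
      simp only [Expr.eval_var] at hlt
      have hxe : s'.v .x = s.v .a := by
        have := I.xa
        have := I.va
        omega
      refine ⟨I.nfr, I.ext, I.mono, ?_, ?_, I.best, I.qle, I.dq, I.new, ?_⟩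
      · intro q w hq hq2 hqw hw hlt'
        exact I.C q w hq (by rw [hxe]; exact hq.1) hq2 hqw hw hlt'
      · intro q w m hq hq2 hqw hw hm hlt'
        exact I.P q w m hq (by rw [hxe]; exact hq.1) hq2 hqw hw hm hlt'
      · have := I.cost
        rw [hxe] at this
        exact this
  · refine run_whl (fun s' => s' = s2) (fun _ => 0) rfl ?_ ?_
    · intro s' _ hs' hlt
      simp only [Expr.eval_var] at hlt
      rw [hs', ha2, hx2] at hlt
      omega
    · intro s' _ hs' _
      rw [hs']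
      refine ⟨hn2, hsame.ext, hc2, ?_, ?_, fun _ _ => by rw [hm2], by rw [hq2],
        fun _ _ => by rw [hm2], ?_, ?_⟩
      · intro q w hq hq2'
        have := hq.1
        omega
      · intro q w m hq hq2'
        have := hq.1
        omega
      · intro z h1 h2
        rw [hq2] at h2
        omega
      · rw [hq2, hk2]
        omega

end stair

end Pool.Agent.PD
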