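import Pool.Agent.PD.Inv
import Pool.Agent.PD.Scan
import Pool.Agent.PD.Stair
import Pool.Agent.PD.LOW
import Pool.Agent.PD.RAM
import Pool.Agent.PD.REC
import Pool.Agent.PD.Init
import Pool.Agent.PD.Dom

/-! One level of the algorithm. -/

namespace Pool.Agent.PD

open PData

section
variable {p : PData} {s s' : S}

theorem Ext.of_eq (h0 : s'.v .cnt = s.v .cnt) (h1 : s'.m .SX = s.m .SX) (h2 : s'.m .SY = s.m .SY)
    (h3 : s'.m .par = s.m .par) (h4 : s'.m .p1 = s.m .p1) (h5 : s'.m .p2 = s.m .p2) :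
    Ext s s' :=
  ⟨h0.ge, fun i _ => by rw [h1], fun i _ => by rw [h2], fun i _ => by rw [h3],
    fun i _ => by rw [h4], fun i _ => by rw [h5]⟩

theorem Static.of_eq (h : Static p s) (hn : s'.v .n = s.v .n) (hN : s'.v .N1 = s.v .N1)
    (hy : s'.m .y = s.m .y) (hx : s'.m .xx = s.m .xx) (hu : s'.m .u = s.m .u)
    (hr : s'.m .r = s.m .r) (hsm : s'.m .sm = s.m .sm) (ho : s'.m .out = s.m .out)
    (hS : s'.m .SY 0 = s.m .SY 0) : Static p s' :=
  ⟨by rw [hn, h.n], by rw [hN, h.N1], by rw [hy, h.y], by rw [hx, h.xx],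
    by rw [hu]; exact h.u, by rw [hr]; exact h.r, by rw [hsm]; exact h.sm, by rw [ho, h.out],
    by rw [hS, h.SY0]⟩

theorem QRep.ext {q₁ q₂ c : ℕ} (h : QRep p s q₁ q₂ c) (he : Ext s s')
    (hd : ∀ z, q₁ ≤ z → z < q₂ → s'.m .DQ z = s.m .DQ z) : QRep p s' q₁ q₂ c := by
  intro z h1 h2
  have h3 := h z h1 h2
  have h4 := h3.ext he
  rw [hd z h1 h2]
  have e1 := he.SX _ h3.le
  have e2 := he.SY _ h3.le
  rw [e1, e2]
  exact h4

theorem QCov.ext {q₁ q₂ X Y c : ℕ} (h : QCov s q₁ q₂ X Y) (hr : QRep p s q₁ q₂ c) (he : Ext s s')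
    (hd : ∀ z, q₁ ≤ z → z < q₂ → s'.m .DQ z = s.m .DQ z) : QCov s' q₁ q₂ X Y := by
  obtain ⟨z, h1, h2, h3, h4⟩ := h
  have h5 := hr z h1 h2
  refine ⟨z, h1, h2, ?_, ?_⟩
  · rw [hd z h1 h2, he.SX _ h5.le]; exact h3
  · rw [hd z h1 h2, he.SY _ h5.le]; exact h4

theorem LInv.of_eq {t : ℕ} (h : LInv p s t)
    (hv : ∀ x, x ≠ .v → x ≠ .x → x ≠ .Ex → s'.v x = s.v x)
    (hm : ∀ B, B ≠ .W → B ≠ .ax → B ≠ .ay → s'.m B = s.m B) : LInv p s' t := by
  have e1 : s'.v .a = s.v .a := hv _ (by decide) (by decide) (by decide)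
  have e2 : s'.v .b = s.v .b := hv _ (by decide) (by decide) (by decide)
  have e3 : s'.v .a1 = s.v .a1 := hv _ (by decide) (by decide) (by decide)
  have e4 : s'.v .b1 = s.v .b1 := hv _ (by decide) (by decide) (by decide)
  have e5 : s'.v .qa = s.v .qa := hv _ (by decide) (by decide) (by decide)
  have e6 : s'.v .qb = s.v .qb := hv _ (by decide) (by decide) (by decide)
  have e7 : s'.v .qc = s.v .qc := hv _ (by decide) (by decide) (by decide)
  have e8 : s'.v .bId = s.v .bId := hv _ (by decide) (by decide) (by decide)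
  have f1 : s'.m .best = s.m .best := hm _ (by decide) (by decide) (by decide)
  have f2 : s'.m .SY = s.m .SY := hm _ (by decide) (by decide) (by decide)
  have f3 : s'.m .DQ = s.m .DQ := hm _ (by decide) (by decide) (by decide)
  have f4 : s'.m .hb = s.m .hb := hm _ (by decide) (by decide) (by decide)
  have f5 : s'.m .SX = s.m .SX := hm _ (by decide) (by decide) (by decide)
  have he : Ext s s' := Ext.of_eq (hv _ (by decide) (by decide) (by decide)) f5 f2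
    (hm _ (by decide) (by decide) (by decide)) (hm _ (by decide) (by decide) (by decide))
    (hm _ (by decide) (by decide) (by decide))
  have hS : Static p s' := h.stat.of_eq
    (hv _ (by decide) (by decide) (by decide)) (hv _ (by decide) (by decide) (by decide))
    (hm _ (by decide) (by decide) (by decide)) (hm _ (by decide) (by decide) (by decide))
    (hm _ (by decide) (by decide) (by decide)) (hm _ (by decide) (by decide) (by decide))
    (hm _ (by decide) (by decide) (by decide)) (hm _ (by decide) (by decide) (by decide))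
    (by rw [f2])
  refine ⟨hS, ?_, ?_, ?_, ?_, ?_, ?_, ?_, ?_, ?_, ?_, ?_, ?_, ?_, ?_, ?_, h.low⟩
  · rw [e1]; exact h.a_le
  · rw [e2]; exact h.b_le
  · rw [e1, e3]; exact h.a1_le
  · rw [e2, e4]; exact h.b1_le
  · rw [e1]; exact h.t_le
  · rw [e1, f1]; exact h.cln
  · rw [e1, f4]; exact h.hbcln
  · rw [e1, e2, e3, e4, f1, f2]
    intro x h1 h2 h3
    obtain ⟨h4, h5, h6⟩ := h.fr x h1 h2 h3
    exact ⟨h4.ext he, h5, h6⟩
  · rw [e1, f1]; exact h.ba
  · rw [e1, e2, e8]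
    obtain ⟨X, h1, h2⟩ := h.bid
    exact ⟨X, h1, h2.ext he⟩
  · intro X Y hD
    obtain ⟨x, h1, h2, h3, h4, h5⟩ := h.cov X Y hD
    exact ⟨x, by rw [e3]; exact h1, by rw [e1]; exact h2, by rw [f1]; exact h3, h4,
      by rw [f1, f2]; exact h5⟩
  · rw [e5, e6]; exact h.qle
  · rw [e6, e7]; exact h.qbc
  · rw [e5, e6]; exact h.que.ext he (fun z _ _ => by rw [f3])
  · rw [e1, e2, e5, e6]
    intro t' ht' X Y hP
    rcases h.qcov t' ht' X Y hP with h1 | h1 | h1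
    · exact Or.inl h1
    · exact Or.inr (Or.inl h1)
    · exact Or.inr (Or.inr (h1.ext h.que he (fun z _ _ => by rw [f3])))

/-- the maxima of the frontier -/
theorem LInv.a_le_r {t : ℕ} (h : LInv p s t) : s.v .a ≤ p.r (s.v .b) := by
  obtain ⟨h1, _, h2⟩ := h.fr _ h.a1_le le_rfl h.ba
  obtain ⟨D, l, _, _, _, hv⟩ := h1.has
  exact hv.xr.trans (p.r_mono h2)

theorem LInv.b_le_u {t : ℕ} (h : LInv p s t) : s.v .b ≤ p.u (s.v .a) := by
  obtain ⟨X, hX, h1⟩ := h.bid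
  obtain ⟨D, l, _, _, _, hv⟩ := h1.has
  exact hv.yu.trans (p.u_mono hX)

theorem CovN.mono_XY {X Y X' Y' : ℕ} (h : CovN p s X Y) (hX : X' ≤ X) (hY : Y' ≤ Y) :
    CovN p s X' Y' := by
  rcases h with ⟨h1, h2⟩ | ⟨x, h1, h2, h3, h4, h5⟩
  · exact Or.inl ⟨hX.trans h1, hY.trans h2⟩
  · exact Or.inr ⟨x, h1, h2, h3, hX.trans h4, hY.trans h5⟩

/-- facts about a level after the scan over the frontier, gathered for the next level -/
structure Gath (p : PData) (s s' : S) (t : ℕ) : Prop where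
  /-- `s` is the state at the beginning of the level -/
  inv : LInv p s t
  nd : ∀ x, s.v .a1 ≤ x → x ≤ s.v .a → s.m .best x ≠ 0 → s.m .SY (s.m .best x) < p.sm x
  hbc : ∀ x, s.v .a1 ≤ x → x ≤ s.v .a → s.m .best x ≠ 0 → ∀ h w,
    p.GoodSt (s.v .a) (s.v .b) x (s.m .SY (s.m .best x)) h w → h ≤ s'.m .hb w
  Er : p.r (s.v .b) ≤ s'.v .Ex
  min : ∀ q, p.MinPt (s.v .a) (s.v .b) q → p.y q < s'.m .hb (p.n + 1) → q ≤ s'.v .Ex
  R : CovN p s' (p.r (s.v .b)) (s.v .b)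
  sa : s'.v .a = s.v .a
  C : ∀ q w, p.MinPt (s.v .a) (s.v .b) q → q ≤ s'.v .Ex → q < w →
    (w ≤ s'.v .Ex ∨ w = p.n + 1) → p.y q < s'.m .hb w → CovN p s' q (p.y q)
  Q : ∀ X Y, QCov s (s.v .qa) (s.v .qb) X Y → CovN p s' X Y
  D1 : ∀ x, s.v .a1 ≤ x → x ≤ s.v .a → s.m .best x ≠ 0 → ∀ h w,
    p.GoodSt (s.v .a) (s.v .b) x (s.m .SY (s.m .best x)) h w → h ≤ p.n → ∀ m, m ≤ p.n →
    p.IsMinX (s.v .a) (s.m .SY (s.m .best x)) (h - 1) m →
    QCov s' (s.v .qb) (s'.v .qc) (p.r h) (p.u m)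
  D2 : ∀ x, s.v .a1 ≤ x → x ≤ s.v .a → s.m .best x ≠ 0 → ∀ h w,
    p.GoodSt (s.v .a) (s.v .b) x (s.m .SY (s.m .best x)) h w → w ≤ p.n → ∀ m, m ≤ p.n →
    p.IsMinY (s.v .b) x (w - 1) m →
    QCov s' (s.v .qb) (s'.v .qc) (p.r m) (p.u w)
  P : ∀ q w m, p.MinPt (s.v .a) (s.v .b) q → q ≤ s'.v .Ex → q < w →
    (w ≤ s'.v .Ex ∨ w = p.n + 1) → p.IsMinY (s.v .b) (s.v .a) (q - 1) m → m < s'.m .hb w →
    QCov s' (s.v .qb) (s'.v .qc) (p.r m) (p.u q)

/-- in a good state, `w` is `n + 1` or at most `r b` -/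
theorem GoodSt_w {a b X Y h w : ℕ} (hg : p.GoodSt a b X Y h w) : w ≤ p.r b ∨ w = p.n + 1 := by
  rcases hg.ww.2 with h1 | ⟨h1, h2, h3, h4⟩
  · exact Or.inr h1
  · exact Or.inl (p.le_r (by omega) h2 h4)

theorem Gath.cov1 {t : ℕ} (g : Gath p s s' t) : ∀ T X Y, p.Dom T X Y → T = t + 1 →
    CovN p s' X Y := by
  have hr := g.inv.a_le_r
  have hu := g.inv.b_le_u
  intro T X Y hD
  induction hD with
  | zero => intro h; omega
  | mono _ h1 h2 ih => intro h; exact (ih h).mono_XY h1 h2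
  | @succ T X Y hD _ =>
    intro h
    have hT : T = t := by omega
    subst hT
    obtain ⟨x, h1, h2, h3, h4, h5⟩ := g.inv.cov _ _ hD
    have := (g.inv.fr x h1 h2 h3).2.2
    refine Or.inl ⟨?_, ?_⟩
    · rw [g.sa]; omega
    · rw [g.sa]; omega
  | @moveR T X Y hD _ =>
    intro h
    have hT : T = t := by omega
    subst hT
    obtain ⟨x, h1, h2, h3, h4, h5⟩ := g.inv.cov _ _ hD
    have := (g.inv.fr x h1 h2 h3).2.2
    exact g.R.mono_XY (p.r_mono (by omega)) (by omega)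
  | @moveU T X Y hD _ =>
    intro h
    have hT : T = t := by omega
    subst hT
    obtain ⟨x, h1, h2, h3, h4, h5⟩ := g.inv.cov _ _ hD
    refine Or.inl ⟨?_, ?_⟩
    · rw [g.sa]; omega
    · rw [g.sa]; exact p.u_mono (by omega)
  | @moveC T X Y q hD hq _ =>
    intro h
    have hT : T = t := by omega
    subst hT
    obtain ⟨x, h1, h2, h3, h4, h5⟩ := g.inv.cov _ _ hD
    have h6 := (g.inv.fr x h1 h2 h3).2.2
    obtain ⟨q1, q2, q3, q4⟩ := hq
    by_cases hqa : q ≤ s.v .a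
    · refine Or.inl ⟨by rw [g.sa]; exact hqa, ?_⟩
      rw [g.sa]; exact p.y_le_u hqa
    by_cases hqb : p.y q ≤ s.v .b
    · exact g.R.mono_XY (p.le_r (by omega) q2 hqb) hqb
    push Not at hqa hqb
    have hq' : p.MinPt x (s.m .SY (s.m .best x)) q :=
      ⟨by omega, q2, by omega, fun x' hx' hx'' hy' => q4 x' (by omega) hx'' (by omega)⟩
    obtain ⟨g1, g2, g3⟩ := math_C h2 h6 hq' hqa hqb
    obtain ⟨hh, hhh⟩ := exists_isMinY p (s.v .b) x (s.v .a)
    obtain ⟨w, hw⟩ := exists_isMinX p (s.v .a) (s.m .SY (s.m .best x)) (s.v .b)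
    have hg : p.GoodSt (s.v .a) (s.v .b) x (s.m .SY (s.m .best x)) hh w :=
      ⟨h2, h6, g1, hhh, hw⟩
    obtain ⟨g4, g5⟩ := g3 hh w hg
    have g6 := g.hbc x h1 h2 h3 hh w hg
    have hEr := g.Er
    have hwE : w ≤ s'.v .Ex ∨ w = p.n + 1 := by
      rcases GoodSt_w hg with h7 | h7
      · left; omega
      · right; exact h7
    have hqE : q ≤ s'.v .Ex := by
      rcases hwE with h7 | h7
      · omega
      · subst h7
        exact g.min q g2 (by omega)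
    exact g.C q w g2 hqE g5 hwE (by omega)
  | @moveP T X Y x₁ x₂ hD hp _ =>
    intro h
    have hP : p.Pair T x₂ (p.y x₁) := ⟨X, Y, x₁, x₂, hD, hp, rfl, rfl⟩
    rcases g.inv.qcov T (by omega) _ _ hP with h1 | h1 | h1
    · exact Or.inl (by rw [g.sa]; exact h1)
    · exact g.R.mono_XY h1.1 h1.2
    · exact g.Q _ _ h1

/-- the frontier moves to the right -/
theorem Gath.strict {t : ℕ} (g : Gath p s s' t) (hn : NFr p s' t) (hb : s'.v .b = s.v .b) :
    s.v .a < s'.v .an := by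
  have hr := g.inv.a_le_r
  have h1 := hn.an_r
  rw [hb] at h1
  by_contra hcon
  have hra : p.r (s.v .b) = s.v .a := by omega
  have h2 := g.nd _ g.inv.a1_le le_rfl g.inv.ba
  -- all points to the right of `a` are above `b`
  have h3 : ∀ x, s.v .a < x → x ≤ p.n → s.v .b < p.y x := by
    intro x hx hxn
    by_contra hc
    have := p.le_r (by omega) hxn (not_lt.1 hc)
    omega
  have h4 : s.v .a < p.n := by
    by_contra hc
    have : s.v .a = p.n := le_antisymm g.inv.a_le (not_lt.1 hc)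
    rw [this, p.sm_n] at h2
    omega
  have hq : p.MinPt (s.v .a) (s.v .b) (s.v .a + 1) :=
    ⟨by omega, by omega, h3 _ (by omega) (by omega), fun x hx hx' _ => by omega⟩
  have hf := (g.inv.fr _ g.inv.a1_le le_rfl g.inv.ba).2.2
  have hg : p.GoodSt (s.v .a) (s.v .b) (s.v .a) (s.m .SY (s.m .best (s.v .a))) (p.n + 1)
      (p.n + 1) := by
    refine ⟨le_rfl, hf, fun x hx hx' _ => by omega, ⟨fun x hx hx' _ => by omega, Or.inl rfl⟩,
      ⟨fun x hx hx' _ hy => ?_, Or.inl rfl⟩⟩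
    have := h3 x hx hx'
    omega
  have h5 := g.hbc _ g.inv.a1_le le_rfl g.inv.ba _ _ hg
  have h6 := p.y_le (s.v .a + 1)
  have h7 := g.min _ hq (by omega)
  rcases g.C _ (p.n + 1) hq h7 (by omega) (Or.inr rfl) (by omega) with h8 | ⟨x, h8, h9, h10, h11, _⟩
  · rw [g.sa] at h8; omega
  · have := (hn.new x h8 h10).2.2.2
    omega

theorem QCov.mono_XY {q₁ q₂ X Y X' Y' : ℕ} (h : QCov s q₁ q₂ X Y) (hX : X' ≤ X) (hY : Y' ≤ Y) :
    QCov s q₁ q₂ X' Y' := by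
  obtain ⟨z, h1, h2, h3, h4⟩ := h
  exact ⟨z, h1, h2, hX.trans h3, hY.trans h4⟩

theorem QCov.mono_q {q₁ q₂ q₁' q₂' X Y : ℕ} (h : QCov s q₁ q₂ X Y) (h1 : q₁' ≤ q₁)
    (h2 : q₂ ≤ q₂') : QCov s q₁' q₂' X Y := by
  obtain ⟨z, h3, h4, h5, h6⟩ := h
  exact ⟨z, by omega, by omega, h5, h6⟩

/-- the results of the moves of cost 2 are covered two levels later -/
theorem Gath.cov2 {t : ℕ} (g : Gath p s s' t) (hn : NFr p s' t) (hb : s'.v .b = s.v .b) :
    ∀ X Y, p.Pair t X Y → (X ≤ s'.v .an ∧ Y ≤ p.u (s'.v .an)) ∨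
      (X ≤ p.r (s'.v .bn) ∧ Y ≤ s'.v .bn) ∨ QCov s' (s.v .qb) (s'.v .qc) X Y := by
  rintro X Y ⟨X₀, Y₀, x₁, x₂, hD, hp, hX, hY⟩
  rw [hX, hY]
  have hr := g.inv.a_le_r
  have hu := g.inv.b_le_u
  have hn1 := hn.an_r
  have hn2 := hn.bn_u
  rw [hb] at hn1
  rw [g.sa] at hn2
  obtain ⟨x, h1, h2, h3, h4, h5⟩ := g.inv.cov _ _ hD
  have h6 := (g.inv.fr x h1 h2 h3).2.2
  obtain ⟨p1, p2, p3, p4, p5, p6⟩ := hp
  by_cases hy : p.y x₁ ≤ p.u (s.v .a)
  · right; left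
    exact ⟨p.le_r (by omega) p3 (by omega), by omega⟩
  by_cases hx : x₂ ≤ p.r (s.v .b)
  · left
    exact ⟨by omega, p.y_le_u (by omega)⟩
  push Not at hy hx
  have hx1 : s.v .a < x₁ := by
    by_contra hc
    have := p.y_le_u (not_lt.1 hc)
    omega
  have hy2 : s.v .b < p.y x₂ := by
    by_contra hc
    have := p.le_r (by omega) p3 (not_lt.1 hc)
    omega
  have hp' : p.PairPt x (s.m .SY (s.m .best x)) x₁ x₂ :=
    ⟨by omega, p2, p3, by omega, p5, fun x' hx' hx'' hy' => p6 x' (by omega) hx'' (by omega)⟩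
  obtain ⟨g1, g2⟩ := math_P h2 h6 hp' hy hx
  obtain ⟨hh, hhh⟩ := exists_isMinY p (s.v .b) x (s.v .a)
  obtain ⟨w, hw⟩ := exists_isMinX p (s.v .a) (s.m .SY (s.m .best x)) (s.v .b)
  have hg : p.GoodSt (s.v .a) (s.v .b) x (s.m .SY (s.m .best x)) hh w :=
    ⟨h2, h6, g1, hhh, hw⟩
  right; right
  rcases g2 hh w hg with ⟨c1, m, c2, c3, c4, c5⟩ | ⟨c1, m, c2, c3, c4, c5⟩ |
    ⟨q, m, c1, c2, c3, c4, c5, c6, c7⟩
  · exact (g.D1 x h1 h2 h3 hh w hg c1 m c2 c3).mono_XY c4 c5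
  · exact (g.D2 x h1 h2 h3 hh w hg c1 m c2 c3).mono_XY c4 c5
  · have g6 := g.hbc x h1 h2 h3 hh w hg
    have hEr := g.Er
    have hwE : w ≤ s'.v .Ex ∨ w = p.n + 1 := by
      rcases GoodSt_w hg with h7 | h7
      · left; omega
      · right; exact h7
    have hqE : q ≤ s'.v .Ex := by
      rcases hwE with h7 | h7
      · omega
      · subst h7
        exact g.min q c1 (by omega)
    exact (g.P q w m c1 hqE c2 hwE c4 (by omega)).mono_XY c6 c7

/-- a dominating set with `t` points would have been found -/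
theorem LInv.low_succ {t : ℕ} (h : LInv p s t)
    (nd : ∀ x, s.v .a1 ≤ x → x ≤ s.v .a → s.m .best x ≠ 0 → s.m .SY (s.m .best x) < p.sm x) :
    ∀ D, p.Dominating D → t + 1 ≤ D.card := by
  intro D hD
  have h1 := h.low D hD
  rcases Nat.lt_or_ge t D.card with h2 | h2
  · exact h2
  exfalso
  have h3 : D.card = t := le_antisymm h2 h1
  have h4 := dom_of_closed p D hD.1 (fun x hx => absurd hx (hD.2 x))
  rw [h3] at h4
  obtain ⟨x, h5, h6, h7, h8, h9⟩ := h.cov _ _ h4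
  have h10 := nd x h5 h6 h7
  have h11 : ¬ p.sm x ≤ s.m .SY (s.m .best x) := by omega
  rw [p.sm_le_iff] at h11
  push Not at h11
  obtain ⟨q, q1, q2, q3⟩ := h11
  refine hD.2 q ⟨by omega, q2, fun d hd => Or.inr ⟨?_, ?_⟩⟩
  · have : d ≤ D.sup id := Finset.le_sup (f := id) hd
    omega
  · have : p.y d ≤ D.sup p.y := Finset.le_sup (f := p.y) hd
    omega

end

end Pool.Agent.PD
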