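import Pool.Agent.PD.Level

/-! Assembly of one level. -/

namespace Pool.Agent.PD

open PData

section
variable {p : PData} {s s' : S}

theorem CovN.of_eq {X Y : ℕ} (h : CovN p s X Y) (ha : s'.v .a = s.v .a)
    (hb : s'.m .best = s.m .best) (hS : ∀ x, s.v .a < x → s.m .best x ≠ 0 →
      s'.m .SY (s.m .best x) = s.m .SY (s.m .best x)) : CovN p s' X Y := by
  rcases h with h1 | ⟨x, h1, h2, h3, h4, h5⟩
  · exact Or.inl (by rw [ha]; exact h1)
  · exact Or.inr ⟨x, by rw [ha]; exact h1, h2, by rw [hb]; exact h3, h4, by rw [hb, hS x h1 h3]; exact h5⟩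

theorem NFr.cov_an {t X Y : ℕ} (hn : NFr p s t) (h : CovN p s X Y) (hX : s.v .a < X) :
    X ≤ s.v .an ∧ Y ≤ s.v .bn := by
  rcases h with h1 | ⟨x, h1, h2, h3, h4, h5⟩
  · omega
  · obtain ⟨_, _, h6, h7⟩ := hn.new x h1 h3
    exact ⟨by omega, by omega⟩

/-- the new level: the last commands -/
theorem next_LInv {t : ℕ} (g : Gath p s s' t) (hn : NFr p s' t)
    (hb : s'.v .b = s.v .b) (hqa : s'.v .qa = s.v .qb)
    (hqc : s.v .qb ≤ s'.v .qc)
    (hhb : ∀ x, p.r (s.v .b) < x → x ≠ p.n + 1 → s'.m .hb x = 0)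
    (hq : QRep p s' (s.v .qb) (s'.v .qc) (t + 2)) {s'' : S}
    (hEx : s''.v .a1 = s'.v .a ∧ s''.v .b1 = s'.v .b ∧ s''.v .a = s'.v .an ∧
      s''.v .b = s'.v .bn ∧ s''.v .bId = s'.v .nb ∧ s''.v .qb = s'.v .qc ∧
      s''.v .qc = s'.v .qc ∧ s''.v .qa = s'.v .qa ∧ s''.v .cnt = s'.v .cnt ∧
      s''.v .n = s'.v .n ∧ s''.v .N1 = s'.v .N1)
    (hm : ∀ B, B ≠ .hb → B ≠ .best → s''.m B = s'.m B)
    (hmb : s''.m .best = Function.update (s'.m .best) (s'.v .a) (s'.v .U))
    (hmh : s''.m .hb = Function.update (s'.m .hb) (p.n + 1) 0) : LInv p s'' (t + 1) := by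
  obtain ⟨ea1, eb1, ea, eb, ebid, eqb, eqc, eqa, ecnt, en, eN⟩ := hEx
  have f1 : s''.m .SX = s'.m .SX := hm _ (by decide) (by decide)
  have f2 : s''.m .SY = s'.m .SY := hm _ (by decide) (by decide)
  have f3 : s''.m .DQ = s'.m .DQ := hm _ (by decide) (by decide)
  have he : Ext s' s'' := Ext.of_eq ecnt f1 f2 (hm _ (by decide) (by decide))
    (hm _ (by decide) (by decide)) (hm _ (by decide) (by decide))
  have hS : Static p s'' := hn.stat.of_eq en eN (hm _ (by decide) (by decide))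
    (hm _ (by decide) (by decide)) (hm _ (by decide) (by decide)) (hm _ (by decide) (by decide))
    (hm _ (by decide) (by decide)) (hm _ (by decide) (by decide)) (by rw [f2])
  have hst := g.strict hn hb
  have hsa := g.sa
  have hU0 : s'.v .U ≠ 0 := by have := hn.U.pos; omega
  -- coverage
  have hcv : ∀ X Y, CovN p s' X Y → Cov s'' X Y := by
    intro X Y hc
    rcases hc with ⟨h1, h2⟩ | ⟨x, h1, h2, h3, h4, h5⟩
    · refine ⟨s'.v .a, by rw [ea1], by rw [ea]; exact hn.an_ge, ?_, h1, ?_⟩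
      · rw [hmb, Function.update_self]; exact hU0
      · rw [hmb, Function.update_self, f2, hn.U.sy]; exact h2
    · have hxa : x ≠ s'.v .a := by omega
      refine ⟨x, by rw [ea1]; omega, by rw [ea]; exact (hn.new x h1 h3).2.2.2, ?_, h4, ?_⟩
      · rw [hmb, Function.update_of_ne hxa]; exact h3
      · rw [hmb, Function.update_of_ne hxa, f2]; exact h5
  refine ⟨hS, ?_, ?_, ?_, ?_, ?_, ?_, ?_, ?_, ?_, ?_, ?_, ?_, ?_, ?_, ?_, g.inv.low_succ g.nd⟩
  · rw [ea]; exact hn.an_le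
  · rw [eb]; exact hn.bn_le
  · rw [ea, ea1]; exact hn.an_ge
  · rw [eb, eb1]; exact hn.bn_b
  · rw [ea]; have := g.inv.t_le; omega
  · intro x hx
    rw [ea] at hx
    have h1 := hn.an_ge
    rw [hmb, Function.update_of_ne (by omega)]
    by_contra hc
    have := (hn.new x (by omega) hc).2.2.2
    omega
  · intro x hx
    rw [ea] at hx
    rw [hmh]
    by_cases hx1 : x = p.n + 1
    · rw [hx1, Function.update_self]
    · rw [Function.update_of_ne hx1]
      have := hn.an_r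
      rw [hb] at this
      exact hhb x (by omega) hx1
  · intro x h1 h2 h3
    rw [ea1] at h1
    rw [ea] at h2
    rw [eb1, eb, f2]
    by_cases hx : x = s'.v .a
    · subst hx
      rw [hmb, Function.update_self]
      refine ⟨?_, ?_, ?_⟩
      · rw [hn.U.sy]; exact hn.U.ext he
      · rw [hn.U.sy, hb, hsa]; exact g.inv.b_le_u
      · rw [hn.U.sy]; exact hn.bn_u
    · rw [hmb, Function.update_of_ne hx] at h3 ⊢
      obtain ⟨h4, h5, h6, _⟩ := hn.new x (by omega) h3
      exact ⟨h4.ext he, h5, h6⟩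
  · rw [ea, hmb]
    rcases hn.an_at with h1 | h1
    · rw [h1, Function.update_self]; exact hU0
    · by_cases h2 : s'.v .an = s'.v .a
      · rw [h2, Function.update_self]; exact hU0
      · rw [Function.update_of_ne h2]; exact h1
  · obtain ⟨X, h1, h2⟩ := hn.nb
    exact ⟨X, by rw [ea]; exact h1, by rw [ebid, eb]; exact h2.ext he⟩
  · intro X Y hD
    exact hcv X Y (g.cov1 _ X Y hD rfl)
  · rw [eqa, eqb, hqa]; exact hqc
  · rw [eqc, eqb]
  · rw [eqa, eqb, hqa]
    exact hq.ext he (fun z _ _ => by rw [f3])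
  · rw [ea, eb, eqa, eqb, hqa]
    intro t' ht' X Y hP
    have : t' = t := by omega
    subst this
    rcases g.cov2 hn hb X Y hP with h1 | h1 | h1
    · exact Or.inl h1
    · exact Or.inr (Or.inl h1)
    · exact Or.inr (Or.inr (h1.ext hq he (fun z _ _ => by rw [f3])))

end

end Pool.Agent.PD
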