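import Pool.Agent.PD.Level2

/-! Assembly of one level: the program. -/

namespace Pool.Agent.PD

open PData

section
variable {p : PData} {s s' : S}

theorem HbStrong.sound {t : ℕ} (h : HbStrong p s)
    (hfr : ∀ x, s.v .a1 ≤ x → x ≤ s.v .a → s.m .best x ≠ 0 →
      Rep p s (s.m .best x) x (s.m .SY (s.m .best x)) t) : HbSound p s t := by
  intro w hw hw0
  obtain ⟨x, h1, h2, h3, h4, h5⟩ := h w hw hw0
  exact ⟨x, _, by rw [h4]; exact hfr x h1 h2 h3, h5⟩

/-- the second half of a level -/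
theorem half_spec {t : ℕ} {s0 : S} (h0 : LInv p s0 t) (hw : WA p s0) (hsc : ScanPost p s0 s t)
    (hfr : Frame cScan s0 s) (hd : s.v .don = 0) :
    Run p.n (blk [cLow, cUR2, cQueue, cStair, cNext]) s (fun s' =>
      s'.v .don = 0 ∧ LInv p s'.tick (t + 1) ∧ s0.v .a < s'.v .a ∧
      s'.k + (s'.v .qb - s'.v .qa) + (p.r (s0.v .b) - s0.v .a) + (p.u (s0.v .a) - s0.v .b) ≤
        s.k + (s.v .qc - s0.v .qb) + (s0.v .qb - s0.v .qa) +
        2 * (s'.v .b - s0.v .b) + 3 * (s'.v .a - s0.v .a) ∧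
      s'.v .a1 = s0.v .a ∧ s'.v .b1 = s0.v .b ∧ s0.v .b ≤ s'.v .b) := by
  have hr := h0.a_le_r
  have hu := h0.b_le_u
  have sa : s.v .a = s0.v .a := hfr.v _ (by decide)
  have sb : s.v .b = s0.v .b := hfr.v _ (by decide)
  have sa1 : s.v .a1 = s0.v .a1 := hfr.v _ (by decide)
  have sb1 : s.v .b1 = s0.v .b1 := hfr.v _ (by decide)
  have sqa : s.v .qa = s0.v .qa := hfr.v _ (by decide)
  have sqb : s.v .qb = s0.v .qb := hfr.v _ (by decide)
  have sbId : s.v .bId = s0.v .bId := hfr.v _ (by decide)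
  have sbest : s.m .best = s0.m .best := hfr.m _ (by decide)
  have say : s.m .ay = s0.m .ay := hfr.m _ (by decide)
  have hnd := hsc.don0 hd
  have hfr0 : ∀ x, s0.v .a1 ≤ x → x ≤ s0.v .a → s0.m .best x ≠ 0 →
      s.m .SY (s0.m .best x) = s0.m .SY (s0.m .best x) := fun x h1 h2 h3 =>
    hsc.ext.SY _ (h0.fr x h1 h2 h3).1.le
  have hbs : HbSound p s t := by
    refine hsc.hbs.sound (fun x h1 h2 h3 => ?_)
    rw [sbest] at h3 ⊢
    rw [sa1] at h1
    rw [sa] at h2
    rw [hfr0 x h1 h2 h3]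
    exact (h0.fr x h1 h2 h3).1.ext hsc.ext
  -- Low
  rw [run_blk_cons]
  have hH : s.m .hb (p.n + 1) ≤ p.u (s.v .a) ∨ ∃ q, s.v .a < q ∧ q ≤ p.n ∧ s.v .b < p.y q := by
    by_cases hz : s.m .hb (p.n + 1) = 0
    · left; omega
    obtain ⟨x, h1, h2, h3, h4, h5⟩ := hsc.hbs (p.n + 1) (by have := h0.a_le; omega) hz
    rcases h5.hh.2 with h6 | ⟨h6, h7, h8, h9⟩
    · right
      rw [sbest] at h3 h5
      rw [sa1] at h1
      rw [sa] at h2
      have h10 := hnd x h1 h2 h3
      have h11 : ¬ p.sm x ≤ s0.m .SY (s0.m .best x) := by omega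
      rw [p.sm_le_iff] at h11
      push Not at h11
      obtain ⟨q, q1, q2, q3⟩ := h11
      rw [hfr0 x h1 h2 h3] at h5
      have hqa : s.v .a < q := by
        by_contra hc
        by_cases hqb : p.y q ≤ s.v .b
        · have := h5.good q q1 (not_lt.1 hc) hqb
          omega
        · have := h5.hh.1 q q1 (not_lt.1 hc) (not_le.1 hqb)
          rw [h6] at this
          have := p.y_le q
          omega
      refine ⟨q, hqa, q2, ?_⟩
      by_contra hc
      have := h5.ww.1 q hqa q2 q3 (not_lt.1 hc)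
      omega
    · left
      have := p.y_le_u h9
      rwa [p.y_xx _ (by omega) h7] at this
  refine (Low_spec hsc.stat (by rw [sb]; exact h0.b_le) (by rw [sa, sb]; exact hr)
    (by rw [sa, sb, say]; exact hw.ay) (by rw [sa, sb]; exact hu) hH).addFrame.mono ?_
  rintro s5 ⟨f5, l5⟩
  -- UR2
  have ta : s5.v .a = s0.v .a := (f5.v _ (by decide)).trans sa
  have tb : s5.v .b = s0.v .b := (f5.v _ (by decide)).trans sb
  have tqa : s5.v .qa = s0.v .qa := (f5.v _ (by decide)).trans sqa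
  have tqb : s5.v .qb = s0.v .qb := (f5.v _ (by decide)).trans sqb
  have tqc : s5.v .qc = s.v .qc := f5.v _ (by decide)
  have tbId : s5.v .bId = s0.v .bId := (f5.v _ (by decide)).trans sbId
  have tbest : s5.m .best = s0.m .best := (f5.m _ (by decide)).trans sbest
  have thb : s5.m .hb = s.m .hb := f5.m _ (by decide)
  have thbid : s5.m .hbid = s.m .hbid := f5.m _ (by decide)
  have tSX : s5.m .SX = s.m .SX := f5.m _ (by decide)
  have tSY : s5.m .SY = s.m .SY := f5.m _ (by decide)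
  have tDQ : s5.m .DQ = s.m .DQ := f5.m _ (by decide)
  have e5 : Ext s s5 := Ext.of_eq (f5.v _ (by decide)) tSX tSY
    (f5.m _ (by decide)) (f5.m _ (by decide)) (f5.m _ (by decide))
  have e05 : Ext s0 s5 := hsc.ext.trans e5
  have st5 : Static p s5 := hsc.stat.of_eq (f5.v _ (by decide)) (f5.v _ (by decide))
    (f5.m _ (by decide)) (f5.m _ (by decide)) (f5.m _ (by decide)) (f5.m _ (by decide))
    (f5.m _ (by decide)) (f5.m _ (by decide)) (by rw [tSY])
  rw [run_blk_cons]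
  refine (UR2_spec (t := t) st5 (by rw [ta]; exact h0.a_le) (by rw [tb]; exact h0.b_le)
    (by rw [ta, tbest]; exact h0.cln)
    (by rw [ta, tbest]; exact ⟨_, (h0.fr _ h0.a1_le le_rfl h0.ba).1.ext e05⟩)
    (by rw [ta, tb, tbId]; obtain ⟨X, h1, h2⟩ := h0.bid; exact ⟨X, h1, h2.ext e05⟩)).addFrame.mono ?_
  rintro s6 ⟨f6, n6, e6, k6, b6⟩
  have ua : s6.v .a = s0.v .a := (f6.v _ (by decide)).trans ta
  have ub : s6.v .b = s0.v .b := (f6.v _ (by decide)).trans tb
  have uqa : s6.v .qa = s0.v .qa := (f6.v _ (by decide)).trans tqa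
  have uqb : s6.v .qb = s0.v .qb := (f6.v _ (by decide)).trans tqb
  have uqc : s6.v .qc = s.v .qc := (f6.v _ (by decide)).trans tqc
  have uEx : s6.v .Ex = s5.v .Ex := f6.v _ (by decide)
  have uhb : s6.m .hb = s.m .hb := (f6.m _ (by decide)).trans thb
  have uhbid : s6.m .hbid = s.m .hbid := (f6.m _ (by decide)).trans thbid
  have uay : s6.m .ay = s5.m .ay := f6.m _ (by decide)
  have uDQ : s6.m .DQ = s.m .DQ := (f6.m _ (by decide)).trans tDQ
  have e06 : Ext s0 s6 := e05.trans e6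
  have es6 : Ext s s6 := e5.trans e6
  -- Queue
  have hq6 : QRep p s6 (s6.v .qa) (s6.v .qb) (t + 1) := by
    rw [uqa, uqb]
    exact h0.que.ext e06 (fun z _ hz => by rw [uDQ, hsc.dq z hz])
  rw [run_blk_cons]
  refine (Queue_spec n6 (by rw [uqa, uqb]; exact h0.qle) hq6).addFrame.mono ?_
  rintro s7 ⟨f7, n7, m7, q7, k7, qa7, b7⟩
  have va : s7.v .a = s0.v .a := (f7.v _ (by decide)).trans ua
  have vb : s7.v .b = s0.v .b := (f7.v _ (by decide)).trans ub
  have vqb : s7.v .qb = s0.v .qb := (f7.v _ (by decide)).trans uqb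
  have vqc : s7.v .qc = s.v .qc := (f7.v _ (by decide)).trans uqc
  have vEx : s7.v .Ex = s5.v .Ex := (f7.v _ (by decide)).trans uEx
  have vhb : s7.m .hb = s.m .hb := (f7.m _ (by decide)).trans uhb
  have vhbid : s7.m .hbid = s.m .hbid := (f7.m _ (by decide)).trans uhbid
  have vay : s7.m .ay = s5.m .ay := (f7.m _ (by decide)).trans uay
  have vDQ : s7.m .DQ = s.m .DQ := (f7.m _ (by decide)).trans uDQ
  have vSX : s7.m .SX = s6.m .SX := f7.m _ (by decide)
  have vSY : s7.m .SY = s6.m .SY := f7.m _ (by decide)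
  have e7 : Ext s6 s7 := Ext.of_eq (f7.v _ (by decide)) vSX vSY
    (f7.m _ (by decide)) (f7.m _ (by decide)) (f7.m _ (by decide))
  have e07 : Ext s0 s7 := e06.trans e7
  have es7 : Ext s s7 := es6.trans e7
  have hbs7 : HbSound p s7 t := by
    intro w h1 h2
    rw [va] at h1 ⊢
    rw [vhb] at h2 ⊢
    rw [vhbid, vb]
    obtain ⟨X, Y, h3, h4⟩ := hbs w (by rw [sa]; exact h1) h2
    rw [sa, sb] at h4
    exact ⟨X, Y, h3.ext es7, h4⟩
  -- Stair
  rw [run_blk_cons]
  refine (Stair_spec n7 (by rw [vb, vEx, ← sb]; exact l5.Er) (by rw [vEx]; exact l5.En)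
    (by rw [va, vb, vay, vEx, ← sa, ← sb]; exact l5.ay) hbs7).addFrame.mono ?_
  rintro s8 ⟨f8, st8⟩
  have wa : s8.v .a = s0.v .a := (f8.v _ (by decide)).trans va
  have wb : s8.v .b = s0.v .b := (f8.v _ (by decide)).trans vb
  have wqa : s8.v .qa = s0.v .qb := (f8.v _ (by decide)).trans (qa7.trans uqb)
  have wqb : s8.v .qb = s0.v .qb := (f8.v _ (by decide)).trans vqb
  have wEx : s8.v .Ex = s5.v .Ex := (f8.v _ (by decide)).trans vEx
  have whb : s8.m .hb = s.m .hb := (f8.m _ (by decide)).trans vhb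
  have e08 : Ext s0 s8 := e07.trans st8.ext
  have es8 : Ext s s8 := es7.trans st8.ext
  have hqle := hsc.qle
  have hqle8 := st8.qle
  rw [vqc] at hqle8
  have hdq8 : ∀ z, z < s.v .qc → s8.m .DQ z = s.m .DQ z := by
    intro z hz
    rw [st8.dq z (by rw [vqc]; exact hz), vDQ]
  have hq8 : QRep p s8 (s0.v .qb) (s8.v .qc) (t + 2) := by
    intro z h1 h2
    rcases Nat.lt_or_ge z (s.v .qc) with h3 | h3
    · exact hsc.new.ext es8 (fun z' _ hz' => hdq8 z' hz') z h1 h3
    · exact st8.new z (by rw [vqc]; exact h3) h2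
  have hQ8 : ∀ X Y, QCov s (s0.v .qb) (s.v .qc) X Y → QCov s8 (s0.v .qb) (s8.v .qc) X Y := by
    intro X Y hc
    exact (hc.ext hsc.new es8 (fun z' _ hz' => hdq8 z' hz')).mono_q le_rfl hqle8
  have hEr : p.r (s0.v .b) ≤ s8.v .Ex := by rw [wEx, ← sb]; exact l5.Er
  have g : Gath p s0 s8 t := by
    refine ⟨h0, hnd, ?_, hEr, ?_, ?_, wa, ?_, ?_, ?_, ?_, ?_⟩
    · intro x h1 h2 h3 hh w hg
      rw [whb]
      refine hsc.hbc x (by rw [sa1]; exact h1) (by rw [sa]; exact h2) (by rw [sbest]; exact h3)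
        hh w ?_
      rw [sa, sb, sbest, hfr0 x h1 h2 h3]
      exact hg
    · rw [whb, wEx, ← sa, ← sb]; exact l5.min
    · have := st8.mono _ _ n7.R
      rwa [vb] at this
    · have := st8.C
      rw [va, vb, vEx, vhb] at this
      rw [wEx, whb]
      exact this
    · intro X Y hQ
      refine st8.mono _ _ (q7 X Y ?_)
      rw [uqa, uqb]
      exact hQ.ext h0.que e06 (fun z _ hz => by rw [uDQ, hsc.dq z hz])
    · intro x h1 h2 h3 hh w hg h4 m h5 h6
      exact hQ8 _ _ (hsc.D1 x h1 h2 h3 hh w hg h4 m h5 h6)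
    · intro x h1 h2 h3 hh w hg h4 m h5 h6
      exact hQ8 _ _ (hsc.D2 x h1 h2 h3 hh w hg h4 m h5 h6)
    · intro q w m h1 h2 h3 h4 h5 h6
      have := st8.P q w m (by rw [va, vb]; exact h1) (by rw [vEx, ← wEx]; exact h2) h3
        (by rw [vEx, ← wEx]; exact h4) (by rw [va, vb]; exact h5) (by rw [vhb, ← whb]; exact h6)
      rw [vqc] at this
      exact this.mono_q hqle le_rfl
  have hn8 := st8.nfr
  have hstr := g.strict hn8 wb
  -- bound for Ex and e
  have hcovpt : ∀ q, q ≤ s5.v .Ex → p.MinPt (s0.v .a) (s0.v .b) q → p.y q < s.m .hb (p.n + 1) →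
      q ≤ s8.v .an ∧ p.y q ≤ s8.v .bn := by
    intro q h1 h2 h3
    have h4 := g.C q (p.n + 1) h2 (by rw [wEx]; exact h1) (by have := h2.2.1; omega)
      (Or.inr rfl) (by rw [whb]; exact h3)
    exact hn8.cov_an h4 (by rw [wa]; exact h2.1)
  have hExan : s5.v .Ex ≤ s8.v .an := by
    rcases l5.Ex with h1 | ⟨h1, h2⟩
    · rw [h1, sb, ← wb]; exact hn8.an_r
    · rw [sa, sb] at h1
      exact (hcovpt _ le_rfl h1 h2).1
  obtain ⟨e, he1, he2, he3⟩ := l5.cost
  have hebn : e ≤ s8.v .bn := by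
    rcases he2 with h1 | ⟨q, h1, h2, h3, h4⟩
    · rw [sa, ← wa] at h1; exact h1.trans hn8.bn_u
    · rw [sa, sb] at h2
      rw [← h3] at h4 ⊢
      exact (hcovpt _ h1 h2 h4).2
  -- Next
  rw [run_blk_one, cNext]
  simp only [run_blk_cons, run_blk_one, run_asg, run_sto, Expr.eval_var, Expr.eval_zero]
  have hN1 : s8.v .N1 = p.n + 1 := hn8.stat.N1
  have hcost := st8.cost
  rw [vqc, vEx, va] at hcost
  rw [uqa, uqb] at k7
  rw [sb] at he1 he3
  have hbnu := hn8.bn_u
  rw [wa] at hbnu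
  have hEr' : p.r (s0.v .b) ≤ s5.v .Ex := by rw [← sb]; exact l5.Er
  have hdon : s8.v .don = 0 := by
    rw [f8.v _ (by decide), f7.v _ (by decide), f6.v _ (by decide), f5.v _ (by decide), hd]
  refine ⟨?_, ?_, ?_, ?_, ?_, ?_, ?_⟩
  · simpa using hdon
  · refine next_LInv g hn8 wb wqa (hqle.trans hqle8) ?_ hq8 ?_ ?_ ?_ ?_
    · intro x hx hx1
      rw [whb]
      by_contra hc
      obtain ⟨x', h1, h2, h3, h4, h5⟩ := hsc.hbs x (by rw [sa]; omega) hc
      rw [sb] at h5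
      rcases GoodSt_w h5 with h6 | h6
      · omega
      · exact hx1 h6
    · simp
    · intro B h1 h2; simp [h1, h2]
    · simp
    · simp [hN1]
  · simpa using hstr
  · simp
    omega
  · simpa using wa
  · simpa using wb
  · simp
    rw [← wb]; exact hn8.bn_b

theorem Level_spec {t : ℕ} (h : LInv p s t) (hc : LCost p s t) (hd : s.v .don = 0) :
    Run p.n cLevel s (fun s' => (s'.v .don = 0 ∧ LInv p s'.tick (t + 1) ∧
        LCost p s'.tick (t + 1) ∧ s.v .a < s'.v .a) ∨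
      (s'.v .don ≠ 0 ∧ Fin' p s'.tick)) := by
  have hr := h.a_le_r
  have hu := h.b_le_u
  rw [cLevel, run_blk_cons]
  refine (W_spec h.stat h.a_le h.b_le h.b1_le).addFrame.mono ?_
  rintro s1 ⟨f1, w1, k1⟩
  have i1 : LInv p s1 t := h.of_eq
    (fun x h1 h2 h3 => f1.v x (by simp [cW, blk, Cmd.wv, h1]))
    (fun B h1 h2 h3 => f1.m B (by simp [cW, blk, Cmd.wm, h1]))
  have a1 : s1.v .a = s.v .a := f1.v _ (by decide)
  have b1 : s1.v .b = s.v .b := f1.v _ (by decide)
  have b11 : s1.v .b1 = s.v .b1 := f1.v _ (by decide)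
  rw [run_blk_cons]
  refine (AX_spec i1.stat i1.a_le i1.b_le_u).addFrame.mono ?_
  rintro s2 ⟨f2, w2, k2⟩
  have i2 : LInv p s2 t := i1.of_eq
    (fun x h1 h2 h3 => f2.v x (by simp [cAX, blk, Cmd.wv, h1]))
    (fun B h1 h2 h3 => f2.m B (by simp [cAX, blk, Cmd.wm, h2]))
  have a2 : s2.v .a = s.v .a := (f2.v _ (by decide)).trans a1
  have b2 : s2.v .b = s.v .b := (f2.v _ (by decide)).trans b1
  have b12 : s2.v .b1 = s.v .b1 := (f2.v _ (by decide)).trans b11
  rw [run_blk_cons]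
  refine (AY_spec i2.stat i2.b_le i2.a_le_r).addFrame.mono ?_
  rintro s3 ⟨f3, w3, k3⟩
  have i3 : LInv p s3 t := i2.of_eq
    (fun x h1 h2 h3 => f3.v x (by simp [cAY, cAYext, blk, Cmd.wv, h2, h3]))
    (fun B h1 h2 h3 => f3.m B (by simp [cAY, cAYext, blk, Cmd.wm, h3]))
  have a3 : s3.v .a = s.v .a := (f3.v _ (by decide)).trans a2
  have b3 : s3.v .b = s.v .b := (f3.v _ (by decide)).trans b2
  have b13 : s3.v .b1 = s.v .b1 := (f3.v _ (by decide)).trans b12
  have a13 : s3.v .a1 = s.v .a1 := by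
    rw [f3.v _ (by decide), f2.v _ (by decide), f1.v _ (by decide)]
  have qa3 : s3.v .qa = s.v .qa := by
    rw [f3.v _ (by decide), f2.v _ (by decide), f1.v _ (by decide)]
  have qb3 : s3.v .qb = s.v .qb := by
    rw [f3.v _ (by decide), f2.v _ (by decide), f1.v _ (by decide)]
  have d3 : s3.v .don = 0 := by
    rw [f3.v _ (by decide), f2.v _ (by decide), f1.v _ (by decide), hd]
  have W3 : s3.m .W = s1.m .W := by rw [f3.m _ (by decide), f2.m _ (by decide)]
  have ax3 : s3.m .ax = s2.m .ax := f3.m _ (by decide)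
  have hw : WA p s3 := by
    refine ⟨?_, ?_, ?_⟩
    · rw [a3, b3, b13, W3]; exact w1
    · rw [a3, b3, ax3, ← a1, ← b1]; exact w2
    · rw [a3, b3, ← a2, ← b2]; exact w3
  rw [run_blk_cons]
  refine (Scan_spec i3 d3 hw).addFrame.mono ?_
  rintro s4 ⟨f4, sc⟩
  have hcost := sc.cost
  rw [a1] at k2
  rw [b1] at k2
  rw [a2, b2] at k3
  rw [a3, a13, qb3] at hcost
  unfold LCost at hc
  have ha_n := h.a_le
  have hb_n := h.b_le
  have ha1 := h.a1_le
  have hb1 := h.b1_le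
  have htl := h.t_le
  have hql := h.qle
  have hun := p.u_le_n (s.v .a)
  have hrn := p.r_le_n (s.v .b)
  rw [run_blk_one, run_ite]
  simp only [Expr.eval_var, Expr.eval_succ, Expr.eval_zero]
  constructor
  · intro hlt
    have hd4 : s4.v .don = 0 := by omega
    refine (half_spec i3 hw sc f4 hd4).mono ?_
    rintro s' ⟨c1, c2, c3, c4, c5, c6, c7⟩
    rw [a3] at c3 c5
    rw [b3] at c6 c7
    rw [a3, b3, qb3, qa3] at c4
    left
    refine ⟨c1, c2, ?_, c3⟩
    unfold LCost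
    simp only [tick_k, tick_v]
    rw [c5, c6]
    omega
  · intro hlt
    rw [run_skip]
    right
    have hd4 : s4.v .don ≠ 0 := by omega
    refine ⟨hd4, ?_⟩
    obtain ⟨X, Y, r1, r2⟩ := sc.don1 hd4
    have hE : Ext s4 s4.tick := Ext.of_eq rfl rfl rfl rfl rfl rfl
    have hS : Static p s4.tick := sc.stat.of_eq rfl rfl rfl rfl rfl rfl rfl rfl rfl
    refine ⟨hS, ⟨t, X, Y, by omega, r1.ext hE, r2, h.low⟩, ?_⟩
    simp only [tick_k]
    omega

end

end Pool.Agent.PD
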