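import Pool.Agent.PD.Main

/-! # Minimum dominating sets of permutation graphs in linear time

There is a program of the unit-cost random access machine that, given the permutation diagram of
a permutation graph `G` on `n` vertices as the array `π(1), …, π(n)`, outputs (the indicator
vector of) a dominating set of `G` of minimum cardinality after at most `K · n` steps; all words
that occur are at most `K · n`, that is, they have `O(log n)` bits.

The algorithm works in levels `t = 0, 1, 2, …`. A state `(X, Y)` of a set `D` of `t` points of
the diagram is a pair such that the points not dominated by `D` are exactly those in the quadrant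
`(X, ∞) × (Y, ∞)`. The frontier of level `t` holds states which together dominate all states of
sets with `t` points; it is computed from the two previous frontiers by scans whose total length
is linear. -/

namespace Pool.Agent.PD.LinearDomination

open Pool.Agent.PD

/-- **Minimum dominating sets of permutation graphs in linear time** (from the permutation
diagram, on the unit-cost RAM with words of `O(log n)` bits). -/
theorem result : ∃ (P : List Instr) (K : ℕ), ∀ (n : ℕ) (π : Equiv.Perm (Fin n)), 1 ≤ n →
    ∃ t, t ≤ K * n ∧ P.length ≤ (runP P t (startCfg π)).pc ∧
      (∀ j, j ≤ t → (runP P j (startCfg π)).Bdd (K * n)) ∧
      ∃ D : Finset (Fin n), IsDominating (permGraph π) D ∧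
        (∀ D', IsDominating (permGraph π) D' → D.card ≤ D'.card) ∧
        ∀ i : Fin n, (runP P t (startCfg π)).mem ((i : ℕ) + 1) = if i ∈ D then 1 else 0 :=
  main_theorem

end Pool.Agent.PD.LinearDomination
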