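import Pool.Agent.PD.Level3
import Pool.Agent.PD.Graph

/-! The algorithm is correct; translation to permutation graphs. -/

namespace Pool.Agent.PD

open PData

theorem Levels_spec {p : PData} {s : S} (h : LInv p s 0) (hc : LCost p s 0)
    (hd : s.v .don = 0) :
    Run p.n cLevels s (fun s' => s'.v .don ≠ 0 ∧ Fin' p s') := by
  rw [cLevels]
  refine run_whl (fun s => (s.v .don = 0 ∧ ∃ t, LInv p s t ∧ LCost p s t) ∨
    (s.v .don ≠ 0 ∧ Fin' p s)) (fun s => if s.v .don = 0 then p.n + 1 - s.v .a else 0)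
    (Or.inl ⟨hd, 0, h, hc⟩) ?_ ?_
  · intro s1 _ hI hlt
    simp only [Expr.eval_var, Expr.eval_succ, Expr.eval_zero] at hlt
    have hd1 : s1.v .don = 0 := by omega
    rcases hI with ⟨_, t, h1, h2⟩ | ⟨h1, _⟩
    · refine (Level_spec h1 h2 hd1).mono ?_
      rintro s' (⟨h3, h4, h5, h6⟩ | ⟨h3, h4⟩)
      · refine ⟨Or.inl ⟨h3, t + 1, h4, h5⟩, ?_⟩
        have h7 := h4.a_le
        simp only [tick_v] at h7
        simp only [tick_v, h3, hd1, if_true]
        omega
      · refine ⟨Or.inr ⟨h3, h4⟩, ?_⟩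
        have h7 := h1.a_le
        simp only [tick_v, hd1, if_true, h3, if_false]
        omega
    · exact absurd hd1 h1
  · intro s1 _ hI hlt
    simp only [Expr.eval_var, Expr.eval_succ, Expr.eval_zero] at hlt
    rcases hI with ⟨h1, _⟩ | h1
    · omega
    · exact h1

theorem main_spec (p : PData) (inp : ℕ → ℕ) (hinp : ∀ x, 1 ≤ x → x ≤ p.n → inp x = p.y x) :
    Run p.n cMain (initSt p.n inp) (fun s => s.k ≤ 30 * p.n + 10 ∧ ∃ D, p.Dominating D ∧
      (∀ D', p.Dominating D' → D.card ≤ D'.card) ∧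
      (∀ i, 1 ≤ i → i ≤ p.n → s.io i ≤ 1) ∧
      ∀ x, 1 ≤ x → x ≤ p.n → (s.io (p.y x) = 1 ↔ x ∈ D)) := by
  have hI := init_spec p inp hinp
  simp only [run_blk_cons, run_blk_one] at hI
  rw [cMain]
  simp only [run_blk_cons, run_blk_one]
  refine hI.mono (fun s1 hI => hI.mono (fun s2 hI => hI.mono (fun s3 hI => hI.mono ?_)))
  rintro s ⟨h1, h2, h3⟩
  refine (Levels_spec h1 h2 h3).mono ?_
  rintro s4 ⟨h4, h5⟩
  obtain ⟨t, X, Y, ht, hr, hsm, hlow⟩ := h5.rep
  refine (Rec_spec h5.stat hr).addFrame.mono ?_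
  rintro s5 ⟨f5, h6, D, h7, h8, h9, h10⟩
  refine (Out_spec (p := p) (by rw [f5.v _ (by decide), h5.stat.n])).mono ?_
  rintro s6 ⟨h11, h12⟩
  refine ⟨?_, D, dominating_of_valid h8 hsm, fun D' hD' => h7.trans (hlow D' hD'), ?_, ?_⟩
  · have := h5.cost
    omega
  · intro i hi1 hi2
    rw [h12 i hi1 hi2]
    exact h9 i
  · intro x hx1 hx2
    have := p.y_mem x hx1 hx2
    rw [h12 _ this.1 this.2]
    exact h10 x hx1 hx2

/-! ### Permutation graphs -/

theorem diagram_succ {n : ℕ} (π : Equiv.Perm (Fin n)) (i : Fin n) :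
    diagram π ((i : ℕ) + 1) = (π i : ℕ) + 1 := by
  unfold diagram
  rw [dif_pos ⟨by omega, by omega⟩]
  simp

theorem exists_fin {n x : ℕ} (h1 : 1 ≤ x) (h2 : x ≤ n) : ∃ i : Fin n, x = (i : ℕ) + 1 :=
  ⟨⟨x - 1, by omega⟩, by simp; omega⟩

/-- permutation data of a permutation -/
def pdata {n : ℕ} (π : Equiv.Perm (Fin n)) : PData where
  n := n
  y := diagram π
  xx := diagram π.symm
  y_mem := by
    intro x h1 h2
    obtain ⟨i, rfl⟩ := exists_fin h1 h2
    rw [diagram_succ]
    have := (π i).2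
    omega
  xx_mem := by
    intro x h1 h2
    obtain ⟨i, rfl⟩ := exists_fin h1 h2
    rw [diagram_succ]
    have := (π.symm i).2
    omega
  xx_y := by
    intro x h1 h2
    obtain ⟨i, rfl⟩ := exists_fin h1 h2
    rw [diagram_succ, diagram_succ, Equiv.symm_apply_apply]
  y_xx := by
    intro x h1 h2
    obtain ⟨i, rfl⟩ := exists_fin h1 h2
    rw [diagram_succ, diagram_succ, Equiv.apply_symm_apply]
  y_out := by
    intro x hx
    unfold diagram
    rw [dif_neg (by omega)]
  xx_out := by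
    intro x hx
    unfold diagram
    rw [dif_neg (by omega)]

theorem pdata_dom {n : ℕ} (π : Equiv.Perm (Fin n)) (D : Finset (Fin n))
    (hD : IsDominating (permGraph π) D) :
    (pdata π).Dominating (D.image (fun i => (π.symm i : ℕ) + 1)) := by
  constructor
  · intro d hd
    rw [Finset.mem_image] at hd
    obtain ⟨i, _, rfl⟩ := hd
    have := (π.symm i).2
    exact ⟨by omega, by show _ ≤ n; omega⟩
  · rintro x ⟨h1, h2, h3⟩
    obtain ⟨j, rfl⟩ := exists_fin (n := n) h1 h2
    have hcmp : ∀ i ∈ D, ((j : ℕ) + 1 < (π.symm i : ℕ) + 1 ∧ (π j : ℕ) + 1 < (i : ℕ) + 1) ∨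
        ((π.symm i : ℕ) + 1 < (j : ℕ) + 1 ∧ (i : ℕ) + 1 < (π j : ℕ) + 1) := by
      intro i hi
      have := h3 _ (Finset.mem_image_of_mem _ hi)
      change (_ ∧ diagram π _ < diagram π _) ∨ (_ ∧ diagram π _ < diagram π _) at this
      rw [diagram_succ, diagram_succ, Equiv.apply_symm_apply] at this
      exact this
    have hj : π j ∉ D := by
      intro hj
      have := hcmp _ hj
      rw [Equiv.symm_apply_apply] at this
      omega
    obtain ⟨w, hw, hadj⟩ := hD (π j) hj
    have h4 := hcmp w hw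
    unfold permGraph at hadj
    simp only [Equiv.symm_apply_apply] at hadj
    rw [Fin.lt_def, Fin.lt_def, Fin.lt_def, Fin.lt_def] at hadj
    omega

/-- a dominating set of the permutation data gives a dominating set of the graph -/
theorem graph_dom {n : ℕ} (π : Equiv.Perm (Fin n)) (D : Finset ℕ)
    (hD : (pdata π).Dominating D) :
    IsDominating (permGraph π) (Finset.univ.filter (fun i => (π.symm i : ℕ) + 1 ∈ D)) := by
  intro v hv
  rw [Finset.mem_filter] at hv
  have hv' : (π.symm v : ℕ) + 1 ∉ D := fun h => hv ⟨Finset.mem_univ _, h⟩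
  have h1 := hD.2 ((π.symm v : ℕ) + 1)
  unfold PData.Und at h1
  have h2 := (π.symm v).2
  have h3 : ¬ ∀ d ∈ D, ((π.symm v : ℕ) + 1 < d ∧ diagram π ((π.symm v : ℕ) + 1) < diagram π d) ∨
      (d < (π.symm v : ℕ) + 1 ∧ diagram π d < diagram π ((π.symm v : ℕ) + 1)) := by
    intro h
    exact h1 ⟨by omega, by show _ ≤ n; omega, h⟩
  push Not at h3
  obtain ⟨d, hd, h4, h5⟩ := h3
  obtain ⟨j, rfl⟩ := exists_fin (n := n) (hD.1 d hd).1 (hD.1 d hd).2
  rw [diagram_succ, diagram_succ, Equiv.apply_symm_apply] at h4 h5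
  refine ⟨π j, ?_, ?_⟩
  · rw [Finset.mem_filter]
    refine ⟨Finset.mem_univ _, ?_⟩
    rw [Equiv.symm_apply_apply]; exact hd
  · have hne : (j : ℕ) ≠ (π.symm v : ℕ) := by
      intro h
      rw [← h] at hv'
      exact hv' hd
    have hne2 : ((π j : Fin n) : ℕ) ≠ (v : ℕ) := by
      intro h
      have h6 : π j = v := Fin.ext h
      apply hne
      rw [← h6, Equiv.symm_apply_apply]
    show (v < π j ∧ π.symm (π j) < π.symm v) ∨ (π j < v ∧ π.symm v < π.symm (π j))
    rw [Equiv.symm_apply_apply, Fin.lt_def, Fin.lt_def, Fin.lt_def, Fin.lt_def]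
    omega

theorem startCfg_eq {n : ℕ} (π : Equiv.Perm (Fin n)) : startCfg π = initCfg n (diagram π) := by
  unfold startCfg initCfg
  congr 1
  funext i
  split_ifs with h
  · rfl
  · unfold diagram; rw [dif_neg h]

/-- **Minimum dominating sets of permutation graphs in linear time.** -/
theorem main_theorem : ∃ (P : List Instr) (K : ℕ), ∀ (n : ℕ) (π : Equiv.Perm (Fin n)), 1 ≤ n →
    ∃ t, t ≤ K * n ∧ P.length ≤ (runP P t (startCfg π)).pc ∧
      (∀ j, j ≤ t → (runP P j (startCfg π)).Bdd (K * n)) ∧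
      ∃ D : Finset (Fin n), IsDominating (permGraph π) D ∧
        (∀ D', IsDominating (permGraph π) D' → D.card ≤ D'.card) ∧
        ∀ i : Fin n, (runP P t (startCfg π)).mem ((i : ℕ) + 1) = if i ∈ D then 1 else 0 := by
  obtain ⟨P, K, hP⟩ := ram_compile cMain
  refine ⟨P, K * 42, fun n π hn => ?_⟩
  obtain ⟨s', hex, hk, D, hD1, hD2, hD3, hD4⟩ := main_spec (pdata π) (diagram π)
    (fun x _ _ => rfl)
  change Exec n cMain (initSt n (diagram π)) s' at hex
  change s'.k ≤ 30 * n + 10 at hk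
  obtain ⟨t, ht, hlen, hmem, hbd⟩ := hP n (diagram π) s' (fun i h1 h2 => by
    obtain ⟨j, rfl⟩ := exists_fin (n := n) h1 h2
    rw [diagram_succ]
    exact (π j).2) hex
  rw [← startCfg_eq] at hlen hmem hbd
  have hK : K * (s'.k + n + 1) ≤ K * 42 * n := by
    rw [mul_assoc]
    exact Nat.mul_le_mul_left K (by omega)
  refine ⟨t, ht.trans hK, hlen, ?_, Finset.univ.filter (fun i => (π.symm i : ℕ) + 1 ∈ D),
    graph_dom π D hD1, ?_, ?_⟩
  · intro j hj
    have := hbd j hj
    exact ⟨this.pc.trans hK, fun i => (this.reg i).trans hK, fun i => (this.mem i).trans hK⟩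
  · intro D' hD'
    have h1 := hD2 _ (pdata_dom π D' hD')
    have h2 : (Finset.univ.filter (fun i : Fin n => (π.symm i : ℕ) + 1 ∈ D)).card ≤ D.card := by
      refine Finset.card_le_card_of_injOn (fun i => (π.symm i : ℕ) + 1) ?_ ?_
      · intro i hi
        exact (Finset.mem_filter.1 hi).2
      · intro i _ j _ hij
        simp only [Nat.add_right_cancel_iff] at hij
        exact π.symm.injective (Fin.ext hij)
    exact h2.trans (h1.trans Finset.card_image_le)
  · intro i
    rw [hmem _ (by have := i.2; omega)]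
    have hy : (pdata π).y ((π.symm i : ℕ) + 1) = (i : ℕ) + 1 := by
      change diagram π _ = _
      rw [diagram_succ, Equiv.apply_symm_apply]
    have h2 := (π.symm i).2
    have h3 := hD4 ((π.symm i : ℕ) + 1) (by omega) (by show _ ≤ n; omega)
    rw [hy] at h3
    have h4 := hD3 ((i : ℕ) + 1) (by omega) (by show _ ≤ n; omega)
    by_cases hi : (π.symm i : ℕ) + 1 ∈ D
    · rw [if_pos (by rw [Finset.mem_filter]; exact ⟨Finset.mem_univ _, hi⟩)]
      exact h3.2 hi
    · rw [if_neg (by rw [Finset.mem_filter]; exact fun h => hi h.2)]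
      have h5 : s'.io ((i : ℕ) + 1) ≠ 1 := fun h => hi (h3.1 h)
      omega

end Pool.Agent.PD
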