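import Pool.Agent.PD.Lang

/-! The linear time algorithm for minimum dominating sets of permutation graphs, as a program. -/

namespace Pool.Agent.PD

/-- the variables of the program -/
inductive Var
  | n | N1 | a | b | a1 | b1 | x | v | h | om | i | Y | w | mm | cnt | don | Ex | bId | U
  | an | bn | nb | qa | qb | qc | cur | cid | z | L | T
deriving DecidableEq, Fintype

/-- the arrays of the program -/
inductive Arr
  | y | xx | u | r | sm | W | best | hb | hbid | ax | ay | SX | SY | par | p1 | p2 | DQ | out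
deriving DecidableEq, Fintype

abbrev E := Expr Var Arr
abbrev C := Cmd Var Arr
abbrev S := St Var Arr

/-- variable as an expression -/
abbrev vr (x : Var) : E := Expr.var x
/-- array access as an expression -/
abbrev at' (B : Arr) (e : E) : E := Expr.arr B e

/-- `x := n; y[x] := π(x)`, `xx[π(x)] := x` -/
def cRead : C := blk [
  .asg .x .zero,
  .whl (vr .x) (vr .n) (blk [
    .asg .x (.succ (vr .x)),
    .inp .T (vr .x),
    .sto .y (vr .x) (vr .T),
    .sto .xx (vr .T) (vr .x)])]

/-- running maxima of `y` and `xx` -/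
def cUR : C := blk [
  .asg .x .zero,
  .whl (vr .x) (vr .n) (blk [
    .asg .x (.succ (vr .x)),
    .ite (at' .u (.pred (vr .x))) (at' .y (vr .x))
      (.sto .u (vr .x) (at' .y (vr .x))) (.sto .u (vr .x) (at' .u (.pred (vr .x)))),
    .ite (at' .r (.pred (vr .x))) (at' .xx (vr .x))
      (.sto .r (vr .x) (at' .xx (vr .x))) (.sto .r (vr .x) (at' .r (.pred (vr .x))))])]

/-- maxima of `y` to the right -/
def cSM : C := blk [
  .asg .x (vr .n),
  .whl .zero (vr .x) (blk [
    .ite (at' .sm (vr .x)) (at' .y (vr .x))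
      (.sto .sm (.pred (vr .x)) (at' .y (vr .x)))
      (.sto .sm (.pred (vr .x)) (at' .sm (vr .x))),
    .asg .x (.pred (vr .x))])]

/-- the initial state, with number 1 -/
def cRoot : C := blk [
  .asg .N1 (.succ (vr .n)),
  .asg .cnt (.succ .zero),
  .sto .best .zero (.succ .zero),
  .asg .bId (.succ .zero)]

/-- a new state `(eX, eY)` with parent `ep` and points `e1`, `e2` -/
def cNew (eX eY ep e1 e2 : E) : C := blk [
  .asg .cnt (.succ (vr .cnt)),
  .sto .SX (vr .cnt) eX,
  .sto .SY (vr .cnt) eY,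
  .sto .par (vr .cnt) ep,
  .sto .p1 (vr .cnt) e1,
  .sto .p2 (vr .cnt) e2]

/-- append the last state to the queue -/
def cPush : C := blk [
  .sto .DQ (vr .qc) (vr .cnt),
  .asg .qc (.succ (vr .qc))]

/-- insert the state `T` into the new frontier -/
def cInsert : C :=
  .ite (vr .a) (at' .SX (vr .T)) (
    .ite (vr .b) (at' .SY (vr .T)) (blk [
      .ite (at' .SY (at' .best (at' .SX (vr .T)))) (at' .SY (vr .T))
        (.sto .best (at' .SX (vr .T)) (vr .T)) .skip,
      .ite (vr .an) (at' .SX (vr .T)) (.asg .an (at' .SX (vr .T))) .skip,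
      .ite (vr .bn) (at' .SY (vr .T))
        (blk [.asg .bn (at' .SY (vr .T)), .asg .nb (vr .T)]) .skip]) .skip) .skip

/-- `W[v] = min {x > a : v < y(x) ≤ b}` for `b1 ≤ v ≤ b` -/
def cW : C := blk [
  .sto .W (vr .b) (vr .N1),
  .asg .v (vr .b),
  .whl (vr .b1) (vr .v) (blk [
    .sto .W (.pred (vr .v)) (at' .W (vr .v)),
    .ite (vr .a) (at' .xx (vr .v))
      (.ite (at' .xx (vr .v)) (at' .W (vr .v))
        (.sto .W (.pred (vr .v)) (at' .xx (vr .v))) .skip) .skip,
    .asg .v (.pred (vr .v))])]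

/-- `ax[v] = min {x > a : b < y(x) ≤ v}` for `b ≤ v ≤ u(a)` -/
def cAX : C := blk [
  .sto .ax (vr .b) (vr .N1),
  .asg .v (vr .b),
  .whl (vr .v) (at' .u (vr .a)) (blk [
    .asg .v (.succ (vr .v)),
    .sto .ax (vr .v) (at' .ax (.pred (vr .v))),
    .ite (vr .a) (at' .xx (vr .v))
      (.ite (at' .xx (vr .v)) (at' .ax (vr .v))
        (.sto .ax (vr .v) (at' .xx (vr .v))) .skip) .skip])]

/-- extend `ay` from `x` to `Ex` -/
def cAYext : C :=
  .whl (vr .x) (vr .Ex) (blk [
    .asg .x (.succ (vr .x)),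
    .sto .ay (vr .x) (at' .ay (.pred (vr .x))),
    .ite (vr .b) (at' .y (vr .x))
      (.ite (at' .y (vr .x)) (at' .ay (vr .x))
        (.sto .ay (vr .x) (at' .y (vr .x))) .skip) .skip])

/-- `ay[x] = min {y(x') : a < x' ≤ x, y(x') > b}` for `a ≤ x ≤ r(b)` -/
def cAY : C := blk [
  .sto .ay (vr .a) (vr .N1),
  .asg .x (vr .a),
  .asg .Ex (at' .r (vr .b)),
  cAYext]

/-- the two candidates and the update of `hb` for one good state `i = (x, Y)` -/
def cGood : C := blk [
  .asg .w (at' .W (vr .Y)),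
  .ite (vr .h) (vr .N1) (blk [
    .asg .mm (at' .ax (.pred (vr .h))),
    .ite (vr .w) (vr .mm) (.asg .mm (vr .w)) .skip,
    .ite (vr .mm) (vr .N1) (blk [
      cNew (at' .r (vr .h)) (at' .u (vr .mm)) (vr .i) (at' .xx (at' .u (vr .mm))) (at' .r (vr .h)),
      cPush]) .skip]) .skip,
  .ite (vr .w) (vr .N1) (blk [
    .asg .mm (at' .ay (.pred (vr .w))),
    .ite (vr .h) (vr .mm) (.asg .mm (vr .h)) .skip,
    .ite (vr .mm) (vr .N1) (blk [
      cNew (at' .r (vr .mm)) (at' .u (vr .w)) (vr .i) (at' .xx (at' .u (vr .w))) (at' .r (vr .mm)),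
      cPush]) .skip]) .skip,
  .ite (at' .hb (vr .w)) (vr .h) (blk [
    .sto .hb (vr .w) (vr .h),
    .sto .hbid (vr .w) (vr .i)]) .skip]

/-- the scan over the frontier -/
def cScan : C := blk [
  .asg .h (vr .N1),
  .asg .om .zero,
  .asg .x (.succ (vr .a)),
  .whl (vr .a1) (vr .x) (blk [
    .asg .x (.pred (vr .x)),
    .asg .i (at' .best (vr .x)),
    .ite .zero (vr .i) (blk [
      .asg .Y (at' .SY (vr .i)),
      .ite (at' .sm (vr .x)) (.succ (vr .Y)) (.asg .don (vr .i)) .skip,
      .ite (vr .om) (.succ (vr .Y)) cGood .skip]) .skip,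
    .ite (vr .b) (at' .y (vr .x))
      (.ite (at' .y (vr .x)) (vr .h) (.asg .h (at' .y (vr .x))) .skip)
      (.ite (vr .om) (at' .y (vr .x)) (.asg .om (at' .y (vr .x))) .skip)])]

/-- the search for the lowest point of the quadrant, below `hb[N1]` -/
def cLow : C := blk [
  .asg .Ex (at' .r (vr .b)),
  .asg .L (at' .hb (vr .N1)),
  .asg .v (.succ (vr .b)),
  .whl (vr .v) (vr .L) (
    .ite (vr .a) (at' .xx (vr .v)) (blk [
      .ite (vr .Ex) (at' .xx (vr .v)) (.asg .Ex (at' .xx (vr .v))) .skip,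
      .asg .L .zero])
      (.asg .v (.succ (vr .v)))),
  .asg .x (at' .r (vr .b)),
  cAYext]

/-- the states `U` and `R` of the new frontier -/
def cUR2 : C := blk [
  cNew (vr .a) (at' .u (vr .a)) (at' .best (vr .a)) (at' .xx (at' .u (vr .a))) .zero,
  .asg .U (vr .cnt),
  .asg .an (vr .a),
  .asg .bn (at' .u (vr .a)),
  .asg .nb (vr .cnt),
  .ite (vr .a) (at' .r (vr .b)) (blk [
    cNew (at' .r (vr .b)) (vr .b) (vr .bId) .zero (at' .r (vr .b)),
    .sto .best (at' .r (vr .b)) (vr .cnt),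
    .asg .an (at' .r (vr .b))]) .skip]

/-- insert the states of the queue -/
def cQueue : C := blk [
  .asg .z (vr .qa),
  .whl (vr .z) (vr .qb) (blk [
    .asg .T (at' .DQ (vr .z)),
    cInsert,
    .asg .z (.succ (vr .z))]),
  .asg .qa (vr .qb)]

/-- the scan over the minimal points of the quadrant -/
def cStair : C := blk [
  .asg .cur (at' .hb (vr .N1)),
  .asg .cid (at' .hbid (vr .N1)),
  .asg .x (vr .Ex),
  .whl (vr .a) (vr .x) (blk [
    .ite (vr .b) (at' .y (vr .x))
      (.ite (at' .y (vr .x)) (at' .ay (.pred (vr .x))) (blk [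
        .ite (at' .y (vr .x)) (vr .cur) (blk [
          cNew (vr .x) (at' .y (vr .x)) (vr .cid) (vr .x) .zero,
          .asg .T (vr .cnt),
          cInsert]) .skip,
        .ite (at' .ay (.pred (vr .x))) (vr .cur) (blk [
          .asg .mm (at' .ay (.pred (vr .x))),
          cNew (at' .r (vr .mm)) (at' .u (vr .x)) (vr .cid) (at' .xx (at' .u (vr .x)))
            (at' .r (vr .mm)),
          cPush]) .skip]) .skip) .skip,
    .ite (vr .cur) (at' .hb (vr .x)) (blk [
      .asg .cur (at' .hb (vr .x)),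
      .asg .cid (at' .hbid (vr .x))]) .skip,
    .asg .x (.pred (vr .x))])]

/-- the end of a level -/
def cNext : C := blk [
  .sto .hb (vr .N1) .zero,
  .sto .best (vr .a) (vr .U),
  .asg .a1 (vr .a),
  .asg .b1 (vr .b),
  .asg .a (vr .an),
  .asg .b (vr .bn),
  .asg .bId (vr .nb),
  .asg .qb (vr .qc)]

/-- one level -/
def cLevel : C := blk [cW, cAX, cAY, cScan,
  .ite (vr .don) (.succ .zero) (blk [cLow, cUR2, cQueue, cStair, cNext]) .skip]

/-- all levels -/
def cLevels : C := .whl (vr .don) (.succ .zero) cLevel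

/-- reconstruction of the dominating set -/
def cRec : C := blk [
  .asg .i (vr .don),
  .whl (.succ .zero) (vr .i) (blk [
    .sto .out (at' .y (at' .p1 (vr .i))) (.succ .zero),
    .sto .out (at' .y (at' .p2 (vr .i))) (.succ .zero),
    .asg .i (at' .par (vr .i))])]

/-- output -/
def cOut : C := blk [
  .asg .x .zero,
  .whl (vr .x) (vr .n) (blk [
    .asg .x (.succ (vr .x)),
    .outp (vr .x) (at' .out (vr .x))])]

/-- the whole program -/
def cMain : C := blk [cRead, cUR, cSM, cRoot, cLevels, cRec, cOut]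

end Pool.Agent.PD
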