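import Pool.Agent.PD.Inv

/-! Soundness of the moves of the algorithm, records of states, creation of a state. -/

namespace Pool.Agent.PD

open PData

section sound
variable {p : PData} {X Y a b h w m q : ℕ} {D : Finset ℕ}

theorem mem_addp {q d : ℕ} {D : Finset ℕ} (h : d ∈ addp q D) : (d = q ∧ q ≠ 0) ∨ d ∈ D := by
  unfold addp at h
  split_ifs at h with hq
  · exact Or.inr h
  · rcases Finset.mem_insert.1 h with h | h
    · exact Or.inl ⟨h, hq⟩
    · exact Or.inr h

theorem subset_addp (q : ℕ) (D : Finset ℕ) : D ⊆ addp q D := by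
  unfold addp
  split_ifs
  · exact Finset.Subset.refl _
  · exact Finset.subset_insert _ _

theorem self_mem_addp {q : ℕ} (hq : q ≠ 0) (D : Finset ℕ) : q ∈ addp q D := by
  unfold addp
  rw [if_neg hq]
  exact Finset.mem_insert_self _ _

theorem und_sub {D D' : Finset ℕ} {x : ℕ} (h : p.Und D' x) (hs : D ⊆ D') : p.Und D x :=
  ⟨h.1, h.2.1, fun d hd => h.2.2 d (hs hd)⟩

theorem valid_root : p.Valid 0 0 ∅ := by
  refine ⟨fun d hd => absurd hd (Finset.notMem_empty d), fun x hx => ?_, Nat.zero_le _,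
    Nat.zero_le _⟩
  have := p.y_mem x hx.1 hx.2.1
  have := hx.1
  omega

theorem valid_U (hv : p.Valid X Y D) : p.Valid X (p.u X) (addp (p.xx (p.u X)) D) := by
  have hYu := hv.yu
  refine ⟨fun d hd => ?_, fun x hx => ?_, hv.xr.trans (p.r_mono hv.yu), le_rfl⟩
  · rcases mem_addp hd with ⟨h1, h2⟩ | h1
    · have hu : 1 ≤ p.u X := by
        by_contra hc
        have : p.u X = 0 := by omega
        rw [this, p.xx_zero] at h2
        exact h2 rfl
      have h3 := p.xx_mem (p.u X) hu (p.u_le_n X)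
      have h4 := p.xx_u_le X
      have h5 := p.y_xx_u X
      subst h1
      exact ⟨h3.1, h3.2, h4, le_of_eq h5⟩
    · have h2 := hv.mem d h1
      exact ⟨h2.1, h2.2.1, h2.2.2.1, h2.2.2.2.trans hYu⟩
  · have h1 := hv.und x (und_sub hx (subset_addp _ _))
    refine ⟨h1.1, ?_⟩
    by_cases hq : p.xx (p.u X) = 0
    · have hu : p.u X = 0 := by
        by_contra hc
        have h3 := p.xx_mem (p.u X) (by omega) (p.u_le_n X)
        omega
      omega
    · have h2 := hx.2.2 _ (self_mem_addp hq D)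
      have h4 := p.xx_u_le X
      have h5 := p.y_xx_u X
      omega

theorem valid_R (hv : p.Valid X Y D) : p.Valid (p.r Y) Y (addp (p.r Y) D) := by
  have hXr := hv.xr
  refine ⟨fun d hd => ?_, fun x hx => ?_, le_rfl, hv.yu.trans (p.u_mono hv.xr)⟩
  · rcases mem_addp hd with ⟨h1, h2⟩ | h1
    · subst h1
      exact ⟨by omega, p.r_le_n Y, le_rfl, p.y_r_le Y⟩
    · have h2 := hv.mem d h1
      exact ⟨h2.1, h2.2.1, h2.2.2.1.trans hXr, h2.2.2.2⟩
  · have h1 := hv.und x (und_sub hx (subset_addp _ _))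
    refine ⟨?_, h1.2⟩
    by_cases hq : p.r Y = 0
    · omega
    · have h2 := hx.2.2 _ (self_mem_addp hq D)
      have h4 := p.y_r_le Y
      omega

theorem valid_C (hv : p.Valid X Y D) (hq : p.MinPt X Y q) : p.Valid q (p.y q) (addp q D) := by
  obtain ⟨h1, h2, h3, h4⟩ := hq
  refine ⟨fun d hd => ?_, fun x hx => ?_, p.le_r (by omega) h2 le_rfl, p.y_le_u le_rfl⟩
  · rcases mem_addp hd with ⟨h5, h6⟩ | h5
    · subst h5
      exact ⟨by omega, h2, le_rfl, le_rfl⟩
    · have h6 := hv.mem d h5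
      exact ⟨h6.1, h6.2.1, by omega, by omega⟩
  · have h5 := hv.und x (und_sub hx (subset_addp _ _))
    have h6 := hx.2.2 _ (self_mem_addp (by omega : q ≠ 0) D)
    rcases h6 with h6 | h6
    · have := h4 x h5.1 h6.1 h5.2
      omega
    · exact h6

/-- the corner lemma -/
theorem valid_corner (hv : p.Valid X Y D) (hm1 : X < m) (hh1 : Y < h)
    (hhu : h ≤ p.u m) (hmr : m ≤ p.r h) (he : ∀ x, X < x → x < m → Y < p.y x → h ≤ p.y x) :
    p.Valid (p.r h) (p.u m) (addp (p.xx (p.u m)) (addp (p.r h) D)) := by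
  have hu1 : 1 ≤ p.u m := by omega
  have hr1 : 1 ≤ p.r h := by omega
  have hU := p.xx_mem (p.u m) hu1 (p.u_le_n m)
  have hU2 := p.xx_u_le m
  have hU3 := p.y_xx_u m
  have hR := p.r_le_n h
  have hR2 := p.y_r_le h
  refine ⟨fun d hd => ?_, fun x hx => ?_, p.r_mono hhu, p.u_mono hmr⟩
  · rcases mem_addp hd with ⟨h1, h2⟩ | h1
    · subst h1
      exact ⟨hU.1, hU.2, by omega, by omega⟩
    · rcases mem_addp h1 with ⟨h1, h2⟩ | h1
      · subst h1
        exact ⟨hr1, hR, le_rfl, by omega⟩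
      · have h2 := hv.mem d h1
        exact ⟨h2.1, h2.2.1, by omega, by omega⟩
  · have h1 := hv.und x (und_sub hx ((subset_addp _ _).trans (subset_addp _ _)))
    have h2 := hx.2.2 _ (self_mem_addp (by omega : p.xx (p.u m) ≠ 0) _)
    have h3 := hx.2.2 _ (subset_addp _ _ (self_mem_addp (by omega : p.r h ≠ 0) D))
    rcases h3 with h3 | h3
    · by_cases hxm : x < m
      · have := he x h1.1 hxm h1.2
        omega
      · omega
    · omega

/-- a point of the quadrant of a good state with abscissa at most `a` has ordinate `≥ h` -/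
theorem good_left (hg : p.GoodSt a b X Y h w) {x : ℕ} (h1 : X < x) (h2 : x ≤ a)
    (h3 : Y < p.y x) : b < p.y x ∧ h ≤ p.y x := by
  have h4 : b < p.y x := by
    by_contra hc
    have := hg.good x h1 h2 (by omega)
    omega
  exact ⟨h4, hg.hh.1 x h1 h2 h4⟩

/-- a point of the quadrant of a good state with abscissa in `(a, w)` has ordinate `> b` -/
theorem good_right (hg : p.GoodSt a b X Y h w) {x : ℕ} (h1 : a < x) (h2 : x ≤ p.n) (h2' : x < w)
    (h3 : Y < p.y x) : b < p.y x := by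
  by_contra hc
  have := hg.ww.1 x h1 h2 h3 (by omega)
  omega

theorem valid_D1 (hv : p.Valid X Y D) (hg : p.GoodSt a b X Y h w) (hn : h ≤ p.n)
    (hm : p.IsMinX a Y (h - 1) m) (hmn : m ≤ p.n) :
    p.Valid (p.r h) (p.u m) (addp (p.xx (p.u m)) (addp (p.r h) D)) := by
  have hXa := hg.xa
  have hYb := hg.yb
  have hh := hg.hh.2
  have hm2 := hm.2
  have e1 : b < h ∧ h ≤ p.n ∧ X < p.xx h ∧ p.xx h ≤ a := by
    rcases hh with hh | hh
    · omega
    · exact hh
  have e2 : a < m ∧ m ≤ p.n ∧ Y < p.y m ∧ p.y m ≤ h - 1 := by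
    rcases hm2 with hm2 | hm2
    · omega
    · exact hm2
  refine valid_corner hv (by omega) (by omega) ?_ (p.le_r (by omega) hmn (by omega)) ?_
  · have := p.y_le_u (X := m) (x := p.xx h) (by omega)
    rwa [p.y_xx h (by omega) hn] at this
  · intro x h1 h2 h3
    by_cases hxa : x ≤ a
    · exact (good_left hg h1 hxa h3).2
    · by_contra hc
      have := hm.1 x (by omega) (by omega) h3 (by omega)
      omega

theorem valid_D2 (hv : p.Valid X Y D) (hg : p.GoodSt a b X Y h w) (hn : w ≤ p.n)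
    (hm : p.IsMinY b X (w - 1) m) (hmn : m ≤ p.n) :
    p.Valid (p.r m) (p.u w) (addp (p.xx (p.u w)) (addp (p.r m) D)) := by
  have hXa := hg.xa
  have hYb := hg.yb
  have hw := hg.ww.2
  have hm2 := hm.2
  have e1 : a < w ∧ w ≤ p.n ∧ Y < p.y w ∧ p.y w ≤ b := by
    rcases hw with hw | hw
    · omega
    · exact hw
  have e2 : b < m ∧ m ≤ p.n ∧ X < p.xx m ∧ p.xx m ≤ w - 1 := by
    rcases hm2 with hm2 | hm2
    · omega
    · exact hm2
  refine valid_corner hv (by omega) (by omega) ?_ (p.le_r (by omega) hn (by omega)) ?_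
  · have := p.y_le_u (X := w) (x := p.xx m) (by omega)
    rwa [p.y_xx m (by omega) hmn] at this
  · intro x h1 h2 h3
    refine hm.1 x h1 (by omega) ?_
    by_cases hxa : x ≤ a
    · exact (good_left hg h1 hxa h3).1
    · exact good_right hg (by omega) (by omega) h2 h3

theorem minPt_of_good (hg : p.GoodSt a b X Y h w) (hq : p.MinPt a b q) (hqw : q < w)
    (hqh : p.y q < h) : p.MinPt X Y q := by
  have hXa := hg.xa
  have hYb := hg.yb
  obtain ⟨h1, h2, h3, h4⟩ := hq
  refine ⟨by omega, h2, by omega, fun x h5 h6 h7 => ?_⟩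
  by_cases hxa : x ≤ a
  · have := (good_left hg h5 hxa h7).2
    omega
  · exact h4 x (by omega) h6 (good_right hg (by omega) (by omega) (by omega) h7)

theorem valid_P (hv : p.Valid X Y D) (hg : p.GoodSt a b X Y h w) (hq : p.MinPt a b q)
    (hqw : q < w) (hm : p.IsMinY b a (q - 1) m) (hmh : m < h) :
    p.Valid (p.r m) (p.u q) (addp (p.xx (p.u q)) (addp (p.r m) D)) := by
  have hXa := hg.xa
  have hYb := hg.yb
  have hh := hg.hh.2
  have hm2 := hm.2
  obtain ⟨h1, h2, h3, h4⟩ := hq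
  have e2 : b < m ∧ m ≤ p.n ∧ a < p.xx m ∧ p.xx m ≤ q - 1 := by
    rcases hm2 with hm2 | hm2
    · rcases hh with hh | hh <;> omega
    · exact hm2
  have e3 := p.y_xx m (by omega) e2.2.1
  have e4 := h4 (p.xx m) (by omega) (by omega) (by omega)
  refine valid_corner hv (by omega) (by omega) ?_ (p.le_r (by omega) h2 (by omega)) ?_
  · have := p.y_le_u (X := q) (x := p.xx m) (by omega)
    rwa [e3] at this
  · intro x h5 h6 h7
    by_cases hxa : x ≤ a
    · have := (good_left hg h5 hxa h7).2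
      omega
    · exact hm.1 x (by omega) (by omega) (good_right hg (by omega) (by omega) (by omega) h7)

theorem card_addp (q : ℕ) (D : Finset ℕ) : (addp q D).card ≤ D.card + 1 := by
  unfold addp
  split_ifs
  · omega
  · exact Finset.card_insert_le _ _

theorem addp_zero (D : Finset ℕ) : addp 0 D = D := rfl

/-- a valid state with empty quadrant belongs to a dominating set -/
theorem dominating_of_valid (hv : p.Valid X Y D) (h : p.sm X ≤ Y) : p.Dominating D := by
  refine ⟨fun d hd => ⟨(hv.mem d hd).1, (hv.mem d hd).2.1⟩, fun x hx => ?_⟩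
  have h1 := hv.und x hx
  have h2 := p.y_le_sm h1.1 hx.2.1
  omega

theorem hasD_congr {par p1 p2 par' p1' p2' : ℕ → ℕ} {c i l : ℕ} {D : Finset ℕ}
    (h : HasD par p1 p2 i D l) (hi : i ≤ c) (h0 : ∀ j, j ≤ c → par' j = par j)
    (h1 : ∀ j, j ≤ c → p1' j = p1 j) (h2 : ∀ j, j ≤ c → p2' j = p2 j) :
    HasD par' p1' p2' i D l := by
  induction h with
  | root => exact .root
  | @step i l D hi1 hpi _ ih =>
    have e := ih (by omega)
    rw [← h0 i hi] at e
    have e' := HasD.step (par := par') (p1 := p1') (p2 := p2') hi1 (by rw [h0 i hi]; exact hpi) e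
    rwa [h1 i hi, h2 i hi] at e'

theorem Rep.ext {s s' : S} {i X Y c : ℕ} (h : Rep p s i X Y c) (he : Ext s s') :
    Rep p s' i X Y c := by
  have hl := h.le
  refine ⟨h.pos, hl.trans he.cnt, by rw [he.SX i hl, h.sx], by rw [he.SY i hl, h.sy], ?_⟩
  obtain ⟨D, l, h1, h2, h3, h4⟩ := h.has
  exact ⟨D, l, hasD_congr h1 hl he.par he.p1 he.p2, h2, h3, h4⟩

theorem Rep.mono {s : S} {i X Y c c' : ℕ} (h : Rep p s i X Y c) (hc : c ≤ c') :
    Rep p s i X Y c' := by
  refine ⟨h.pos, h.le, h.sx, h.sy, ?_⟩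
  obtain ⟨D, l, h1, h2, h3, h4⟩ := h.has
  exact ⟨D, l, h1, h2.trans hc, h3.trans hc, h4⟩

theorem Ext.refl (s : S) : Ext s s :=
  ⟨le_rfl, fun _ _ => rfl, fun _ _ => rfl, fun _ _ => rfl, fun _ _ => rfl, fun _ _ => rfl⟩

theorem Ext.trans {s s' s'' : S} (h : Ext s s') (h' : Ext s' s'') : Ext s s'' := by
  have hc := h.cnt
  refine ⟨hc.trans h'.cnt, ?_, ?_, ?_, ?_, ?_⟩
  · intro i hi; rw [h'.SX i (hi.trans hc), h.SX i hi]
  · intro i hi; rw [h'.SY i (hi.trans hc), h.SY i hi]
  · intro i hi; rw [h'.par i (hi.trans hc), h.par i hi]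
  · intro i hi; rw [h'.p1 i (hi.trans hc), h.p1 i hi]
  · intro i hi; rw [h'.p2 i (hi.trans hc), h.p2 i hi]

/-- the arrays of the records -/
def isRec : Arr → Bool
  | .SX => true
  | .SY => true
  | .par => true
  | .p1 => true
  | .p2 => true
  | _ => false

/-- the expression does not read the arrays of the records -/
def noRec : E → Bool
  | .zero => true
  | .var _ => true
  | .succ e => noRec e
  | .pred e => noRec e
  | .arr B e => !isRec B && noRec e

theorem eval_noRec {s s' : S} (hv : s'.v = s.v) (hm : ∀ B, isRec B = false → s'.m B = s.m B) :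
    ∀ e : E, noRec e = true → e.eval s' = e.eval s
  | .zero, _ => rfl
  | .var x, _ => by simp only [Expr.eval_var, hv]
  | .succ e, h => by
    simp only [noRec] at h
    rw [Expr.eval_succ, Expr.eval_succ, eval_noRec hv hm e h]
  | .pred e, h => by
    simp only [noRec] at h
    rw [Expr.eval_pred, Expr.eval_pred, eval_noRec hv hm e h]
  | .arr B e, h => by
    simp only [noRec, Bool.and_eq_true, Bool.not_eq_true'] at h
    rw [Expr.eval_arr, Expr.eval_arr, eval_noRec hv hm e h.2, hm B h.1]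

/-- creation of a state: `eX` etc. are the values of the arguments in the state after the
counter has been increased -/
theorem new_spec {N : ℕ} {s : S} {Q : S → Prop} (eX eY ep e1 e2 : E)
    (H : ∀ s', (∀ x, x ≠ .cnt → s'.v x = s.v x) → s'.v .cnt = s.v .cnt + 1 → s'.k = s.k →
      s'.io = s.io →
      (∀ B, B ≠ .SX → B ≠ .SY → B ≠ .par → B ≠ .p1 → B ≠ .p2 → s'.m B = s.m B) →
      (s'.m .SX = Function.update (s.m .SX) (s.v .cnt + 1)
        (eX.eval (s.setv .cnt (s.v .cnt + 1)))) →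
      (s'.m .SY = Function.update (s.m .SY) (s.v .cnt + 1)
        (eY.eval (s.setv .cnt (s.v .cnt + 1)))) →
      (s'.m .par = Function.update (s.m .par) (s.v .cnt + 1)
        (ep.eval (s.setv .cnt (s.v .cnt + 1)))) →
      (s'.m .p1 = Function.update (s.m .p1) (s.v .cnt + 1)
        (e1.eval (s.setv .cnt (s.v .cnt + 1)))) →
      (s'.m .p2 = Function.update (s.m .p2) (s.v .cnt + 1)
        (e2.eval (s.setv .cnt (s.v .cnt + 1)))) → Q s')
    (hn : (noRec eY && noRec ep && noRec e1 && noRec e2) = true) :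
    Run N (cNew eX eY ep e1 e2) s Q := by
  simp only [Bool.and_eq_true] at hn
  obtain ⟨⟨⟨hY, hp⟩, h1⟩, h2⟩ := hn
  unfold cNew
  rw [run_blk_cons, run_asg, run_blk_cons, run_sto, run_blk_cons, run_sto, run_blk_cons, run_sto,
    run_blk_cons, run_sto, run_blk_one, run_sto]
  set s₁ : S := s.setv .cnt (s.v .cnt + 1) with hs₁
  have e0 : (vr Var.cnt).succ.eval s = s.v .cnt + 1 := rfl
  rw [e0, ← hs₁]
  have ec : s₁.v .cnt = s.v .cnt + 1 := by simp [hs₁]
  have hrec : ∀ (t : S) (B : Arr) (i c : ℕ), isRec B = true → ∀ B', isRec B' = false →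
      (t.setm B i c).m B' = t.m B' := by
    intro t B i c hB B' hB'
    refine setm_m_ne t B B' i c ?_
    rintro rfl
    rw [hB] at hB'
    exact absurd hB' (by decide)
  -- evaluate the expressions in the intermediate states
  generalize hvX : eX.eval s₁ = vX
  generalize hvY : eY.eval s₁ = vY
  generalize hvp : ep.eval s₁ = vp
  generalize hv1 : e1.eval s₁ = v1
  generalize hv2 : e2.eval s₁ = v2
  have eci : ∀ t : S, t.v = s₁.v → (vr Var.cnt).eval t = s.v .cnt + 1 := by
    intro t ht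
    rw [Expr.eval_var, ht, ec]
  rw [eci s₁ rfl]
  set s₂ : S := s₁.setm .SX (s.v .cnt + 1) vX with hs₂
  have r2 : ∀ B', isRec B' = false → s₂.m B' = s₁.m B' := hrec _ _ _ _ rfl
  rw [eci s₂ rfl, eval_noRec (s := s₁) (s' := s₂) rfl r2 eY hY, hvY]
  set s₃ : S := s₂.setm .SY (s.v .cnt + 1) vY with hs₃
  have r3 : ∀ B', isRec B' = false → s₃.m B' = s₁.m B' :=
    fun B' hB' => (hrec s₂ .SY _ _ rfl B' hB').trans (r2 B' hB')
  rw [eci s₃ rfl, eval_noRec (s := s₁) (s' := s₃) rfl r3 ep hp, hvp]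
  set s₄ : S := s₃.setm .par (s.v .cnt + 1) vp with hs₄
  have r4 : ∀ B', isRec B' = false → s₄.m B' = s₁.m B' :=
    fun B' hB' => (hrec s₃ .par _ _ rfl B' hB').trans (r3 B' hB')
  rw [eci s₄ rfl, eval_noRec (s := s₁) (s' := s₄) rfl r4 e1 h1, hv1]
  set s₅ : S := s₄.setm .p1 (s.v .cnt + 1) v1 with hs₅
  have r5 : ∀ B', isRec B' = false → s₅.m B' = s₁.m B' :=
    fun B' hB' => (hrec s₄ .p1 _ _ rfl B' hB').trans (r4 B' hB')
  rw [eci s₅ rfl, eval_noRec (s := s₁) (s' := s₅) rfl r5 e2 h2, hv2]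
  apply H
  · intro x hx
    simp [hs₅, hs₄, hs₃, hs₂, hs₁, hx]
  · simp [hs₅, hs₄, hs₃, hs₂, hs₁]
  · simp [hs₅, hs₄, hs₃, hs₂, hs₁]
  · simp [hs₅, hs₄, hs₃, hs₂, hs₁]
  · intro B b1 b2 b3 b4 b5
    simp [hs₅, hs₄, hs₃, hs₂, hs₁, b1, b2, b3, b4, b5]
  · rw [hvX]; simp [hs₅, hs₄, hs₃, hs₂, hs₁]
  · rw [hvY]; simp [hs₅, hs₄, hs₃, hs₂, hs₁]
  · rw [hvp]; simp [hs₅, hs₄, hs₃, hs₂, hs₁]
  · rw [hv1]; simp [hs₅, hs₄, hs₃, hs₂, hs₁]
  · rw [hv2]; simp [hs₅, hs₄, hs₃, hs₂, hs₁]

end sound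

end Pool.Agent.PD
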